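import Mathlib

/-!
# MP_ae5b4e_an, project REG: definitions for the Fourier part

See `/team-store/POR_REG.md`, sections 4-9.
-/

noncomputable section

namespace Pool.Agent.MP_ae5b4e_an_RG

open Real Set Filter Topology MeasureTheory intervalIntegral

/-- the exponentials of period one -/
def e (k : ℤ) (x : ℝ) : ℂ := Complex.exp (2 * π * Complex.I * k * x)

/-- Fourier coefficients of functions of period one -/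
def fc (f : ℝ → ℂ) (k : ℤ) : ℂ := ∫ x in (0:ℝ)..1, f x * e (-k) x

/-- Fourier coefficients of real functions -/
def rc (R : ℝ → ℝ) (k : ℤ) : ℂ := fc (fun x => (R x : ℂ)) k

/-- the saturated exponential weight -/
def w (ρ : ℝ) (N : ℕ) (k : ℤ) : ℝ := Real.exp (ρ * min |(k:ℝ)| (N:ℝ))

/-- the weights `V_b` -/
def V (ρ : ℝ) (N b : ℕ) (k : ℤ) : ℝ := (1 + |(k:ℝ)|) ^ b * w ρ N k

/-- `g = ∑ a_k e_k` with `|a_k| ≤ M / V_2(k)` -/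
def Bd (ρ : ℝ) (N : ℕ) (M : ℝ) (g : ℝ → ℂ) : Prop :=
  ∃ a : ℤ → ℂ, (∀ k, ‖a k‖ ≤ M / V ρ N 2 k) ∧ ∀ x, HasSum (fun k => a k * e k x) (g x)

/-- `R = ∑ a_k e_k` with `|a_k| ≤ A / V_3(k)` (hypothesis `(*)` of the text) -/
def Dec (ρ : ℝ) (N : ℕ) (A : ℝ) (R : ℝ → ℝ) : Prop :=
  ∃ a : ℤ → ℂ, (∀ k, ‖a k‖ ≤ A / V ρ N 3 k) ∧ ∀ x, HasSum (fun k => a k * e k x) ((R x : ℝ) : ℂ)

/-- The norm of the sum space: `N_η(f) ≤ M`. -/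
def NB (ρ : ℝ) (N : ℕ) (η M : ℝ) (f : ℝ → ℂ) : Prop :=
  Continuous f ∧ Function.Periodic f 1 ∧
    ∀ δ > 0, ∃ (g : ℝ → ℂ) (m ε : ℝ), 0 ≤ m ∧ 0 ≤ ε ∧ Bd ρ N m g ∧ (∀ x, ‖f x - g x‖ ≤ ε) ∧
      12 * m + ε / η ≤ M + δ

/-- the rotation numbers used -/
def PQ (p q : ℕ) : Prop := (p = 1 ∨ p = 2) ∧ 2 ≤ q ∧ Nat.Coprime p q

/-- the smallest `η` -/
def etam (ρ : ℝ) (N p q : ℕ) : ℝ :=
  ((p:ℝ) / q) ^ 2 * Real.exp (-(ρ * min ((q:ℝ) ^ 2) (N:ℝ)))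

/-- `y` solves the Volterra equation (V) on the segment from `a` to `a + d` -/
def VSol (R1 R2 : ℝ → ℝ) (a d : ℝ) (y : ℝ → ℝ) : Prop :=
  ContinuousOn y (Icc 0 1) ∧ ∀ σ ∈ Icc (0:ℝ) 1,
    y σ = 2 * σ - d ^ 2 * ∫ s in (0:ℝ)..σ, ∫ s' in (0:ℝ)..s,
      (R1 (a + s * d) + R2 (a + s' * d)) * y s'

/-- `ρ = RR(a,d)` -/
def Rel (R1 R2 : ℝ → ℝ) (a d ρ : ℝ) : Prop :=
  ∃ y : ℝ → ℝ, VSol R1 R2 a d y ∧ (∫ s in (0:ℝ)..1, y s) ≠ 0 ∧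
    ρ = (y 1 - 2 * ∫ s in (0:ℝ)..1, y s) / ∫ s in (0:ℝ)..1, y s

/-- The curve of `p/q`-periodic points, `L = id + u`. -/
structure Leaf (R1 R2 : ℝ → ℝ) (p q : ℕ) (C : ℝ) (u : ℝ → ℝ) : Prop where
  cont : Continuous u
  per : Function.Periodic u 1
  orb : ∀ x, ∑ j ∈ Finset.range q, u (x + j * ((p:ℝ) / q)) = 0
  small : ∀ x, |u x| ≤ C * ((p:ℝ) / q) ^ 2
  small' : ∀ x, |u (x + (p:ℝ) / q) - u x| ≤ C * ((p:ℝ) / q) ^ 3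
  law : ∀ x, ∃ ρm ρp : ℝ,
    Rel R1 R2 (x - (p:ℝ) / q + u (x - (p:ℝ) / q)) ((p:ℝ) / q + u x - u (x - (p:ℝ) / q)) ρm ∧
    Rel R1 R2 (x + (p:ℝ) / q + u (x + (p:ℝ) / q)) (-((p:ℝ) / q + u (x + (p:ℝ) / q) - u x)) ρp ∧
    u (x + (p:ℝ) / q) - 2 * u x + u (x - (p:ℝ) / q) =
      (((p:ℝ) / q + u x - u (x - (p:ℝ) / q)) * ρp -
        ((p:ℝ) / q + u (x + (p:ℝ) / q) - u x) * ρm) / 2

/-- kernels of the linear part -/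
def K1 (t : ℝ) : ℝ := -((1 - 2 * t) * (1 - t) ^ 2)
def K2 (t : ℝ) : ℝ := -(2 * t * (1 - t) ^ 2)

/-- the linear part of the right side of the law -/
def RL (R1 R2 : ℝ → ℝ) (ω x : ℝ) : ℝ :=
  ω ^ 3 / 2 * ∫ t in (0:ℝ)..1, (K1 t * (R1 (x + t * ω) - R1 (x - t * ω)) +
    K2 t * (R2 (x + t * ω) - R2 (x - t * ω)))

end Pool.Agent.MP_ae5b4e_an_RG
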