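import Mathlib
import Pool.Agent.Lib.MP_ae5b4e_an_RG.Defs

/-!
# MP_ae5b4e_an, project REG: weights (section 5)

Text: `/team-store/POR_REG.md`.
-/

noncomputable section

namespace Pool.Agent.MP_ae5b4e_an_RG

open Real Set Filter Topology MeasureTheory intervalIntegral

variable {ρ : ℝ} {N b b' : ℕ}

lemma w_pos (ρ : ℝ) (N : ℕ) (k : ℤ) : 0 < w ρ N k := Real.exp_pos _

private lemma min_nn (N : ℕ) (k : ℤ) : 0 ≤ min |(k:ℝ)| (N:ℝ) :=
  le_min (abs_nonneg _) (Nat.cast_nonneg _)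

lemma one_le_w (hρ : 0 ≤ ρ) (k : ℤ) : 1 ≤ w ρ N k :=
  Real.one_le_exp (mul_nonneg hρ (min_nn N k))

lemma w_add (hρ : 0 ≤ ρ) (k l : ℤ) : w ρ N (k + l) ≤ w ρ N k * w ρ N l := by
  unfold w
  rw [← Real.exp_add, ← mul_add]
  refine Real.exp_le_exp.2 (mul_le_mul_of_nonneg_left ?_ hρ)
  have h1 : |((k + l : ℤ) : ℝ)| ≤ |(k:ℝ)| + |(l:ℝ)| := by
    push_cast
    exact abs_add_le _ _
  have h2 := min_nn N k
  have h3 := min_nn N l
  rcases le_total |(k:ℝ)| (N:ℝ) with e1 | e1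
  · rcases le_total |(l:ℝ)| (N:ℝ) with e2 | e2
    · rw [min_eq_left e1, min_eq_left e2]
      exact (min_le_left _ _).trans h1
    · rw [min_eq_right e2]
      exact (min_le_right _ _).trans (by linarith)
  · rw [min_eq_right e1]
    exact (min_le_right _ _).trans (by linarith)

lemma w_neg (k : ℤ) : w ρ N (-k) = w ρ N k := by
  unfold w
  push_cast
  rw [abs_neg]

lemma V_pos (ρ : ℝ) (N b : ℕ) (k : ℤ) : 0 < V ρ N b k := by
  unfold V
  have := w_pos ρ N k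
  positivity

private lemma one_le_abs (k : ℤ) : (1:ℝ) ≤ 1 + |(k:ℝ)| := by
  linarith [abs_nonneg (k:ℝ)]

lemma one_le_V (hρ : 0 ≤ ρ) (k : ℤ) : 1 ≤ V ρ N b k := by
  unfold V
  exact one_le_mul_of_one_le_of_one_le (one_le_pow₀ (one_le_abs k)) (one_le_w hρ k)

lemma V_zero : V ρ N b 0 = 1 := by
  unfold V w
  have h : min |((0:ℤ):ℝ)| (N:ℝ) = 0 := by
    rw [Int.cast_zero, abs_zero]
    exact min_eq_left (Nat.cast_nonneg _)
  rw [h]
  simp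

lemma V_neg (k : ℤ) : V ρ N b (-k) = V ρ N b k := by
  unfold V
  rw [w_neg]
  push_cast
  rw [abs_neg]

lemma V_succ (k : ℤ) : V ρ N (b + 1) k = (1 + |(k:ℝ)|) * V ρ N b k := by
  unfold V
  ring

lemma V_add (hρ : 0 ≤ ρ) (k l : ℤ) : V ρ N b (k + l) ≤ V ρ N b k * V ρ N b l := by
  unfold V
  have h1 : 1 + |((k + l : ℤ) : ℝ)| ≤ (1 + |(k:ℝ)|) * (1 + |(l:ℝ)|) := by
    have : |((k + l : ℤ) : ℝ)| ≤ |(k:ℝ)| + |(l:ℝ)| := by
      push_cast
      exact abs_add_le _ _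
    nlinarith [abs_nonneg (k:ℝ), abs_nonneg (l:ℝ), mul_nonneg (abs_nonneg (k:ℝ)) (abs_nonneg (l:ℝ))]
  have h2 : (1 + |((k + l : ℤ) : ℝ)|) ^ b ≤ (1 + |(k:ℝ)|) ^ b * (1 + |(l:ℝ)|) ^ b := by
    rw [← mul_pow]
    exact pow_le_pow_left₀ (by positivity) h1 b
  have h3 := w_add (N := N) hρ k l
  calc (1 + |((k + l : ℤ) : ℝ)|) ^ b * w ρ N (k + l)
      ≤ ((1 + |(k:ℝ)|) ^ b * (1 + |(l:ℝ)|) ^ b) * (w ρ N k * w ρ N l) :=
        mul_le_mul h2 h3 (w_pos _ _ _).le (by positivity)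
    _ = _ := by ring

lemma V_mono (hb : b ≤ b') (k : ℤ) : V ρ N b k ≤ V ρ N b' k := by
  unfold V
  exact mul_le_mul_of_nonneg_right (pow_le_pow_right₀ (one_le_abs k) hb) (w_pos _ _ _).le

private lemma V_ge (hρ : 0 ≤ ρ) (k : ℤ) : (1 + |(k:ℝ)|) ^ b ≤ V ρ N b k := by
  unfold V
  exact le_mul_of_one_le_right (by positivity) (one_le_w hρ k)

private lemma hasSum_S : HasSum (fun k : ℤ => 1 / (1 + |(k:ℝ)|) ^ 2) (π ^ 2 / 6 + (π ^ 2 / 6 - 1)) := by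
  have h0 := hasSum_zeta_two
  refine HasSum.of_nat_of_neg_add_one ?_ ?_
  · have h1 := (hasSum_nat_add_iff' 1).2 h0
    simp only [Finset.sum_range_one] at h1
    have e : ∀ n : ℕ, 1 / (1 + |(((n : ℕ) : ℤ) : ℝ)|) ^ 2 = 1 / (((n + 1 : ℕ) : ℝ)) ^ 2 := by
      intro n
      have : |(((n : ℕ) : ℤ) : ℝ)| = (n:ℝ) := by
        push_cast
        exact abs_of_nonneg (Nat.cast_nonneg _)
      rw [this]
      push_cast
      rw [add_comm]
    simp only [e]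
    simpa using h1
  · have h1 := (hasSum_nat_add_iff' 2).2 h0
    have e : ∀ n : ℕ, 1 / (1 + |((-((n : ℤ) + 1) : ℤ) : ℝ)|) ^ 2 = 1 / (((n + 2 : ℕ) : ℝ)) ^ 2 := by
      intro n
      have : |((-((n : ℤ) + 1) : ℤ) : ℝ)| = (n:ℝ) + 1 := by
        push_cast
        rw [abs_of_nonpos (by have : (0:ℝ) ≤ n := Nat.cast_nonneg _; linarith)]
        ring
      rw [this]
      push_cast
      congr 2
      ring
    simp only [e]
    simpa [Finset.sum_range_succ] using h1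

private lemma S_le : ∑' k : ℤ, 1 / (1 + |(k:ℝ)|) ^ 2 ≤ 3 := by
  rw [hasSum_S.tsum_eq]
  have h1 := Real.pi_lt_d2
  have h2 := Real.pi_pos
  nlinarith

private lemma inv_V_le (hρ : 0 ≤ ρ) (k : ℤ) : 1 / V ρ N b k ≤ 1 / (1 + |(k:ℝ)|) ^ b :=
  one_div_le_one_div_of_le (by positivity) (V_ge hρ k)

lemma summable_V2 (hρ : 0 ≤ ρ) : Summable fun k : ℤ => 1 / V ρ N 2 k :=
  Summable.of_nonneg_of_le (fun k => by have := V_pos ρ N 2 k; positivity)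
    (fun k => inv_V_le hρ k) hasSum_S.summable

lemma tsum_V2 (hρ : 0 ≤ ρ) : ∑' k : ℤ, 1 / V ρ N 2 k ≤ 3 :=
  ((summable_V2 hρ).tsum_le_tsum (fun k => inv_V_le hρ k) hasSum_S.summable).trans S_le

lemma summable_conv (hρ : 0 ≤ ρ) (n : ℤ) :
    Summable fun k : ℤ => 1 / V ρ N 2 k * (1 / V ρ N 2 (n - k)) := by
  refine Summable.of_nonneg_of_le (fun k => ?_) (fun k => ?_) (summable_V2 (N := N) hρ)
  · have := V_pos ρ N 2 k
    have := V_pos ρ N 2 (n - k)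
    positivity
  · have h1 := V_pos ρ N 2 k
    have h2 : 1 / V ρ N 2 (n - k) ≤ 1 := by
      rw [div_le_one (V_pos _ _ _ _)]
      exact one_le_V hρ _
    calc 1 / V ρ N 2 k * (1 / V ρ N 2 (n - k)) ≤ 1 / V ρ N 2 k * 1 :=
          mul_le_mul_of_nonneg_left h2 (by positivity)
      _ = _ := mul_one _

lemma conv_le (hρ : 0 ≤ ρ) (n : ℤ) :
    ∑' k : ℤ, 1 / V ρ N 2 k * (1 / V ρ N 2 (n - k)) ≤ 12 / V ρ N 2 n := by
  have hn := V_pos ρ N 2 n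
  have hS := hasSum_S.summable
  have hS' : Summable fun k : ℤ => 1 / (1 + |((n - k : ℤ) : ℝ)|) ^ 2 :=
    (Equiv.subLeft n).summable_iff.2 hS
  have hT' : ∑' k : ℤ, 1 / (1 + |((n - k : ℤ) : ℝ)|) ^ 2 = ∑' k : ℤ, 1 / (1 + |(k:ℝ)|) ^ 2 :=
    (Equiv.subLeft n).tsum_eq (fun k : ℤ => 1 / (1 + |(k:ℝ)|) ^ 2)
  have hpt : ∀ k : ℤ, 1 / V ρ N 2 k * (1 / V ρ N 2 (n - k)) ≤
      (1 / V ρ N 2 n) * (2 * (1 / (1 + |(k:ℝ)|) ^ 2) + 2 * (1 / (1 + |((n - k : ℤ) : ℝ)|) ^ 2)) := by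
    intro k
    have hk := V_pos ρ N 2 k
    have hk' := V_pos ρ N 2 (n - k)
    obtain ⟨x, hx⟩ : ∃ x, x = 1 + |(k:ℝ)| := ⟨_, rfl⟩
    obtain ⟨y, hy⟩ : ∃ y, y = 1 + |((n - k : ℤ) : ℝ)| := ⟨_, rfl⟩
    obtain ⟨z, hz⟩ : ∃ z, z = 1 + |(n:ℝ)| := ⟨_, rfl⟩
    have px : 0 < x := by rw [hx]; positivity
    have py : 0 < y := by rw [hy]; positivity
    have pz : 0 < z := by rw [hz]; positivity
    have h1 : z ≤ x + y := by
      rw [hx, hy, hz]
      have : |(n:ℝ)| ≤ |(k:ℝ)| + |((n - k : ℤ) : ℝ)| := by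
        have e : (n:ℝ) = (k:ℝ) + ((n - k : ℤ) : ℝ) := by push_cast; ring
        conv_lhs => rw [e]
        exact abs_add_le _ _
      linarith
    have h2 : w ρ N n ≤ w ρ N k * w ρ N (n - k) := by
      have := w_add (N := N) hρ k (n - k)
      rwa [add_sub_cancel] at this
    have pw := w_pos ρ N k
    have pw' := w_pos ρ N (n - k)
    have pwn := w_pos ρ N n
    have eV : V ρ N 2 k = x ^ 2 * w ρ N k := by rw [hx]; rfl
    have eV' : V ρ N 2 (n - k) = y ^ 2 * w ρ N (n - k) := by rw [hy]; rfl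
    have eVn : V ρ N 2 n = z ^ 2 * w ρ N n := by rw [hz]; rfl
    rw [← hx, ← hy]
    rw [div_mul_div_comm, one_mul, div_le_iff₀ (mul_pos hk hk'), eV, eV', eVn]
    have h3 : z ^ 2 * w ρ N n ≤ (2 * x ^ 2 + 2 * y ^ 2) * (w ρ N k * w ρ N (n - k)) := by
      apply mul_le_mul _ h2 pwn.le (by positivity)
      nlinarith [sq_nonneg (x - y)]
    have h4 : 1 / (z ^ 2 * w ρ N n) * (2 * (1 / x ^ 2) + 2 * (1 / y ^ 2)) *
        (x ^ 2 * w ρ N k * (y ^ 2 * w ρ N (n - k))) =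
        ((2 * x ^ 2 + 2 * y ^ 2) * (w ρ N k * w ρ N (n - k))) / (z ^ 2 * w ρ N n) := by
      field_simp
      ring
    rw [h4, le_div_iff₀ (by positivity), one_mul]
    exact h3
  have hsum : Summable fun k : ℤ => (1 / V ρ N 2 n) *
      (2 * (1 / (1 + |(k:ℝ)|) ^ 2) + 2 * (1 / (1 + |((n - k : ℤ) : ℝ)|) ^ 2)) :=
    ((hS.mul_left 2).add (hS'.mul_left 2)).mul_left _
  refine ((summable_conv hρ n).tsum_le_tsum hpt hsum).trans ?_
  rw [tsum_mul_left, (hS.mul_left 2).tsum_add (hS'.mul_left 2), tsum_mul_left, tsum_mul_left, hT']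
  have h5 := S_le
  calc 1 / V ρ N 2 n * (2 * ∑' k : ℤ, 1 / (1 + |(k:ℝ)|) ^ 2 +
        2 * ∑' k : ℤ, 1 / (1 + |(k:ℝ)|) ^ 2) ≤ 1 / V ρ N 2 n * 12 := by
        apply mul_le_mul_of_nonneg_left _ (by positivity)
        linarith
    _ = 12 / V ρ N 2 n := by ring

private lemma nat_tail (m : ℕ) (hm : 1 ≤ m) (n : ℕ) :
    ∑ i ∈ Finset.range n, 2 * (if m ≤ i then 1 / (1 + (i:ℝ)) ^ 3 else 0) ≤
      1 / (m:ℝ) ^ 2 - (if m ≤ n then 1 / (n:ℝ) ^ 2 else 1 / (m:ℝ) ^ 2) := by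
  have hm' : (0:ℝ) < m := by exact_mod_cast hm
  induction n with
  | zero =>
    rw [Finset.sum_range_zero, if_neg (by omega)]
    linarith
  | succ n ih =>
    rw [Finset.sum_range_succ]
    by_cases h : m ≤ n
    · rw [if_pos h] at ih
      rw [if_pos h, if_pos (by omega)]
      have hn : (0:ℝ) < n := lt_of_lt_of_le hm' (by exact_mod_cast h)
      have key : 2 * (1 / (1 + (n:ℝ)) ^ 3) ≤ 1 / (n:ℝ) ^ 2 - 1 / ((n + 1 : ℕ) : ℝ) ^ 2 := by
        push_cast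
        rw [div_sub_div _ _ (by positivity) (by positivity), mul_one_div,
          div_le_div_iff₀ (by positivity) (by positivity)]
        nlinarith [pow_pos hn 2, pow_pos hn 3, pow_pos hn 4, pow_pos hn 5]
      linarith
    · rw [if_neg h] at ih
      rw [if_neg h]
      by_cases h2 : m ≤ n + 1
      · have : m = n + 1 := by omega
        rw [if_pos h2, ← this]
        linarith
      · rw [if_neg h2]
        linarith

private lemma tail_S (q : ℕ) (hq : 1 ≤ q) :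
    ∃ s : ℝ, HasSum (fun k : ℤ => if (q:ℝ) ^ 2 < |(k:ℝ)| then 1 / (1 + |(k:ℝ)|) ^ 3 else 0) s ∧
      s ≤ 1 / (q:ℝ) ^ 4 := by
  obtain ⟨m, hm⟩ : ∃ m : ℕ, m = q ^ 2 + 1 := ⟨_, rfl⟩
  have hm1 : 1 ≤ m := by omega
  have hq' : (0:ℝ) < q := by exact_mod_cast hq
  obtain ⟨t, ht⟩ : ∃ t : ℕ → ℝ, t = fun i => 2 * (if m ≤ i then 1 / (1 + (i:ℝ)) ^ 3 else 0) :=
    ⟨_, rfl⟩
  have ht0 : ∀ i, 0 ≤ t i := by
    intro i
    rw [ht]
    simp only
    split_ifs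
    · positivity
    · simp
  have hb : ∀ n, ∑ i ∈ Finset.range n, t i ≤ 1 / (m:ℝ) ^ 2 := by
    intro n
    rw [ht]
    refine (nat_tail m hm1 n).trans ?_
    split_ifs
    · have : (0:ℝ) ≤ 1 / (n:ℝ) ^ 2 := by positivity
      linarith
    · have : (0:ℝ) ≤ 1 / (m:ℝ) ^ 2 := by positivity
      linarith
  have hsum : Summable t := summable_of_sum_range_le ht0 hb
  have hle : ∑' i, t i ≤ 1 / (m:ℝ) ^ 2 := Real.tsum_le_of_sum_range_le ht0 hb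
  have hiff : ∀ n : ℕ, ((q:ℝ) ^ 2 < (n:ℝ)) ↔ m ≤ n := by
    intro n
    rw [hm]
    constructor
    · intro h
      have : q ^ 2 < n := by exact_mod_cast h
      omega
    · intro h
      have : q ^ 2 < n := by omega
      exact_mod_cast this
  have e1 : ∀ n : ℕ, (if (q:ℝ) ^ 2 < |(((n : ℕ) : ℤ) : ℝ)| then
      1 / (1 + |(((n : ℕ) : ℤ) : ℝ)|) ^ 3 else 0) = t n / 2 := by
    intro n
    have : |(((n : ℕ) : ℤ) : ℝ)| = (n:ℝ) := by
      push_cast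
      exact abs_of_nonneg (Nat.cast_nonneg _)
    rw [this, ht]
    simp only [hiff]
    split_ifs <;> ring
  have e2 : ∀ n : ℕ, (if (q:ℝ) ^ 2 < |((-((n : ℤ) + 1) : ℤ) : ℝ)| then
      1 / (1 + |((-((n : ℤ) + 1) : ℤ) : ℝ)|) ^ 3 else 0) = t (n + 1) / 2 := by
    intro n
    have : |((-((n : ℤ) + 1) : ℤ) : ℝ)| = (((n + 1 : ℕ)) : ℝ) := by
      push_cast
      rw [abs_of_nonpos (by have : (0:ℝ) ≤ n := Nat.cast_nonneg _; linarith)]
      ring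
    rw [this, ht]
    simp only [hiff]
    split_ifs <;> ring
  have h1 : HasSum (fun n : ℕ => t n / 2) ((∑' i, t i) / 2) := hsum.hasSum.div_const 2
  have h2 : HasSum (fun n : ℕ => t (n + 1) / 2) ((∑' i, t i) / 2) := by
    have h3 := (hasSum_nat_add_iff' 1).2 h1
    have h4 : t 0 = 0 := by
      rw [ht]
      simp only
      rw [if_neg (by omega), mul_zero]
    simpa [h4] using h3
  refine ⟨(∑' i, t i) / 2 + (∑' i, t i) / 2, HasSum.of_nat_of_neg_add_one ?_ ?_, ?_⟩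
  · simp only [e1]
    exact h1
  · simp only [e2]
    exact h2
  · rw [add_halves]
    refine hle.trans ?_
    apply one_div_le_one_div_of_le (by positivity)
    rw [hm]
    push_cast
    nlinarith [pow_pos hq' 2, pow_pos hq' 4]

/-- the tail of the series of `1 / V_3` beyond `q ^ 2` -/
lemma tail_V3 (hρ : 0 ≤ ρ) {q : ℕ} (hq : 1 ≤ q) :
    Summable (fun k : ℤ => if (q:ℝ) ^ 2 < |(k:ℝ)| then 1 / V ρ N 3 k else 0) ∧
    ∑' k : ℤ, (if (q:ℝ) ^ 2 < |(k:ℝ)| then 1 / V ρ N 3 k else 0) ≤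
      1 / (q:ℝ) ^ 4 * Real.exp (-(ρ * min ((q:ℝ) ^ 2) (N:ℝ))) := by
  obtain ⟨s, hs, hs2⟩ := tail_S q hq
  obtain ⟨E, hE⟩ : ∃ E, E = Real.exp (-(ρ * min ((q:ℝ) ^ 2) (N:ℝ))) := ⟨_, rfl⟩
  have pE : 0 < E := by rw [hE]; exact Real.exp_pos _
  have hpt : ∀ k : ℤ, (if (q:ℝ) ^ 2 < |(k:ℝ)| then 1 / V ρ N 3 k else 0) ≤
      E * (if (q:ℝ) ^ 2 < |(k:ℝ)| then 1 / (1 + |(k:ℝ)|) ^ 3 else 0) := by
    intro k
    by_cases h : (q:ℝ) ^ 2 < |(k:ℝ)|
    · rw [if_pos h, if_pos h]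
      have hw : E * w ρ N k ≥ 1 := by
        rw [hE]
        unfold w
        rw [← Real.exp_add]
        apply Real.one_le_exp
        have : min ((q:ℝ) ^ 2) (N:ℝ) ≤ min |(k:ℝ)| (N:ℝ) := min_le_min_right _ h.le
        nlinarith [mul_le_mul_of_nonneg_left this hρ]
      have pw := w_pos ρ N k
      unfold V
      rw [div_le_iff₀ (by positivity)]
      have e : E * (1 / (1 + |(k:ℝ)|) ^ 3) * ((1 + |(k:ℝ)|) ^ 3 * w ρ N k) = E * w ρ N k := by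
        field_simp
      rw [e]
      exact hw
    · rw [if_neg h, if_neg h, mul_zero]
  have hnn : ∀ k : ℤ, 0 ≤ (if (q:ℝ) ^ 2 < |(k:ℝ)| then 1 / V ρ N 3 k else 0) := by
    intro k
    split_ifs
    · have := V_pos ρ N 3 k
      positivity
    · exact le_rfl
  have hsum := Summable.of_nonneg_of_le hnn hpt (hs.summable.mul_left E)
  refine ⟨hsum, (hsum.tsum_le_tsum hpt (hs.summable.mul_left E)).trans ?_⟩
  rw [tsum_mul_left, hs.tsum_eq, ← hE, mul_comm]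
  exact mul_le_mul_of_nonneg_right hs2 pE.le

end Pool.Agent.MP_ae5b4e_an_RG
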