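import Mathlib
import Pool.Agent.Lib.MP_ae5b4e_an_RG.Wt

/-!
# MP_ae5b4e_an, project REG: the class Bd (section 5)

Text: `/team-store/POR_REG.md`.
-/

noncomputable section

namespace Pool.Agent.MP_ae5b4e_an_RG

open Real Set Filter Topology MeasureTheory intervalIntegral

variable {ρ : ℝ} {N : ℕ} {M M' : ℝ} {g g' : ℝ → ℂ}

private lemma e_eq (k : ℤ) (x : ℝ) :
    e k x = Complex.exp (((2 * π * k * x : ℝ) : ℂ) * Complex.I) := by
  unfold e
  congr 1
  push_cast
  ring

lemma norm_e (k : ℤ) (x : ℝ) : ‖e k x‖ = 1 := by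
  rw [e_eq]
  exact Complex.norm_exp_ofReal_mul_I _

lemma e_zero (x : ℝ) : e 0 x = 1 := by
  unfold e
  simp

lemma e_add (k l : ℤ) (x : ℝ) : e (k + l) x = e k x * e l x := by
  unfold e
  rw [← Complex.exp_add]
  congr 1
  push_cast
  ring

lemma e_shift (k : ℤ) (x y : ℝ) : e k (x + y) = e k x * e k y := by
  unfold e
  rw [← Complex.exp_add]
  congr 1
  push_cast
  ring

lemma e_int (k n : ℤ) : e k n = 1 := by
  unfold e
  have h := Complex.exp_int_mul_two_pi_mul_I (k * n)
  rw [← h]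
  congr 1
  push_cast
  ring

lemma continuous_e (k : ℤ) : Continuous (e k) := by
  unfold e
  fun_prop

lemma periodic_e (k : ℤ) : Function.Periodic (e k) 1 := by
  intro x
  have h := e_int k 1
  rw [Int.cast_one] at h
  rw [e_shift, h, mul_one]

lemma integral_e (k : ℤ) : ∫ x in (0:ℝ)..1, e k x = if k = 0 then 1 else 0 := by
  by_cases hk : k = 0
  · rw [if_pos hk, hk]
    simp only [e_zero]
    simp
  · rw [if_neg hk]
    have hc : (2 * π * Complex.I * k : ℂ) ≠ 0 := by
      have h1 : (k : ℂ) ≠ 0 := by exact_mod_cast hk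
      have h2 : (2 * π * Complex.I : ℂ) ≠ 0 := Complex.two_pi_I_ne_zero
      exact mul_ne_zero h2 h1
    have h := integral_exp_mul_complex (a := (0 : ℝ)) (b := (1 : ℝ)) hc
    have h1 := e_int k 1
    have h0 := e_int k 0
    unfold e at h1 h0
    simp only [Int.cast_one, Int.cast_zero] at h1 h0
    rw [h1, h0, sub_self, zero_div] at h
    exact h

/-- coefficients of absolutely convergent series -/
lemma fc_of_hasSum {a : ℤ → ℂ} (ha : Summable fun k => ‖a k‖)
    (h : ∀ x, HasSum (fun k => a k * e k x) (g x)) (k : ℤ) : fc g k = a k := by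
  have h1 : HasSum (fun l : ℤ => ∫ x in (0:ℝ)..1, a l * e l x * e (-k) x)
      (∫ x in (0:ℝ)..1, g x * e (-k) x) := by
    refine intervalIntegral.hasSum_integral_of_dominated_convergence (fun l _ => ‖a l‖) ?_ ?_ ?_ ?_ ?_
    · intro l
      exact ((continuous_const.mul (continuous_e l)).mul (continuous_e (-k))).aestronglyMeasurable
    · intro l
      refine Eventually.of_forall fun t _ => ?_
      rw [norm_mul, norm_mul, norm_e, norm_e, mul_one, mul_one]
    · exact Eventually.of_forall fun t _ => ha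
    · exact intervalIntegrable_const
    · exact Eventually.of_forall fun t _ => (h t).mul_right _
  have h2 : (fun l : ℤ => ∫ x in (0:ℝ)..1, a l * e l x * e (-k) x) =
      fun l => if l = k then a k else 0 := by
    funext l
    have h3 : ∀ x, a l * e l x * e (-k) x = a l * e (l + -k) x := fun x => by
      rw [e_add]
      ring
    simp only [h3]
    rw [intervalIntegral.integral_const_mul, integral_e]
    by_cases hl : l = k
    · rw [if_pos (by omega), if_pos hl, mul_one, hl]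
    · rw [if_neg (by omega), if_neg hl, mul_zero]
  rw [h2] at h1
  have h4 : HasSum (fun l : ℤ => if l = k then a k else 0) (a k) := hasSum_ite_eq k (a k)
  exact h1.unique h4

namespace Bd

lemma summable (hρ : 0 ≤ ρ) (hM : 0 ≤ M) {a : ℤ → ℂ} (ha : ∀ k, ‖a k‖ ≤ M / V ρ N 2 k) :
    Summable fun k => ‖a k‖ := by
  refine Summable.of_nonneg_of_le (fun k => norm_nonneg _) (fun k => ?_)
    ((summable_V2 (N := N) hρ).mul_left M)
  rw [mul_one_div]
  exact ha k

lemma nonneg (h : Bd ρ N M g) : 0 ≤ M := by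
  obtain ⟨a, ha, -⟩ := h
  have h1 := (norm_nonneg (a 0)).trans (ha 0)
  by_contra hM
  rw [not_le] at hM
  have := div_neg_of_neg_of_pos hM (V_pos ρ N 2 0)
  linarith

lemma continuous (hρ : 0 ≤ ρ) (h : Bd ρ N M g) : Continuous g := by
  have hM := h.nonneg
  obtain ⟨a, ha, hs⟩ := h
  have hg : g = fun x => ∑' k, a k * e k x := by
    funext x
    exact (hs x).tsum_eq.symm
  rw [hg]
  refine continuous_tsum (fun k => continuous_const.mul (continuous_e k))
    (summable hρ hM ha) fun k x => ?_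
  rw [norm_mul, norm_e, mul_one]

lemma periodic (h : Bd ρ N M g) : Function.Periodic g 1 := by
  obtain ⟨a, -, hs⟩ := h
  intro x
  have h1 := hs (x + 1)
  have h2 : (fun k => a k * e k (x + 1)) = fun k => a k * e k x := by
    funext k
    rw [periodic_e k x]
  rw [h2] at h1
  exact h1.unique (hs x)

lemma sup (hρ : 0 ≤ ρ) (h : Bd ρ N M g) (x : ℝ) : ‖g x‖ ≤ 3 * M := by
  have hM := h.nonneg
  obtain ⟨a, ha, hs⟩ := h
  have h1 : HasSum (fun k : ℤ => M * (1 / V ρ N 2 k)) (M * ∑' k : ℤ, 1 / V ρ N 2 k) :=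
    (summable_V2 hρ).hasSum.mul_left M
  have h2 := (hs x).norm_le_of_bounded h1 fun k => by
    rw [norm_mul, norm_e, mul_one, mul_one_div]
    exact ha k
  refine h2.trans ?_
  have h3 := mul_le_mul_of_nonneg_left (tsum_V2 (N := N) hρ) hM
  linarith

lemma mono (h : Bd ρ N M g) (hM : M ≤ M') : Bd ρ N M' g := by
  obtain ⟨a, ha, hs⟩ := h
  exact ⟨a, fun k => (ha k).trans (div_le_div_of_nonneg_right hM (V_pos ρ N 2 k).le), hs⟩

lemma add (h : Bd ρ N M g) (h' : Bd ρ N M' g') : Bd ρ N (M + M') (fun x => g x + g' x) := by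
  obtain ⟨a, ha, hs⟩ := h
  obtain ⟨a', ha', hs'⟩ := h'
  refine ⟨fun k => a k + a' k, fun k => ?_, fun x => ?_⟩
  · rw [add_div]
    exact (norm_add_le _ _).trans (add_le_add (ha k) (ha' k))
  · simp only [add_mul]
    exact (hs x).add (hs' x)

lemma const_mul (h : Bd ρ N M g) (c : ℂ) : Bd ρ N (‖c‖ * M) (fun x => c * g x) := by
  obtain ⟨a, ha, hs⟩ := h
  refine ⟨fun k => c * a k, fun k => ?_, fun x => ?_⟩
  · rw [norm_mul, mul_div_assoc]
    exact mul_le_mul_of_nonneg_left (ha k) (norm_nonneg _)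
  · simp only [mul_assoc]
    exact (hs x).mul_left c

lemma shift (h : Bd ρ N M g) (y : ℝ) : Bd ρ N M (fun x => g (x + y)) := by
  obtain ⟨a, ha, hs⟩ := h
  refine ⟨fun k => a k * e k y, fun k => ?_, fun x => ?_⟩
  · rw [norm_mul, norm_e, mul_one]
    exact ha k
  · have h1 := hs (x + y)
    have h2 : (fun k => a k * e k (x + y)) = fun k => a k * e k y * e k x := by
      funext k
      rw [e_shift]
      ring
    rwa [h2] at h1

/-- the change of variables in the product -/
private def pr : ℤ × ℤ ≃ ℤ × ℤ where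
  toFun p := (p.2, p.1 - p.2)
  invFun p := (p.1 + p.2, p.1)
  left_inv p := by
    ext
    · change p.2 + (p.1 - p.2) = p.1
      ring
    · rfl
  right_inv p := by
    ext
    · rfl
    · change p.1 + p.2 - p.1 = p.2
      ring

lemma mul (hρ : 0 ≤ ρ) (h : Bd ρ N M g) (h' : Bd ρ N M' g') :
    Bd ρ N (12 * M * M') (fun x => g x * g' x) := by
  have hM := h.nonneg
  have hM' := h'.nonneg
  obtain ⟨a, ha, hs⟩ := h
  obtain ⟨b, hb, hs'⟩ := h'
  have sa := summable hρ hM ha
  have sb := summable hρ hM' hb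
  -- the convolution is absolutely convergent
  have hterm : ∀ n k : ℤ, ‖a k * b (n - k)‖ ≤
      M * M' * (1 / V ρ N 2 k * (1 / V ρ N 2 (n - k))) := by
    intro n k
    rw [norm_mul]
    have h1 := mul_le_mul (ha k) (hb (n - k)) (norm_nonneg _)
      (div_nonneg hM (V_pos ρ N 2 k).le)
    refine h1.trans (le_of_eq ?_)
    ring
  have hconv : ∀ n : ℤ, HasSum (fun k : ℤ => M * M' * (1 / V ρ N 2 k * (1 / V ρ N 2 (n - k))))
      (M * M' * ∑' k : ℤ, 1 / V ρ N 2 k * (1 / V ρ N 2 (n - k))) := fun n =>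
    (summable_conv hρ n).hasSum.mul_left _
  have hsum : ∀ n : ℤ, Summable fun k : ℤ => a k * b (n - k) := fun n =>
    Summable.of_norm_bounded (hconv n).summable (hterm n)
  refine ⟨fun n => ∑' k : ℤ, a k * b (n - k), fun n => ?_, fun x => ?_⟩
  · have h1 := (hsum n).hasSum.norm_le_of_bounded (hconv n) (hterm n)
    refine h1.trans ?_
    have h2 := mul_le_mul_of_nonneg_left (conv_le (N := N) hρ n) (mul_nonneg hM hM')
    refine h2.trans (le_of_eq ?_)
    ring
  · have n1 : Summable fun k : ℤ => ‖a k * e k x‖ := by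
      simp only [norm_mul, norm_e, mul_one]
      exact sa
    have n2 : Summable fun k : ℤ => ‖b k * e k x‖ := by
      simp only [norm_mul, norm_e, mul_one]
      exact sb
    have n3 := summable_mul_of_summable_norm (f := fun k : ℤ => a k * e k x)
      (g := fun k : ℤ => b k * e k x) n1 n2
    have h1 := HasSum.mul (f := fun k : ℤ => a k * e k x) (g := fun k : ℤ => b k * e k x)
      (hs x) (hs' x) n3
    have h2 := (Equiv.hasSum_iff pr).2 h1
    refine h2.prod_fiberwise fun n => ?_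
    have h3 : (fun k : ℤ => ((fun p : ℤ × ℤ => a p.1 * e p.1 x * (b p.2 * e p.2 x)) ∘ pr) (n, k)) =
        fun k : ℤ => a k * b (n - k) * e n x := by
      funext k
      change a k * e k x * (b (n - k) * e (n - k) x) = a k * b (n - k) * e n x
      have h4 : e n x = e k x * e (n - k) x := by
        rw [← e_add]
        congr 1
        ring
      rw [h4]
      ring
    rw [h3]
    exact (hsum n).hasSum.mul_right _

lemma const (ρ : ℝ) (N : ℕ) (c : ℂ) : Bd ρ N ‖c‖ (fun _ => c) := by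
  refine ⟨fun k => if k = 0 then c else 0, fun k => ?_, fun x => ?_⟩
  · by_cases hk : k = 0
    · simp only [hk, if_true]
      rw [V_zero, div_one]
    · simp only [hk, if_false, norm_zero]
      exact div_nonneg (norm_nonneg _) (V_pos ρ N 2 k).le
  · have h := hasSum_ite_eq (0 : ℤ) c
    have h2 : (fun k : ℤ => (if k = 0 then c else 0) * e k x) = fun k => if k = 0 then c else 0 := by
      funext k
      by_cases hk : k = 0
      · simp only [hk, if_true]
        rw [e_zero, mul_one]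
      · simp only [hk, if_false, zero_mul]
    rw [h2]
    exact h

lemma coeff (hρ : 0 ≤ ρ) (h : Bd ρ N M g) (k : ℤ) : ‖fc g k‖ ≤ M / V ρ N 2 k := by
  have hM := h.nonneg
  obtain ⟨a, ha, hs⟩ := h
  rw [fc_of_hasSum (summable hρ hM ha) hs k]
  exact ha k

lemma hasSum_fc (hρ : 0 ≤ ρ) (h : Bd ρ N M g) (x : ℝ) :
    HasSum (fun k => fc g k * e k x) (g x) := by
  have hM := h.nonneg
  obtain ⟨a, ha, hs⟩ := h
  have h1 : (fun k => fc g k * e k x) = fun k => a k * e k x := by
    funext k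
    rw [fc_of_hasSum (summable hρ hM ha) hs k]
  rw [h1]
  exact hs x

end Bd

private lemma Dec.nn {A : ℝ} {a : ℤ → ℂ} (ha : ∀ k, ‖a k‖ ≤ A / V ρ N 3 k) : 0 ≤ A := by
  have h1 := (norm_nonneg (a 0)).trans (ha 0)
  by_contra hM
  rw [not_le] at hM
  have := div_neg_of_neg_of_pos hM (V_pos ρ N 3 0)
  linarith

private lemma Dec.two {A : ℝ} {a : ℤ → ℂ} (ha : ∀ k, ‖a k‖ ≤ A / V ρ N 3 k) (k : ℤ) :
    ‖a k‖ ≤ A / V ρ N 2 k :=
  (ha k).trans (div_le_div_of_nonneg_left (Dec.nn ha) (V_pos ρ N 2 k)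
    (V_mono (by norm_num : 2 ≤ 3) k))

/-- the coefficients in `Dec` are the Fourier coefficients -/
lemma Dec.rc_le (hρ : 0 ≤ ρ) {A : ℝ} {R : ℝ → ℝ} (h : Dec ρ N A R) (k : ℤ) :
    ‖rc R k‖ ≤ A / V ρ N 3 k := by
  obtain ⟨a, ha, hs⟩ := h
  have h1 : rc R k = a k :=
    fc_of_hasSum (Bd.summable hρ (Dec.nn ha) (Dec.two ha)) hs k
  rw [h1]
  exact ha k

lemma Dec.hasSum_rc (hρ : 0 ≤ ρ) {A : ℝ} {R : ℝ → ℝ} (h : Dec ρ N A R) (x : ℝ) :
    HasSum (fun k => rc R k * e k x) ((R x : ℝ) : ℂ) := by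
  obtain ⟨a, ha, hs⟩ := h
  have h1 : ∀ k, rc R k = a k := fun k =>
    fc_of_hasSum (Bd.summable hρ (Dec.nn ha) (Dec.two ha)) hs k
  simp only [h1]
  exact hs x

lemma Dec.bd {A : ℝ} {R : ℝ → ℝ} (h : Dec ρ N A R) : Bd ρ N A (fun x => (R x : ℂ)) := by
  obtain ⟨a, ha, hs⟩ := h
  exact ⟨a, Dec.two ha, hs⟩

lemma Dec.continuous (hρ : 0 ≤ ρ) {A : ℝ} {R : ℝ → ℝ} (h : Dec ρ N A R) : Continuous R := by
  have h1 := Complex.continuous_re.comp (h.bd.continuous hρ)
  exact h1

lemma Dec.periodic {A : ℝ} {R : ℝ → ℝ} (h : Dec ρ N A R) : Function.Periodic R 1 := by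
  intro x
  have h1 := h.bd.periodic x
  exact_mod_cast h1

end Pool.Agent.MP_ae5b4e_an_RG
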