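import Mathlib
import Pool.Agent.Lib.MP_ae5b4e_an_RG.Bda

/-!
# MP_ae5b4e_an, project REG: Fourier coefficients of smooth functions

Text: `/team-store/POR_REG.md`.
-/

noncomputable section

namespace Pool.Agent.MP_ae5b4e_an_RG

open Real Set Filter Topology MeasureTheory intervalIntegral
open scoped ContDiff

private lemma hasDerivAt_e (k : ℤ) (x : ℝ) :
    HasDerivAt (e k) (2 * π * Complex.I * k * e k x) x := by
  have h1 : HasDerivAt (fun y : ℝ => (2 * π * Complex.I * k : ℂ) * (y : ℂ))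
      (2 * π * Complex.I * k : ℂ) x := by
    have h2 : HasDerivAt (fun y : ℝ => (y : ℂ)) 1 x := Complex.ofRealCLM.hasDerivAt
    have h3 := h2.const_mul (2 * π * Complex.I * k : ℂ)
    rwa [mul_one] at h3
  have h4 := h1.cexp
  have h5 : Complex.exp ((2 * π * Complex.I * k : ℂ) * (x : ℂ)) * (2 * π * Complex.I * k : ℂ) =
      2 * π * Complex.I * k * e k x := by
    unfold e
    ring
  rw [h5] at h4
  exact h4

private lemma cont_deriv {R : ℝ → ℝ} (hR : ContDiff ℝ ∞ R) : Continuous (deriv R) :=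
  hR.continuous_deriv (by norm_num)

private lemma contDiff_deriv {R : ℝ → ℝ} (hR : ContDiff ℝ ∞ R) : ContDiff ℝ ∞ (deriv R) :=
  (contDiff_infty_iff_deriv.1 hR).2

private lemma per_deriv {R : ℝ → ℝ} (hp : Function.Periodic R 1) :
    Function.Periodic (deriv R) 1 := by
  intro x
  have h1 : (fun y => R (y + 1)) = R := funext fun y => hp y
  have h2 := deriv_comp_add_const (f := R) (1 : ℝ) x
  rw [h1] at h2
  exact h2.symm

/-- Fourier coefficients of the derivative -/
theorem rc_deriv {R : ℝ → ℝ} (hR : ContDiff ℝ ∞ R) (hp : Function.Periodic R 1) (k : ℤ) :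
    rc (deriv R) k = 2 * π * Complex.I * k * rc R k := by
  have hd : Differentiable ℝ R := hR.differentiable (by norm_num)
  have hR' : ∀ x : ℝ, HasDerivAt (fun y : ℝ => (R y : ℂ)) ((deriv R x : ℝ) : ℂ) x := fun x =>
    (hd x).hasDerivAt.ofReal_comp
  have hc' : Continuous fun x : ℝ => ((deriv R x : ℝ) : ℂ) :=
    Complex.continuous_ofReal.comp (cont_deriv hR)
  have he : Continuous fun x : ℝ => 2 * π * Complex.I * ((-k : ℤ) : ℂ) * e (-k) x :=
    continuous_const.mul (continuous_e (-k))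
  have h1 := intervalIntegral.integral_mul_deriv_eq_deriv_mul (a := (0:ℝ)) (b := (1:ℝ))
    (u := e (-k)) (v := fun y : ℝ => (R y : ℂ))
    (u' := fun x => 2 * π * Complex.I * ((-k : ℤ) : ℂ) * e (-k) x)
    (v' := fun x => ((deriv R x : ℝ) : ℂ))
    (fun x _ => hasDerivAt_e (-k) x) (fun x _ => hR' x)
    (he.intervalIntegrable _ _) (hc'.intervalIntegrable _ _)
  have h2 : e (-k) 1 = 1 := by
    have := e_int (-k) 1
    rwa [Int.cast_one] at this
  have h3 : e (-k) 0 = 1 := by
    have := e_int (-k) 0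
    rwa [Int.cast_zero] at this
  have h4 : R 1 = R 0 := by
    have := hp 0
    rwa [zero_add] at this
  rw [h2, h3, h4, sub_self, zero_sub] at h1
  have h5 : rc (deriv R) k = ∫ x in (0:ℝ)..1, e (-k) x * ((deriv R x : ℝ) : ℂ) := by
    unfold rc fc
    refine intervalIntegral.integral_congr fun x _ => ?_
    exact mul_comm _ _
  rw [h5, h1]
  have h6 : (fun x : ℝ => 2 * π * Complex.I * ((-k : ℤ) : ℂ) * e (-k) x * (R x : ℂ)) =
      fun x : ℝ => (-(2 * π * Complex.I * k) : ℂ) * ((R x : ℂ) * e (-k) x) := by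
    funext x
    push_cast
    ring
  rw [h6, intervalIntegral.integral_const_mul]
  unfold rc fc
  ring

/-- coefficients are bounded by the supremum -/
private lemma rc_bound {R : ℝ → ℝ} (hc : Continuous R) :
    ∃ B : ℝ, 0 ≤ B ∧ (∀ k, ‖rc R k‖ ≤ B) ∧ ∀ x ∈ Icc (0:ℝ) 1, |R x| ≤ B := by
  obtain ⟨B, hB⟩ := isCompact_Icc.exists_bound_of_continuousOn (s := Icc (0:ℝ) 1)
    (f := R) hc.continuousOn
  have hB0 : 0 ≤ B := (norm_nonneg _).trans (hB 0 (left_mem_Icc.2 zero_le_one))
  refine ⟨B, hB0, fun k => ?_, fun x hx => hB x hx⟩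
  unfold rc fc
  have h1 := intervalIntegral.norm_integral_le_of_norm_le_const (a := (0:ℝ)) (b := (1:ℝ))
    (f := fun x => (R x : ℂ) * e (-k) x) (C := B) (fun x hx => by
      rw [uIoc_of_le zero_le_one] at hx
      rw [norm_mul, norm_e, mul_one, Complex.norm_real]
      exact hB x ⟨hx.1.le, hx.2⟩)
  rw [sub_zero, abs_one, mul_one] at h1
  exact h1

private lemma rc_decay {R : ℝ → ℝ} (hR : ContDiff ℝ ∞ R) (hp : Function.Periodic R 1) :
    ∃ A0 : ℝ, 0 ≤ A0 ∧ ∀ k, ‖rc R k‖ ≤ A0 / V 0 0 3 k := by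
  obtain ⟨B, hB0, hB, -⟩ := rc_bound hR.continuous
  have hR1 := contDiff_deriv hR
  have hR2 := contDiff_deriv hR1
  have hR3 := contDiff_deriv hR2
  have hp1 := per_deriv hp
  have hp2 := per_deriv hp1
  obtain ⟨C, hC0, hC, -⟩ := rc_bound hR3.continuous
  refine ⟨B + C, by linarith, fun k => ?_⟩
  rw [le_div_iff₀ (V_pos 0 0 3 k)]
  have hV : V 0 0 3 k = (1 + |(k:ℝ)|) ^ 3 := by
    unfold V w
    rw [zero_mul, Real.exp_zero, mul_one]
  rw [hV]
  by_cases hk : k = 0
  · subst hk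
    rw [Int.cast_zero, abs_zero, add_zero, one_pow, mul_one]
    exact (hB 0).trans (by linarith)
  · have h3 : rc (deriv (deriv (deriv R))) k =
        (2 * π * Complex.I * k) ^ 3 * rc R k := by
      rw [rc_deriv hR2 hp2 k, rc_deriv hR1 hp1 k, rc_deriv hR hp k]
      ring
    have h4 := hC k
    rw [h3, norm_mul, norm_pow] at h4
    have h5 : ‖(2 * π * Complex.I * k : ℂ)‖ = 2 * π * |(k:ℝ)| := by
      rw [norm_mul, norm_mul, norm_mul, Complex.norm_I, Complex.norm_real, Complex.norm_intCast,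
        Real.norm_eq_abs, abs_of_pos Real.pi_pos, mul_one]
      norm_num
    rw [h5] at h4
    have hk1 : (1:ℝ) ≤ |(k:ℝ)| := by
      have h6 : 1 ≤ |k| := Int.one_le_abs hk
      have : ((1:ℤ):ℝ) ≤ ((|k| : ℤ) : ℝ) := by exact_mod_cast h6
      rwa [Int.cast_one, Int.cast_abs] at this
    have h7 : 1 + |(k:ℝ)| ≤ 2 * π * |(k:ℝ)| := by
      have := Real.pi_gt_three
      nlinarith
    have h8 : (1 + |(k:ℝ)|) ^ 3 ≤ (2 * π * |(k:ℝ)|) ^ 3 :=
      pow_le_pow_left₀ (by linarith) h7 3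
    have h9 := mul_le_mul_of_nonneg_left h8 (norm_nonneg (rc R k))
    linarith [mul_comm ((2 * π * |(k:ℝ)|) ^ 3) ‖rc R k‖]

private lemma rc_summable {R : ℝ → ℝ} (hR : ContDiff ℝ ∞ R) (hp : Function.Periodic R 1) :
    Summable fun k : ℤ => ‖rc R k‖ := by
  obtain ⟨A0, h0, hA⟩ := rc_decay hR hp
  exact Bd.summable (ρ := 0) (N := 0) (le_refl 0) h0 fun k =>
    (hA k).trans (div_le_div_of_nonneg_left h0 (V_pos 0 0 2 k) (V_mono (by norm_num : 2 ≤ 3) k))

private lemma rc_hasSum {R : ℝ → ℝ} (hR : ContDiff ℝ ∞ R) (hp : Function.Periodic R 1) (x : ℝ) :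
    HasSum (fun k => rc R k * e k x) ((R x : ℝ) : ℂ) := by
  have hpC : Function.Periodic (fun y : ℝ => (R y : ℂ)) 1 := fun y => by
    change (R (y + 1) : ℂ) = (R y : ℂ)
    rw [hp y]
  have : Fact ((0:ℝ) < 1) := ⟨zero_lt_one⟩
  have hcont : Continuous (hpC.lift : AddCircle (1:ℝ) → ℂ) := by
    have h1 : Continuous fun y : ℝ => (R y : ℂ) := Complex.continuous_ofReal.comp hR.continuous
    exact h1.quotient_lift _
  let F : C(AddCircle (1:ℝ), ℂ) := ⟨hpC.lift, hcont⟩
  have hFx : ∀ y : ℝ, F (y : AddCircle (1:ℝ)) = (R y : ℂ) := fun y => rfl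
  have hfe : ∀ (n : ℤ) (y : ℝ), fourier n (y : AddCircle (1:ℝ)) = e n y := by
    intro n y
    rw [fourier_coe_apply]
    unfold e
    rw [Complex.ofReal_one, div_one]
  have hco : ∀ n : ℤ, fourierCoeff F n = rc R n := by
    intro n
    rw [fourierCoeff_eq_intervalIntegral F n 0]
    rw [zero_add, div_one, one_smul]
    unfold rc fc
    refine intervalIntegral.integral_congr fun y _ => ?_
    change fourier (-n) (y : AddCircle (1:ℝ)) • F (y : AddCircle (1:ℝ)) = (R y : ℂ) * e (-n) y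
    rw [hfe, hFx, smul_eq_mul, mul_comm]
  have hs : Summable (fourierCoeff F) := by
    have h1 : fourierCoeff F = fun n => rc R n := funext hco
    rw [h1]
    exact (rc_summable hR hp).of_norm
  have h2 := has_pointwise_sum_fourier_series_of_summable hs (x : AddCircle (1:ℝ))
  rw [hFx] at h2
  have h3 : (fun i => fourierCoeff F i • fourier i (x : AddCircle (1:ℝ))) =
      fun k => rc R k * e k x := by
    funext i
    rw [hco, hfe, smul_eq_mul]
  rwa [h3] at h2

theorem dec_of_contDiff {R : ℝ → ℝ} (hR : ContDiff ℝ ∞ R) (hp : Function.Periodic R 1) :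
    ∃ A0 : ℝ, 0 ≤ A0 ∧ Dec 0 0 A0 R := by
  obtain ⟨A0, h0, hA⟩ := rc_decay hR hp
  exact ⟨A0, h0, fun k => rc R k, hA, fun x => rc_hasSum hR hp x⟩

/-- the Fourier coefficients of a product -/
theorem rc_mul {R S : ℝ → ℝ} (hR : ContDiff ℝ ∞ R) (pR : Function.Periodic R 1)
    (hS : ContDiff ℝ ∞ S) (pS : Function.Periodic S 1) (k : ℤ) :
    HasSum (fun l : ℤ => rc R l * rc S (k - l)) (rc (fun x => R x * S x) k) := by
  obtain ⟨B, hB0, -, hB⟩ := rc_bound hS.continuous
  have hSc : Continuous fun x : ℝ => (S x : ℂ) := Complex.continuous_ofReal.comp hS.continuous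
  have h1 : HasSum (fun l : ℤ => ∫ x in (0:ℝ)..1, rc R l * e l x * ((S x : ℂ) * e (-k) x))
      (∫ x in (0:ℝ)..1, (R x : ℂ) * ((S x : ℂ) * e (-k) x)) := by
    refine intervalIntegral.hasSum_integral_of_dominated_convergence
      (fun l _ => ‖rc R l‖ * B) ?_ ?_ ?_ ?_ ?_
    · intro l
      exact ((continuous_const.mul (continuous_e l)).mul
        (hSc.mul (continuous_e (-k)))).aestronglyMeasurable
    · intro l
      refine Eventually.of_forall fun t ht => ?_
      rw [uIoc_of_le zero_le_one] at ht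
      rw [norm_mul, norm_mul, norm_mul, norm_e, norm_e, mul_one, mul_one, Complex.norm_real]
      exact mul_le_mul_of_nonneg_left (hB t ⟨ht.1.le, ht.2⟩) (norm_nonneg _)
    · exact Eventually.of_forall fun t _ => (rc_summable hR pR).mul_right B
    · exact intervalIntegrable_const
    · exact Eventually.of_forall fun t _ => (rc_hasSum hR pR t).mul_right _
  have h2 : (fun l : ℤ => ∫ x in (0:ℝ)..1, rc R l * e l x * ((S x : ℂ) * e (-k) x)) =
      fun l : ℤ => rc R l * rc S (k - l) := by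
    funext l
    have h3 : ∀ x, rc R l * e l x * ((S x : ℂ) * e (-k) x) =
        rc R l * ((S x : ℂ) * e (-(k - l)) x) := fun x => by
      have h4 : e (-(k - l)) x = e l x * e (-k) x := by
        rw [← e_add]
        congr 1
        ring
      rw [h4]
      ring
    simp only [h3]
    rw [intervalIntegral.integral_const_mul]
    rfl
  rw [h2] at h1
  have h5 : (∫ x in (0:ℝ)..1, (R x : ℂ) * ((S x : ℂ) * e (-k) x)) =
      rc (fun x => R x * S x) k := by
    unfold rc fc
    refine intervalIntegral.integral_congr fun x _ => ?_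
    change (R x : ℂ) * ((S x : ℂ) * e (-k) x) = ((R x * S x : ℝ) : ℂ) * e (-k) x
    push_cast
    ring
  rw [h5] at h1
  exact h1

end Pool.Agent.MP_ae5b4e_an_RG
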