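import Mathlib
import Pool.Agent.Lib.MP_ae5b4e_an_RG.DecS

/-!
# MP_ae5b4e_an, project REG: exponential decay of Fourier coefficients implies analyticity

Text: `/team-store/POR_REG.md`.
-/

noncomputable section

namespace Pool.Agent.MP_ae5b4e_an_RG

open Real Set Filter Topology MeasureTheory intervalIntegral
open scoped ContDiff

private lemma summable_exp_abs {c : ℝ} (hc : 0 < c) (A : ℝ) :
    Summable fun k : ℤ => |A| * Real.exp (-(c * |(k:ℝ)|)) := by
  have h1 : Summable fun n : ℕ => Real.exp (n * (-c)) :=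
    Real.summable_exp_nat_mul_iff.2 (by linarith)
  refine Summable.mul_left _ (Summable.of_nat_of_neg ?_ ?_)
  · refine h1.congr fun n => ?_
    congr 1
    rw [Int.cast_natCast, abs_of_nonneg (Nat.cast_nonneg n)]
    ring
  · refine h1.congr fun n => ?_
    congr 1
    rw [Int.cast_neg, Int.cast_natCast, abs_neg, abs_of_nonneg (Nat.cast_nonneg n)]
    ring

theorem analytic_of_decay {f : ℝ → ℝ} (hf : ContDiff ℝ ∞ f) (pf : Function.Periodic f 1)
    {A ρ : ℝ} (hρ : 0 < ρ) (h : ∀ k : ℤ, ‖rc f k‖ ≤ A * Real.exp (-(ρ * |(k:ℝ)|))) :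
    AnalyticOnNhd ℝ f univ := by
  obtain ⟨A0, -, hD⟩ := dec_of_contDiff hf pf
  have hs : ∀ x : ℝ, HasSum (fun k => rc f k * e k x) ((f x : ℝ) : ℂ) := fun x =>
    hD.hasSum_rc (le_refl 0) x
  set U : Set ℂ := {z : ℂ | |z.im| < ρ / (4 * π)} with hU
  have hUo : IsOpen U := isOpen_lt (Complex.continuous_im.abs) continuous_const
  set G : ℤ → ℂ → ℂ := fun k z => rc f k * Complex.exp (2 * π * Complex.I * k * z) with hG
  have hdiff : DifferentiableOn ℂ (fun z => ∑' k : ℤ, G k z) U := by
    refine Complex.differentiableOn_tsum_of_summable_norm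
      (summable_exp_abs (half_pos hρ) A) (fun k => ?_) hUo (fun k z hz => ?_)
    · refine Differentiable.differentiableOn ?_
      fun_prop
    · have hz' : |z.im| < ρ / (4 * π) := hz
      have h1 : ‖Complex.exp (2 * π * Complex.I * k * z)‖ = Real.exp (-(2 * π * k * z.im)) := by
        rw [Complex.norm_exp]
        congr 1
        have : (2 * π * Complex.I * k * z : ℂ) = ((2 * π * k : ℝ) : ℂ) * (Complex.I * z) := by
          push_cast
          ring
        rw [this, Complex.re_ofReal_mul, Complex.I_mul_re]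
        ring
      have h2 : -(2 * π * k * z.im) ≤ ρ / 2 * |(k:ℝ)| := by
        have h3 : -(2 * π * k * z.im) ≤ |2 * π * k * z.im| := neg_le_abs _
        have h4 : |2 * π * k * z.im| = 2 * π * |(k:ℝ)| * |z.im| := by
          rw [abs_mul, abs_mul, abs_mul, abs_of_pos Real.pi_pos]
          norm_num
        have h5 : 2 * π * |(k:ℝ)| * |z.im| ≤ 2 * π * |(k:ℝ)| * (ρ / (4 * π)) :=
          mul_le_mul_of_nonneg_left hz'.le (by positivity)
        have h6 : 2 * π * |(k:ℝ)| * (ρ / (4 * π)) = ρ / 2 * |(k:ℝ)| := by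
          have := Real.pi_pos
          field_simp
          ring
        linarith
      rw [hG]
      simp only
      rw [norm_mul, h1]
      have hA : ‖rc f k‖ ≤ |A| * Real.exp (-(ρ * |(k:ℝ)|)) :=
        (h k).trans (mul_le_mul_of_nonneg_right (le_abs_self A) (Real.exp_pos _).le)
      calc ‖rc f k‖ * Real.exp (-(2 * π * k * z.im))
          ≤ (|A| * Real.exp (-(ρ * |(k:ℝ)|))) * Real.exp (ρ / 2 * |(k:ℝ)|) :=
            mul_le_mul hA (Real.exp_le_exp.2 h2) (Real.exp_pos _).le
              (mul_nonneg (abs_nonneg _) (Real.exp_pos _).le)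
        _ = |A| * Real.exp (-(ρ / 2 * |(k:ℝ)|)) := by
            rw [mul_assoc, ← Real.exp_add]
            congr 2
            ring
  have hfe : f = fun x : ℝ => (∑' k : ℤ, G k (x : ℂ)).re := by
    funext x
    have h1 := (hs x).tsum_eq
    have h2 : (fun k : ℤ => rc f k * e k x) = fun k : ℤ => G k (x : ℂ) := by
      funext k
      rfl
    rw [h2] at h1
    rw [h1, Complex.ofReal_re]
  intro x _
  have hxU : (x : ℂ) ∈ U := by
    change |((x : ℂ)).im| < ρ / (4 * π)
    rw [Complex.ofReal_im, abs_zero]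
    positivity
  have ha : AnalyticAt ℂ (fun z => ∑' k : ℤ, G k z) (x : ℂ) :=
    hdiff.analyticAt (hUo.mem_nhds hxU)
  rw [hfe]
  exact ha.re_ofReal

end Pool.Agent.MP_ae5b4e_an_RG
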