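import Mathlib
import Pool.Agent.Lib.MP_ae5b4e_an_RG.Bda

/-!
# MP_ae5b4e_an, project REG: the norm of the sum space (section 5)

Text: `/team-store/POR_REG.md`.
-/

noncomputable section

namespace Pool.Agent.MP_ae5b4e_an_RG

open Real Set Filter Topology MeasureTheory intervalIntegral

variable {ρ : ℝ} {N : ℕ} {η M M' : ℝ} {f f' : ℝ → ℂ}

namespace NB

lemma continuous (h : NB ρ N η M f) : Continuous f := h.1

lemma periodic (h : NB ρ N η M f) : Function.Periodic f 1 := h.2.1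

lemma nonneg (hη : 0 < η) (h : NB ρ N η M f) : 0 ≤ M := by
  refine le_of_forall_pos_le_add fun δ hδ => ?_
  obtain ⟨g, m, ε, hm, hε, -, -, hle⟩ := h.2.2 δ hδ
  exact (add_nonneg (mul_nonneg (by norm_num) hm) (div_nonneg hε hη.le)).trans hle

lemma mono (h : NB ρ N η M f) (hM : M ≤ M') : NB ρ N η M' f := by
  refine ⟨h.1, h.2.1, fun δ hδ => ?_⟩
  obtain ⟨g, m, ε, hm, hε, hg, hfg, hle⟩ := h.2.2 δ hδ
  exact ⟨g, m, ε, hm, hε, hg, hfg, hle.trans (by linarith)⟩

lemma add (h : NB ρ N η M f) (h' : NB ρ N η M' f') :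
    NB ρ N η (M + M') (fun x => f x + f' x) := by
  refine ⟨h.1.add h'.1, fun x => ?_, fun δ hδ => ?_⟩
  · simp only [h.2.1 x, h'.2.1 x]
  · obtain ⟨g, m, ε, hm, hε, hg, hfg, hle⟩ := h.2.2 (δ / 2) (by positivity)
    obtain ⟨g', m', ε', hm', hε', hg', hfg', hle'⟩ := h'.2.2 (δ / 2) (by positivity)
    refine ⟨_, m + m', ε + ε', add_nonneg hm hm', add_nonneg hε hε', hg.add hg', fun x => ?_, ?_⟩
    · have h1 : f x + f' x - (g x + g' x) = (f x - g x) + (f' x - g' x) := by ring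
      rw [h1]
      exact (norm_add_le _ _).trans (add_le_add (hfg x) (hfg' x))
    · rw [add_div]
      linarith

lemma const_mul (hη : 0 < η) (h : NB ρ N η M f) (c : ℂ) :
    NB ρ N η (‖c‖ * M) (fun x => c * f x) := by
  have _ := hη
  refine ⟨continuous_const.mul h.1, fun x => ?_, fun δ hδ => ?_⟩
  · simp only [h.2.1 x]
  · have hc : (0:ℝ) < ‖c‖ + 1 := by positivity
    obtain ⟨g, m, ε, hm, hε, hg, hfg, hle⟩ := h.2.2 (δ / (‖c‖ + 1)) (by positivity)
    refine ⟨_, ‖c‖ * m, ‖c‖ * ε, by positivity, by positivity, hg.const_mul c, fun x => ?_, ?_⟩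
    · rw [← mul_sub, norm_mul]
      exact mul_le_mul_of_nonneg_left (hfg x) (norm_nonneg _)
    · have h1 : ‖c‖ * (12 * m + ε / η) ≤ ‖c‖ * (M + δ / (‖c‖ + 1)) :=
        mul_le_mul_of_nonneg_left hle (norm_nonneg _)
      have h2 : ‖c‖ * (δ / (‖c‖ + 1)) ≤ δ := by
        rw [mul_div_assoc', div_le_iff₀ hc]
        nlinarith [norm_nonneg c]
      have h3 : ‖c‖ * (12 * m + ε / η) = 12 * (‖c‖ * m) + ‖c‖ * ε / η := by ring
      rw [← h3]
      linarith [mul_add ‖c‖ M (δ / (‖c‖ + 1))]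

lemma sub (hη : 0 < η) (h : NB ρ N η M f) (h' : NB ρ N η M' f') :
    NB ρ N η (M + M') (fun x => f x - f' x) := by
  have h1 := h.add (h'.const_mul hη (-1))
  simp only [norm_neg, norm_one, one_mul, neg_mul] at h1
  simpa only [sub_eq_add_neg] using h1

lemma shift (h : NB ρ N η M f) (y : ℝ) : NB ρ N η M (fun x => f (x + y)) := by
  refine ⟨h.1.comp (by fun_prop), fun x => ?_, fun δ hδ => ?_⟩
  · have h1 : x + 1 + y = x + y + 1 := by ring
    simp only [h1, h.2.1 (x + y)]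
  · obtain ⟨g, m, ε, hm, hε, hg, hfg, hle⟩ := h.2.2 δ hδ
    exact ⟨_, m, ε, hm, hε, hg.shift y, fun x => hfg (x + y), hle⟩

lemma mul (hρ : 0 ≤ ρ) (hη : 0 < η) (hη1 : η ≤ 1) (h : NB ρ N η M f) (h' : NB ρ N η M' f') :
    NB ρ N η (M * M') (fun x => f x * f' x) := by
  have hM : 0 ≤ M := h.nonneg hη
  have hM' : 0 ≤ M' := h'.nonneg hη
  refine ⟨h.1.mul h'.1, fun x => ?_, fun δ hδ => ?_⟩
  · simp only [h.2.1 x, h'.2.1 x]
  · set δ' := min 1 (δ / (M + M' + 1)) with hδ'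
    have hs : 0 < M + M' + 1 := by positivity
    have hδ'0 : 0 < δ' := lt_min one_pos (by positivity)
    have hδ'1 : δ' ≤ 1 := min_le_left _ _
    have hδ'2 : δ' * (M + M' + 1) ≤ δ := by
      rw [← le_div_iff₀ hs]
      exact min_le_right _ _
    obtain ⟨g, m, ε, hm, hε, hg, hfg, hle⟩ := h.2.2 δ' hδ'0
    obtain ⟨g', m', ε', hm', hε', hg', hfg', hle'⟩ := h'.2.2 δ' hδ'0
    refine ⟨_, 12 * m * m', 3 * m * ε' + 3 * m' * ε + ε * ε', by positivity, by positivity,
      hg.mul hρ hg', fun x => ?_, ?_⟩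
    · have h1 : f x * f' x - g x * g' x =
          g x * (f' x - g' x) + g' x * (f x - g x) + (f x - g x) * (f' x - g' x) := by ring
      rw [h1]
      have a1 : ‖g x * (f' x - g' x)‖ ≤ 3 * m * ε' := by
        rw [norm_mul]
        exact mul_le_mul (hg.sup hρ x) (hfg' x) (norm_nonneg _) (by positivity)
      have a2 : ‖g' x * (f x - g x)‖ ≤ 3 * m' * ε := by
        rw [norm_mul]
        exact mul_le_mul (hg'.sup hρ x) (hfg x) (norm_nonneg _) (by positivity)
      have a3 : ‖(f x - g x) * (f' x - g' x)‖ ≤ ε * ε' := by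
        rw [norm_mul]
        exact mul_le_mul (hfg x) (hfg' x) (norm_nonneg _) hε
      exact (norm_add_le _ _).trans (add_le_add ((norm_add_le _ _).trans (add_le_add a1 a2)) a3)
    · have b0 : 0 ≤ ε / η := div_nonneg hε hη.le
      have b0' : 0 ≤ ε' / η := div_nonneg hε' hη.le
      have b1 : ε * ε' / η ≤ (ε / η) * (ε' / η) := by
        have hx : ε / η ≤ (ε / η) * (1 / η) := by
          refine le_mul_of_one_le_right b0 ?_
          rw [le_div_iff₀ hη]
          linarith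
        calc ε * ε' / η = (ε / η) * ε' := by ring
          _ ≤ ((ε / η) * (1 / η)) * ε' := mul_le_mul_of_nonneg_right hx hε'
          _ = (ε / η) * (ε' / η) := by ring
      have b2 : 12 * (12 * m * m') + (3 * m * ε' + 3 * m' * ε + ε * ε') / η ≤
          (12 * m + ε / η) * (12 * m' + ε' / η) := by
        have b3 : (3 * m * ε' + 3 * m' * ε + ε * ε') / η =
            3 * m * (ε' / η) + 3 * m' * (ε / η) + ε * ε' / η := by ring
        rw [b3]
        nlinarith [mul_nonneg hm b0', mul_nonneg hm' b0]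
      have b4 : (12 * m + ε / η) * (12 * m' + ε' / η) ≤ (M + δ') * (M' + δ') :=
        mul_le_mul hle hle' (by positivity) (by positivity)
      have b5 : (M + δ') * (M' + δ') ≤ M * M' + δ := by nlinarith
      exact b2.trans (b4.trans b5)

lemma const (ρ : ℝ) (N : ℕ) (hη : 0 < η) (c : ℂ) : NB ρ N η (12 * ‖c‖) (fun _ => c) := by
  have _ := hη
  refine ⟨continuous_const, fun x => rfl, fun δ hδ => ?_⟩
  refine ⟨fun _ => c, ‖c‖, 0, norm_nonneg _, le_rfl, Bd.const ρ N c, fun x => by simp, ?_⟩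
  rw [zero_div]
  linarith

lemma of_Bd (hρ : 0 ≤ ρ) (h : Bd ρ N M f) : NB ρ N η (12 * M) f := by
  refine ⟨h.continuous hρ, h.periodic, fun δ hδ => ?_⟩
  refine ⟨f, M, 0, h.nonneg, le_rfl, h, fun x => by simp, ?_⟩
  rw [zero_div]
  linarith

lemma of_flat (ρ : ℝ) (N : ℕ) (hη : 0 < η) (hc : Continuous f) (hp : Function.Periodic f 1)
    {ε : ℝ} (h : ∀ x, ‖f x‖ ≤ ε) : NB ρ N η (ε / η) f := by
  have hε : 0 ≤ ε := (norm_nonneg _).trans (h 0)
  refine ⟨hc, hp, fun δ hδ => ?_⟩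
  refine ⟨fun _ => 0, ‖(0:ℂ)‖, ε, norm_nonneg _, hε, Bd.const ρ N 0, fun x => ?_, ?_⟩
  · simpa using h x
  · rw [norm_zero]
    have := div_nonneg hε hη.le
    linarith

lemma sup (hρ : 0 ≤ ρ) (hη : 0 < η) (hη1 : η ≤ 1) (h : NB ρ N η M f) (x : ℝ) : ‖f x‖ ≤ M := by
  refine le_of_forall_pos_le_add fun δ hδ => ?_
  obtain ⟨g, m, ε, hm, hε, hg, hfg, hle⟩ := h.2.2 δ hδ
  have h1 : ‖f x‖ ≤ ‖f x - g x‖ + ‖g x‖ := by
    simpa using norm_add_le (f x - g x) (g x)
  have h2 := hg.sup hρ x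
  have h3 : ε ≤ ε / η := by
    rw [le_div_iff₀ hη]
    exact mul_le_of_le_one_right hε hη1
  linarith [hfg x]

lemma coeff (hρ : 0 ≤ ρ) (hη : 0 < η) (h : NB ρ N η M f) (k : ℤ) :
    ‖fc f k‖ ≤ M * (1 / V ρ N 2 k + η) := by
  have hV : 0 < V ρ N 2 k := V_pos ρ N 2 k
  have hs : 0 < 1 / V ρ N 2 k + η := by positivity
  refine le_of_forall_pos_le_add fun δ hδ => ?_
  obtain ⟨g, m, ε, hm, hε, hg, hfg, hle⟩ := h.2.2 (δ / (1 / V ρ N 2 k + η)) (by positivity)
  have hcg : Continuous g := hg.continuous hρ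
  have h1 : ‖fc f k - fc g k‖ ≤ ε := by
    have h2 : fc f k - fc g k = ∫ x in (0:ℝ)..1, (f x - g x) * e (-k) x := by
      rw [fc, fc, ← intervalIntegral.integral_sub]
      · exact intervalIntegral.integral_congr fun x _ => by ring
      · exact (h.1.mul (continuous_e (-k))).intervalIntegrable _ _
      · exact (hcg.mul (continuous_e (-k))).intervalIntegrable _ _
    rw [h2]
    have h3 := intervalIntegral.norm_integral_le_of_norm_le_const (a := (0:ℝ)) (b := 1)
      (f := fun x => (f x - g x) * e (-k) x) (C := ε) (fun x _ => by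
        rw [norm_mul, norm_e, mul_one]
        exact hfg x)
    simpa using h3
  have h4 : ‖fc f k‖ ≤ ‖fc f k - fc g k‖ + ‖fc g k‖ := by
    simpa using norm_add_le (fc f k - fc g k) (fc g k)
  have h5 := hg.coeff hρ k
  have hd : 0 ≤ ε / η := div_nonneg hε hη.le
  have h6 : m / V ρ N 2 k ≤ (M + δ / (1 / V ρ N 2 k + η)) * (1 / V ρ N 2 k) := by
    rw [div_eq_mul_one_div]
    exact mul_le_mul_of_nonneg_right (by linarith) (by positivity)
  have h7 : ε ≤ (M + δ / (1 / V ρ N 2 k + η)) * η := by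
    rw [← div_le_iff₀ hη]
    linarith
  have h8 : (M + δ / (1 / V ρ N 2 k + η)) * (1 / V ρ N 2 k + η) =
      M * (1 / V ρ N 2 k + η) + δ := by
    field_simp
  calc ‖fc f k‖ ≤ ε + m / V ρ N 2 k := by linarith
    _ ≤ (M + δ / (1 / V ρ N 2 k + η)) * (1 / V ρ N 2 k + η) := by
        rw [mul_add]
        linarith
    _ = M * (1 / V ρ N 2 k + η) + δ := h8

lemma half (hη : 0 < η) (h : NB ρ N η M f) : NB ρ N (η / 2) (2 * M) f := by
  refine ⟨h.1, h.2.1, fun δ hδ => ?_⟩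
  obtain ⟨g, m, ε, hm, hε, hg, hfg, hle⟩ := h.2.2 (δ / 2) (by positivity)
  refine ⟨g, m, ε, hm, hε, hg, hfg, ?_⟩
  have h1 : ε / (η / 2) = 2 * (ε / η) := by field_simp
  rw [h1]
  linarith

lemma avg (hη : 0 < η) (h : NB ρ N η M f) {n : ℕ} (hn : 0 < n) (y : ℝ) :
    NB ρ N η M (fun x => (1 / (n:ℂ)) * ∑ j ∈ Finset.range n, f (x + j * y)) := by
  have key : ∀ n : ℕ, NB ρ N η (n * M) (fun x => ∑ j ∈ Finset.range n, f (x + j * y)) := by
    intro n
    induction n with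
    | zero =>
      have h0 := h.const_mul hη 0
      simpa using h0
    | succ n ih =>
      have h1 := ih.add (h.shift (n * y))
      have h2 : ((n + 1 : ℕ) : ℝ) * M = n * M + M := by push_cast; ring
      rw [h2]
      simpa only [Finset.sum_range_succ] using h1
  have h3 := (key n).const_mul hη (1 / (n:ℂ))
  have hn' : (n:ℝ) ≠ 0 := by positivity
  have h4 : ‖(1 / (n:ℂ))‖ * (n * M) = M := by
    rw [norm_div, norm_one, Complex.norm_natCast]
    field_simp
  rwa [h4] at h3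

end NB

end Pool.Agent.MP_ae5b4e_an_RG
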