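import Mathlib
import Pool.Agent.Lib.MP_ae5b4e_an_RG.NBa

/-!
# MP_ae5b4e_an, project REG: LEMMA K (section 6)

Text: `/team-store/POR_REG.md`.
-/

noncomputable section

namespace Pool.Agent.MP_ae5b4e_an_RG

open Real Set Filter Topology MeasureTheory intervalIntegral

private lemma kl_window {q : ℕ} {b : ℕ → ℂ} (hper : ∀ j, b (j + q) = b j)
    (hsum : ∑ j ∈ Finset.range q, b j = 0) (j : ℕ) :
    ∑ i ∈ Finset.range q, b (j + i) = 0 := by
  induction j with
  | zero => simpa using hsum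
  | succ j ih =>
    have h1 := Finset.sum_range_succ (fun i => b (j + i)) q
    have h2 := Finset.sum_range_succ' (fun i => b (j + i)) q
    rw [h1, ih, zero_add] at h2
    simp only [add_zero] at h2
    have h3 := hper j
    rw [h3] at h2
    have h4 : ∑ i ∈ Finset.range q, b (j + (i + 1)) = 0 := by
      linear_combination (-1 : ℂ) * h2
    calc ∑ i ∈ Finset.range q, b (j + 1 + i) = ∑ i ∈ Finset.range q, b (j + (i + 1)) :=
          Finset.sum_congr rfl fun i _ => by rw [add_assoc, add_comm 1 i]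
      _ = 0 := h4

private lemma kl_dist {b : ℕ → ℂ} {B : ℝ} (hB : ∀ j, ‖b (j + 1) - b j‖ ≤ B) (j i : ℕ) :
    ‖b j - b (j + i)‖ ≤ i * B := by
  induction i with
  | zero => simp
  | succ i ih =>
    have h1 : b j - b (j + (i + 1)) = (b j - b (j + i)) - (b (j + i + 1) - b (j + i)) := by
      rw [add_assoc]
      ring
    rw [h1]
    have h2 := norm_sub_le (b j - b (j + i)) (b (j + i + 1) - b (j + i))
    have h3 := hB (j + i)
    push_cast
    linarith

private lemma kl_step {q : ℕ} (hq : 0 < q) {b : ℕ → ℂ} (hper : ∀ j, b (j + q) = b j)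
    (hsum : ∑ j ∈ Finset.range q, b j = 0) {B : ℝ} (hB : ∀ j, ‖b (j + 1) - b j‖ ≤ B) (j : ℕ) :
    ‖b j‖ ≤ q * B := by
  have hB0 : 0 ≤ B := (norm_nonneg _).trans (hB 0)
  have hq0 : (0:ℝ) < q := by exact_mod_cast hq
  have h1 : (q:ℂ) * b j = ∑ i ∈ Finset.range q, (b j - b (j + i)) := by
    rw [Finset.sum_sub_distrib, kl_window hper hsum j]
    simp
  have h2 : ‖(q:ℂ) * b j‖ ≤ q * (q * B) := by
    rw [h1]
    refine (norm_sum_le _ _).trans ?_
    have h3 : ∀ i ∈ Finset.range q, ‖b j - b (j + i)‖ ≤ q * B := by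
      intro i hi
      refine (kl_dist hB j i).trans ?_
      have h4 : (i:ℝ) ≤ q := by exact_mod_cast (Finset.mem_range.1 hi).le
      exact mul_le_mul_of_nonneg_right h4 hB0
    refine (Finset.sum_le_sum h3).trans ?_
    simp
  rw [norm_mul, Complex.norm_natCast] at h2
  exact le_of_mul_le_mul_left h2 hq0

/-- discrete Poincare inequality -/
lemma discrete_poincare {q : ℕ} (hq : 0 < q) {a : ℕ → ℂ} (hper : ∀ j, a (j + q) = a j)
    (hsum : ∑ j ∈ Finset.range q, a j = 0) {B : ℝ}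
    (hB : ∀ j, ‖a (j + 2) - 2 * a (j + 1) + a j‖ ≤ B) :
    (∀ j, ‖a (j + 1) - a j‖ ≤ q * B) ∧ ∀ j, ‖a j‖ ≤ (q:ℝ) ^ 2 * B := by
  have h1 : ∀ j, ‖a (j + 1) - a j‖ ≤ q * B := by
    intro j
    refine kl_step (b := fun j => a (j + 1) - a j) hq (fun j => ?_) ?_ (fun j => ?_) j
    · have e1 : j + q + 1 = j + 1 + q := by ring
      simp only [e1, hper]
    · rw [Finset.sum_sub_distrib, hsum, sub_zero]
      have := kl_window hper hsum 1
      simpa only [add_comm 1] using this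
    · have e1 : a (j + 1 + 1) - a (j + 1) - (a (j + 1) - a j) =
          a (j + 2) - 2 * a (j + 1) + a j := by
        rw [show j + 1 + 1 = j + 2 by ring]
        ring
      simp only [e1]
      exact hB j
  refine ⟨h1, fun j => ?_⟩
  have h2 := kl_step hq hper hsum h1 j
  calc ‖a j‖ ≤ q * (q * B) := h2
    _ = (q:ℝ) ^ 2 * B := by ring

private lemma kl_e_apply (k : ℤ) (x : ℝ) :
    e k x = Complex.exp (2 * π * Complex.I * ((k * x : ℝ) : ℂ)) := by
  unfold e
  push_cast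
  ring_nf

private lemma kl_congr {f g : ℤ → ℂ} {a : ℂ} (h : HasSum f a) (hfg : ∀ k, g k = f k) :
    HasSum g a := by
  rwa [show g = f from funext hfg]

/-- a lower bound for chords -/
private lemma kl_chord {r : ℝ} (hr : |r| ≤ 1 / 2) :
    4 * |r| ≤ ‖Complex.exp (2 * π * Complex.I * (r : ℂ)) - 1‖ := by
  have h1 : ‖Complex.exp (2 * π * Complex.I * (r : ℂ)) - 1‖ = 2 * |Real.sin (π * r)| := by
    have h2 : (2 * π * Complex.I * (r : ℂ)) = Complex.I * ((2 * (π * r) : ℝ) : ℂ) := by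
      push_cast
      ring
    rw [h2, Complex.norm_exp_I_mul_ofReal_sub_one]
    rw [show 2 * (π * r) / 2 = π * r by ring, norm_mul]
    simp
  rw [h1]
  have h3 : |π * r| ≤ π / 2 := by
    rw [abs_mul, abs_of_pos Real.pi_pos]
    nlinarith [Real.pi_pos]
  have h4 := Real.mul_abs_le_abs_sin h3
  rw [abs_mul, abs_of_pos Real.pi_pos] at h4
  have h5 : 2 / π * (π * |r|) = 2 * |r| := by
    field_simp
  rw [h5] at h4
  linarith

/-- a number differing from an integer by at least `1 / q` -/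
private lemma kl_far {p q : ℕ} (hpq : PQ p q) {k : ℤ} (hk : ¬ (q : ℤ) ∣ k) :
    2 * ((p:ℝ) / q) ≤ ‖e k ((p:ℝ) / q) - 1‖ := by
  obtain ⟨hp, hq, hco⟩ := hpq
  have hq0 : (0:ℝ) < q := by
    have : 0 < q := by omega
    exact_mod_cast this
  set x : ℝ := (k:ℝ) * ((p:ℝ) / q) with hx
  set n : ℤ := round x with hn
  have hr : |x - n| ≤ 1 / 2 := abs_sub_round x
  have h1 : e k ((p:ℝ) / q) = Complex.exp (2 * π * Complex.I * ((x - n : ℝ) : ℂ)) := by
    rw [kl_e_apply, ← hx]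
    have h2 : (2 * π * Complex.I * (x : ℂ)) =
        2 * π * Complex.I * ((x - n : ℝ) : ℂ) + n * (2 * π * Complex.I) := by
      push_cast
      ring
    rw [h2, Complex.exp_add, Complex.exp_int_mul_two_pi_mul_I, mul_one]
  rw [h1]
  refine le_trans ?_ (kl_chord hr)
  have h2 : (1:ℝ) ≤ |((k * p - n * q : ℤ) : ℝ)| := by
    have h3 : k * p - n * q ≠ 0 := by
      intro h4
      apply hk
      have h5 : (q:ℤ) ∣ k * p := ⟨n, by linarith⟩
      have h6 : IsCoprime (q:ℤ) (p:ℤ) := by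
        rw [Nat.isCoprime_iff_coprime]
        exact hco.symm
      exact h6.dvd_of_dvd_mul_right h5
    have h4 : 1 ≤ |k * p - n * q| := Int.one_le_abs h3
    have h5 : ((1:ℤ):ℝ) ≤ ((|k * p - n * q| : ℤ) : ℝ) := Int.cast_le.2 h4
    rw [Int.cast_abs, Int.cast_one] at h5
    exact h5
  have h3 : ((k * p - n * q : ℤ) : ℝ) = (x - n) * q := by
    rw [hx]
    push_cast
    field_simp
  rw [h3, abs_mul, abs_of_pos hq0] at h2
  have h4 : 1 / (q:ℝ) ≤ |x - n| := by
    rw [div_le_iff₀ hq0]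
    exact h2
  have h5 : (p:ℝ) ≤ 2 := by
    rcases hp with h | h <;> rw [h] <;> norm_num
  have h6 : (p:ℝ) / q ≤ 2 / q := div_le_div_of_nonneg_right h5 hq0.le
  have h7 : 2 / (q:ℝ) = 2 * (1 / q) := by ring
  linarith

private lemma kl_pow (k : ℤ) (ω : ℝ) (j : ℕ) : e k (j * ω) = e k ω ^ j := by
  unfold e
  rw [← Complex.exp_nat_mul]
  congr 1
  push_cast
  ring

/-- the sum of a character along an orbit -/
private lemma kl_orbit {p q : ℕ} (hpq : PQ p q) (k : ℤ) :
    ∑ j ∈ Finset.range q, e k (j * ((p:ℝ) / q)) = if (q:ℤ) ∣ k then (q:ℂ) else 0 := by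
  have hq0 : (0:ℝ) < q := by
    have : 0 < q := by have := hpq.2.1; omega
    exact_mod_cast this
  have hqq : (q:ℝ) * ((p:ℝ) / q) = p := by field_simp
  have hone : e k ((p:ℝ) / q) ^ q = 1 := by
    rw [← kl_pow, hqq]
    have := e_int k (p:ℤ)
    simpa using this
  simp only [kl_pow]
  split_ifs with h
  · obtain ⟨m, rfl⟩ := h
    have h1 : e ((q:ℤ) * m) ((p:ℝ) / q) = 1 := by
      have h2 : e ((q:ℤ) * m) ((p:ℝ) / q) = e m ((p:ℤ) : ℝ) := by
        rw [kl_e_apply, kl_e_apply]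
        congr 3
        push_cast
        field_simp
      rw [h2, e_int]
    simp only [h1, one_pow, Finset.sum_const, Finset.card_range, nsmul_eq_mul, mul_one]
  · have hne : e k ((p:ℝ) / q) ≠ 1 := by
      intro h1
      have h2 := kl_far hpq h
      rw [h1, sub_self, norm_zero] at h2
      have hp : (0:ℝ) < p := by
        rcases hpq.1 with h | h <;> rw [h] <;> norm_num
      have : 0 < (p:ℝ) / q := by positivity
      linarith
    rw [geom_sum_eq hne, hone, sub_self, zero_div]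

/-- the solution of the linear equation without resonant modes -/
private lemma kl_solve {ρ : ℝ} {N p q : ℕ} {m : ℝ} {g : ℝ → ℂ} (hρ : 0 ≤ ρ) (hpq : PQ p q)
    (hm : 0 ≤ m) (hg : Bd ρ N m g) :
    ∃ G : ℝ → ℂ, Bd ρ N (m / (4 * ((p:ℝ) / q) ^ 2)) G ∧
      Bd ρ N (m / (2 * ((p:ℝ) / q) ^ 2))
        (fun x => (G (x + (p:ℝ) / q) - G x) / (((p:ℝ) / q : ℝ) : ℂ)) ∧
      (∀ x, ∑ j ∈ Finset.range q, G (x + j * ((p:ℝ) / q)) = 0) ∧
      ∀ x, G (x + (p:ℝ) / q) - 2 * G x + G (x - (p:ℝ) / q) =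
        g x - (1 / (q:ℂ)) * ∑ j ∈ Finset.range q, g (x + j * ((p:ℝ) / q)) := by
  have hq0 : (0:ℝ) < q := by
    have : 0 < q := by have := hpq.2.1; omega
    exact_mod_cast this
  have hp0 : (0:ℝ) < p := by
    rcases hpq.1 with h | h <;> rw [h] <;> norm_num
  set ω : ℝ := (p:ℝ) / q with hω
  have hω0 : 0 < ω := by positivity
  obtain ⟨c, hc, hcs⟩ := hg
  have hV2 : ∀ k, 0 < V ρ N 2 k := fun k => V_pos ρ N 2 k
  -- the symbol
  have hsym : ∀ k : ℤ, e k ω - 2 + e k (-ω) = e k (-ω) * (e k ω - 1) ^ 2 := by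
    intro k
    have h1 : e k (-ω) * e k ω = 1 := by
      rw [← e_shift, neg_add_cancel]
      simpa using e_int k 0
    linear_combination (2 - e k ω) * h1
  have hsymn : ∀ k : ℤ, ‖e k ω - 2 + e k (-ω)‖ = ‖e k ω - 1‖ ^ 2 := by
    intro k
    rw [hsym, norm_mul, norm_e, one_mul, norm_pow]
  have hfar : ∀ k : ℤ, ¬ (q:ℤ) ∣ k → 2 * ω ≤ ‖e k ω - 1‖ := fun k hk => kl_far hpq hk
  -- coefficients of the solution
  set α : ℤ → ℂ := fun k => if (q:ℤ) ∣ k then 0 else c k / (e k ω - 2 + e k (-ω)) with hα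
  have hα0 : ∀ k, (q:ℤ) ∣ k → α k = 0 := fun k hk => if_pos hk
  have hα1 : ∀ k, ¬ (q:ℤ) ∣ k → α k = c k / (e k ω - 2 + e k (-ω)) := fun k hk => if_neg hk
  have key : ∀ k, ‖α k‖ ≤ m / (4 * ω ^ 2) / V ρ N 2 k ∧
      ‖α k * (e k ω - 1) / (ω : ℂ)‖ ≤ m / (2 * ω ^ 2) / V ρ N 2 k := by
    intro k
    have hv := hV2 k
    by_cases hk : (q:ℤ) ∣ k
    · rw [hα0 k hk]
      simp only [zero_mul, zero_div, norm_zero]
      constructor <;> positivity
    · have hpos : 0 < ‖e k ω - 1‖ := lt_of_lt_of_le (by positivity) (hfar k hk)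
      have h1 : ‖α k‖ = ‖c k‖ / ‖e k ω - 1‖ ^ 2 := by
        rw [hα1 k hk, norm_div, hsymn]
      have h2 : ‖α k * (e k ω - 1) / (ω : ℂ)‖ = ‖c k‖ / (‖e k ω - 1‖ * ω) := by
        rw [norm_div, norm_mul, h1, Complex.norm_real, Real.norm_of_nonneg hω0.le]
        field_simp
      have hc' := hc k
      have hf := hfar k hk
      rw [h1, h2]
      set v : ℝ := V ρ N 2 k with hvv
      set n : ℝ := ‖e k ω - 1‖ with hn
      have hmv : 0 ≤ m / v := by positivity
      constructor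
      · have h3 : (4 * ω ^ 2) ≤ n ^ 2 := by nlinarith
        calc ‖c k‖ / n ^ 2 ≤ (m / v) / (4 * ω ^ 2) := by
              apply div_le_div₀ hmv hc' (by positivity) h3
          _ = m / (4 * ω ^ 2) / v := by ring
      · have h3 : 2 * ω ^ 2 ≤ n * ω := by nlinarith
        calc ‖c k‖ / (n * ω) ≤ (m / v) / (2 * ω ^ 2) := by
              apply div_le_div₀ hmv hc' (by positivity) h3
          _ = m / (2 * ω ^ 2) / v := by ring
  have hM : 0 ≤ m / (4 * ω ^ 2) := by positivity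
  have hαs : Summable fun k => ‖α k‖ := Bd.summable (N := N) hρ hM fun k => (key k).1
  have hsum : ∀ x, Summable fun k => α k * e k x := by
    intro x
    refine Summable.of_norm ?_
    simpa only [norm_mul, norm_e, mul_one] using hαs
  obtain ⟨G, hGdef⟩ : ∃ G : ℝ → ℂ, ∀ x, HasSum (fun k => α k * e k x) (G x) :=
    ⟨fun x => ∑' k, α k * e k x, fun x => (hsum x).hasSum⟩
  refine ⟨G, ⟨α, fun k => (key k).1, hGdef⟩, ⟨fun k => α k * (e k ω - 1) / (ω : ℂ),
    fun k => (key k).2, fun x => ?_⟩, fun x => ?_, fun x => ?_⟩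
  · have h1 := ((hGdef (x + ω)).sub (hGdef x)).div_const (ω : ℂ)
    refine kl_congr h1 fun k => ?_
    rw [e_shift]
    ring
  · have h1 : HasSum (fun k => ∑ j ∈ Finset.range q, α k * e k (x + j * ω))
        (∑ j ∈ Finset.range q, G (x + j * ω)) := hasSum_sum fun j _ => hGdef (x + j * ω)
    have h2 : (fun k => ∑ j ∈ Finset.range q, α k * e k (x + j * ω)) = fun _ => (0:ℂ) := by
      ext k
      have h3 : ∑ j ∈ Finset.range q, α k * e k (x + j * ω) =
          α k * e k x * ∑ j ∈ Finset.range q, e k (j * ω) := by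
        rw [Finset.mul_sum]
        refine Finset.sum_congr rfl fun j _ => ?_
        rw [e_shift]
        ring
      rw [h3, kl_orbit hpq]
      split_ifs with h
      · rw [hα0 k h]
        ring
      · rw [mul_zero]
    rw [h2] at h1
    exact h1.unique hasSum_zero
  · have h1 := ((hGdef (x + ω)).sub ((hGdef x).mul_left 2)).add (hGdef (x - ω))
    have h2 : HasSum (fun k => ∑ j ∈ Finset.range q, c k * e k (x + j * ω))
        (∑ j ∈ Finset.range q, g (x + j * ω)) :=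
      hasSum_sum fun j _ => hcs (x + j * ω)
    have h3 := (hcs x).sub (h2.mul_left (1 / (q:ℂ)))
    refine h1.unique (kl_congr h3 fun k => ?_)
    have h4 : ∑ j ∈ Finset.range q, c k * e k (x + j * ω) =
        c k * e k x * ∑ j ∈ Finset.range q, e k (j * ω) := by
      rw [Finset.mul_sum]
      refine Finset.sum_congr rfl fun j _ => ?_
      rw [e_shift]
      ring
    have hqc : (q:ℂ) ≠ 0 := by exact_mod_cast hq0.ne'
    rw [h4, kl_orbit hpq]
    have h5 : e k (x - ω) = e k x * e k (-ω) := by rw [sub_eq_add_neg, e_shift]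
    rw [e_shift, h5]
    by_cases h : (q:ℤ) ∣ k
    · rw [if_pos h, hα0 k h]
      field_simp
      ring
    · rw [if_neg h, hα1 k h]
      have hne : e k ω - 2 + e k (-ω) ≠ 0 := by
        rw [← norm_pos_iff, hsymn]
        have := lt_of_lt_of_le (by positivity) (hfar k h)
        positivity
      field_simp
      ring

theorem lemmaK {ρ : ℝ} {N p q : ℕ} {η M : ℝ} {f u : ℝ → ℂ} (hρ : 0 ≤ ρ) (hpq : PQ p q)
    (hη : 0 < η) (hη1 : η ≤ 1) (hu : Continuous u) (hup : Function.Periodic u 1)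
    (horb : ∀ x, ∑ j ∈ Finset.range q, u (x + j * ((p:ℝ) / q)) = 0)
    (hf : ∀ x, f x = u (x + (p:ℝ) / q) - 2 * u x + u (x - (p:ℝ) / q))
    (h : NB ρ N η M f) :
    NB ρ N η (16 / ((p:ℝ) / q) ^ 2 * M) u ∧
    NB ρ N η (16 / ((p:ℝ) / q) ^ 2 * M)
      (fun x => (u (x + (p:ℝ) / q) - u x) / (((p:ℝ) / q : ℝ) : ℂ)) := by
  have _ := hη1
  have hqN : 0 < q := by have := hpq.2.1; omega
  have hq0 : (0:ℝ) < q := by exact_mod_cast hqN
  have hp0 : (0:ℝ) < p := by
    rcases hpq.1 with h | h <;> rw [h] <;> norm_num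
  have hp2 : (p:ℝ) ≤ 2 := by
    rcases hpq.1 with h | h <;> rw [h] <;> norm_num
  set ω : ℝ := (p:ℝ) / q with hω
  have hω0 : 0 < ω := by positivity
  have hqω : (q:ℝ) * ω = p := by
    rw [hω]
    field_simp
  have hqc : (q:ℂ) ≠ 0 := by exact_mod_cast hq0.ne'
  have hωc : (ω:ℂ) ≠ 0 := by exact_mod_cast hω0.ne'
  -- the core estimate
  have core : ∀ δ > 0, ∃ (G : ℝ → ℂ) (m ε : ℝ), 0 ≤ m ∧ 0 ≤ ε ∧
      Bd ρ N (m / (4 * ω ^ 2)) G ∧
      Bd ρ N (m / (2 * ω ^ 2)) (fun x => (G (x + ω) - G x) / (ω : ℂ)) ∧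
      (∀ x, ‖u x - G x‖ ≤ 8 * ε / ω ^ 2) ∧
      (∀ x, ‖(u (x + ω) - u x) / (ω : ℂ) - (G (x + ω) - G x) / (ω : ℂ)‖ ≤ 4 * ε / ω ^ 2) ∧
      12 * m + ε / η ≤ M + δ := by
    intro δ hδ
    obtain ⟨g, m, ε, hm, hε, hg, hfg, hle⟩ := h.2.2 δ hδ
    obtain ⟨G, hG1, hG2, hG3, hG4⟩ := kl_solve hρ hpq hm hg
    rw [← hω] at hG1 hG2 hG3 hG4
    -- the remainder
    have hGp : Function.Periodic G 1 := hG1.periodic
    have hHp : Function.Periodic (fun x => u x - G x) 1 := by
      intro x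
      simp only [hup x, hGp x]
    have hHorb : ∀ x, ∑ j ∈ Finset.range q, (u (x + j * ω) - G (x + j * ω)) = 0 := by
      intro x
      rw [Finset.sum_sub_distrib, horb x, hG3 x, sub_zero]
    have hfsum : ∀ x, ∑ j ∈ Finset.range q, f (x + j * ω) = 0 := by
      intro x
      have h1 := horb (x + ω)
      have h2 := horb x
      have h3 := horb (x - ω)
      have h4 : ∑ j ∈ Finset.range q, f (x + j * ω) =
          ∑ j ∈ Finset.range q, u (x + ω + j * ω) -
          2 * ∑ j ∈ Finset.range q, u (x + j * ω) +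
          ∑ j ∈ Finset.range q, u (x - ω + j * ω) := by
        rw [Finset.mul_sum, ← Finset.sum_sub_distrib, ← Finset.sum_add_distrib]
        refine Finset.sum_congr rfl fun j _ => ?_
        rw [hf, show x + j * ω + ω = x + ω + j * ω by ring,
          show x + j * ω - ω = x - ω + j * ω by ring]
      rw [h4, h1, h2, h3]
      ring
    have hsec : ∀ x, ‖(u (x + ω) - G (x + ω)) - 2 * (u x - G x) + (u (x - ω) - G (x - ω))‖ ≤
        2 * ε := by
      intro x
      have h1 : (u (x + ω) - G (x + ω)) - 2 * (u x - G x) + (u (x - ω) - G (x - ω)) =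
          (f x - g x) - (1 / (q:ℂ)) * ∑ j ∈ Finset.range q, (f (x + j * ω) - g (x + j * ω)) := by
        rw [Finset.sum_sub_distrib, hfsum x, zero_sub]
        have h2 := hG4 x
        have h3 := hf x
        linear_combination (-1 : ℂ) * h2 - h3
      rw [h1]
      have h2 : ‖(1 / (q:ℂ)) * ∑ j ∈ Finset.range q, (f (x + j * ω) - g (x + j * ω))‖ ≤ ε := by
        rw [norm_mul, norm_div, norm_one, Complex.norm_natCast]
        have h3 : ‖∑ j ∈ Finset.range q, (f (x + j * ω) - g (x + j * ω))‖ ≤ q * ε := by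
          refine (norm_sum_le _ _).trans ?_
          have h5 : ∀ j ∈ Finset.range q, ‖f (x + j * ω) - g (x + j * ω)‖ ≤ ε :=
            fun j _ => hfg (x + j * ω)
          refine (Finset.sum_le_sum h5).trans ?_
          simp
        calc 1 / (q:ℝ) * ‖∑ j ∈ Finset.range q, (f (x + j * ω) - g (x + j * ω))‖ ≤
              1 / (q:ℝ) * (q * ε) := mul_le_mul_of_nonneg_left h3 (by positivity)
          _ = ε := by field_simp
      have h3 := norm_sub_le (f x - g x)
        ((1 / (q:ℂ)) * ∑ j ∈ Finset.range q, (f (x + j * ω) - g (x + j * ω)))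
      linarith [hfg x]
    have hpoin : ∀ x, ‖(u (x + ω) - G (x + ω)) - (u x - G x)‖ ≤ q * (2 * ε) ∧
        ‖u x - G x‖ ≤ (q:ℝ) ^ 2 * (2 * ε) := by
      intro x
      have h1 := discrete_poincare (a := fun j => u (x + j * ω) - G (x + j * ω)) (B := 2 * ε) hqN
        (fun j => ?_) ?_ (fun j => ?_)
      · have h2 := h1.1 0
        have h3 := h1.2 0
        simp only [zero_add, Nat.cast_one, one_mul, Nat.cast_zero, zero_mul, add_zero] at h2 h3
        exact ⟨h2, h3⟩
      · have h4 : x + ((j + q : ℕ) : ℝ) * ω = x + j * ω + ((p : ℤ) : ℝ) * 1 := by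
          push_cast
          linear_combination hqω
        have h5 := (hHp.int_mul (p : ℤ)) (x + j * ω)
        rw [← h4] at h5
        exact h5
      · exact hHorb x
      · have h4 := hsec (x + ((j + 1 : ℕ) : ℝ) * ω)
        rw [show x + ((j + 1 : ℕ) : ℝ) * ω + ω = x + ((j + 2 : ℕ) : ℝ) * ω by push_cast; ring,
          show x + ((j + 1 : ℕ) : ℝ) * ω - ω = x + (j : ℝ) * ω by push_cast; ring] at h4
        exact h4
    have hq1 : (q:ℝ) ≤ 2 / ω := by
      rw [le_div_iff₀ hω0, hqω]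
      exact hp2
    refine ⟨G, m, ε, hm, hε, hG1, hG2, fun x => ?_, fun x => ?_, hle⟩
    · refine (hpoin x).2.trans ?_
      have h1 : (q:ℝ) ^ 2 ≤ (2 / ω) ^ 2 := by gcongr
      calc (q:ℝ) ^ 2 * (2 * ε) ≤ (2 / ω) ^ 2 * (2 * ε) :=
            mul_le_mul_of_nonneg_right h1 (by positivity)
        _ = 8 * ε / ω ^ 2 := by ring
    · have h1 : (u (x + ω) - u x) / (ω : ℂ) - (G (x + ω) - G x) / (ω : ℂ) =
          ((u (x + ω) - G (x + ω)) - (u x - G x)) / (ω : ℂ) := by ring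
      rw [h1, norm_div, Complex.norm_real, Real.norm_of_nonneg hω0.le]
      calc ‖(u (x + ω) - G (x + ω)) - (u x - G x)‖ / ω ≤ (q * (2 * ε)) / ω :=
            div_le_div_of_nonneg_right (hpoin x).1 hω0.le
        _ ≤ ((2 / ω) * (2 * ε)) / ω := by gcongr
        _ = 4 * ε / ω ^ 2 := by ring
  have hδ' : ∀ δ > 0, 0 < δ * ω ^ 2 / 16 := fun δ hδ => by positivity
  constructor
  · refine ⟨hu, hup, fun δ hδ => ?_⟩
    obtain ⟨G, m, ε, hm, hε, hG1, -, h1, -, hle⟩ := core _ (hδ' δ hδ)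
    refine ⟨G, m / (4 * ω ^ 2), 8 * ε / ω ^ 2, by positivity, by positivity, hG1, h1, ?_⟩
    have hεη : 0 ≤ ε / η := by positivity
    have h2 : 12 * (m / (4 * ω ^ 2)) + 8 * ε / ω ^ 2 / η ≤ 16 / ω ^ 2 * (12 * m + ε / η) := by
      have h3 : 16 / ω ^ 2 * (12 * m + ε / η) - (12 * (m / (4 * ω ^ 2)) + 8 * ε / ω ^ 2 / η) =
          (189 * m + 8 * (ε / η)) / ω ^ 2 := by
        field_simp
        ring
      have h4 : 0 ≤ (189 * m + 8 * (ε / η)) / ω ^ 2 := by positivity
      linarith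
    have h3 : 16 / ω ^ 2 * (12 * m + ε / η) ≤ 16 / ω ^ 2 * (M + δ * ω ^ 2 / 16) :=
      mul_le_mul_of_nonneg_left hle (by positivity)
    have h4 : 16 / ω ^ 2 * (M + δ * ω ^ 2 / 16) = 16 / ω ^ 2 * M + δ := by
      field_simp
    linarith
  · refine ⟨?_, fun x => ?_, fun δ hδ => ?_⟩
    · exact ((hu.comp (continuous_id.add continuous_const)).sub hu).div_const _
    · have e1 : x + 1 + ω = x + ω + 1 := by ring
      simp only [e1, hup (x + ω), hup x]
    · obtain ⟨G, m, ε, hm, hε, -, hG2, -, h1, hle⟩ := core _ (hδ' δ hδ)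
      refine ⟨_, m / (2 * ω ^ 2), 4 * ε / ω ^ 2, by positivity, by positivity, hG2, h1, ?_⟩
      have hεη : 0 ≤ ε / η := by positivity
      have h2 : 12 * (m / (2 * ω ^ 2)) + 4 * ε / ω ^ 2 / η ≤ 16 / ω ^ 2 * (12 * m + ε / η) := by
        have h3 : 16 / ω ^ 2 * (12 * m + ε / η) - (12 * (m / (2 * ω ^ 2)) + 4 * ε / ω ^ 2 / η) =
            (186 * m + 12 * (ε / η)) / ω ^ 2 := by
          field_simp
          ring
        have h4 : 0 ≤ (186 * m + 12 * (ε / η)) / ω ^ 2 := by positivity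
        linarith
      have h3 : 16 / ω ^ 2 * (12 * m + ε / η) ≤ 16 / ω ^ 2 * (M + δ * ω ^ 2 / 16) :=
        mul_le_mul_of_nonneg_left hle (by positivity)
      have h4 : 16 / ω ^ 2 * (M + δ * ω ^ 2 / 16) = 16 / ω ^ 2 * M + δ := by
        field_simp
      linarith

end Pool.Agent.MP_ae5b4e_an_RG
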