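import Mathlib
import Pool.Agent.Lib.MP_ae5b4e_an_RG.Bda

/-!
# MP_ae5b4e_an, project REG: the linear part: integrals and Fourier coefficients (section 6)

Text: `/team-store/POR_REG.md`.
-/

noncomputable section

namespace Pool.Agent.MP_ae5b4e_an_RG

open Real Set Filter Topology MeasureTheory intervalIntegral

/-- iterated integral to a weighted single integral -/
private lemma dbl {h : ℝ → ℝ} (hh : Continuous h) :
    (∫ σ in (0:ℝ)..1, ∫ s in (0:ℝ)..σ, h s) = ∫ s in (0:ℝ)..1, (1 - s) * h s := by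
  have hd : ∀ σ : ℝ, HasDerivAt (fun σ => ∫ s in (0:ℝ)..σ, h s) (h σ) σ := fun σ =>
    (hh.integral_hasStrictDerivAt 0 σ).hasDerivAt
  have hc : Continuous (fun σ => ∫ s in (0:ℝ)..σ, h s) :=
    continuous_iff_continuousAt.2 fun σ => (hd σ).continuousAt
  have key : ∀ σ : ℝ, HasDerivAt (fun σ => (1 - σ) * ∫ s in (0:ℝ)..σ, h s)
      (-(∫ s in (0:ℝ)..σ, h s) + (1 - σ) * h σ) σ := by
    intro σ
    have h1 : HasDerivAt (fun σ : ℝ => 1 - σ) (-1) σ := by
      simpa using (hasDerivAt_id σ).const_sub 1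
    have h2 := h1.mul (hd σ)
    refine h2.congr_deriv ?_
    ring
  have hI := integral_eq_sub_of_hasDerivAt (a := 0) (b := 1) (fun x _ => key x)
    ((Continuous.intervalIntegrable (by fun_prop) _ _))
  have hcn : Continuous (fun σ => -∫ s in (0:ℝ)..σ, h s) := hc.neg
  rw [intervalIntegral.integral_add (hcn.intervalIntegrable _ _)
    ((by fun_prop : Continuous fun σ => (1 - σ) * h σ).intervalIntegrable _ _),
    intervalIntegral.integral_neg] at hI
  simp at hI
  linarith

/-- the functional `G(1) - 2 ∫ G` -/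
lemma lin_id {a b : ℝ → ℝ} (ha : Continuous a) (hb : Continuous b) :
    (∫ s in (0:ℝ)..1, ∫ s' in (0:ℝ)..s, (a s + b s') * (2 * s')) -
      2 * (∫ σ in (0:ℝ)..1, ∫ s in (0:ℝ)..σ, ∫ s' in (0:ℝ)..s, (a s + b s') * (2 * s')) =
    (∫ s in (0:ℝ)..1, (2 * s - 1) * s ^ 2 * a s) +
      ∫ s in (0:ℝ)..1, 2 * s ^ 2 * (1 - s) * b s := by
  set B : ℝ → ℝ := fun s => ∫ s' in (0:ℝ)..s, 2 * s' * b s' with hB
  have hdB : ∀ σ : ℝ, HasDerivAt B (2 * σ * b σ) σ := fun σ =>
    ((by fun_prop : Continuous fun s' : ℝ => 2 * s' * b s').integral_hasStrictDerivAt 0 σ).hasDerivAt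
  have hcB : Continuous B := continuous_iff_continuousAt.2 fun σ => (hdB σ).continuousAt
  have hin : ∀ s : ℝ, (∫ s' in (0:ℝ)..s, (a s + b s') * (2 * s')) = a s * s ^ 2 + B s := by
    intro s
    have e1 : (fun s' : ℝ => (a s + b s') * (2 * s')) =
        fun s' : ℝ => a s * (2 * s') + 2 * s' * b s' := by
      funext s'
      ring
    rw [e1, intervalIntegral.integral_add
      ((by fun_prop : Continuous fun s' : ℝ => a s * (2 * s')).intervalIntegrable _ _)
      ((by fun_prop : Continuous fun s' : ℝ => 2 * s' * b s').intervalIntegrable _ _),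
      intervalIntegral.integral_const_mul, intervalIntegral.integral_const_mul, integral_id]
    simp only [hB]
    ring
  simp only [hin]
  have hhc : Continuous fun s : ℝ => a s * s ^ 2 + B s := by fun_prop
  rw [dbl hhc, ← intervalIntegral.integral_const_mul,
    ← intervalIntegral.integral_sub (hhc.intervalIntegrable _ _)
      ((by fun_prop : Continuous fun s : ℝ => 2 * ((1 - s) * (a s * s ^ 2 + B s))).intervalIntegrable
        _ _)]
  have e2 : (fun s : ℝ => (a s * s ^ 2 + B s) - 2 * ((1 - s) * (a s * s ^ 2 + B s))) =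
      fun s : ℝ => (2 * s - 1) * s ^ 2 * a s + (2 * s - 1) * B s := by
    funext s
    ring
  rw [e2, intervalIntegral.integral_add
    ((by fun_prop : Continuous fun s : ℝ => (2 * s - 1) * s ^ 2 * a s).intervalIntegrable _ _)
    ((by fun_prop : Continuous fun s : ℝ => (2 * s - 1) * B s).intervalIntegrable _ _)]
  congr 1
  have key : ∀ σ : ℝ, HasDerivAt (fun σ => (σ ^ 2 - σ) * B σ)
      ((2 * σ - 1) * B σ - 2 * σ ^ 2 * (1 - σ) * b σ) σ := by
    intro σ
    have h1 : HasDerivAt (fun σ : ℝ => σ ^ 2 - σ) (2 * σ - 1) σ := by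
      have h0 := (hasDerivAt_pow 2 σ).sub (hasDerivAt_id σ)
      refine h0.congr_deriv ?_
      norm_num
    have h2 := h1.mul (hdB σ)
    refine h2.congr_deriv ?_
    ring
  have hI := integral_eq_sub_of_hasDerivAt (a := 0) (b := 1) (fun x _ => key x)
    ((Continuous.intervalIntegrable (by fun_prop) _ _))
  rw [intervalIntegral.integral_sub
    ((by fun_prop : Continuous fun σ : ℝ => (2 * σ - 1) * B σ).intervalIntegrable _ _)
    ((by fun_prop : Continuous fun σ : ℝ => 2 * σ ^ 2 * (1 - σ) * b σ).intervalIntegrable _ _)] at hI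
  simp at hI
  linarith

lemma K1_bound (t : ℝ) (ht : t ∈ Icc (0:ℝ) 1) : |K1 t| ≤ 1 := by
  obtain ⟨h0, h1⟩ := ht
  unfold K1
  rw [abs_neg, abs_mul]
  have e1 : |1 - 2 * t| ≤ 1 := abs_le.2 ⟨by linarith, by linarith⟩
  have e2 : |(1 - t) ^ 2| ≤ 1 := by
    rw [abs_of_nonneg (sq_nonneg _)]
    nlinarith
  calc |1 - 2 * t| * |(1 - t) ^ 2| ≤ 1 * 1 :=
        mul_le_mul e1 e2 (abs_nonneg _) zero_le_one
    _ = 1 := one_mul 1

lemma K2_bound (t : ℝ) (ht : t ∈ Icc (0:ℝ) 1) : |K2 t| ≤ 1 := by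
  obtain ⟨h0, h1⟩ := ht
  unfold K2
  rw [abs_neg, abs_of_nonneg (by positivity)]
  have e1 : 2 * t * (1 - t) ≤ 1 := by nlinarith [sq_nonneg (2 * t - 1)]
  have e0 : 0 ≤ 2 * t * (1 - t) := mul_nonneg (by linarith) (by linarith)
  nlinarith

private lemma sin_bound_aux {K : ℝ → ℝ} (hK : ∀ t ∈ Icc (0:ℝ) 1, |K t| ≤ 1) (θ : ℝ) :
    |∫ t in (0:ℝ)..1, K t * Real.sin (θ * t)| ≤ min 1 |θ| := by
  refine le_min ?_ ?_
  · have := intervalIntegral.norm_integral_le_of_norm_le_const (a := 0) (b := 1) (C := 1)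
      (f := fun t => K t * Real.sin (θ * t)) (by
        intro t ht
        rw [uIoc_of_le zero_le_one] at ht
        rw [Real.norm_eq_abs, abs_mul]
        calc |K t| * |Real.sin (θ * t)| ≤ 1 * 1 :=
              mul_le_mul (hK t ⟨ht.1.le, ht.2⟩) (Real.abs_sin_le_one _) (abs_nonneg _) zero_le_one
          _ = 1 := one_mul 1)
    simpa using this
  · have := intervalIntegral.norm_integral_le_of_norm_le_const (a := 0) (b := 1) (C := |θ|)
      (f := fun t => K t * Real.sin (θ * t)) (by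
        intro t ht
        rw [uIoc_of_le zero_le_one] at ht
        rw [Real.norm_eq_abs, abs_mul]
        have h2 : |Real.sin (θ * t)| ≤ |θ| := by
          refine le_trans Real.abs_sin_le_abs ?_
          rw [abs_mul, abs_of_pos ht.1]
          exact mul_le_of_le_one_right (abs_nonneg _) ht.2
        calc |K t| * |Real.sin (θ * t)| ≤ 1 * |θ| :=
              mul_le_mul (hK t ⟨ht.1.le, ht.2⟩) h2 (abs_nonneg _) zero_le_one
          _ = |θ| := one_mul _)
    simpa using this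

lemma K1_sin_bound (θ : ℝ) : |∫ t in (0:ℝ)..1, K1 t * Real.sin (θ * t)| ≤ min 1 |θ| :=
  sin_bound_aux K1_bound θ

lemma K2_sin_bound (θ : ℝ) : |∫ t in (0:ℝ)..1, K2 t * Real.sin (θ * t)| ≤ min 1 |θ| :=
  sin_bound_aux K2_bound θ

private lemma cubic_sin (c0 c1 c2 c3 κ : ℝ) (hκ : κ ≠ 0) (hs : Real.sin κ = 0)
    (hc : Real.cos κ = 1) :
    ∫ t in (0:ℝ)..1, (c0 + c1 * t + c2 * t ^ 2 + c3 * t ^ 3) * Real.sin (κ * t) =
      -(c1 + c2 + c3) / κ + 6 * c3 / κ ^ 3 := by
  have hd : ∀ t : ℝ, HasDerivAt (fun t : ℝ =>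
      -(c0 + c1 * t + c2 * t ^ 2 + c3 * t ^ 3) * Real.cos (κ * t) / κ
      + (c1 + 2 * c2 * t + 3 * c3 * t ^ 2) * Real.sin (κ * t) / κ ^ 2
      + (2 * c2 + 6 * c3 * t) * Real.cos (κ * t) / κ ^ 3
      - 6 * c3 * Real.sin (κ * t) / κ ^ 4)
      ((c0 + c1 * t + c2 * t ^ 2 + c3 * t ^ 3) * Real.sin (κ * t)) t := by
    intro t
    have hk : HasDerivAt (fun t : ℝ => κ * t) κ t := by
      simpa using (hasDerivAt_id t).const_mul κ
    have hS : HasDerivAt (fun t : ℝ => Real.sin (κ * t)) (Real.cos (κ * t) * κ) t := hk.sin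
    have hC : HasDerivAt (fun t : ℝ => Real.cos (κ * t)) (-Real.sin (κ * t) * κ) t := hk.cos
    have hp0 : HasDerivAt (fun t : ℝ => c0 + c1 * t + c2 * t ^ 2 + c3 * t ^ 3)
        (c1 + 2 * c2 * t + 3 * c3 * t ^ 2) t := by
      have := (((hasDerivAt_id t).const_mul c1).const_add c0).add
        ((hasDerivAt_pow 2 t).const_mul c2) |>.add ((hasDerivAt_pow 3 t).const_mul c3)
      refine this.congr_deriv ?_
      norm_num
      ring
    have hp1 : HasDerivAt (fun t : ℝ => c1 + 2 * c2 * t + 3 * c3 * t ^ 2)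
        (2 * c2 + 6 * c3 * t) t := by
      have := (((hasDerivAt_id t).const_mul (2 * c2)).const_add c1).add
        ((hasDerivAt_pow 2 t).const_mul (3 * c3))
      refine this.congr_deriv ?_
      norm_num
      ring
    have hp2 : HasDerivAt (fun t : ℝ => 2 * c2 + 6 * c3 * t) (6 * c3) t := by
      have := ((hasDerivAt_id t).const_mul (6 * c3)).const_add (2 * c2)
      refine this.congr_deriv ?_
      norm_num
    have h1 := ((hp0.neg).mul hC).div_const κ
    have h2 := (hp1.mul hS).div_const (κ ^ 2)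
    have h3 := (hp2.mul hC).div_const (κ ^ 3)
    have h4 := (hS.const_mul (6 * c3)).div_const (κ ^ 4)
    have h5 := ((h1.add h2).add h3).sub h4
    refine h5.congr_deriv ?_
    simp only [Pi.neg_apply]
    field_simp
    ring
  have hI := integral_eq_sub_of_hasDerivAt (a := 0) (b := 1) (fun x _ => hd x)
    ((Continuous.intervalIntegrable (by fun_prop) _ _))
  rw [hI]
  simp [hs, hc]
  field_simp
  ring

private lemma kap (P : ℕ) (hP : 1 ≤ P) : (2 * π * P : ℝ) ≠ 0 ∧ Real.sin (2 * π * P) = 0 ∧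
    Real.cos (2 * π * P) = 1 := by
  have hP' : (P : ℝ) ≠ 0 := by
    exact_mod_cast (by omega : P ≠ 0)
  refine ⟨by positivity, ?_, ?_⟩
  · have := Real.sin_nat_mul_pi (2 * P)
    push_cast at this
    rw [← this]
    congr 1
    ring
  · have := Real.cos_nat_mul_two_pi P
    rw [← this]
    congr 1
    ring

lemma K1_sin (P : ℕ) (hP : 1 ≤ P) : ∫ t in (0:ℝ)..1, K1 t * Real.sin (2 * π * P * t) =
    -(1 / (2 * π * P)) + 12 / (2 * π * P) ^ 3 := by
  obtain ⟨h0, hs, hc⟩ := kap P hP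
  have := cubic_sin (-1) 4 (-5) 2 _ h0 hs hc
  have e1 : (fun t : ℝ => K1 t * Real.sin (2 * π * P * t)) =
      fun t : ℝ => (-1 + 4 * t + (-5) * t ^ 2 + 2 * t ^ 3) * Real.sin (2 * π * P * t) := by
    funext t
    unfold K1
    ring
  rw [e1, this]
  ring

lemma K2_sin (P : ℕ) (hP : 1 ≤ P) : ∫ t in (0:ℝ)..1, K2 t * Real.sin (2 * π * P * t) =
    -(12 / (2 * π * P) ^ 3) := by
  obtain ⟨h0, hs, hc⟩ := kap P hP
  have := cubic_sin 0 (-2) 4 (-2) _ h0 hs hc
  have e1 : (fun t : ℝ => K2 t * Real.sin (2 * π * P * t)) =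
      fun t : ℝ => (0 + (-2) * t + 4 * t ^ 2 + (-2) * t ^ 3) * Real.sin (2 * π * P * t) := by
    funext t
    unfold K2
    ring
  rw [e1, this]
  ring

@[fun_prop]
private lemma continuous_K1 : Continuous K1 := by
  unfold K1
  fun_prop

@[fun_prop]
private lemma continuous_K2 : Continuous K2 := by
  unfold K2
  fun_prop

lemma continuous_RL {R1 R2 : ℝ → ℝ} (h1 : Continuous R1) (h2 : Continuous R2) (ω : ℝ) :
    Continuous (RL R1 R2 ω) := by
  unfold RL
  refine continuous_const.mul ?_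
  refine intervalIntegral.continuous_parametric_intervalIntegral_of_continuous' ?_ 0 1
  fun_prop

lemma periodic_RL {R1 R2 : ℝ → ℝ} (h1 : Function.Periodic R1 1) (h2 : Function.Periodic R2 1)
    (ω : ℝ) : Function.Periodic (RL R1 R2 ω) 1 := by
  intro x
  unfold RL
  congr 1
  congr 1
  funext t
  have a1 : R1 (x + 1 + t * ω) = R1 (x + t * ω) := by
    rw [show x + 1 + t * ω = (x + t * ω) + 1 by ring, h1]
  have a2 : R1 (x + 1 - t * ω) = R1 (x - t * ω) := by
    rw [show x + 1 - t * ω = (x - t * ω) + 1 by ring, h1]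
  have a3 : R2 (x + 1 + t * ω) = R2 (x + t * ω) := by
    rw [show x + 1 + t * ω = (x + t * ω) + 1 by ring, h2]
  have a4 : R2 (x + 1 - t * ω) = R2 (x - t * ω) := by
    rw [show x + 1 - t * ω = (x - t * ω) + 1 by ring, h2]
  rw [a1, a2, a3, a4]

private lemma e_cont (k : ℤ) : Continuous (e k) := by
  unfold e
  fun_prop

private lemma e_add' (k : ℤ) (x y : ℝ) : e k (x + y) = e k x * e k y := by
  unfold e
  rw [← Complex.exp_add]
  congr 1
  push_cast
  ring

private lemma e_one' (k : ℤ) : e k 1 = 1 := by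
  unfold e
  have := Complex.exp_int_mul_two_pi_mul_I k
  rw [← this]
  congr 1
  push_cast
  ring

private lemma e_negk (k : ℤ) (x : ℝ) : e (-k) x * e k x = 1 := by
  unfold e
  rw [← Complex.exp_add, ← Complex.exp_zero]
  congr 1
  push_cast
  ring

/-- shift of Fourier coefficients -/
private lemma rc_shift {R : ℝ → ℝ} (pR : Function.Periodic R 1) (k : ℤ)
    (y : ℝ) : ∫ x in (0:ℝ)..1, (R (x + y) : ℂ) * e (-k) x = e k y * rc R k := by
  have hper : Function.Periodic (fun x : ℝ => (R x : ℂ) * e (-k) x) 1 := by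
    intro x
    show (R (x + 1) : ℂ) * e (-k) (x + 1) = (R x : ℂ) * e (-k) x
    rw [pR x, e_add', e_one', mul_one]
  have e1 : (fun x : ℝ => (R (x + y) : ℂ) * e (-k) x) =
      fun x : ℝ => e k y * ((R (x + y) : ℂ) * e (-k) (x + y)) := by
    funext x
    rw [e_add']
    have := e_negk k y
    calc (R (x + y) : ℂ) * e (-k) x = (R (x + y) : ℂ) * e (-k) x * (e (-k) y * e k y) := by
          rw [this, mul_one]
      _ = _ := by ring
  rw [e1, intervalIntegral.integral_const_mul]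
  congr 1
  have e2 := intervalIntegral.integral_comp_add_right (a := 0) (b := 1)
    (fun x : ℝ => (R x : ℂ) * e (-k) x) y
  rw [e2]
  have e3 := hper.intervalIntegral_add_eq y 0
  unfold rc fc
  rw [zero_add, add_comm 1 y, e3, zero_add]

private lemma swap01 {f : ℝ → ℝ → ℂ} (hf : Continuous (Function.uncurry f)) :
    (∫ x in (0:ℝ)..1, ∫ t in (0:ℝ)..1, f x t) = ∫ t in (0:ℝ)..1, ∫ x in (0:ℝ)..1, f x t := by
  simp only [intervalIntegral.integral_of_le (zero_le_one' ℝ)]
  refine MeasureTheory.integral_integral_swap ?_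
  rw [Measure.prod_restrict]
  have h1 : IntegrableOn (Function.uncurry f) (Icc (0:ℝ) 1 ×ˢ Icc (0:ℝ) 1)
      ((volume : Measure ℝ).prod volume) :=
    hf.continuousOn.integrableOn_compact (isCompact_Icc.prod isCompact_Icc)
  exact h1.mono_set (Set.prod_mono Ioc_subset_Icc_self Ioc_subset_Icc_self)

private lemma e_sub_e (k : ℤ) (y : ℝ) :
    e k y - e k (-y) = 2 * Complex.I * (Real.sin (2 * π * k * y) : ℝ) := by
  unfold e
  have h1 : (2 * π * Complex.I * k * y : ℂ) = ((2 * π * k * y : ℝ) : ℂ) * Complex.I := by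
    push_cast
    ring
  have h2 : (2 * π * Complex.I * k * ((-y : ℝ) : ℂ) : ℂ) =
      -(((2 * π * k * y : ℝ) : ℂ) * Complex.I) := by
    push_cast
    ring
  rw [h1, h2, Complex.exp_mul_I, ← neg_mul, Complex.exp_mul_I, Complex.cos_neg, Complex.sin_neg]
  push_cast
  ring

/-- the part of (6.2) coming from one function -/
private lemma rc_part {R : ℝ → ℝ} (hR : Continuous R) (pR : Function.Periodic R 1) {K : ℝ → ℝ}
    (hK : Continuous K) (ω : ℝ) (k : ℤ) :
    (∫ x in (0:ℝ)..1, (∫ t in (0:ℝ)..1, ((K t * (R (x + t * ω) - R (x - t * ω)) : ℝ) : ℂ))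
      * e (-k) x) =
    2 * Complex.I * (rc R k *
      ((∫ t in (0:ℝ)..1, K t * Real.sin (2 * π * k * ω * t) : ℝ) : ℂ)) := by
  have hec := e_cont (-k)
  have e1 : ∀ x : ℝ, (∫ t in (0:ℝ)..1, ((K t * (R (x + t * ω) - R (x - t * ω)) : ℝ) : ℂ))
      * e (-k) x = ∫ t in (0:ℝ)..1, ((K t * (R (x + t * ω) - R (x - t * ω)) : ℝ) : ℂ)
      * e (-k) x := fun x => (intervalIntegral.integral_mul_const _ _).symm
  simp only [e1]
  rw [swap01 (f := fun x t => ((K t * (R (x + t * ω) - R (x - t * ω)) : ℝ) : ℂ) * e (-k) x)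
    (by
      have : Continuous fun p : ℝ × ℝ =>
          ((K p.2 * (R (p.1 + p.2 * ω) - R (p.1 - p.2 * ω)) : ℝ) : ℂ) * e (-k) p.1 := by
        have h0 : Continuous fun p : ℝ × ℝ => K p.2 * (R (p.1 + p.2 * ω) - R (p.1 - p.2 * ω)) := by
          fun_prop
        exact (Complex.continuous_ofReal.comp h0).mul (hec.comp continuous_fst)
      exact this)]
  have e2 : ∀ t : ℝ, (∫ x in (0:ℝ)..1, ((K t * (R (x + t * ω) - R (x - t * ω)) : ℝ) : ℂ)
      * e (-k) x) = (2 * Complex.I * rc R k) *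
        ((K t * Real.sin (2 * π * k * ω * t) : ℝ) : ℂ) := by
    intro t
    have e3 : (fun x : ℝ => ((K t * (R (x + t * ω) - R (x - t * ω)) : ℝ) : ℂ) * e (-k) x) =
        fun x : ℝ => (K t : ℂ) * ((R (x + t * ω) : ℂ) * e (-k) x -
          (R (x + (-(t * ω))) : ℂ) * e (-k) x) := by
      funext x
      rw [← sub_eq_add_neg x (t * ω)]
      push_cast
      ring
    have c1 : Continuous fun x : ℝ => (R (x + t * ω) : ℂ) * e (-k) x :=
      (Complex.continuous_ofReal.comp (by fun_prop)).mul hec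
    have c2 : Continuous fun x : ℝ => (R (x + (-(t * ω))) : ℂ) * e (-k) x :=
      (Complex.continuous_ofReal.comp (by fun_prop)).mul hec
    rw [e3, intervalIntegral.integral_const_mul, intervalIntegral.integral_sub
      (c1.intervalIntegrable _ _) (c2.intervalIntegrable _ _), rc_shift pR, rc_shift pR,
      ← sub_mul, e_sub_e, show 2 * π * (k:ℝ) * (t * ω) = 2 * π * k * ω * t by ring]
    push_cast
    ring
  simp only [e2]
  rw [intervalIntegral.integral_const_mul, intervalIntegral.integral_ofReal]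
  ring

/-- (6.2) -/
theorem rc_RL {R1 R2 : ℝ → ℝ} (h1 : Continuous R1) (h2 : Continuous R2)
    (p1 : Function.Periodic R1 1) (p2 : Function.Periodic R2 1) (ω : ℝ) (k : ℤ) :
    rc (RL R1 R2 ω) k = Complex.I * (ω:ℂ) ^ 3 *
      (rc R1 k * ((∫ t in (0:ℝ)..1, K1 t * Real.sin (2 * π * k * ω * t) : ℝ) : ℂ) +
       rc R2 k * ((∫ t in (0:ℝ)..1, K2 t * Real.sin (2 * π * k * ω * t) : ℝ) : ℂ)) := by
  have hec := e_cont (-k)
  have q1 := rc_part h1 p1 continuous_K1 ω k
  have q2 := rc_part h2 p2 continuous_K2 ω k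
  have b1 : ∀ x : ℝ, ((RL R1 R2 ω x : ℝ) : ℂ) * e (-k) x = ((ω:ℂ) ^ 3 / 2) *
      ((∫ t in (0:ℝ)..1, ((K1 t * (R1 (x + t * ω) - R1 (x - t * ω)) : ℝ) : ℂ)) * e (-k) x +
       (∫ t in (0:ℝ)..1, ((K2 t * (R2 (x + t * ω) - R2 (x - t * ω)) : ℝ) : ℂ)) * e (-k) x) := by
    intro x
    unfold RL
    rw [intervalIntegral.integral_add
      ((by fun_prop : Continuous fun t : ℝ =>
        K1 t * (R1 (x + t * ω) - R1 (x - t * ω))).intervalIntegrable _ _)
      ((by fun_prop : Continuous fun t : ℝ =>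
        K2 t * (R2 (x + t * ω) - R2 (x - t * ω))).intervalIntegrable _ _),
      intervalIntegral.integral_ofReal, intervalIntegral.integral_ofReal]
    push_cast
    ring
  have c1 : Continuous fun x : ℝ =>
      (∫ t in (0:ℝ)..1, ((K1 t * (R1 (x + t * ω) - R1 (x - t * ω)) : ℝ) : ℂ)) * e (-k) x := by
    refine Continuous.mul ?_ hec
    refine intervalIntegral.continuous_parametric_intervalIntegral_of_continuous' ?_ 0 1
    exact Complex.continuous_ofReal.comp (by fun_prop)
  have c2 : Continuous fun x : ℝ =>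
      (∫ t in (0:ℝ)..1, ((K2 t * (R2 (x + t * ω) - R2 (x - t * ω)) : ℝ) : ℂ)) * e (-k) x := by
    refine Continuous.mul ?_ hec
    refine intervalIntegral.continuous_parametric_intervalIntegral_of_continuous' ?_ 0 1
    exact Complex.continuous_ofReal.comp (by fun_prop)
  show (∫ x in (0:ℝ)..1, ((RL R1 R2 ω x : ℝ) : ℂ) * e (-k) x) = _
  simp only [b1]
  rw [intervalIntegral.integral_const_mul, intervalIntegral.integral_add
    (c1.intervalIntegrable _ _) (c2.intervalIntegrable _ _), q1, q2]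
  ring

end Pool.Agent.MP_ae5b4e_an_RG
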