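import Mathlib
import Pool.Agent.Lib.MP_ae5b4e_an_RG.LinK

/-!
# MP_ae5b4e_an, project REG: LEMMA LIN (section 6)

Text: `/team-store/POR_REG.md`.
-/

noncomputable section

namespace Pool.Agent.MP_ae5b4e_an_RG

open Real Set Filter Topology MeasureTheory intervalIntegral

private lemma lin_e_apply (k : ℤ) (x : ℝ) :
    e k x = Complex.exp (2 * π * Complex.I * ((k * x : ℝ) : ℂ)) := by
  unfold e
  push_cast
  ring_nf

private lemma lin_congr {f g : ℤ → ℂ} {a : ℂ} (h : HasSum f a) (hfg : ∀ k, g k = f k) :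
    HasSum g a := by
  rwa [show g = f from funext hfg]

/-- a lower bound for chords -/
private lemma lin_chord {r : ℝ} (hr : |r| ≤ 1 / 2) :
    4 * |r| ≤ ‖Complex.exp (2 * π * Complex.I * (r : ℂ)) - 1‖ := by
  have h1 : ‖Complex.exp (2 * π * Complex.I * (r : ℂ)) - 1‖ = 2 * |Real.sin (π * r)| := by
    have h2 : (2 * π * Complex.I * (r : ℂ)) = Complex.I * ((2 * (π * r) : ℝ) : ℂ) := by
      push_cast
      ring
    rw [h2, Complex.norm_exp_I_mul_ofReal_sub_one]
    rw [show 2 * (π * r) / 2 = π * r by ring, norm_mul]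
    simp
  rw [h1]
  have h3 : |π * r| ≤ π / 2 := by
    rw [abs_mul, abs_of_pos Real.pi_pos]
    nlinarith [Real.pi_pos]
  have h4 := Real.mul_abs_le_abs_sin h3
  rw [abs_mul, abs_of_pos Real.pi_pos] at h4
  have h5 : 2 / π * (π * |r|) = 2 * |r| := by
    field_simp
  rw [h5] at h4
  linarith

/-- a number differing from an integer by at least `1 / q` -/
private lemma lin_far {p q : ℕ} (hpq : PQ p q) {k : ℤ} (hk : ¬ (q : ℤ) ∣ k) :
    2 * ((p:ℝ) / q) ≤ ‖e k ((p:ℝ) / q) - 1‖ := by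
  obtain ⟨hp, hq, hco⟩ := hpq
  have hq0 : (0:ℝ) < q := by
    have : 0 < q := by omega
    exact_mod_cast this
  set x : ℝ := (k:ℝ) * ((p:ℝ) / q) with hx
  set n : ℤ := round x with hn
  have hr : |x - n| ≤ 1 / 2 := abs_sub_round x
  have h1 : e k ((p:ℝ) / q) = Complex.exp (2 * π * Complex.I * ((x - n : ℝ) : ℂ)) := by
    rw [lin_e_apply, ← hx]
    have h2 : (2 * π * Complex.I * (x : ℂ)) =
        2 * π * Complex.I * ((x - n : ℝ) : ℂ) + n * (2 * π * Complex.I) := by
      push_cast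
      ring
    rw [h2, Complex.exp_add, Complex.exp_int_mul_two_pi_mul_I, mul_one]
  rw [h1]
  refine le_trans ?_ (lin_chord hr)
  have h2 : (1:ℝ) ≤ |((k * p - n * q : ℤ) : ℝ)| := by
    have h3 : k * p - n * q ≠ 0 := by
      intro h4
      apply hk
      have h5 : (q:ℤ) ∣ k * p := ⟨n, by linarith⟩
      have h6 : IsCoprime (q:ℤ) (p:ℤ) := by
        rw [Nat.isCoprime_iff_coprime]
        exact hco.symm
      exact h6.dvd_of_dvd_mul_right h5
    have h4 : 1 ≤ |k * p - n * q| := Int.one_le_abs h3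
    have h5 : ((1:ℤ):ℝ) ≤ ((|k * p - n * q| : ℤ) : ℝ) := Int.cast_le.2 h4
    rw [Int.cast_abs, Int.cast_one] at h5
    exact h5
  have h3 : ((k * p - n * q : ℤ) : ℝ) = (x - n) * q := by
    rw [hx]
    push_cast
    field_simp
  rw [h3, abs_mul, abs_of_pos hq0] at h2
  have h4 : 1 / (q:ℝ) ≤ |x - n| := by
    rw [div_le_iff₀ hq0]
    exact h2
  have h5 : (p:ℝ) ≤ 2 := by
    rcases hp with h | h <;> rw [h] <;> norm_num
  have h6 : (p:ℝ) / q ≤ 2 / q := div_le_div_of_nonneg_right h5 hq0.le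
  have h7 : 2 / (q:ℝ) = 2 * (1 / q) := by ring
  linarith

private lemma lin_pow (k : ℤ) (ω : ℝ) (j : ℕ) : e k (j * ω) = e k ω ^ j := by
  unfold e
  rw [← Complex.exp_nat_mul]
  congr 1
  push_cast
  ring

/-- the sum of a character along an orbit -/
private lemma lin_orbit {p q : ℕ} (hpq : PQ p q) (k : ℤ) :
    ∑ j ∈ Finset.range q, e k (j * ((p:ℝ) / q)) = if (q:ℤ) ∣ k then (q:ℂ) else 0 := by
  have hq0 : (0:ℝ) < q := by
    have : 0 < q := by have := hpq.2.1; omega
    exact_mod_cast this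
  have hqq : (q:ℝ) * ((p:ℝ) / q) = p := by field_simp
  have hone : e k ((p:ℝ) / q) ^ q = 1 := by
    rw [← lin_pow, hqq]
    have := e_int k (p:ℤ)
    simpa using this
  simp only [lin_pow]
  split_ifs with h
  · obtain ⟨m, rfl⟩ := h
    have h1 : e ((q:ℤ) * m) ((p:ℝ) / q) = 1 := by
      have h2 : e ((q:ℤ) * m) ((p:ℝ) / q) = e m ((p:ℤ) : ℝ) := by
        rw [lin_e_apply, lin_e_apply]
        congr 3
        push_cast
        field_simp
      rw [h2, e_int]
    simp only [h1, one_pow, Finset.sum_const, Finset.card_range, nsmul_eq_mul, mul_one]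
  · have hne : e k ((p:ℝ) / q) ≠ 1 := by
      intro h1
      have h2 := lin_far hpq h
      rw [h1, sub_self, norm_zero] at h2
      have hp : (0:ℝ) < p := by
        rcases hpq.1 with h | h <;> rw [h] <;> norm_num
      have : 0 < (p:ℝ) / q := by positivity
      linarith
    rw [geom_sum_eq hne, hone, sub_self, zero_div]

/-- the linear part is the sum of its Fourier series -/
private lemma lin_hasSum {ρ : ℝ} {N : ℕ} {A : ℝ} {R1 R2 : ℝ → ℝ} (hρ : 0 ≤ ρ)
    (h1 : Dec ρ N A R1) (h2 : Dec ρ N A R2) (ω : ℝ) (x : ℝ) :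
    HasSum (fun k => rc (RL R1 R2 ω) k * e k x) ((RL R1 R2 ω x : ℝ) : ℂ) := by
  have hA : 0 ≤ A := h1.bd.nonneg
  have hs : ∀ R : ℝ → ℝ, Dec ρ N A R → Summable fun k => ‖rc R k‖ := by
    intro R hR
    refine Bd.summable (N := N) hρ hA fun k => ?_
    exact hR.bd.coeff hρ k
  have hs1 := hs R1 h1
  have hs2 := hs R2 h2
  -- the coefficients
  let b : ℤ → ℂ := fun k => (ω:ℂ) ^ 3 / 2 * ∫ t in (0:ℝ)..1,
    ((K1 t : ℂ) * rc R1 k + (K2 t : ℂ) * rc R2 k) * (e k (t * ω) - e k (-(t * ω)))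
  have hK1 : Continuous K1 := by unfold K1; fun_prop
  have hK2 : Continuous K2 := by unfold K2; fun_prop
  have hFc : ∀ k, Continuous fun t : ℝ =>
      ((K1 t : ℂ) * rc R1 k + (K2 t : ℂ) * rc R2 k) * (e k (t * ω) - e k (-(t * ω))) := by
    intro k
    have h3 := continuous_e k
    have h4 : Continuous fun t : ℝ => (K1 t : ℂ) := Complex.continuous_ofReal.comp hK1
    have h5 : Continuous fun t : ℝ => (K2 t : ℂ) := Complex.continuous_ofReal.comp hK2
    have h6 : Continuous fun t : ℝ => e k (t * ω) := h3.comp (continuous_id.mul continuous_const)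
    have h7 : Continuous fun t : ℝ => e k (-(t * ω)) :=
      h3.comp (continuous_id.mul continuous_const).neg
    exact ((h4.mul continuous_const).add (h5.mul continuous_const)).mul (h6.sub h7)
  have hFb : ∀ k, ∀ t ∈ Icc (0:ℝ) 1,
      ‖((K1 t : ℂ) * rc R1 k + (K2 t : ℂ) * rc R2 k) * (e k (t * ω) - e k (-(t * ω)))‖ ≤
        2 * (‖rc R1 k‖ + ‖rc R2 k‖) := by
    intro k t ht
    rw [norm_mul]
    have h3 : ‖(K1 t : ℂ) * rc R1 k + (K2 t : ℂ) * rc R2 k‖ ≤ ‖rc R1 k‖ + ‖rc R2 k‖ := by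
      refine (norm_add_le _ _).trans ?_
      rw [norm_mul, norm_mul, Complex.norm_real, Complex.norm_real]
      have h4 : ‖K1 t‖ ≤ 1 := K1_bound t ht
      have h5 : ‖K2 t‖ ≤ 1 := K2_bound t ht
      have h6 := mul_le_mul_of_nonneg_right h4 (norm_nonneg (rc R1 k))
      have h7 := mul_le_mul_of_nonneg_right h5 (norm_nonneg (rc R2 k))
      linarith
    have h4 : ‖e k (t * ω) - e k (-(t * ω))‖ ≤ 2 := by
      refine (norm_sub_le _ _).trans ?_
      rw [norm_e, norm_e]
      norm_num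
    have h5 := mul_le_mul h3 h4 (norm_nonneg _) (by positivity)
    linarith
  have hbb : Summable fun k => 2 * (‖rc R1 k‖ + ‖rc R2 k‖) := (hs1.add hs2).mul_left 2
  have key : ∀ y : ℝ, HasSum (fun k => b k * e k y) ((RL R1 R2 ω y : ℝ) : ℂ) := by
    intro y
    have h3 : HasSum (fun k => ∫ t in (0:ℝ)..1,
        ((K1 t : ℂ) * rc R1 k + (K2 t : ℂ) * rc R2 k) * (e k (t * ω) - e k (-(t * ω))) * e k y)
        (∫ t in (0:ℝ)..1, ((K1 t * (R1 (y + t * ω) - R1 (y - t * ω)) +
          K2 t * (R2 (y + t * ω) - R2 (y - t * ω)) : ℝ) : ℂ)) := by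
      refine intervalIntegral.hasSum_integral_of_dominated_convergence
        (fun k _ => 2 * (‖rc R1 k‖ + ‖rc R2 k‖)) ?_ ?_ ?_ ?_ ?_
      · intro k
        exact ((hFc k).mul continuous_const).aestronglyMeasurable
      · intro k
        refine Eventually.of_forall fun t ht => ?_
        rw [norm_mul, norm_e, mul_one]
        rw [uIoc_of_le zero_le_one] at ht
        exact hFb k t ⟨ht.1.le, ht.2⟩
      · exact Eventually.of_forall fun t _ => hbb
      · exact intervalIntegrable_const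
      · refine Eventually.of_forall fun t _ => ?_
        have h4 : ∀ z : ℝ, HasSum (fun k => rc R1 k * e k z) ((R1 z : ℝ) : ℂ) :=
          fun z => h1.hasSum_rc hρ z
        have h5 : ∀ z : ℝ, HasSum (fun k => rc R2 k * e k z) ((R2 z : ℝ) : ℂ) :=
          fun z => h2.hasSum_rc hρ z
        have h6 := (((h4 (y + t * ω)).sub (h4 (y - t * ω))).mul_left (K1 t : ℂ)).add
          (((h5 (y + t * ω)).sub (h5 (y - t * ω))).mul_left (K2 t : ℂ))
        have h7 : ((K1 t * (R1 (y + t * ω) - R1 (y - t * ω)) +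
            K2 t * (R2 (y + t * ω) - R2 (y - t * ω)) : ℝ) : ℂ) =
            (K1 t : ℂ) * ((R1 (y + t * ω) : ℂ) - (R1 (y - t * ω) : ℂ)) +
            (K2 t : ℂ) * ((R2 (y + t * ω) : ℂ) - (R2 (y - t * ω) : ℂ)) := by
          push_cast
          ring
        rw [h7]
        refine lin_congr h6 fun k => ?_
        have h8 : e k (y + t * ω) = e k (t * ω) * e k y := by rw [e_shift, mul_comm]
        have h9 : e k (y - t * ω) = e k (-(t * ω)) * e k y := by
          rw [sub_eq_add_neg, e_shift, mul_comm]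
        rw [h8, h9]
        ring
    have h4 := h3.mul_left ((ω:ℂ) ^ 3 / 2)
    have h5 : ((RL R1 R2 ω y : ℝ) : ℂ) = (ω:ℂ) ^ 3 / 2 * (∫ t in (0:ℝ)..1,
        ((K1 t * (R1 (y + t * ω) - R1 (y - t * ω)) +
          K2 t * (R2 (y + t * ω) - R2 (y - t * ω)) : ℝ) : ℂ)) := by
      rw [intervalIntegral.integral_ofReal]
      unfold RL
      push_cast
      ring
    rw [h5]
    refine lin_congr h4 fun k => ?_
    rw [intervalIntegral.integral_mul_const]
    ring
  have hsb : Summable fun k => ‖b k‖ := by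
    refine Summable.of_nonneg_of_le (fun k => norm_nonneg _) (fun k => ?_)
      (hbb.mul_left ‖(ω:ℂ) ^ 3 / 2‖)
    rw [norm_mul]
    refine mul_le_mul_of_nonneg_left ?_ (norm_nonneg _)
    have h3 := intervalIntegral.norm_integral_le_of_norm_le_const (a := (0:ℝ)) (b := 1)
      (f := fun t : ℝ =>
        ((K1 t : ℂ) * rc R1 k + (K2 t : ℂ) * rc R2 k) * (e k (t * ω) - e k (-(t * ω))))
      (C := 2 * (‖rc R1 k‖ + ‖rc R2 k‖)) (fun t ht => by
        rw [uIoc_of_le zero_le_one] at ht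
        exact hFb k t ⟨ht.1.le, ht.2⟩)
    simpa using h3
  have h3 : ∀ k, rc (RL R1 R2 ω) k = b k := fun k => fc_of_hasSum hsb key k
  simp only [h3]
  exact key x

/-- The solution of the linear equation without resonant modes. -/
theorem lemmaLin : ∃ C4 : ℝ, 0 < C4 ∧ ∀ (ρ : ℝ) (N p q : ℕ) (A : ℝ) (R1 R2 : ℝ → ℝ),
    0 ≤ ρ → PQ p q → 0 < A → Dec ρ N A R1 → Dec ρ N A R2 →
    ∃ g : ℝ → ℂ, Bd ρ N (C4 * A * ((p:ℝ) / q) ^ 2) g ∧
      Bd ρ N (C4 * A * ((p:ℝ) / q) ^ 2)
        (fun x => (g (x + (p:ℝ) / q) - g x) / (((p:ℝ) / q : ℝ) : ℂ)) ∧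
      (∀ x, ∑ j ∈ Finset.range q, g (x + j * ((p:ℝ) / q)) = 0) ∧
      ∀ x, g (x + (p:ℝ) / q) - 2 * g x + g (x - (p:ℝ) / q) =
        (RL R1 R2 ((p:ℝ) / q) x : ℂ) -
          (1 / (q:ℂ)) * ∑ j ∈ Finset.range q, (RL R1 R2 ((p:ℝ) / q) (x + j * ((p:ℝ) / q)) : ℂ) := by
  refine ⟨4, by norm_num, ?_⟩
  intro ρ N p q A R1 R2 hρ hpq hA hR1 hR2
  have hq0 : (0:ℝ) < q := by
    have : 0 < q := by have := hpq.2.1; omega
    exact_mod_cast this
  have hp0 : (0:ℝ) < p := by
    rcases hpq.1 with h | h <;> rw [h] <;> norm_num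
  set ω : ℝ := (p:ℝ) / q with hω
  have hω0 : 0 < ω := by positivity
  -- coefficients of the linear part
  set c : ℤ → ℂ := fun k => rc (RL R1 R2 ω) k with hc
  have hcs : ∀ x, HasSum (fun k => c k * e k x) ((RL R1 R2 ω x : ℝ) : ℂ) := fun x =>
    lin_hasSum hρ hR1 hR2 ω x
  have hV3 : ∀ k, 0 < V ρ N 3 k := fun k => V_pos ρ N 3 k
  have hV2 : ∀ k, 0 < V ρ N 2 k := fun k => V_pos ρ N 2 k
  have hcb : ∀ k, ‖c k‖ ≤ 2 * A * ω ^ 3 * min 1 (2 * π * |(k:ℝ)| * ω) / V ρ N 3 k := by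
    intro k
    have h1 : c k = _ := rc_RL (hR1.continuous hρ) (hR2.continuous hρ) hR1.periodic hR2.periodic ω k
    rw [h1, norm_mul]
    have h2 : ‖Complex.I * (ω:ℂ) ^ 3‖ = ω ^ 3 := by
      rw [norm_mul, Complex.norm_I, one_mul, norm_pow, Complex.norm_real, Real.norm_of_nonneg hω0.le]
    rw [h2]
    have h3 : |2 * π * k * ω| = 2 * π * |(k:ℝ)| * ω := by
      rw [abs_mul, abs_mul, abs_mul, abs_of_pos hω0, abs_of_pos Real.pi_pos]
      norm_num
    have h4 := K1_sin_bound (2 * π * k * ω)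
    have h5 := K2_sin_bound (2 * π * k * ω)
    rw [h3] at h4 h5
    have h6 := hR1.rc_le hρ k
    have h7 := hR2.rc_le hρ k
    have h8 : 0 ≤ min 1 (2 * π * |(k:ℝ)| * ω) := le_min zero_le_one (by positivity)
    have h9 : 0 ≤ A / V ρ N 3 k := by have := hV3 k; positivity
    have h10 : ‖rc R1 k * ((∫ t in (0:ℝ)..1, K1 t * Real.sin (2 * π * k * ω * t) : ℝ) : ℂ) +
        rc R2 k * ((∫ t in (0:ℝ)..1, K2 t * Real.sin (2 * π * k * ω * t) : ℝ) : ℂ)‖ ≤
        2 * (A / V ρ N 3 k * min 1 (2 * π * |(k:ℝ)| * ω)) := by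
      refine (norm_add_le _ _).trans ?_
      rw [norm_mul, norm_mul, Complex.norm_real, Complex.norm_real, Real.norm_eq_abs,
        Real.norm_eq_abs]
      have h11 := mul_le_mul h6 h4 (abs_nonneg _) h9
      have h12 := mul_le_mul h7 h5 (abs_nonneg _) h9
      linarith
    have h11 := mul_le_mul_of_nonneg_left h10 (by positivity : (0:ℝ) ≤ ω ^ 3)
    refine h11.trans (le_of_eq ?_)
    ring
  -- the symbol
  have hsym : ∀ k : ℤ, e k ω - 2 + e k (-ω) = e k (-ω) * (e k ω - 1) ^ 2 := by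
    intro k
    have h1 : e k (-ω) * e k ω = 1 := by
      rw [← e_shift, neg_add_cancel]
      simpa using e_int k 0
    linear_combination (2 - e k ω) * h1
  have hsymn : ∀ k : ℤ, ‖e k ω - 2 + e k (-ω)‖ = ‖e k ω - 1‖ ^ 2 := by
    intro k
    rw [hsym, norm_mul, norm_e, one_mul, norm_pow]
  have hfar : ∀ k : ℤ, ¬ (q:ℤ) ∣ k → 2 * ω ≤ ‖e k ω - 1‖ := fun k hk => lin_far hpq hk
  have hnear : ∀ k : ℤ, |(k:ℝ)| * ω ≤ 1 / 2 → 4 * (|(k:ℝ)| * ω) ≤ ‖e k ω - 1‖ := by
    intro k hk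
    have h1 : |(k:ℝ) * ω| = |(k:ℝ)| * ω := by rw [abs_mul, abs_of_pos hω0]
    have h2 := lin_chord (r := (k:ℝ) * ω) (by rw [h1]; exact hk)
    rw [h1, ← lin_e_apply] at h2
    exact h2
  -- coefficients of the solution
  set α : ℤ → ℂ := fun k => if (q:ℤ) ∣ k then 0 else c k / (e k ω - 2 + e k (-ω)) with hα
  have hα0 : ∀ k, (q:ℤ) ∣ k → α k = 0 := fun k hk => if_pos hk
  have hα1 : ∀ k, ¬ (q:ℤ) ∣ k → α k = c k / (e k ω - 2 + e k (-ω)) := fun k hk => if_neg hk
  have hpi4 : π < 4 := Real.pi_lt_four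
  have key : ∀ k, ‖α k‖ ≤ 4 * A * ω ^ 2 / V ρ N 2 k ∧
      ‖α k * (e k ω - 1) / (ω : ℂ)‖ ≤ 4 * A * ω ^ 2 / V ρ N 2 k := by
    intro k
    by_cases hk : (q:ℤ) ∣ k
    · rw [hα0 k hk]
      have := hV2 k
      simp only [zero_mul, zero_div, norm_zero]
      constructor <;> positivity
    · have hk0 : k ≠ 0 := fun h => hk (h ▸ dvd_zero _)
      have hk1 : (1:ℝ) ≤ |(k:ℝ)| := by
        have h5 : ((1:ℤ):ℝ) ≤ ((|k| : ℤ) : ℝ) := Int.cast_le.2 (Int.one_le_abs hk0)
        rwa [Int.cast_abs, Int.cast_one] at h5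
      have hpos : 0 < ‖e k ω - 1‖ := lt_of_lt_of_le (by positivity) (hfar k hk)
      have h1 : ‖α k‖ = ‖c k‖ / ‖e k ω - 1‖ ^ 2 := by
        rw [hα1 k hk, norm_div, hsymn]
      have h2 : ‖α k * (e k ω - 1) / (ω : ℂ)‖ = ‖c k‖ / (‖e k ω - 1‖ * ω) := by
        rw [norm_div, norm_mul, h1, Complex.norm_real, Real.norm_of_nonneg hω0.le]
        field_simp
      have hVk : V ρ N 3 k = (1 + |(k:ℝ)|) * V ρ N 2 k := V_succ k
      have hc' := hcb k
      rw [h1, h2]
      have hv := hV2 k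
      set m : ℝ := |(k:ℝ)| with hm
      set v : ℝ := V ρ N 2 k with hvv
      set n : ℝ := ‖e k ω - 1‖ with hn
      rw [hVk] at hc'
      have hm0 : 0 < m := by linarith
      by_cases hcase : m * ω ≤ 1 / 2
      · have h3 : 4 * (m * ω) ≤ n := hnear k hcase
        have h4 : ‖c k‖ ≤ 2 * A * ω ^ 3 * (2 * π * m * ω) / ((1 + m) * v) := by
          refine hc'.trans ?_
          gcongr
          exact min_le_right _ _
        have hmω : 0 < m * ω := by positivity
        have h5 : 2 * A * ω ^ 3 * (2 * π * m * ω) / ((1 + m) * v) ≤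
            16 * A * ω ^ 3 * (m * ω) / (m * v) := by
          have h6 : 2 * A * ω ^ 3 * (2 * π * m * ω) ≤ 16 * A * ω ^ 3 * (m * ω) := by
            have h7 : 0 ≤ A * ω ^ 3 * (m * ω) := by positivity
            nlinarith
          gcongr
          linarith
        have h6 : 16 * A * ω ^ 3 * (m * ω) / (m * v) = 16 * A * ω ^ 4 / v := by
          field_simp
        rw [h6] at h5
        have h7 : ‖c k‖ ≤ 16 * A * ω ^ 4 / v := h4.trans h5
        constructor
        · rw [div_le_div_iff₀ (by positivity) hv]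
          have h8 : ‖c k‖ * v ≤ 16 * A * ω ^ 4 := by
            rwa [le_div_iff₀ hv] at h7
          have h9 : (4 * (m * ω)) ^ 2 ≤ n ^ 2 := by gcongr
          have h10 : 16 * A * ω ^ 4 ≤ 4 * A * ω ^ 2 * n ^ 2 := by
            have h11 : 4 * A * ω ^ 2 * (4 * (m * ω)) ^ 2 ≤ 4 * A * ω ^ 2 * n ^ 2 := by gcongr
            have h12 : 16 * A * ω ^ 4 ≤ 4 * A * ω ^ 2 * (4 * (m * ω)) ^ 2 := by
              have h13 : 4 * A * ω ^ 2 * (4 * (m * ω)) ^ 2 = 64 * A * ω ^ 4 * m ^ 2 := by ring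
              rw [h13]
              have h14 : (1:ℝ) ≤ m ^ 2 := by nlinarith
              have h15 : 0 ≤ A * ω ^ 4 := by positivity
              nlinarith
            linarith
          linarith
        · rw [div_le_div_iff₀ (by positivity) hv]
          have h8 : ‖c k‖ * v ≤ 16 * A * ω ^ 4 := by
            rwa [le_div_iff₀ hv] at h7
          have h10 : 16 * A * ω ^ 4 ≤ 4 * A * ω ^ 2 * (n * ω) := by
            have h11 : 4 * A * ω ^ 2 * (4 * (m * ω) * ω) ≤ 4 * A * ω ^ 2 * (n * ω) := by gcongr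
            have h12 : 16 * A * ω ^ 4 ≤ 4 * A * ω ^ 2 * (4 * (m * ω) * ω) := by
              have h13 : 4 * A * ω ^ 2 * (4 * (m * ω) * ω) = 16 * A * ω ^ 4 * m := by ring
              rw [h13]
              have h15 : 0 ≤ A * ω ^ 4 := by positivity
              nlinarith
            linarith
          linarith
      · push Not at hcase
        have h3 : 2 * ω ≤ n := hfar k hk
        have h4 : ‖c k‖ ≤ 2 * A * ω ^ 3 * 1 / ((1 + m) * v) := by
          refine hc'.trans ?_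
          gcongr
          exact min_le_left _ _
        have h5 : 2 * A * ω ^ 3 * 1 / ((1 + m) * v) ≤ 2 * A * ω ^ 3 / (m * v) := by
          rw [mul_one]
          gcongr
          linarith
        have h7 : ‖c k‖ * (m * v) ≤ 2 * A * ω ^ 3 := by
          have := h4.trans h5
          rwa [le_div_iff₀ (by positivity)] at this
        have h8 : ‖c k‖ * v ≤ 4 * A * ω ^ 4 := by
          -- multiply by `1 < 2 m ω`
          have h9 : ‖c k‖ * v * 1 ≤ ‖c k‖ * v * (2 * (m * ω)) := by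
            have : (0:ℝ) ≤ ‖c k‖ * v := by positivity
            nlinarith
          have h10 : ‖c k‖ * v * (2 * (m * ω)) = 2 * ω * (‖c k‖ * (m * v)) := by ring
          have h11 : 2 * ω * (‖c k‖ * (m * v)) ≤ 2 * ω * (2 * A * ω ^ 3) := by gcongr
          have h12 : 2 * ω * (2 * A * ω ^ 3) = 4 * A * ω ^ 4 := by ring
          linarith
        constructor
        · rw [div_le_div_iff₀ (by positivity) hv]
          have h9 : 4 * A * ω ^ 2 * (2 * ω) ^ 2 ≤ 4 * A * ω ^ 2 * n ^ 2 := by gcongr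
          have h10 : 4 * A * ω ^ 4 ≤ 4 * A * ω ^ 2 * (2 * ω) ^ 2 := by
            have h11 : 4 * A * ω ^ 2 * (2 * ω) ^ 2 = 16 * A * ω ^ 4 := by ring
            have h15 : 0 ≤ A * ω ^ 4 := by positivity
            linarith
          linarith
        · rw [div_le_div_iff₀ (by positivity) hv]
          have h9 : 4 * A * ω ^ 2 * (2 * ω * ω) ≤ 4 * A * ω ^ 2 * (n * ω) := by gcongr
          have h10 : 4 * A * ω ^ 4 ≤ 4 * A * ω ^ 2 * (2 * ω * ω) := by
            have h11 : 4 * A * ω ^ 2 * (2 * ω * ω) = 8 * A * ω ^ 4 := by ring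
            have h15 : 0 ≤ A * ω ^ 4 := by positivity
            linarith
          linarith
  have hM : 0 ≤ 4 * A * ω ^ 2 := by positivity
  have hαs : Summable fun k => ‖α k‖ := Bd.summable (N := N) hρ hM fun k => (key k).1
  have hsum : ∀ x, Summable fun k => α k * e k x := by
    intro x
    refine Summable.of_norm ?_
    simpa only [norm_mul, norm_e, mul_one] using hαs
  have hg : ∀ x, HasSum (fun k => α k * e k x) (∑' k, α k * e k x) := fun x => (hsum x).hasSum
  obtain ⟨g, hgdef⟩ : ∃ g : ℝ → ℂ, ∀ x, HasSum (fun k => α k * e k x) (g x) :=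
    ⟨fun x => ∑' k, α k * e k x, hg⟩
  refine ⟨g, ⟨α, fun k => (key k).1, hgdef⟩, ⟨fun k => α k * (e k ω - 1) / (ω : ℂ),
    fun k => (key k).2, fun x => ?_⟩, fun x => ?_, fun x => ?_⟩
  · have h1 := ((hgdef (x + ω)).sub (hgdef x)).div_const (ω : ℂ)
    refine lin_congr h1 fun k => ?_
    rw [e_shift]
    ring
  · have h1 : HasSum (fun k => ∑ j ∈ Finset.range q, α k * e k (x + j * ω))
        (∑ j ∈ Finset.range q, g (x + j * ω)) := hasSum_sum fun j _ => hgdef (x + j * ω)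
    have h2 : (fun k => ∑ j ∈ Finset.range q, α k * e k (x + j * ω)) = fun _ => (0:ℂ) := by
      ext k
      have h3 : ∑ j ∈ Finset.range q, α k * e k (x + j * ω) =
          α k * e k x * ∑ j ∈ Finset.range q, e k (j * ω) := by
        rw [Finset.mul_sum]
        refine Finset.sum_congr rfl fun j _ => ?_
        rw [e_shift]
        ring
      rw [h3, lin_orbit hpq]
      split_ifs with h
      · rw [hα0 k h]
        ring
      · rw [mul_zero]
    rw [h2] at h1
    exact h1.unique hasSum_zero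
  · have h1 := ((hgdef (x + ω)).sub ((hgdef x).mul_left 2)).add (hgdef (x - ω))
    have h2 : HasSum (fun k => ∑ j ∈ Finset.range q, c k * e k (x + j * ω))
        (∑ j ∈ Finset.range q, ((RL R1 R2 ω (x + j * ω) : ℝ) : ℂ)) :=
      hasSum_sum fun j _ => hcs (x + j * ω)
    have h3 := (hcs x).sub (h2.mul_left (1 / (q:ℂ)))
    refine h1.unique (lin_congr h3 fun k => ?_)
    have h4 : ∑ j ∈ Finset.range q, c k * e k (x + j * ω) =
        c k * e k x * ∑ j ∈ Finset.range q, e k (j * ω) := by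
      rw [Finset.mul_sum]
      refine Finset.sum_congr rfl fun j _ => ?_
      rw [e_shift]
      ring
    have hqc : (q:ℂ) ≠ 0 := by exact_mod_cast hq0.ne'
    rw [h4, lin_orbit hpq]
    have h5 : e k (x - ω) = e k x * e k (-ω) := by rw [sub_eq_add_neg, e_shift]
    rw [e_shift, h5]
    by_cases h : (q:ℤ) ∣ k
    · rw [if_pos h, hα0 k h]
      field_simp
      ring
    · rw [if_neg h, hα1 k h]
      have hne : e k ω - 2 + e k (-ω) ≠ 0 := by
        rw [← norm_pos_iff, hsymn]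
        have := lt_of_lt_of_le (by positivity) (hfar k h)
        positivity
      field_simp
      ring

end Pool.Agent.MP_ae5b4e_an_RG
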