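import Mathlib
import Pool.Agent.Lib.MP_ae5b4e_an_RG.NBa

/-!
# MP_ae5b4e_an, project REG: limits and integrals in the norm (N3), (N4)

Text: `/team-store/POR_REG.md`.
-/

noncomputable section

namespace Pool.Agent.MP_ae5b4e_an_RG

open Real Set Filter Topology MeasureTheory intervalIntegral

variable {ρ : ℝ} {N : ℕ} {η M : ℝ} {f : ℝ → ℂ}

theorem NB.limit (hη : 0 < η) {F : ℕ → ℝ → ℂ} (hF : ∀ n, NB ρ N η M (F n))
    (hlim : ∀ ε > 0, ∃ n, ∀ x, ‖f x - F n x‖ ≤ ε) : NB ρ N η M f := by
  refine ⟨?_, ?_, ?_⟩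
  · refine continuous_of_uniform_approx_of_continuous fun u hu => ?_
    obtain ⟨ε, hε, hu'⟩ := Metric.mem_uniformity_dist.1 hu
    obtain ⟨n, hn⟩ := hlim (ε / 2) (by positivity)
    refine ⟨F n, (hF n).continuous, fun y => hu' ?_⟩
    rw [dist_eq_norm]
    exact (hn y).trans_lt (by linarith)
  · intro x
    have h1 : ∀ ε > 0, ‖f (x + 1) - f x‖ ≤ 2 * ε := by
      intro ε hε
      obtain ⟨n, hn⟩ := hlim ε hε
      have h2 := (hF n).periodic x
      have h3 : f (x + 1) - f x = (f (x + 1) - F n (x + 1)) - (f x - F n x) := by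
        rw [h2]; ring
      rw [h3]
      refine (norm_sub_le _ _).trans ?_
      linarith [hn x, hn (x + 1)]
    have h2 : ‖f (x + 1) - f x‖ ≤ 0 := by
      refine le_of_forall_pos_le_add fun ε hε => ?_
      have := h1 (ε / 2) (by positivity)
      linarith
    exact sub_eq_zero.1 (norm_le_zero_iff.1 h2)
  · intro δ hδ
    obtain ⟨n, hn⟩ := hlim (η * (δ / 2)) (by positivity)
    obtain ⟨g, m, ε, hm, hε, hg, hfg, hle⟩ := (hF n).2.2 (δ / 2) (by positivity)
    refine ⟨g, m, ε + η * (δ / 2), hm, by positivity, hg, fun x => ?_, ?_⟩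
    · have : f x - g x = (f x - F n x) + (F n x - g x) := by ring
      rw [this]
      refine (norm_add_le _ _).trans ?_
      linarith [hn x, hfg x]
    · have : (ε + η * (δ / 2)) / η = ε / η + δ / 2 := by
        field_simp
      rw [this]
      linarith

private theorem nb_sum (hη : 0 < η) {F : ℕ → ℝ → ℂ} {c : ℝ} (hc : 0 ≤ c) (n : ℕ)
    (hF : ∀ j < n, NB ρ N η M (F j)) :
    NB ρ N η (n * (c * M)) (fun x => ∑ j ∈ Finset.range n, (c : ℂ) * F j x) := by
  induction n with
  | zero =>
    have h := NB.of_flat (f := fun _ => 0) (ε := 0) ρ N hη continuous_const (fun x => rfl)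
      (fun x => by simp)
    simpa using h
  | succ n ih =>
    have h1 := ih fun j hj => hF j (hj.trans n.lt_succ_self)
    have h2 := (hF n n.lt_succ_self).const_mul hη (c : ℂ)
    have h3 := h1.add h2
    have e1 : (n : ℝ) * (c * M) + ‖(c : ℂ)‖ * M = ((n + 1 : ℕ) : ℝ) * (c * M) := by
      rw [Complex.norm_real, Real.norm_of_nonneg hc]
      push_cast
      ring
    rw [e1] at h3
    convert h3 using 2 with x
    rw [Finset.sum_range_succ]

private theorem nb_unif {F : ℝ → ℝ → ℂ} {a b : ℝ}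
    (hc : Continuous fun q : ℝ × ℝ => F q.1 q.2)
    (hp : ∀ s ∈ Icc a b, Function.Periodic (F s) 1) {ε : ℝ} (hε : 0 < ε) :
    ∃ δ > 0, ∀ s ∈ Icc a b, ∀ s' ∈ Icc a b, |s - s'| < δ → ∀ x, ‖F s x - F s' x‖ ≤ ε := by
  have hK : IsCompact (Icc a b ×ˢ Icc (0 : ℝ) 1) := isCompact_Icc.prod isCompact_Icc
  have hu := hK.uniformContinuousOn_of_continuous hc.continuousOn
  rw [Metric.uniformContinuousOn_iff] at hu
  obtain ⟨δ, hδ, h⟩ := hu ε hε
  refine ⟨δ, hδ, fun s hs s' hs' hss x => ?_⟩
  have hfr : ∀ t ∈ Icc a b, F t x = F t (Int.fract x) := by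
    intro t ht
    have := (hp t ht).sub_zsmul_eq (x := x) ⌊x⌋
    rw [← this, Int.fract]
    congr 1
    simp
  rw [hfr s hs, hfr s' hs', ← dist_eq_norm]
  have hx : Int.fract x ∈ Icc (0 : ℝ) 1 := ⟨Int.fract_nonneg x, (Int.fract_lt_one x).le⟩
  refine (h (s, Int.fract x) ⟨hs, hx⟩ (s', Int.fract x) ⟨hs', hx⟩ ?_).le
  rw [Prod.dist_eq, dist_self, Real.dist_eq]
  exact max_lt hss hδ

theorem NB.integral (hη : 0 < η) {F : ℝ → ℝ → ℂ} {a b : ℝ} (hab : a ≤ b)
    (hc : Continuous fun q : ℝ × ℝ => F q.1 q.2) (h : ∀ s ∈ Icc a b, NB ρ N η M (F s)) :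
    NB ρ N η ((b - a) * M) (fun x => ∫ s in a..b, F s x) := by
  set c : ℕ → ℝ := fun n => (b - a) / (n + 1 : ℕ) with hcdef
  have hc0 : ∀ n, 0 ≤ c n := fun n => div_nonneg (by linarith) (by positivity)
  have hcn : ∀ n : ℕ, ((n + 1 : ℕ) : ℝ) * c n = b - a := fun n => by
    simp only [hcdef]
    field_simp
  have hs : ∀ n j : ℕ, j ≤ n + 1 → a + j * c n ∈ Icc a b := by
    intro n j hj
    have h1 : (j : ℝ) * c n ≤ ((n + 1 : ℕ) : ℝ) * c n :=
      mul_le_mul_of_nonneg_right (by exact_mod_cast hj) (hc0 n)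
    have h2 : 0 ≤ (j : ℝ) * c n := mul_nonneg (by positivity) (hc0 n)
    rw [hcn] at h1
    exact ⟨by linarith, by linarith⟩
  refine NB.limit hη (F := fun n x => ∑ j ∈ Finset.range (n + 1), (c n : ℂ) * F (a + j * c n) x)
    (fun n => ?_) fun ε hε => ?_
  · have h1 := nb_sum (ρ := ρ) (N := N) (M := M) hη (F := fun j => F (a + j * c n)) (hc0 n) (n + 1)
      fun j hj => h _ (hs n j hj.le)
    have e1 : ((n + 1 : ℕ) : ℝ) * (c n * M) = (b - a) * M := by
      rw [← mul_assoc, hcn]
    rw [e1] at h1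
    exact h1
  · set ε' : ℝ := ε / (b - a + 1) with hε'
    have hba : 0 < b - a + 1 := by linarith
    have hε0 : 0 < ε' := div_pos hε hba
    obtain ⟨δ, hδ, hF⟩ := nb_unif hc (fun s hs => (h s hs).periodic) hε0
    obtain ⟨n, hn⟩ := exists_nat_gt ((b - a) / δ)
    refine ⟨n, fun x => ?_⟩
    have hcδ : c n < δ := by
      simp only [hcdef]
      rw [div_lt_iff₀ (by positivity)]
      rw [div_lt_iff₀ hδ] at hn
      push_cast
      nlinarith
    have hcont : Continuous fun s => F s x := hc.comp (Continuous.prodMk_left x)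
    have hint : ∀ u v : ℝ, IntervalIntegrable (fun s => F s x) volume u v := fun u v =>
      hcont.intervalIntegrable u v
    have e1 : ∫ s in a..b, F s x =
        ∑ j ∈ Finset.range (n + 1), ∫ s in (a + j * c n)..(a + (j + 1 : ℕ) * c n), F s x := by
      rw [intervalIntegral.sum_integral_adjacent_intervals (a := fun j : ℕ => a + j * c n)
        (fun k _ => hint _ _)]
      congr 1
      · simp
      · rw [hcn]; ring
    rw [e1, ← Finset.sum_sub_distrib]
    refine (norm_sum_le _ _).trans ?_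
    have hterm : ∀ j ∈ Finset.range (n + 1),
        ‖(∫ s in (a + j * c n)..(a + (j + 1 : ℕ) * c n), F s x) - (c n : ℂ) * F (a + j * c n) x‖
          ≤ ε' * c n := by
      intro j hj
      rw [Finset.mem_range] at hj
      have e2 : (c n : ℂ) * F (a + j * c n) x =
          ∫ s in (a + j * c n)..(a + (j + 1 : ℕ) * c n), F (a + j * c n) x := by
        rw [intervalIntegral.integral_const, Complex.real_smul]
        congr 2
        push_cast
        ring
      rw [e2, ← intervalIntegral.integral_sub (hint _ _) (intervalIntegrable_const)]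
      have hle : a + j * c n ≤ a + (j + 1 : ℕ) * c n := by
        push_cast
        nlinarith [hc0 n]
      have h3 := intervalIntegral.norm_integral_le_of_norm_le_const (C := ε')
        (f := fun s => F s x - F (a + j * c n) x) (a := a + j * c n)
        (b := a + (j + 1 : ℕ) * c n) fun s hs' => by
          rw [uIoc_of_le hle] at hs'
          have hj1 := hs n j hj.le
          have hj2 := hs n (j + 1) hj
          refine hF s ⟨hj1.1.trans hs'.1.le, hs'.2.trans hj2.2⟩ _ hj1 ?_ x
          rw [abs_of_pos (by linarith [hs'.1])]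
          have := hs'.2
          push_cast at this
          linarith
      refine h3.trans (le_of_eq ?_)
      congr 1
      rw [abs_of_nonneg (by linarith)]
      push_cast
      ring
    refine (Finset.sum_le_sum hterm).trans ?_
    rw [Finset.sum_const, Finset.card_range, nsmul_eq_mul]
    have e3 : ((n + 1 : ℕ) : ℝ) * (ε' * c n) = ε' * (b - a) := by
      rw [mul_left_comm, hcn]
    rw [e3, hε', div_mul_eq_mul_div, div_le_iff₀ hba]
    nlinarith

end Pool.Agent.MP_ae5b4e_an_RG
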