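import Mathlib
import Pool.Agent.Lib.MP_ae5b4e_an_RG.NBl

/-!
# MP_ae5b4e_an, project REG: exponentials and inverses (N7)

Text: `/team-store/POR_REG.md`.
-/

noncomputable section

namespace Pool.Agent.MP_ae5b4e_an_RG

open Real Set Filter Topology MeasureTheory intervalIntegral

variable {ρ : ℝ} {N : ℕ} {η M : ℝ} {X : ℝ → ℂ}

private theorem NB.series_aux (hρ : 0 ≤ ρ) (hη : 0 < η) (hη1 : η ≤ 1) {f : ℝ → ℂ}
    {G : ℕ → ℝ → ℂ} {u : ℕ → ℝ} (hG : ∀ n, NB ρ N η (u n) (G n)) (hu : Summable u) {S : ℝ}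
    (hS : ∀ n, ∑ k ∈ Finset.range n, u k ≤ S) (hf : ∀ x, f x = ∑' n, G n x) :
    NB ρ N η S f := by
  have hpart : ∀ n, NB ρ N η (∑ k ∈ Finset.range n, u k)
      (fun x => ∑ k ∈ Finset.range n, G k x) := by
    intro n
    induction n with
    | zero => simpa using NB.const ρ N hη 0
    | succ n ih =>
      have := ih.add (hG n)
      simpa [Finset.sum_range_succ] using this
  refine NB.limit hη (F := fun n x => ∑ k ∈ Finset.range n, G k x)
    (fun n => (hpart n).mono (hS n)) ?_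
  intro ε hε
  have hT := tendstoUniformlyOn_tsum_nat (f := G) (s := Set.univ) hu
    (fun n x _ => (hG n).sup hρ hη hη1 x)
  rw [Metric.tendstoUniformlyOn_iff] at hT
  obtain ⟨n, hn⟩ := (hT ε hε).exists
  refine ⟨n, fun x => ?_⟩
  have := hn x (mem_univ x)
  rw [dist_eq_norm] at this
  rw [hf x]
  exact this.le

private theorem NB.pow_aux (hρ : 0 ≤ ρ) (hη : 0 < η) (hη1 : η ≤ 1) (h : NB ρ N η M X) (n : ℕ) :
    NB ρ N η (M ^ (n + 1)) (fun x => X x ^ (n + 1)) := by
  induction n with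
  | zero => simpa using h
  | succ n ih =>
    have := ih.mul hρ hη hη1 h
    simpa [pow_succ] using this

theorem NB.exp (hρ : 0 ≤ ρ) (hη : 0 < η) (hη1 : η ≤ 1) (h : NB ρ N η M X) :
    NB ρ N η (M * Real.exp M) (fun x => Complex.exp (X x) - 1) := by
  have hM : 0 ≤ M := h.nonneg hη
  have hs : Summable (fun n : ℕ => M ^ n / (n.factorial : ℝ)) := Real.summable_pow_div_factorial M
  refine NB.series_aux hρ hη hη1 (G := fun n x => (1 / ((n + 1).factorial : ℂ)) * X x ^ (n + 1))
    (u := fun n => ‖(1 / ((n + 1).factorial : ℂ))‖ * M ^ (n + 1)) ?_ ?_ ?_ ?_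
  · intro n
    exact (NB.pow_aux hρ hη hη1 h n).const_mul hη _
  · have := (summable_nat_add_iff 1).2 hs
    refine this.congr fun n => ?_
    rw [norm_div, norm_one, Complex.norm_natCast]
    ring
  · intro n
    have h1 : ∀ k ∈ Finset.range n, ‖(1 / ((k + 1).factorial : ℂ))‖ * M ^ (k + 1) ≤
        M * (M ^ k / (k.factorial : ℝ)) := by
      intro k _
      rw [norm_div, norm_one, Complex.norm_natCast]
      have hk : (k.factorial : ℝ) ≤ ((k + 1).factorial : ℝ) := by
        exact_mod_cast Nat.factorial_le (Nat.le_succ k)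
      have hk0 : (0:ℝ) < (k.factorial : ℝ) := by exact_mod_cast k.factorial_pos
      have h2 : 1 / ((k + 1).factorial : ℝ) ≤ 1 / (k.factorial : ℝ) :=
        one_div_le_one_div_of_le hk0 hk
      calc 1 / ((k + 1).factorial : ℝ) * M ^ (k + 1) ≤ 1 / (k.factorial : ℝ) * M ^ (k + 1) :=
            mul_le_mul_of_nonneg_right h2 (pow_nonneg hM _)
        _ = M * (M ^ k / (k.factorial : ℝ)) := by rw [pow_succ]; ring
    refine (Finset.sum_le_sum h1).trans ?_
    rw [← Finset.mul_sum]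
    exact mul_le_mul_of_nonneg_left (Real.sum_le_exp_of_nonneg hM n) hM
  · intro x
    have h1 : HasSum (fun n : ℕ => X x ^ n / (n.factorial : ℂ)) (Complex.exp (X x)) := by
      rw [Complex.exp_eq_exp_ℂ]
      exact NormedSpace.expSeries_div_hasSum_exp (X x)
    have h2 := (hasSum_nat_add_iff' 1).2 h1
    have h3 := h2.tsum_eq
    simp only [Finset.range_one, Finset.sum_singleton, pow_zero, Nat.factorial_zero, Nat.cast_one,
      div_one] at h3
    rw [← h3]
    exact tsum_congr fun n => by ring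

theorem NB.inv (hρ : 0 ≤ ρ) (hη : 0 < η) (hη1 : η ≤ 1) (h : NB ρ N η M X) (hM : M ≤ 1 / 2) :
    (∀ x, 1 + X x ≠ 0) ∧ NB ρ N η (2 * M) (fun x => 1 / (1 + X x) - 1) := by
  have hM0 : 0 ≤ M := h.nonneg hη
  have hX : ∀ x, ‖X x‖ ≤ 1 / 2 := fun x => (h.sup hρ hη hη1 x).trans hM
  have hne : ∀ x, 1 + X x ≠ 0 := by
    intro x hx
    have h1 : X x = -1 := by linear_combination hx
    have h2 := hX x
    rw [h1, norm_neg, norm_one] at h2
    norm_num at h2
  refine ⟨hne, ?_⟩
  have hg : HasSum (fun n : ℕ => M ^ n) (1 - M)⁻¹ := hasSum_geometric_of_lt_one hM0 (by linarith)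
  refine NB.series_aux hρ hη hη1 (G := fun n x => ((-1 : ℂ) ^ (n + 1)) * X x ^ (n + 1))
    (u := fun n => ‖((-1 : ℂ) ^ (n + 1))‖ * M ^ (n + 1)) ?_ ?_ ?_ ?_
  · intro n
    exact (NB.pow_aux hρ hη hη1 h n).const_mul hη _
  · have := (summable_nat_add_iff 1).2 hg.summable
    refine this.congr fun n => ?_
    rw [norm_pow, norm_neg, norm_one, one_pow, one_mul]
  · intro n
    have h1 : ∑ k ∈ Finset.range n, M ^ k ≤ (1 - M)⁻¹ :=
      sum_le_hasSum _ (fun i _ => pow_nonneg hM0 i) hg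
    have h2 : (1 - M)⁻¹ ≤ 2 := by
      rw [inv_le_comm₀ (by linarith) (by norm_num)]
      linarith
    calc ∑ k ∈ Finset.range n, ‖((-1 : ℂ) ^ (k + 1))‖ * M ^ (k + 1)
        = M * ∑ k ∈ Finset.range n, M ^ k := by
          rw [Finset.mul_sum]
          refine Finset.sum_congr rfl fun k _ => ?_
          rw [norm_pow, norm_neg, norm_one, one_pow, one_mul, pow_succ, mul_comm]
      _ ≤ M * 2 := mul_le_mul_of_nonneg_left (h1.trans h2) hM0
      _ = 2 * M := mul_comm _ _
  · intro x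
    have hlt : ‖-X x‖ < 1 := by
      rw [norm_neg]
      exact lt_of_le_of_lt (hX x) (by norm_num)
    have h1 := hasSum_geometric_of_norm_lt_one hlt
    have h2 := (hasSum_nat_add_iff' 1).2 h1
    have h3 := h2.tsum_eq
    simp only [Finset.range_one, Finset.sum_singleton, pow_zero, sub_neg_eq_add] at h3
    rw [one_div, ← h3]
    exact tsum_congr fun n => by rw [neg_pow]

end Pool.Agent.MP_ae5b4e_an_RG
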