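import Mathlib
import Pool.Agent.Lib.MP_ae5b4e_an_RG.NBe

/-!
# MP_ae5b4e_an, project REG: LEMMA COMP (section 5)

Text: `/team-store/POR_REG.md`.
-/

noncomputable section

namespace Pool.Agent.MP_ae5b4e_an_RG

open Real Set Filter Topology MeasureTheory intervalIntegral

private lemma comp_hs_congr {f g : ℤ → ℂ} {a : ℂ} (hf : HasSum f a) (h : ∀ n, f n = g n) :
    HasSum g a := (funext h : f = g) ▸ hf

/-- the low part of the composition -/
private lemma comp_bd_sum {ρ : ℝ} {N : ℕ} (hρ : 0 ≤ ρ) {S : Finset ℤ} {a : ℤ → ℂ}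
    {g : ℤ → ℝ → ℂ} {m : ℤ → ℝ} {B : ℝ} (hB : 0 ≤ B)
    (hg : ∀ k ∈ S, Bd ρ N (m k) (g k))
    (hm : ∀ k ∈ S, ‖a k‖ * m k ≤ B / V ρ N 2 k) (y : ℝ) :
    Bd ρ N (12 * B) (fun x => ∑ k ∈ S, a k * e k (x + y) * g k x) := by
  classical
  choose! b hb hs using hg
  refine ⟨fun n => ∑ k ∈ S, a k * e k y * b k (n - k), fun n => ?_, fun x => ?_⟩
  · have hVn := V_pos ρ N 2 n
    calc ‖∑ k ∈ S, a k * e k y * b k (n - k)‖
        ≤ ∑ k ∈ S, ‖a k * e k y * b k (n - k)‖ := norm_sum_le _ _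
      _ ≤ ∑ k ∈ S, B * (1 / V ρ N 2 k * (1 / V ρ N 2 (n - k))) := by
          refine Finset.sum_le_sum fun k hk => ?_
          have h1 := hb k hk (n - k)
          have h2 := hm k hk
          have hVk := V_pos ρ N 2 k
          have hVnk := V_pos ρ N 2 (n - k)
          rw [norm_mul, norm_mul, norm_e, mul_one]
          calc ‖a k‖ * ‖b k (n - k)‖ ≤ ‖a k‖ * (m k / V ρ N 2 (n - k)) :=
                mul_le_mul_of_nonneg_left h1 (norm_nonneg _)
            _ = (‖a k‖ * m k) * (1 / V ρ N 2 (n - k)) := by ring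
            _ ≤ (B / V ρ N 2 k) * (1 / V ρ N 2 (n - k)) :=
                mul_le_mul_of_nonneg_right h2 (by positivity)
            _ = B * (1 / V ρ N 2 k * (1 / V ρ N 2 (n - k))) := by ring
      _ = B * ∑ k ∈ S, (1 / V ρ N 2 k * (1 / V ρ N 2 (n - k))) := by rw [Finset.mul_sum]
      _ ≤ B * ∑' k : ℤ, 1 / V ρ N 2 k * (1 / V ρ N 2 (n - k)) := by
          refine mul_le_mul_of_nonneg_left ?_ hB
          refine (summable_conv (N := N) hρ n).sum_le_tsum S fun k _ => ?_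
          have hVk := V_pos ρ N 2 k
          have hVnk := V_pos ρ N 2 (n - k)
          positivity
      _ ≤ B * (12 / V ρ N 2 n) := mul_le_mul_of_nonneg_left (conv_le hρ n) hB
      _ = 12 * B / V ρ N 2 n := by ring
  · have key : ∀ k ∈ S, HasSum (fun n : ℤ => a k * e k y * b k (n - k) * e n x)
        (a k * e k (x + y) * g k x) := by
      intro k hk
      have h1 : HasSum (fun n : ℤ => b k (n - k) * e (n - k) x) (g k x) := by
        have := (Equiv.subRight k).hasSum_iff (f := fun l : ℤ => b k l * e l x) (a := g k x)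
        exact this.2 (hs k hk x)
      have h2 := h1.mul_left (a k * e k (x + y))
      refine comp_hs_congr h2 fun n => ?_
      have h3 : e n x = e (n - k) x * e k x := by
        rw [← e_add]; congr 1; ring
      rw [h3, e_shift]
      ring
    have h4 := hasSum_sum key
    refine comp_hs_congr h4 fun n => ?_
    rw [Finset.sum_mul]

/-- the choice of the decompositions of the low part -/
private lemma comp_fk {ρ : ℝ} {N : ℕ} (hρ : 0 ≤ ρ) {η : ℝ} (hη : 0 < η) (hη1 : η ≤ 1)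
    {M K : ℝ} {v : ℝ → ℝ} (hM : 0 ≤ M) (h : NB ρ N η M (fun x => (v x : ℂ))) {k : ℤ}
    (hk : 2 * π * |(k:ℝ)| * M ≤ K) :
    NB ρ N η (2 * π * M * Real.exp K * (1 + |(k:ℝ)|)) (fun x => e k (v x) - 1) := by
  have h1 := h.const_mul hη (2 * π * Complex.I * k)
  have hn : ‖(2 * π * Complex.I * k : ℂ)‖ = 2 * π * |(k:ℝ)| := by
    rw [norm_mul, norm_mul, norm_mul, Complex.norm_I, Complex.norm_real, Real.norm_eq_abs,
      abs_of_pos Real.pi_pos]
    simp
  rw [hn] at h1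
  have h2 := NB.exp hρ hη hη1 h1
  have h3 : (fun x => e k (v x) - 1) =
      (fun x => Complex.exp (2 * π * Complex.I * k * (v x : ℂ)) - 1) := by
    funext x
    rfl
  rw [h3]
  refine h2.mono ?_
  have hpi := Real.pi_pos
  have h4 : Real.exp (2 * π * |(k:ℝ)| * M) ≤ Real.exp K := Real.exp_le_exp.2 hk
  have h5 : 0 ≤ 2 * π * |(k:ℝ)| * M := by positivity
  calc 2 * π * |(k:ℝ)| * M * Real.exp (2 * π * |(k:ℝ)| * M)
      ≤ 2 * π * |(k:ℝ)| * M * Real.exp K := mul_le_mul_of_nonneg_left h4 h5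
    _ ≤ 2 * π * |(k:ℝ)| * M * Real.exp K + 2 * π * M * Real.exp K := by
        have : 0 ≤ 2 * π * M * Real.exp K := by positivity
        linarith
    _ = 2 * π * M * Real.exp K * (1 + |(k:ℝ)|) := by ring

theorem comp_bound (A A1 : ℝ) (hA : 0 < A) (hA1 : 0 < A1) :
    ∃ C2 : ℝ, 0 < C2 ∧ ∀ (ρ : ℝ) (N p q : ℕ) (η : ℝ) (R v : ℝ → ℝ) (y : ℝ), 0 ≤ ρ → PQ p q →
      etam ρ N p q ≤ η → η ≤ 1 → Dec ρ N A R →
      NB ρ N η (A1 * ((p:ℝ) / q) ^ 2) (fun x => (v x : ℂ)) →
      NB ρ N η (C2 * ((p:ℝ) / q) ^ 2) (fun x => ((R (x + y + v x) - R (x + y) : ℝ) : ℂ)) := by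
  have hpi := Real.pi_pos
  refine ⟨15 * A * (2 * π * A1 * Real.exp (8 * π * A1)) + 4 * A, by positivity, ?_⟩
  intro ρ N p q η R v y hρ hpq hη0 hη1 hR hv
  obtain ⟨hp, hq2, hcop⟩ := hpq
  have hq0 : (0:ℝ) < q := by
    have : 0 < q := by omega
    exact_mod_cast this
  have hp1 : (1:ℝ) ≤ p := by
    rcases hp with rfl | rfl <;> norm_num
  have hp2 : (p:ℝ) ≤ 2 := by
    rcases hp with rfl | rfl <;> norm_num
  set ω : ℝ := (p:ℝ) / q with hω
  have hω0 : 0 < ω := by positivity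
  have hqω : (q:ℝ) * ω = p := by rw [hω]; field_simp
  have hE : 0 < Real.exp (-(ρ * min ((q:ℝ) ^ 2) (N:ℝ))) := Real.exp_pos _
  have hetam : etam ρ N p q = ω ^ 2 * Real.exp (-(ρ * min ((q:ℝ) ^ 2) (N:ℝ))) := rfl
  have hη : 0 < η := lt_of_lt_of_le (by rw [hetam]; positivity) hη0
  have hRc : Continuous R := hR.continuous hρ
  have hRp : Function.Periodic R 1 := hR.periodic
  have hvc : Continuous v := by
    have := Complex.continuous_re.comp hv.continuous
    simpa [Function.comp_def] using this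
  have hvp : Function.Periodic v 1 := by
    intro x
    have := hv.periodic x
    exact Complex.ofReal_injective this
  refine ⟨?_, ?_, ?_⟩
  · exact Complex.continuous_ofReal.comp
      ((hRc.comp ((continuous_id.add continuous_const).add hvc)).sub
        (hRc.comp (continuous_id.add continuous_const)))
  · intro x
    have h1 : R (x + 1 + y + v (x + 1)) = R (x + y + v x) := by
      rw [hvp x, show x + 1 + y + v x = (x + y + v x) + 1 by ring, hRp]
    have h2 : R (x + 1 + y) = R (x + y) := by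
      rw [show x + 1 + y = (x + y) + 1 by ring, hRp]
    simp only [h1, h2]
  intro δ hδ
  obtain ⟨a, ha, hs⟩ := hR
  set K : ℝ := 8 * π * A1 with hK
  set c : ℝ := 2 * π * (A1 * ω ^ 2) * Real.exp K with hc
  have hc0 : 0 < c := by positivity
  set δ' : ℝ := δ / (15 * A) with hδ'
  have hδ'0 : 0 < δ' := by positivity
  set S : Finset ℤ := Finset.Icc (-(q:ℤ) ^ 2) ((q:ℤ) ^ 2) with hS
  have hmemS : ∀ k : ℤ, k ∈ S ↔ |(k:ℝ)| ≤ (q:ℝ) ^ 2 := by
    intro k
    rw [hS, Finset.mem_Icc, abs_le]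
    constructor
    · rintro ⟨h1, h2⟩
      exact ⟨by exact_mod_cast h1, by exact_mod_cast h2⟩
    · rintro ⟨h1, h2⟩
      exact ⟨by exact_mod_cast h1, by exact_mod_cast h2⟩
  have hfk : ∀ k ∈ S, NB ρ N η (c * (1 + |(k:ℝ)|)) (fun x => e k (v x) - 1) := by
    intro k hk
    rw [hmemS] at hk
    refine comp_fk hρ hη hη1 (by positivity) hv ?_
    have h1 : |(k:ℝ)| * ω ^ 2 ≤ 4 := by
      calc |(k:ℝ)| * ω ^ 2 ≤ (q:ℝ) ^ 2 * ω ^ 2 := by gcongr
        _ = ((q:ℝ) * ω) ^ 2 := by ring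
        _ = (p:ℝ) ^ 2 := by rw [hqω]
        _ ≤ 4 := by nlinarith
    calc 2 * π * |(k:ℝ)| * (A1 * ω ^ 2) = 2 * π * A1 * (|(k:ℝ)| * ω ^ 2) := by ring
      _ ≤ 2 * π * A1 * 4 := by gcongr
      _ = K := by rw [hK]; ring
  have hdec : ∀ k ∈ S, ∃ (g : ℝ → ℂ) (m ε : ℝ), 0 ≤ m ∧ 0 ≤ ε ∧ Bd ρ N m g ∧
      (∀ x, ‖(e k (v x) - 1) - g x‖ ≤ ε) ∧ 12 * m + ε / η ≤ c * (1 + |(k:ℝ)|) + δ' :=
    fun k hk => (hfk k hk).2.2 δ' hδ'0
  choose! g m ε hm0 hε0 hBd hge hle using hdec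
  have hle' : ∀ k ∈ S, 12 * m k + ε k / η ≤ (c + δ') * (1 + |(k:ℝ)|) := by
    intro k hk
    have h1 := hle k hk
    have h2 : δ' ≤ δ' * (1 + |(k:ℝ)|) := by
      have := abs_nonneg (k:ℝ)
      nlinarith
    linarith
  have hV3 : ∀ k : ℤ, V ρ N 3 k = (1 + |(k:ℝ)|) * V ρ N 2 k := fun k => V_succ k
  have hBdG : Bd ρ N (12 * (A * (c + δ') / 12))
      (fun x => ∑ k ∈ S, a k * e k (x + y) * g k x) := by
    refine comp_bd_sum hρ (by positivity) hBd ?_ y
    intro k hk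
    have hVk := V_pos ρ N 2 k
    have h0 : 0 < 1 + |(k:ℝ)| := by positivity
    have h1 : m k ≤ (c + δ') * (1 + |(k:ℝ)|) / 12 := by
      have h2 := hle' k hk
      have h3 : 0 ≤ ε k / η := div_nonneg (hε0 k hk) hη.le
      linarith
    calc ‖a k‖ * m k ≤ (A / V ρ N 3 k) * ((c + δ') * (1 + |(k:ℝ)|) / 12) := by
          refine mul_le_mul (ha k) h1 (hm0 k hk) ?_
          rw [hV3]; positivity
      _ = A * (c + δ') / 12 / V ρ N 2 k := by
          rw [hV3]; field_simp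
  refine ⟨fun x => ∑ k ∈ S, a k * e k (x + y) * g k x, 12 * (A * (c + δ') / 12),
    3 * A * η * (c + δ') + 2 * A * (1 / (q:ℝ) ^ 4 * Real.exp (-(ρ * min ((q:ℝ) ^ 2) (N:ℝ)))),
    by positivity, by positivity, hBdG, ?_, ?_⟩
  · intro x
    -- the function as a series
    have hser : HasSum (fun k : ℤ => a k * e k (x + y) * (e k (v x) - 1))
        ((R (x + y + v x) - R (x + y) : ℝ) : ℂ) := by
      have h1 := (hs (x + y + v x)).sub (hs (x + y))
      rw [Complex.ofReal_sub]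
      refine comp_hs_congr h1 fun k => ?_
      rw [e_shift k (x + y) (v x)]
      ring
    have hsub : HasSum (fun k : ℤ => if k ∈ S then (0:ℂ) else a k * e k (x + y) * (e k (v x) - 1))
        (((R (x + y + v x) - R (x + y) : ℝ) : ℂ) -
          ∑ k ∈ S, a k * e k (x + y) * (e k (v x) - 1)) := by
      have h1 : HasSum (fun k : ℤ => if k ∈ S then a k * e k (x + y) * (e k (v x) - 1) else 0)
          (∑ k ∈ S, a k * e k (x + y) * (e k (v x) - 1)) := by
        have : HasSum (fun k : ℤ => if k ∈ S then a k * e k (x + y) * (e k (v x) - 1) else 0)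
            (∑ k ∈ S, if k ∈ S then a k * e k (x + y) * (e k (v x) - 1) else 0) :=
          hasSum_sum_of_ne_finset_zero (fun k hk => by simp [hk])
        convert this using 1
        exact Finset.sum_congr rfl fun k hk => by simp [hk]
      have h2 := hser.sub h1
      refine comp_hs_congr h2 fun k => ?_
      by_cases hk : k ∈ S <;> simp [hk]
    obtain ⟨htS, htl⟩ := tail_V3 (N := N) hρ (q := q) (by omega)
    have hhigh : ‖((R (x + y + v x) - R (x + y) : ℝ) : ℂ) -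
          ∑ k ∈ S, a k * e k (x + y) * (e k (v x) - 1)‖ ≤
        2 * A * (1 / (q:ℝ) ^ 4 * Real.exp (-(ρ * min ((q:ℝ) ^ 2) (N:ℝ)))) := by
      rw [← hsub.tsum_eq]
      have hbd : ∀ k : ℤ, ‖(if k ∈ S then (0:ℂ) else a k * e k (x + y) * (e k (v x) - 1))‖ ≤
          2 * A * (if (q:ℝ) ^ 2 < |(k:ℝ)| then 1 / V ρ N 3 k else 0) := by
        intro k
        by_cases hk : k ∈ S
        · simp only [hk, if_true, norm_zero]
          have := (V_pos ρ N 3 k)
          split_ifs <;> positivity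
        · have hk' : (q:ℝ) ^ 2 < |(k:ℝ)| := by
            rw [hmemS] at hk; exact not_le.1 hk
          simp only [hk, if_false, hk', if_true]
          rw [norm_mul, norm_mul, norm_e, mul_one]
          have h1 : ‖e k (v x) - 1‖ ≤ 2 := by
            calc ‖e k (v x) - 1‖ ≤ ‖e k (v x)‖ + ‖(1:ℂ)‖ := norm_sub_le _ _
              _ = 2 := by rw [norm_e]; norm_num
          calc ‖a k‖ * ‖e k (v x) - 1‖ ≤ (A / V ρ N 3 k) * 2 := by
                refine mul_le_mul (ha k) h1 (norm_nonneg _) ?_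
                have := (V_pos ρ N 3 k)
                positivity
            _ = 2 * A * (1 / V ρ N 3 k) := by ring
      calc ‖∑' k : ℤ, (if k ∈ S then (0:ℂ) else a k * e k (x + y) * (e k (v x) - 1))‖
          ≤ ∑' k : ℤ, 2 * A * (if (q:ℝ) ^ 2 < |(k:ℝ)| then 1 / V ρ N 3 k else 0) :=
            tsum_of_norm_bounded (htS.mul_left (2 * A)).hasSum hbd
        _ = 2 * A * ∑' k : ℤ, (if (q:ℝ) ^ 2 < |(k:ℝ)| then 1 / V ρ N 3 k else 0) :=
            tsum_mul_left
        _ ≤ _ := mul_le_mul_of_nonneg_left htl (by positivity)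
    have hlow : ‖∑ k ∈ S, a k * e k (x + y) * (e k (v x) - 1) -
        ∑ k ∈ S, a k * e k (x + y) * g k x‖ ≤ 3 * A * η * (c + δ') := by
      rw [← Finset.sum_sub_distrib]
      calc ‖∑ k ∈ S, (a k * e k (x + y) * (e k (v x) - 1) - a k * e k (x + y) * g k x)‖
          ≤ ∑ k ∈ S, ‖a k * e k (x + y) * (e k (v x) - 1) - a k * e k (x + y) * g k x‖ :=
            norm_sum_le _ _
        _ ≤ ∑ k ∈ S, A * η * (c + δ') * (1 / V ρ N 2 k) := by
            refine Finset.sum_le_sum fun k hk => ?_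
            have hVk := V_pos ρ N 2 k
            have h0 : 0 < 1 + |(k:ℝ)| := by positivity
            rw [← mul_sub, norm_mul, norm_mul, norm_e, mul_one]
            have h1 : ε k ≤ η * ((c + δ') * (1 + |(k:ℝ)|)) := by
              have h2 := hle' k hk
              have h3 := hm0 k hk
              have h4 : ε k / η ≤ (c + δ') * (1 + |(k:ℝ)|) := by linarith
              rw [div_le_iff₀ hη] at h4
              linarith
            calc ‖a k‖ * ‖e k (v x) - 1 - g k x‖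
                ≤ (A / V ρ N 3 k) * (η * ((c + δ') * (1 + |(k:ℝ)|))) := by
                  refine mul_le_mul (ha k) ((hge k hk x).trans h1) (norm_nonneg _) ?_
                  rw [hV3]; positivity
              _ = A * η * (c + δ') * (1 / V ρ N 2 k) := by
                  rw [hV3]; field_simp
        _ = A * η * (c + δ') * ∑ k ∈ S, 1 / V ρ N 2 k := by rw [Finset.mul_sum]
        _ ≤ A * η * (c + δ') * 3 := by
            refine mul_le_mul_of_nonneg_left ?_ (by positivity)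
            refine le_trans ((summable_V2 (N := N) hρ).sum_le_tsum S fun k _ => ?_)
              (tsum_V2 (N := N) hρ)
            have hVk := V_pos ρ N 2 k
            positivity
        _ = 3 * A * η * (c + δ') := by ring
    calc ‖((R (x + y + v x) - R (x + y) : ℝ) : ℂ) - ∑ k ∈ S, a k * e k (x + y) * g k x‖
        = ‖(∑ k ∈ S, a k * e k (x + y) * (e k (v x) - 1) -
            ∑ k ∈ S, a k * e k (x + y) * g k x) +
            (((R (x + y + v x) - R (x + y) : ℝ) : ℂ) -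
            ∑ k ∈ S, a k * e k (x + y) * (e k (v x) - 1))‖ := by
          congr 1; ring
      _ ≤ _ := (norm_add_le _ _).trans (add_le_add hlow hhigh)
  · -- the final estimate
    have hq4 : 1 / (q:ℝ) ^ 4 ≤ ω ^ 2 * ω ^ 2 := by
      have h1 : 1 / (q:ℝ) ^ 4 = (1 / (q:ℝ)) ^ 4 := by ring
      have h2 : 1 / (q:ℝ) ≤ ω := by
        rw [hω]; gcongr
      calc 1 / (q:ℝ) ^ 4 = (1 / (q:ℝ)) ^ 4 := h1
        _ ≤ ω ^ 4 := by gcongr
        _ = ω ^ 2 * ω ^ 2 := by ring
    have h1 : 1 / (q:ℝ) ^ 4 * Real.exp (-(ρ * min ((q:ℝ) ^ 2) (N:ℝ))) ≤ ω ^ 2 * η := by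
      calc 1 / (q:ℝ) ^ 4 * Real.exp (-(ρ * min ((q:ℝ) ^ 2) (N:ℝ)))
          ≤ ω ^ 2 * ω ^ 2 * Real.exp (-(ρ * min ((q:ℝ) ^ 2) (N:ℝ))) :=
            mul_le_mul_of_nonneg_right hq4 hE.le
        _ = ω ^ 2 * etam ρ N p q := by rw [hetam]; ring
        _ ≤ ω ^ 2 * η := by gcongr
    have h2 : (3 * A * η * (c + δ') + 2 * A * (1 / (q:ℝ) ^ 4 *
        Real.exp (-(ρ * min ((q:ℝ) ^ 2) (N:ℝ))))) / η ≤ 3 * A * (c + δ') + 2 * A * ω ^ 2 := by
      rw [div_le_iff₀ hη]
      have : 2 * A * (1 / (q:ℝ) ^ 4 * Real.exp (-(ρ * min ((q:ℝ) ^ 2) (N:ℝ)))) ≤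
          2 * A * (ω ^ 2 * η) := by gcongr
      nlinarith
    have h3 : 15 * A * δ' = δ := by rw [hδ']; field_simp
    have h4 : 15 * A * c = 15 * A * (2 * π * A1 * Real.exp K) * ω ^ 2 := by rw [hc]; ring
    have h5 : 0 ≤ 2 * A * ω ^ 2 := by positivity
    calc 12 * (12 * (A * (c + δ') / 12)) + (3 * A * η * (c + δ') + 2 * A * (1 / (q:ℝ) ^ 4 *
        Real.exp (-(ρ * min ((q:ℝ) ^ 2) (N:ℝ))))) / η
        ≤ 12 * (12 * (A * (c + δ') / 12)) + (3 * A * (c + δ') + 2 * A * ω ^ 2) := by linarith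
      _ = 15 * A * c + 15 * A * δ' + 2 * A * ω ^ 2 := by ring
      _ ≤ (15 * A * (2 * π * A1 * Real.exp K) + 4 * A) * ω ^ 2 + δ := by
          rw [h3, h4]; nlinarith

end Pool.Agent.MP_ae5b4e_an_RG
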