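import Mathlib
import Pool.Agent.Lib.MP_ae5b4e_an_RG.Comp
import Pool.Agent.Lib.MP_ae5b4e_an_RG.Volt
import Pool.Agent.Lib.MP_ae5b4e_an_RG.LinK

/-!
# MP_ae5b4e_an, project REG: the estimate (6.1)

Text: `/team-store/POR_REG.md`.
-/

noncomputable section

namespace Pool.Agent.MP_ae5b4e_an_RG

open Real Set Filter Topology MeasureTheory intervalIntegral

section real

variable {ρ : ℝ} {N : ℕ} {η M M' : ℝ} {f g : ℝ → ℝ}

private lemma rcongr (h : NB ρ N η M (fun x => (f x : ℂ))) (hfg : ∀ x, f x = g x) :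
    NB ρ N η M (fun x => (g x : ℂ)) := by
  have h1 : g = f := funext fun x => (hfg x).symm
  rw [h1]
  exact h

private lemma radd (h : NB ρ N η M (fun x => (f x : ℂ))) (h' : NB ρ N η M' (fun x => (g x : ℂ))) :
    NB ρ N η (M + M') (fun x => ((f x + g x : ℝ) : ℂ)) := by
  have h1 := h.add h'
  simpa only [Complex.ofReal_add] using h1

private lemma rsub (hη : 0 < η) (h : NB ρ N η M (fun x => (f x : ℂ)))
    (h' : NB ρ N η M' (fun x => (g x : ℂ))) :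
    NB ρ N η (M + M') (fun x => ((f x - g x : ℝ) : ℂ)) := by
  have h1 := h.sub hη h'
  simpa only [Complex.ofReal_sub] using h1

private lemma rmul (hρ : 0 ≤ ρ) (hη : 0 < η) (hη1 : η ≤ 1) (h : NB ρ N η M (fun x => (f x : ℂ)))
    (h' : NB ρ N η M' (fun x => (g x : ℂ))) :
    NB ρ N η (M * M') (fun x => ((f x * g x : ℝ) : ℂ)) := by
  have h1 := h.mul hρ hη hη1 h'
  simpa only [Complex.ofReal_mul] using h1

private lemma rcm (hη : 0 < η) (c : ℝ) (h : NB ρ N η M (fun x => (f x : ℂ))) :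
    NB ρ N η (|c| * M) (fun x => ((c * f x : ℝ) : ℂ)) := by
  have h1 := h.const_mul hη (c : ℂ)
  rw [Complex.norm_real, Real.norm_eq_abs] at h1
  simpa only [Complex.ofReal_mul] using h1

private lemma rconst (ρ : ℝ) (N : ℕ) (hη : 0 < η) {c : ℝ} (hc : 0 ≤ c) :
    NB ρ N η (12 * c) (fun _ => (c : ℂ)) := by
  have h1 := NB.const ρ N hη (c : ℂ)
  rwa [Complex.norm_real, Real.norm_eq_abs, abs_of_nonneg hc] at h1

private lemma rint (hη : 0 < η) {F : ℝ → ℝ → ℝ} (hc : Continuous fun z : ℝ × ℝ => F z.1 z.2)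
    (h : ∀ s ∈ Icc (0:ℝ) 1, NB ρ N η M (fun x => (F s x : ℂ))) :
    NB ρ N η M (fun x => ((∫ s in (0:ℝ)..1, F s x : ℝ) : ℂ)) := by
  have h1 := NB.integral (M := M) hη (F := fun s x => (F s x : ℂ)) zero_le_one
    (Complex.continuous_ofReal.comp hc) h
  rw [sub_zero, one_mul] at h1
  simpa only [intervalIntegral.integral_ofReal] using h1

end real

/-- the linear part of one side -/
private def lam (R1 R2 : ℝ → ℝ) (τ x : ℝ) : ℝ :=
  τ ^ 2 * ∫ t in (0:ℝ)..1, (K1 t * R1 (x + t * τ) + K2 t * R2 (x + t * τ))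

private lemma cK1 : Continuous K1 := by unfold K1; fun_prop

private lemma cK2 : Continuous K2 := by unfold K2; fun_prop

private lemma lam_eq {R1 R2 : ℝ → ℝ} (h1 : Continuous R1) (h2 : Continuous R2) (τ x : ℝ) :
    lam R1 R2 τ x = -(τ ^ 2 * ((∫ s in (0:ℝ)..1, (2 * s - 1) * s ^ 2 * R1 (x + (1 - s) * τ)) +
      ∫ s in (0:ℝ)..1, 2 * s ^ 2 * (1 - s) * R2 (x + (1 - s) * τ))) := by
  have e1 := intervalIntegral.integral_comp_sub_left (a := (0:ℝ)) (b := 1)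
    (fun t => K1 t * R1 (x + t * τ) + K2 t * R2 (x + t * τ)) 1
  rw [sub_self, sub_zero] at e1
  unfold lam
  rw [← e1, ← intervalIntegral.integral_add
    ((by fun_prop : Continuous fun s : ℝ =>
      (2 * s - 1) * s ^ 2 * R1 (x + (1 - s) * τ)).intervalIntegrable _ _)
    ((by fun_prop : Continuous fun s : ℝ =>
      2 * s ^ 2 * (1 - s) * R2 (x + (1 - s) * τ)).intervalIntegrable _ _), ← mul_neg,
    ← intervalIntegral.integral_neg]
  congr 1
  refine intervalIntegral.integral_congr fun s _ => ?_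
  simp only [K1, K2]
  ring

private lemma RL_eq {R1 R2 : ℝ → ℝ} (h1 : Continuous R1) (h2 : Continuous R2) (ω x : ℝ) :
    RL R1 R2 ω x = ω / 2 * (lam R1 R2 ω x - lam R1 R2 (-ω) x) := by
  have c1 := cK1
  have c2 := cK2
  unfold lam RL
  have e1 : (-ω) ^ 2 = ω ^ 2 := by ring
  rw [e1, ← mul_sub, ← intervalIntegral.integral_sub
    ((by fun_prop : Continuous fun t : ℝ =>
      K1 t * R1 (x + t * ω) + K2 t * R2 (x + t * ω)).intervalIntegrable _ _)
    ((by fun_prop : Continuous fun t : ℝ =>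
      K1 t * R1 (x + t * (-ω)) + K2 t * R2 (x + t * (-ω))).intervalIntegrable _ _), ← mul_assoc]
  have e2 : ω ^ 3 / 2 = ω / 2 * ω ^ 2 := by ring
  rw [e2]
  congr 1
  refine intervalIntegral.integral_congr fun t _ => ?_
  have e3 : x + t * (-ω) = x - t * ω := by ring
  simp only [e3]
  ring

/-- one side of the law -/
private theorem side (A A1 : ℝ) (hA : 0 < A) (hA1 : 0 < A1) :
    ∃ C ω1 : ℝ, 0 < C ∧ 0 < ω1 ∧ ∀ (ρ : ℝ) (N p q : ℕ) (η τ : ℝ) (R1 R2 u r : ℝ → ℝ),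
      0 ≤ ρ → PQ p q → (p:ℝ) / q ≤ ω1 → etam ρ N p q ≤ η → η ≤ 1 →
      Dec ρ N A R1 → Dec ρ N A R2 → |τ| = (p:ℝ) / q → Continuous u →
      NB ρ N η (A1 * ((p:ℝ) / q) ^ 2) (fun x => (u x : ℂ)) →
      NB ρ N η (A1 * ((p:ℝ) / q) ^ 2) (fun x => (((u (x + τ) - u x) / τ : ℝ) : ℂ)) →
      (∀ x, Rel R1 R2 (x + τ + u (x + τ)) (u x - u (x + τ) - τ) (r x)) →
      NB ρ N η (C * ((p:ℝ) / q) ^ 2) (fun x => (r x : ℂ)) ∧
      NB ρ N η (C * ((p:ℝ) / q) ^ 4) (fun x => ((r x - lam R1 R2 τ x : ℝ) : ℂ)) := by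
  obtain ⟨C2, hC2, hcomp⟩ := comp_bound A A1 hA hA1
  obtain ⟨K, D0, hK, hD0, hvolt⟩ := volt (12 * A + C2) (by positivity)
  set E1 : ℝ := 2 * A1 + A1 ^ 2 with hE1
  have hE10 : 0 < E1 := by positivity
  set D1 : ℝ := 12 + E1 with hD1
  have hD10 : 0 < D1 := by positivity
  set C : ℝ := 6 * K * D1 + (3 * K * D1 ^ 2 + 2 * D1 * C2 + 24 * A * E1 + 6 * K ^ 2 * D1 ^ 2)
    with hCdef
  refine ⟨C, min 1 (min (D0 / D1) (1 / (2 * K * D1))), by positivity, by positivity, ?_⟩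
  intro ρ N p q η τ R1 R2 u r hρ hpq hω1 hηm hη1 hR1 hR2 hτ hu hNu hNP hrel
  have hq0 : (0:ℝ) < q := by
    have := hpq.2.1
    exact_mod_cast (by omega : 0 < q)
  have hp1 : (1:ℝ) ≤ p := by
    rcases hpq.1 with h | h <;> rw [h] <;> norm_num
  have hem : 0 < etam ρ N p q := by
    unfold etam
    positivity
  have hη : 0 < η := hem.trans_le hηm
  have hω : 0 < (p:ℝ) / q := by positivity
  set ω : ℝ := (p:ℝ) / q with hωdef
  have hωle : ω ≤ 1 := hω1.trans (min_le_left _ _)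
  have hωD : ω ≤ D0 / D1 := hω1.trans ((min_le_right _ _).trans (min_le_left _ _))
  have hωK : ω ≤ 1 / (2 * K * D1) := hω1.trans ((min_le_right _ _).trans (min_le_right _ _))
  have hω2 : ω ^ 2 ≤ ω := by nlinarith
  have hω21 : ω ^ 2 ≤ 1 := hω2.trans hωle
  have hω4 : ω ^ 4 ≤ ω ^ 2 := by nlinarith [sq_nonneg ω]
  have hτ2 : τ ^ 2 = ω ^ 2 := by rw [← hτ, sq_abs]
  have hτ0 : τ ≠ 0 := by
    intro h
    rw [h, abs_zero] at hτ
    exact hω.ne hτ
  have cR1 : Continuous R1 := hR1.continuous hρ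
  have cR2 : Continuous R2 := hR2.continuous hρ
  -- the square of the step
  set P : ℝ → ℝ := fun x => (u (x + τ) - u x) / τ with hP
  set d : ℝ → ℝ := fun x => u x - u (x + τ) - τ with hd
  have hdP : ∀ x, d x = -τ * (1 + P x) := by
    intro x
    simp only [hd, hP]
    field_simp
    ring
  have cd : Continuous d := by
    simp only [hd]
    fun_prop
  have hdl1 : NB ρ N η (E1 * ω ^ 4) (fun x => ((d x ^ 2 - ω ^ 2 : ℝ) : ℂ)) := by
    have h1 := rmul hρ hη hη1 hNP hNP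
    have h2 := radd (rcm hη 2 hNP) h1
    have h3 := rcm hη (ω ^ 2) h2
    refine (rcongr h3 fun x => ?_).mono ?_
    · rw [hdP x, mul_pow, neg_sq, hτ2]
      simp only [hP]
      ring
    · rw [abs_of_pos (by positivity : (0:ℝ) < ω ^ 2), abs_of_pos (by norm_num : (0:ℝ) < 2)]
      have e1 : ω ^ 2 * (2 * (A1 * ω ^ 2) + A1 * ω ^ 2 * (A1 * ω ^ 2)) =
          2 * A1 * ω ^ 4 + A1 ^ 2 * ω ^ 4 * ω ^ 2 := by ring
      have e2 : A1 ^ 2 * ω ^ 4 * ω ^ 2 ≤ A1 ^ 2 * ω ^ 4 * 1 := by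
        refine mul_le_mul_of_nonneg_left hω21 (by positivity)
      rw [e1, hE1]
      linarith
  have hdl : NB ρ N η (D1 * ω ^ 2) (fun x => ((d x ^ 2 : ℝ) : ℂ)) := by
    have h1 := radd (rconst ρ N hη (by positivity : 0 ≤ ω ^ 2)) hdl1
    refine (rcongr h1 fun x => ?_).mono ?_
    · ring
    · rw [hD1]
      have : E1 * ω ^ 4 ≤ E1 * ω ^ 2 := mul_le_mul_of_nonneg_left hω4 hE10.le
      linarith
  -- the coefficients
  set a : ℝ → ℝ := fun x => x + τ + u (x + τ) with ha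
  have ca : Continuous a := by
    simp only [ha]
    fun_prop
  have hv : ∀ s ∈ Icc (0:ℝ) 1, NB ρ N η (A1 * ω ^ 2)
      (fun x => (((1 - s) * u (x + τ) + s * u x : ℝ) : ℂ)) := by
    intro s hs
    have h1 : NB ρ N η (A1 * ω ^ 2) (fun x => (u (x + τ) : ℂ)) := hNu.shift τ
    have h2 := radd (rcm hη (1 - s) h1) (rcm hη s hNu)
    refine h2.mono (le_of_eq ?_)
    rw [abs_of_nonneg (by linarith [hs.2]), abs_of_nonneg hs.1]
    ring
  have harg : ∀ s x, a x + s * d x = x + (1 - s) * τ + ((1 - s) * u (x + τ) + s * u x) := by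
    intro s x
    simp only [ha, hd]
    ring
  have hdiff : ∀ {R : ℝ → ℝ}, Dec ρ N A R → ∀ s ∈ Icc (0:ℝ) 1, NB ρ N η (C2 * ω ^ 2)
      (fun x => ((R (a x + s * d x) - R (x + (1 - s) * τ) : ℝ) : ℂ)) := by
    intro R hR s hs
    have h1 := hcomp ρ N p q η R (fun x => (1 - s) * u (x + τ) + s * u x) ((1 - s) * τ) hρ hpq hηm
      hη1 hR (hv s hs)
    refine rcongr h1 fun x => ?_
    rw [harg s x]
  have hlin : ∀ {R : ℝ → ℝ}, Dec ρ N A R → ∀ s : ℝ, NB ρ N η (12 * A)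
      (fun x => (R (x + (1 - s) * τ) : ℂ)) := by
    intro R hR s
    exact (NB.of_Bd hρ hR.bd).shift ((1 - s) * τ)
  have hr : ∀ {R : ℝ → ℝ}, Dec ρ N A R → ∀ s ∈ Icc (0:ℝ) 1, NB ρ N η (12 * A + C2)
      (fun x => (R (a x + s * d x) : ℂ)) := by
    intro R hR s hs
    refine (rcongr (radd (hlin hR s) (hdiff hR s hs)) fun x => ?_).mono ?_
    · ring
    · have : C2 * ω ^ 2 ≤ C2 * 1 := mul_le_mul_of_nonneg_left hω21 hC2.le
      linarith
  -- the Volterra solutions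
  choose y hy hy0 hyr using hrel
  have hDpos : 0 < D1 * ω ^ 2 := by positivity
  have hDle : D1 * ω ^ 2 ≤ D0 := by
    have h1 : D1 * ω ^ 2 ≤ D1 * ω := mul_le_mul_of_nonneg_left hω2 hD10.le
    have h2 : D1 * ω ≤ D0 := by
      rw [le_div_iff₀ hD10] at hωD
      linarith
    exact h1.trans h2
  have hKD : K * (D1 * ω ^ 2) ≤ 1 / 2 := by
    have h1 : K * (D1 * ω ^ 2) ≤ K * (D1 * ω) :=
      mul_le_mul_of_nonneg_left (mul_le_mul_of_nonneg_left hω2 hD10.le) hK.le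
    have h2 : ω * (2 * K * D1) ≤ 1 := by
      rwa [le_div_iff₀ (by positivity)] at hωK
    linarith
  obtain ⟨v1, v2, v3, v4⟩ := hvolt ρ N η (D1 * ω ^ 2) (fun x => d x ^ 2)
    (fun s x => R1 (a x + s * d x)) (fun s x => R2 (a x + s * d x)) y hρ hη hη1 hDpos hDle hdl
    (by fun_prop) (by fun_prop) (hr hR1) (hr hR2) (fun x => (hy x).1)
    (fun x σ hσ => (hy x).2 σ hσ)
  set X : ℝ → ℝ := fun x => (∫ s in (0:ℝ)..1, y x s) - 1 with hX
  set num : ℝ → ℝ := fun x => y x 1 - 2 * ∫ s in (0:ℝ)..1, y x s with hnumdef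
  set J : ℝ → ℝ := fun x => (∫ s in (0:ℝ)..1, (2 * s - 1) * s ^ 2 * R1 (a x + s * d x)) +
    ∫ s in (0:ℝ)..1, 2 * s ^ 2 * (1 - s) * R2 (a x + s * d x) with hJ
  set JL : ℝ → ℝ := fun x => (∫ s in (0:ℝ)..1, (2 * s - 1) * s ^ 2 * R1 (x + (1 - s) * τ)) +
    ∫ s in (0:ℝ)..1, 2 * s ^ 2 * (1 - s) * R2 (x + (1 - s) * τ) with hJL
  have hw1 : ∀ s ∈ Icc (0:ℝ) 1, |(2 * s - 1) * s ^ 2| ≤ 1 := by
    intro s hs
    rw [abs_mul]
    have h1 : |2 * s - 1| ≤ 1 := by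
      rw [abs_le]
      constructor <;> linarith [hs.1, hs.2]
    have h2 : |s ^ 2| ≤ 1 := by
      rw [abs_of_nonneg (sq_nonneg s)]
      nlinarith [hs.1, hs.2]
    exact mul_le_one₀ h1 (abs_nonneg _) h2
  have hw2 : ∀ s ∈ Icc (0:ℝ) 1, |2 * s ^ 2 * (1 - s)| ≤ 1 := by
    intro s hs
    rw [abs_of_nonneg (mul_nonneg (by positivity) (by linarith [hs.2]))]
    have h3 := sq_nonneg (s - 1)
    nlinarith [hs.1, hs.2, mul_nonneg hs.1 (sub_nonneg.2 hs.2), sq_nonneg (s - 1 / 2)]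
  have hwt : ∀ {c M : ℝ} {f : ℝ → ℝ}, |c| ≤ 1 → NB ρ N η M (fun x => (f x : ℂ)) →
      NB ρ N η M (fun x => ((c * f x : ℝ) : ℂ)) := by
    intro c M f hc h
    refine (rcm hη c h).mono ?_
    exact mul_le_of_le_one_left (h.nonneg hη) hc
  have hNJL : NB ρ N η (24 * A) (fun x => (JL x : ℂ)) := by
    have h1 := rint (ρ := ρ) (N := N) (M := 12 * A) hη
      (F := fun s x => (2 * s - 1) * s ^ 2 * R1 (x + (1 - s) * τ)) (by fun_prop)
      (fun s hs => hwt (hw1 s hs) (hlin hR1 s))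
    have h2 := rint (ρ := ρ) (N := N) (M := 12 * A) hη
      (F := fun s x => 2 * s ^ 2 * (1 - s) * R2 (x + (1 - s) * τ)) (by fun_prop)
      (fun s hs => hwt (hw2 s hs) (hlin hR2 s))
    exact (radd h1 h2).mono (by linarith)
  have hNJd : NB ρ N η (2 * C2 * ω ^ 2) (fun x => ((J x - JL x : ℝ) : ℂ)) := by
    have h1 := rint (ρ := ρ) (N := N) (M := C2 * ω ^ 2) hη
      (F := fun s x => (2 * s - 1) * s ^ 2 * (R1 (a x + s * d x) - R1 (x + (1 - s) * τ)))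
      (by fun_prop) (fun s hs => hwt (hw1 s hs) (hdiff hR1 s hs))
    have h2 := rint (ρ := ρ) (N := N) (M := C2 * ω ^ 2) hη
      (F := fun s x => 2 * s ^ 2 * (1 - s) * (R2 (a x + s * d x) - R2 (x + (1 - s) * τ)))
      (by fun_prop) (fun s hs => hwt (hw2 s hs) (hdiff hR2 s hs))
    refine (rcongr (radd h1 h2) fun x => ?_).mono (by linarith)
    simp only [hJ, hJL, mul_sub]
    rw [intervalIntegral.integral_sub, intervalIntegral.integral_sub]
    · ring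
    · exact Continuous.intervalIntegrable (by fun_prop) _ _
    · exact Continuous.intervalIntegrable (by fun_prop) _ _
    · exact Continuous.intervalIntegrable (by fun_prop) _ _
    · exact Continuous.intervalIntegrable (by fun_prop) _ _
  have hnum : NB ρ N η (3 * K * (D1 * ω ^ 2)) (fun x => (num x : ℂ)) := by
    have h1 := rsub hη v1 (rcm hη 2 v2)
    refine (rcongr h1 fun x => ?_).mono (le_of_eq ?_)
    · simp only [hnumdef]
      ring
    · rw [abs_of_pos (by norm_num : (0:ℝ) < 2)]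
      ring
  have hnum2 : NB ρ N η (3 * K * (D1 * ω ^ 2) ^ 2) (fun x => ((num x + d x ^ 2 * J x : ℝ) : ℂ)) := by
    have h1 := rsub hη v3 (rcm hη 2 v4)
    refine (rcongr h1 fun x => ?_).mono (le_of_eq ?_)
    · have h2 := lin_id (a := fun s => R1 (a x + s * d x)) (b := fun s => R2 (a x + s * d x))
        (by fun_prop) (by fun_prop)
      simp only [hnumdef, hJ]
      rw [← h2]
      ring
    · rw [abs_of_pos (by norm_num : (0:ℝ) < 2)]
      ring
  have hnum3 : NB ρ N η ((3 * K * D1 ^ 2 + 2 * D1 * C2 + 24 * A * E1) * ω ^ 4)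
      (fun x => ((num x + ω ^ 2 * JL x : ℝ) : ℂ)) := by
    have h1 := rmul hρ hη hη1 hdl hNJd
    have h2 := rmul hρ hη hη1 hdl1 hNJL
    have h3 := rsub hη hnum2 (radd h1 h2)
    refine (rcongr h3 fun x => ?_).mono (le_of_eq ?_)
    · ring
    · ring
  have hinv := NB.inv hρ hη hη1 v2 hKD
  have hNI : NB ρ N η (2 * (K * (D1 * ω ^ 2))) (fun x => ((1 / (1 + X x) - 1 : ℝ) : ℂ)) := by
    have h1 : (fun x => ((1 / (1 + X x) - 1 : ℝ) : ℂ)) = fun x => 1 / (1 + (X x : ℂ)) - 1 := by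
      funext x
      push_cast
      rfl
    rw [h1]
    exact hinv.2
  have hnI := rmul hρ hη hη1 hnum hNI
  have hrx : ∀ x, r x = num x + num x * (1 / (1 + X x) - 1) := by
    intro x
    have h1 : 1 + X x = ∫ s in (0:ℝ)..1, y x s := by
      simp only [hX]
      ring
    rw [hyr x, h1]
    simp only [hnumdef]
    have := hy0 x
    field_simp
    ring
  constructor
  · refine (rcongr (radd hnum hnI) fun x => (hrx x).symm).mono ?_
    have h1 : 3 * K * (D1 * ω ^ 2) * (2 * (K * (D1 * ω ^ 2))) ≤ 3 * K * (D1 * ω ^ 2) * 1 := by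
      refine mul_le_mul_of_nonneg_left (by linarith) (by positivity)
    have h2 : 0 ≤ (3 * K * D1 ^ 2 + 2 * D1 * C2 + 24 * A * E1 + 6 * K ^ 2 * D1 ^ 2) * ω ^ 2 := by
      positivity
    have h3 : C * ω ^ 2 = 6 * K * D1 * ω ^ 2 +
        (3 * K * D1 ^ 2 + 2 * D1 * C2 + 24 * A * E1 + 6 * K ^ 2 * D1 ^ 2) * ω ^ 2 := by
      rw [hCdef]
      ring
    rw [h3]
    linarith
  · refine (rcongr (radd hnum3 hnI) fun x => ?_).mono ?_
    · rw [hrx x, lam_eq cR1 cR2, hτ2]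
      ring
    · have h2 : 0 ≤ 6 * K * D1 * ω ^ 4 := by positivity
      have h3 : C * ω ^ 4 = 6 * K * D1 * ω ^ 4 +
          ((3 * K * D1 ^ 2 + 2 * D1 * C2 + 24 * A * E1) * ω ^ 4 +
            3 * K * (D1 * ω ^ 2) * (2 * (K * (D1 * ω ^ 2)))) := by
        rw [hCdef]
        ring
      rw [h3]
      linarith

/-- (6.1) -/
theorem six_one (A A1 : ℝ) (hA : 0 < A) (hA1 : 0 < A1) :
    ∃ C3 ω1 : ℝ, 0 < C3 ∧ 0 < ω1 ∧ ∀ (ρ : ℝ) (N p q : ℕ) (η Cs : ℝ) (R1 R2 u : ℝ → ℝ),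
      0 ≤ ρ → PQ p q → (p:ℝ) / q ≤ ω1 → etam ρ N p q ≤ η → η ≤ 1 →
      Dec ρ N A R1 → Dec ρ N A R2 → Leaf R1 R2 p q Cs u →
      NB ρ N η (A1 * ((p:ℝ) / q) ^ 2) (fun x => (u x : ℂ)) →
      NB ρ N η (A1 * ((p:ℝ) / q) ^ 2)
        (fun x => (((u (x + (p:ℝ) / q) - u x) / ((p:ℝ) / q) : ℝ) : ℂ)) →
      NB ρ N η (C3 * ((p:ℝ) / q) ^ 5)
        (fun x => ((u (x + (p:ℝ) / q) - 2 * u x + u (x - (p:ℝ) / q) -
          RL R1 R2 ((p:ℝ) / q) x : ℝ) : ℂ)) := by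
  obtain ⟨C, ω1, hC, hω1, hside⟩ := side A A1 hA hA1
  refine ⟨C + A1 * C, ω1, by positivity, hω1, ?_⟩
  intro ρ N p q η Cs R1 R2 u hρ hpq hωle hηm hη1 hR1 hR2 hL hNu hNP
  have hq0 : (0:ℝ) < q := by
    have := hpq.2.1
    exact_mod_cast (by omega : 0 < q)
  have hp1 : (1:ℝ) ≤ p := by
    rcases hpq.1 with h | h <;> rw [h] <;> norm_num
  have hem : 0 < etam ρ N p q := by
    unfold etam
    positivity
  have hη : 0 < η := hem.trans_le hηm
  have hω : 0 < (p:ℝ) / q := by positivity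
  choose rm rp hm hp hlaw using hL.law
  have cR1 : Continuous R1 := hR1.continuous hρ
  have cR2 : Continuous R2 := hR2.continuous hρ
  have hNPm : NB ρ N η (A1 * ((p:ℝ) / q) ^ 2)
      (fun x => (((u x - u (x - (p:ℝ) / q)) / ((p:ℝ) / q) : ℝ) : ℂ)) := by
    have h1 := hNP.shift (-((p:ℝ) / q))
    have h2 : NB ρ N η (A1 * ((p:ℝ) / q) ^ 2)
      (fun x => (((u (x + -((p:ℝ) / q) + (p:ℝ) / q) - u (x + -((p:ℝ) / q))) /
        ((p:ℝ) / q) : ℝ) : ℂ)) := h1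
    refine rcongr h2 fun x => ?_
    rw [neg_add_cancel_right, ← sub_eq_add_neg]
  obtain ⟨p1, p2⟩ := hside ρ N p q η ((p:ℝ) / q) R1 R2 u rp hρ hpq hωle hηm hη1 hR1 hR2
    (abs_of_pos hω) hL.cont hNu hNP (fun x => by
      have h1 := hp x
      have h2 : u x - u (x + (p:ℝ) / q) - (p:ℝ) / q =
        -((p:ℝ) / q + u (x + (p:ℝ) / q) - u x) := by ring
      rw [h2]
      exact h1)
  obtain ⟨m1, m2⟩ := hside ρ N p q η (-((p:ℝ) / q)) R1 R2 u rm hρ hpq hωle hηm hη1 hR1 hR2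
    (by rw [abs_neg, abs_of_pos hω]) hL.cont hNu
    (rcongr hNPm fun x => by
      rw [← sub_eq_add_neg]
      field_simp
      ring) (fun x => by
      have h1 := hm x
      have h2 : u x - u (x + -((p:ℝ) / q)) - -((p:ℝ) / q) =
        (p:ℝ) / q + u x - u (x - (p:ℝ) / q) := by
        rw [← sub_eq_add_neg]
        ring
      rw [h2, ← sub_eq_add_neg]
      exact h1)
  set ω : ℝ := (p:ℝ) / q with hωdef
  have h1 := rsub hη p2 m2
  have h2 := rsub hη (rmul hρ hη hη1 hNPm p1) (rmul hρ hη hη1 hNP m1)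
  have h3 := rcm hη (ω / 2) (radd h1 h2)
  refine (rcongr h3 fun x => ?_).mono (le_of_eq ?_)
  · rw [RL_eq cR1 cR2, hlaw x]
    field_simp
    ring
  · rw [abs_of_pos (by positivity)]
    ring

end Pool.Agent.MP_ae5b4e_an_RG
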