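import Mathlib
import Pool.Agent.Lib.MP_ae5b4e_an_RG.Six
import Pool.Agent.Lib.MP_ae5b4e_an_RG.KLem
import Pool.Agent.Lib.MP_ae5b4e_an_RG.Lin

/-!
# MP_ae5b4e_an, project REG: descent in eta (section 7)

Text: `/team-store/POR_REG.md`.
-/

noncomputable section

namespace Pool.Agent.MP_ae5b4e_an_RG

open Real Set Filter Topology MeasureTheory intervalIntegral

private theorem desc_w_pos {p q : ℕ} (h : PQ p q) : 0 < (p:ℝ) / q := by
  obtain ⟨hp, hq, -⟩ := h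
  have h1 : (0:ℝ) < p := by
    rcases hp with rfl | rfl <;> norm_num
  have h2 : (0:ℝ) < q := by
    have : 0 < q := by omega
    exact_mod_cast this
  positivity

private theorem desc_w_le {p q : ℕ} (h : PQ p q) : (p:ℝ) / q ≤ 1 := by
  obtain ⟨hp, hq, -⟩ := h
  have h2 : (2:ℝ) ≤ q := by exact_mod_cast hq
  rw [div_le_one (by linarith)]
  rcases hp with rfl | rfl
  · norm_num
    linarith
  · norm_num
    linarith

private theorem desc_etam_pos {ρ : ℝ} {N p q : ℕ} (h : PQ p q) : 0 < etam ρ N p q := by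
  have := desc_w_pos h
  unfold etam
  positivity

private theorem desc_etam_le {ρ : ℝ} {N p q : ℕ} (hρ : 0 ≤ ρ) (h : PQ p q) :
    etam ρ N p q ≤ 1 := by
  have h1 := desc_w_pos h
  have h2 := desc_w_le h
  have h3 : ((p:ℝ) / q) ^ 2 ≤ 1 := pow_le_one₀ h1.le h2
  have h4 : Real.exp (-(ρ * min ((q:ℝ) ^ 2) (N:ℝ))) ≤ 1 := by
    rw [Real.exp_le_one_iff]
    have : 0 ≤ ρ * min ((q:ℝ) ^ 2) (N:ℝ) := by positivity
    linarith
  unfold etam
  calc ((p:ℝ) / q) ^ 2 * Real.exp (-(ρ * min ((q:ℝ) ^ 2) (N:ℝ))) ≤ 1 * 1 :=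
        mul_le_mul h3 h4 (Real.exp_pos _).le zero_le_one
    _ = 1 := one_mul _

/-- the step of the descent -/
private theorem desc_step {ρ : ℝ} {N p q : ℕ} {η A A1 C3 C4 Cs : ℝ} {R1 R2 u : ℝ → ℝ}
    {g : ℝ → ℂ} (hρ : 0 ≤ ρ) (hpq : PQ p q) (hη : 0 < η) (hη1 : η ≤ 1)
    (hC : 64 * (C3 * ((p:ℝ) / q) ^ 3) + 12 * (C4 * A * ((p:ℝ) / q) ^ 2) ≤
      A1 * ((p:ℝ) / q) ^ 2)
    (hL : Leaf R1 R2 p q Cs u)
    (hD : NB ρ N η (C3 * ((p:ℝ) / q) ^ 5)
        (fun x => ((u (x + (p:ℝ) / q) - 2 * u x + u (x - (p:ℝ) / q) -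
          RL R1 R2 ((p:ℝ) / q) x : ℝ) : ℂ)))
    (hg1 : Bd ρ N (C4 * A * ((p:ℝ) / q) ^ 2) g)
    (hg2 : Bd ρ N (C4 * A * ((p:ℝ) / q) ^ 2)
        (fun x => (g (x + (p:ℝ) / q) - g x) / (((p:ℝ) / q : ℝ) : ℂ)))
    (hg3 : ∀ x, ∑ j ∈ Finset.range q, g (x + j * ((p:ℝ) / q)) = 0)
    (hg4 : ∀ x, g (x + (p:ℝ) / q) - 2 * g x + g (x - (p:ℝ) / q) =
        (RL R1 R2 ((p:ℝ) / q) x : ℂ) -
          (1 / (q:ℂ)) * ∑ j ∈ Finset.range q, (RL R1 R2 ((p:ℝ) / q) (x + j * ((p:ℝ) / q)) : ℂ)) :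
    NB ρ N (η / 2) (A1 * ((p:ℝ) / q) ^ 2) (fun x => (u x : ℂ)) ∧
      NB ρ N (η / 2) (A1 * ((p:ℝ) / q) ^ 2)
        (fun x => (((u (x + (p:ℝ) / q) - u x) / ((p:ℝ) / q) : ℝ) : ℂ)) := by
  have hw := desc_w_pos hpq
  have hq : 0 < q := by
    have := hpq.2.1
    omega
  set ω : ℝ := (p:ℝ) / q with hωdef
  have hωc : ((ω : ℝ) : ℂ) ≠ 0 := by
    rw [Ne, Complex.ofReal_eq_zero]
    exact hw.ne'
  -- the difference
  set v : ℝ → ℂ := fun x => (u x : ℂ) - g x with hv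
  have hvc : Continuous v := (Complex.continuous_ofReal.comp hL.cont).sub (hg1.continuous hρ)
  have hvp : Function.Periodic v 1 := fun x => by
    simp only [hv, hL.per x, hg1.periodic x]
  have horbC : ∀ x, ∑ j ∈ Finset.range q, ((u (x + j * ω) : ℝ) : ℂ) = 0 := by
    intro x
    rw [← Complex.ofReal_sum, hL.orb x, Complex.ofReal_zero]
  have hvo : ∀ x, ∑ j ∈ Finset.range q, v (x + j * ω) = 0 := by
    intro x
    simp only [hv, Finset.sum_sub_distrib, horbC x, hg3 x, sub_zero]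
  have havg := hD.avg hη hq ω
  have hf := hD.sub hη havg
  have hK := lemmaK (N := N) (f := fun x => v (x + ω) - 2 * v x + v (x - ω)) (M := 2 * (C3 * ω ^ 5))
    hρ hpq hη hη1 hvc hvp hvo (fun x => rfl) ?_
  · obtain ⟨k1, k2⟩ := hK
    have e1 : 16 / ω ^ 2 * (2 * (C3 * ω ^ 5)) = 32 * (C3 * ω ^ 3) := by
      field_simp
      ring
    rw [← hωdef, e1] at k1 k2
    have k1' := k1.half hη
    have k2' := k2.half hη
    have b1 : NB ρ N (η / 2) (12 * (C4 * A * ω ^ 2)) g := NB.of_Bd hρ hg1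
    have b2 : NB ρ N (η / 2) (12 * (C4 * A * ω ^ 2))
        (fun x => (g (x + ω) - g x) / ((ω : ℝ) : ℂ)) := NB.of_Bd hρ hg2
    have s1 := k1'.add b1
    have s2 := k2'.add b2
    constructor
    · have e : (fun x => v x + g x) = fun x => (u x : ℂ) := by
        funext x
        simp only [hv]
        ring
      rw [e] at s1
      exact s1.mono (by linarith)
    · have e : (fun x => (v (x + ω) - v x) / ((ω : ℝ) : ℂ) + (g (x + ω) - g x) / ((ω : ℝ) : ℂ)) =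
          fun x => (((u (x + ω) - u x) / ω : ℝ) : ℂ) := by
        funext x
        simp only [hv]
        push_cast
        field_simp
        ring
      rw [e] at s2
      exact s2.mono (by linarith)
  · have e2 : C3 * ω ^ 5 + C3 * ω ^ 5 = 2 * (C3 * ω ^ 5) := by ring
    rw [e2] at hf
    convert hf using 1
    funext x
    have t1 : ∑ j ∈ Finset.range q, ((u (x + j * ω + ω) - 2 * u (x + j * ω) + u (x + j * ω - ω) -
        RL R1 R2 ω (x + j * ω) : ℝ) : ℂ) =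
        -∑ j ∈ Finset.range q, (RL R1 R2 ω (x + j * ω) : ℂ) := by
      have a1 : ∑ j ∈ Finset.range q, ((u (x + j * ω + ω) : ℝ) : ℂ) = 0 := by
        refine Eq.trans (Finset.sum_congr rfl fun j _ => ?_) (horbC (x + ω))
        rw [add_right_comm]
      have a2 := horbC x
      have a3 : ∑ j ∈ Finset.range q, ((u (x + j * ω - ω) : ℝ) : ℂ) = 0 := by
        refine Eq.trans (Finset.sum_congr rfl fun j _ => ?_) (horbC (x - ω))
        rw [add_sub_right_comm]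
      simp only [Complex.ofReal_sub, Complex.ofReal_add, Complex.ofReal_mul,
        Finset.sum_sub_distrib, Finset.sum_add_distrib, ← Finset.mul_sum, a1, a2, a3]
      simp
    rw [t1]
    have t2 := hg4 x
    simp only [hv]
    push_cast
    linear_combination -t2

theorem descent (A Cs : ℝ) (hA : 1 ≤ A) (hCs : 0 ≤ Cs) :
    ∃ A1 ω2 : ℝ, 0 < A1 ∧ 0 < ω2 ∧ ∀ (ρ : ℝ) (N p q : ℕ) (R1 R2 u : ℝ → ℝ),
      0 ≤ ρ → PQ p q → (p:ℝ) / q ≤ ω2 → Dec ρ N A R1 → Dec ρ N A R2 → Leaf R1 R2 p q Cs u →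
      ∃ η, etam ρ N p q ≤ η ∧ η ≤ 2 * etam ρ N p q ∧ η ≤ 1 ∧
      NB ρ N η (A1 * ((p:ℝ) / q) ^ 2) (fun x => (u x : ℂ)) ∧
      NB ρ N η (A1 * ((p:ℝ) / q) ^ 2)
        (fun x => (((u (x + (p:ℝ) / q) - u x) / ((p:ℝ) / q) : ℝ) : ℂ)) := by
  obtain ⟨C4, hC4, hlin⟩ := lemmaLin
  have hA0 : 0 < A := by linarith
  have hCA : 0 < 12 * C4 * A := by positivity
  obtain ⟨C3, ω1, hC3, hω1, hsix⟩ := six_one A (12 * C4 * A + Cs + 1) hA0 (by linarith)
  refine ⟨12 * C4 * A + Cs + 1, min ω1 (1 / (64 * C3)), by linarith,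
    lt_min hω1 (by positivity), ?_⟩
  intro ρ N p q R1 R2 u hρ hpq hω hR1 hR2 hL
  obtain ⟨g, hg1, hg2, hg3, hg4⟩ := hlin ρ N p q A R1 R2 hρ hpq hA0 hR1 hR2
  have hw := desc_w_pos hpq
  have hω1' : (p:ℝ) / q ≤ ω1 := hω.trans (min_le_left _ _)
  have hω2' : (p:ℝ) / q ≤ 1 / (64 * C3) := hω.trans (min_le_right _ _)
  have hem := desc_etam_pos (ρ := ρ) (N := N) hpq
  have hem1 := desc_etam_le (N := N) hρ hpq
  have hC : 64 * (C3 * ((p:ℝ) / q) ^ 3) + 12 * (C4 * A * ((p:ℝ) / q) ^ 2) ≤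
      (12 * C4 * A + Cs + 1) * ((p:ℝ) / q) ^ 2 := by
    have h1 : 64 * C3 * ((p:ℝ) / q) ≤ 1 := by
      rw [le_div_iff₀ (by positivity)] at hω2'
      linarith
    have h2 : 64 * C3 * ((p:ℝ) / q) * ((p:ℝ) / q) ^ 2 ≤ 1 * ((p:ℝ) / q) ^ 2 :=
      mul_le_mul_of_nonneg_right h1 (by positivity)
    have h3 : 0 ≤ Cs * ((p:ℝ) / q) ^ 2 := by positivity
    calc 64 * (C3 * ((p:ℝ) / q) ^ 3) + 12 * (C4 * A * ((p:ℝ) / q) ^ 2)
        = 64 * C3 * ((p:ℝ) / q) * ((p:ℝ) / q) ^ 2 + 12 * C4 * A * ((p:ℝ) / q) ^ 2 := by ring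
      _ ≤ (12 * C4 * A + Cs + 1) * ((p:ℝ) / q) ^ 2 := by linarith
  by_contra hno
  push Not at hno
  have key : ∀ n : ℕ, etam ρ N p q ≤ (1 / 2 : ℝ) ^ n ∧
      NB ρ N ((1 / 2 : ℝ) ^ n) ((12 * C4 * A + Cs + 1) * ((p:ℝ) / q) ^ 2)
        (fun x => (u x : ℂ)) ∧
      NB ρ N ((1 / 2 : ℝ) ^ n) ((12 * C4 * A + Cs + 1) * ((p:ℝ) / q) ^ 2)
        (fun x => (((u (x + (p:ℝ) / q) - u x) / ((p:ℝ) / q) : ℝ) : ℂ)) := by
    intro n
    induction n with
    | zero =>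
      rw [pow_zero]
      refine ⟨hem1, ?_, ?_⟩
      · have h1 : ∀ x, ‖((u x : ℝ) : ℂ)‖ ≤ Cs * ((p:ℝ) / q) ^ 2 := fun x => by
          rw [Complex.norm_real, Real.norm_eq_abs]
          exact hL.small x
        have h2 := NB.of_flat (f := fun x => ((u x : ℝ) : ℂ)) ρ N one_pos
          (Complex.continuous_ofReal.comp hL.cont) (fun x => by simp only [hL.per x]) h1
        refine h2.mono ?_
        rw [div_one]
        have : 0 ≤ (12 * C4 * A + 1) * ((p:ℝ) / q) ^ 2 := by positivity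
        linarith
      · have h1 : ∀ x, ‖(((u (x + (p:ℝ) / q) - u x) / ((p:ℝ) / q) : ℝ) : ℂ)‖ ≤
            Cs * ((p:ℝ) / q) ^ 2 := fun x => by
          rw [Complex.norm_real, Real.norm_eq_abs, abs_div, abs_of_pos hw, div_le_iff₀ hw]
          refine (hL.small' x).trans (le_of_eq ?_)
          ring
        have h2 := NB.of_flat (f := fun x => (((u (x + (p:ℝ) / q) - u x) / ((p:ℝ) / q) : ℝ) : ℂ))
          ρ N one_pos ?_ ?_ h1
        · refine h2.mono ?_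
          rw [div_one]
          have : 0 ≤ (12 * C4 * A + 1) * ((p:ℝ) / q) ^ 2 := by positivity
          linarith
        · have hc := hL.cont
          refine Complex.continuous_ofReal.comp ?_
          exact ((hc.comp (continuous_id.add continuous_const)).sub hc).div_const _
        · intro x
          have : x + 1 + (p:ℝ) / q = x + (p:ℝ) / q + 1 := by ring
          simp only [this, hL.per x, hL.per (x + (p:ℝ) / q)]
    | succ n ih =>
      obtain ⟨i1, i2, i3⟩ := ih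
      have hη : (0:ℝ) < (1 / 2 : ℝ) ^ n := by positivity
      have hη1 : (1 / 2 : ℝ) ^ n ≤ 1 := pow_le_one₀ (by norm_num) (by norm_num)
      have hD := hsix ρ N p q ((1 / 2 : ℝ) ^ n) Cs R1 R2 u hρ hpq hω1' i1 hη1 hR1 hR2 hL i2 i3
      have hs := desc_step hρ hpq hη hη1 hC hL hD hg1 hg2 hg3 hg4
      have e : (1 / 2 : ℝ) ^ (n + 1) = (1 / 2 : ℝ) ^ n / 2 := by
        rw [pow_succ]
        ring
      rw [e]
      refine ⟨?_, hs.1, hs.2⟩
      by_contra hlt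
      push Not at hlt
      exact hno ((1 / 2 : ℝ) ^ n) i1 (by linarith) hη1 i2 i3
  obtain ⟨n, hn⟩ := exists_pow_lt_of_lt_one hem (show (1 / 2 : ℝ) < 1 by norm_num)
  exact absurd (key n).1 (not_le.2 hn)

end Pool.Agent.MP_ae5b4e_an_RG
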