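import Mathlib
import Pool.Agent.Lib.MP_ae5b4e_an_RG.Desc

/-!
# MP_ae5b4e_an, project REG: the key estimate (section 8)

Text: `/team-store/POR_REG.md`.
-/

noncomputable section

namespace Pool.Agent.MP_ae5b4e_an_RG

open Real Set Filter Topology MeasureTheory intervalIntegral

/-- shift of Fourier coefficients -/
private lemma ke_fc_shift {f : ℝ → ℂ} (hp : Function.Periodic f 1) (y : ℝ) (k : ℤ) :
    fc (fun x => f (x + y)) k = e k y * fc f k := by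
  unfold fc
  have h1 : ∀ x, f (x + y) * e (-k) x = e k y * (f (x + y) * e (-k) (x + y)) := by
    intro x
    have h2 : e (-k) (x + y) = e (-k) x * e (-k) y := e_shift _ _ _
    have h3 : e k y * e (-k) y = 1 := by
      rw [← e_add, add_neg_cancel, e_zero]
    rw [h2]
    linear_combination (-(f (x + y) * e (-k) x)) * h3
  simp only [h1]
  rw [intervalIntegral.integral_const_mul]
  congr 1
  have h4 : ∫ x in (0:ℝ)..1, f (x + y) * e (-k) (x + y) =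
      ∫ x in (0 + y)..(1 + y), f x * e (-k) x :=
    intervalIntegral.integral_comp_add_right (fun x => f x * e (-k) x) y
  rw [h4, zero_add, add_comm (1:ℝ) y]
  have h5 : Function.Periodic (fun x => f x * e (-k) x) 1 := hp.mul (periodic_e (-k))
  have h6 := h5.intervalIntegral_add_eq y 0
  rw [zero_add] at h6
  exact h6

private lemma ke_fc_conj (R : ℝ → ℝ) (k : ℤ) : ‖rc R (-k)‖ = ‖rc R k‖ := by
  have h1 : rc R (-k) = (starRingEnd ℂ) (rc R k) := by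
    unfold rc fc
    rw [← intervalIntegral.intervalIntegral_conj]
    congr 1
    funext x
    rw [map_mul, Complex.conj_ofReal]
    congr 1
    unfold e
    rw [← Complex.exp_conj]
    congr 1
    simp only [map_mul, Complex.conj_ofReal, Complex.conj_I, map_ofNat, map_intCast]
    push_cast
    ring
  rw [h1, Complex.norm_conj]

/-- the integrals of the kernels -/
private def ke_a (P : ℕ) : ℝ := -(1 / (2 * π * P)) + 12 / (2 * π * P) ^ 3
private def ke_b (P : ℕ) : ℝ := -(12 / (2 * π * P) ^ 3)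
private def ke_D : ℝ := ke_a 1 * ke_b 2 - ke_a 2 * ke_b 1

private lemma ke_D_ne : ke_D ≠ 0 := by
  have hpi := Real.pi_pos
  have h : ke_D = -(9 / (32 * π ^ 4)) * 1 := by
    unfold ke_D ke_a ke_b
    push_cast
    field_simp
    ring
  rw [h]
  have : 0 < 9 / (32 * π ^ 4) := by positivity
  intro h0
  linarith

/-- the estimate for one of the two rotation numbers -/
private lemma ke_one (A Cs : ℝ) (q0 : ℕ) (hA : 1 ≤ A) (hCs : 0 ≤ Cs) :
    ∃ (Q0 : ℕ) (C : ℝ), 0 < C ∧ 1 ≤ Q0 ∧ ∀ (ρ : ℝ) (N : ℕ) (R1 R2 : ℝ → ℝ), 0 ≤ ρ →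
      Dec ρ N A R1 → Dec ρ N A R2 →
      (∀ p q : ℕ, PQ p q → q0 ≤ q → ∃ u, Leaf R1 R2 p q Cs u) →
      ∀ n : ℕ, Q0 ≤ n → ∀ P : ℕ, (P = 1 ∨ P = 2) →
        ‖rc R1 n * ((ke_a P : ℝ) : ℂ) + rc R2 n * ((ke_b P : ℝ) : ℂ)‖ ≤ C / (n * V ρ N 3 n) := by
  obtain ⟨A1, ω2, hA1, hω2, hdesc⟩ := descent A Cs hA hCs
  obtain ⟨C3, ω1, hC3, hω1, hsix⟩ := six_one A A1 (by linarith) hA1
  obtain ⟨n1, hn1⟩ := exists_nat_gt (2 / ω1)
  obtain ⟨n2, hn2⟩ := exists_nat_gt (2 / ω2)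
  refine ⟨n1 + n2 + 2 * q0 + 4, 264 * C3, by positivity, by omega, ?_⟩
  intro ρ N R1 R2 hρ hR1 hR2 hleaf n hn P hP
  have hn0 : 0 < n := by omega
  have hnR : (0:ℝ) < n := Nat.cast_pos.2 hn0
  have hn4 : (4:ℝ) ≤ n := by exact_mod_cast (by omega : 4 ≤ n)
  have hPR : (0:ℝ) < P ∧ (P:ℝ) ≤ 2 := by rcases hP with h | h <;> subst h <;> norm_num
  -- the reduced fraction
  obtain ⟨p, q, hpq, hq, hfrac⟩ : ∃ p q : ℕ, PQ p q ∧ n ≤ 2 * q ∧ (p:ℝ) / q = (P:ℝ) / n := by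
    rcases hP with h | h
    · subst h
      exact ⟨1, n, ⟨Or.inl rfl, by omega, Nat.coprime_one_left n⟩, by omega, rfl⟩
    · subst h
      rcases Nat.even_or_odd' n with ⟨m, hm | hm⟩
      · refine ⟨1, m, ⟨Or.inl rfl, by omega, Nat.coprime_one_left m⟩, by omega, ?_⟩
        rw [hm]
        push_cast
        have : (m:ℝ) ≠ 0 := by
          have : m ≠ 0 := by omega
          exact_mod_cast this
        field_simp
      · refine ⟨2, n, ⟨Or.inr rfl, by omega, ?_⟩, by omega, rfl⟩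
        rw [Nat.coprime_comm, Nat.coprime_two_right]
        exact ⟨m, hm⟩
  have hq0 : q0 ≤ q := by omega
  have hqR : (0:ℝ) < q := Nat.cast_pos.2 (by omega)
  set ω : ℝ := (p:ℝ) / q with hω
  have hωP : ω = (P:ℝ) / n := hfrac
  have hω0 : 0 < ω := by rw [hωP]; exact div_pos hPR.1 hnR
  have hω2n : ω ≤ 2 / n := by rw [hωP]; gcongr; exact hPR.2
  have hωω1 : ω ≤ ω1 := by
    refine hω2n.trans ?_
    rw [div_le_iff₀ hnR]
    have h1 : 2 / ω1 < n := hn1.trans_le (by exact_mod_cast (by omega : n1 ≤ n))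
    rw [div_lt_iff₀ hω1] at h1
    linarith
  have hωω2 : ω ≤ ω2 := by
    refine hω2n.trans ?_
    rw [div_le_iff₀ hnR]
    have h1 : 2 / ω2 < n := hn2.trans_le (by exact_mod_cast (by omega : n2 ≤ n))
    rw [div_lt_iff₀ hω2] at h1
    linarith
  obtain ⟨u, hu⟩ := hleaf p q hpq hq0
  obtain ⟨η, hη1, hη2, hη3, hNu, hNp⟩ := hdesc ρ N p q R1 R2 u hρ hpq hωω2 hR1 hR2 hu
  have hetam : 0 < etam ρ N p q := by
    unfold etam
    rw [← hω]
    positivity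
  have hη0 : 0 < η := hetam.trans_le hη1
  have h6 := hsix ρ N p q η Cs R1 R2 u hρ hpq hωω1 hη1 hη3 hR1 hR2 hu hNu hNp
  rw [← hω] at h6
  have hV2 : 0 < V ρ N 2 n := V_pos _ _ _ _
  have hV3 : 0 < V ρ N 3 n := V_pos _ _ _ _
  have hV32 : V ρ N 3 n = (1 + (n:ℝ)) * V ρ N 2 n := by
    have := V_succ (ρ := ρ) (N := N) (b := 2) (n : ℤ)
    rw [this]
    congr 2
    rw [Int.cast_natCast, abs_of_pos hnR]
  -- the bound for eta
  have hetab : etam ρ N p q ≤ 16 / V ρ N 2 n := by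
    have h1 : (n:ℝ) ≤ (q:ℝ) ^ 2 := by
      have h2 : (n:ℝ) ≤ 2 * q := by exact_mod_cast hq
      nlinarith
    have h3 : Real.exp (-(ρ * min ((q:ℝ) ^ 2) (N:ℝ))) ≤ (w ρ N n)⁻¹ := by
      unfold w
      rw [← Real.exp_neg]
      apply Real.exp_le_exp.2
      apply neg_le_neg
      apply mul_le_mul_of_nonneg_left _ hρ
      rw [Int.cast_natCast, abs_of_pos hnR]
      exact min_le_min_right _ h1
    have h4 : ω ^ 2 ≤ 16 / (1 + (n:ℝ)) ^ 2 := by
      have h5 : ω ^ 2 ≤ (2 / n) ^ 2 := pow_le_pow_left₀ hω0.le hω2n 2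
      refine h5.trans ?_
      rw [div_pow, div_le_div_iff₀ (by positivity) (by positivity)]
      nlinarith
    have h5 : V ρ N 2 n = (1 + (n:ℝ)) ^ 2 * w ρ N n := by
      unfold V
      rw [Int.cast_natCast, abs_of_pos hnR]
    rw [h5]
    have hw : 0 < w ρ N n := w_pos _ _ _
    unfold etam
    rw [← hω]
    calc ω ^ 2 * Real.exp (-(ρ * min ((q:ℝ) ^ 2) (N:ℝ)))
        ≤ (16 / (1 + (n:ℝ)) ^ 2) * (w ρ N n)⁻¹ := by gcongr
      _ = 16 / ((1 + (n:ℝ)) ^ 2 * w ρ N n) := by field_simp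
  have hηb : η ≤ 32 / V ρ N 2 n := by
    calc η ≤ 2 * etam ρ N p q := hη2
      _ ≤ 2 * (16 / V ρ N 2 n) := by gcongr
      _ = 32 / V ρ N 2 n := by ring
  -- Fourier coefficient of the difference
  have hcR1 := hR1.continuous hρ
  have hcR2 := hR2.continuous hρ
  have hcRL := continuous_RL hcR1 hcR2 ω
  have hcoef := NB.coeff hρ hη0 h6 (n : ℤ)
  have hen : e (n : ℤ) ω = 1 := by
    unfold e
    have h1 : 2 * (π:ℂ) * Complex.I * ((n : ℤ) : ℂ) * (ω : ℂ) = (P : ℂ) * (2 * π * Complex.I) := by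
      rw [hωP]
      push_cast
      have : (n : ℂ) ≠ 0 := by exact_mod_cast hn0.ne'
      field_simp
    rw [h1]
    have := Complex.exp_nat_mul_two_pi_mul_I P
    exact this
  have hen' : e (n : ℤ) (-ω) = 1 := by
    have h1 : e (n : ℤ) (ω + -ω) = e (n : ℤ) ω * e (n : ℤ) (-ω) := e_shift _ _ _
    rw [add_neg_cancel, hen, one_mul] at h1
    rw [← h1]
    unfold e
    simp
  have hucont : Continuous fun x => (u x : ℂ) := Complex.continuous_ofReal.comp hu.cont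
  have hucper : Function.Periodic (fun x => (u x : ℂ)) 1 := fun x => by
    simp only [hu.per x]
  have hsplit : fc (fun x => ((u (x + ω) - 2 * u x + u (x - ω) - RL R1 R2 ω x : ℝ) : ℂ)) n =
      - rc (RL R1 R2 ω) n := by
    have hce : Continuous (e (-(n:ℤ))) := continuous_e _
    have i1 : IntervalIntegrable (fun x => (u (x + ω) : ℂ) * e (-(n:ℤ)) x) volume 0 1 :=
      ((hucont.comp (continuous_id.add continuous_const)).mul hce).intervalIntegrable _ _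
    have i2 : IntervalIntegrable (fun x => (u x : ℂ) * e (-(n:ℤ)) x) volume 0 1 :=
      (hucont.mul hce).intervalIntegrable _ _
    have i3 : IntervalIntegrable (fun x => (u (x + -ω) : ℂ) * e (-(n:ℤ)) x) volume 0 1 :=
      ((hucont.comp (continuous_id.add continuous_const)).mul hce).intervalIntegrable _ _
    have i4 : IntervalIntegrable (fun x => (RL R1 R2 ω x : ℂ) * e (-(n:ℤ)) x) volume 0 1 :=
      ((Complex.continuous_ofReal.comp hcRL).mul hce).intervalIntegrable _ _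
    have s1 := ke_fc_shift hucper ω (n:ℤ)
    have s2 := ke_fc_shift hucper (-ω) (n:ℤ)
    rw [hen, one_mul] at s1
    rw [hen', one_mul] at s2
    unfold fc at s1 s2
    unfold rc fc
    have h1 : ∀ x, ((u (x + ω) - 2 * u x + u (x - ω) - RL R1 R2 ω x : ℝ) : ℂ) * e (-(n:ℤ)) x =
        ((u (x + ω) : ℂ) * e (-(n:ℤ)) x - 2 * ((u x : ℂ) * e (-(n:ℤ)) x)) +
          (u (x + -ω) : ℂ) * e (-(n:ℤ)) x - (RL R1 R2 ω x : ℂ) * e (-(n:ℤ)) x := by
      intro x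
      rw [← sub_eq_add_neg]
      push_cast
      ring
    simp only [h1]
    rw [intervalIntegral.integral_sub ((i1.sub (i2.const_mul 2)).add i3) i4,
      intervalIntegral.integral_add (i1.sub (i2.const_mul 2)) i3,
      intervalIntegral.integral_sub i1 (i2.const_mul 2), intervalIntegral.integral_const_mul,
      s1, s2]
    ring
  rw [hsplit, norm_neg] at hcoef
  have hb1 : ‖rc (RL R1 R2 ω) n‖ ≤ C3 * ω ^ 5 * (33 / V ρ N 2 n) := by
    refine hcoef.trans ?_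
    apply mul_le_mul_of_nonneg_left _ (by positivity)
    calc 1 / V ρ N 2 n + η ≤ 1 / V ρ N 2 n + 32 / V ρ N 2 n := by gcongr
      _ = 33 / V ρ N 2 n := by ring
  -- the linear part
  have hrc := rc_RL hcR1 hcR2 hR1.periodic hR2.periodic ω (n : ℤ)
  have hP1 : 1 ≤ P := by rcases hP with h | h <;> omega
  have harg : ∀ t : ℝ, 2 * π * ((n : ℤ) : ℝ) * ω * t = 2 * π * P * t := by
    intro t
    rw [hωP]
    push_cast
    field_simp
  simp only [harg] at hrc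
  rw [K1_sin P hP1, K2_sin P hP1] at hrc
  have hnorm : ‖rc (RL R1 R2 ω) n‖ = ω ^ 3 *
      ‖rc R1 n * ((ke_a P : ℝ) : ℂ) + rc R2 n * ((ke_b P : ℝ) : ℂ)‖ := by
    rw [hrc, norm_mul, norm_mul, Complex.norm_I, one_mul, norm_pow, Complex.norm_real,
      Real.norm_eq_abs, abs_of_pos hω0]
    rfl
  rw [hnorm] at hb1
  have hω3 : 0 < ω ^ 3 := by positivity
  have hb2 : ‖rc R1 n * ((ke_a P : ℝ) : ℂ) + rc R2 n * ((ke_b P : ℝ) : ℂ)‖ ≤
      C3 * ω ^ 2 * (33 / V ρ N 2 n) := by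
    have h1 : C3 * ω ^ 5 * (33 / V ρ N 2 n) = ω ^ 3 * (C3 * ω ^ 2 * (33 / V ρ N 2 n)) := by ring
    rw [h1] at hb1
    exact le_of_mul_le_mul_left hb1 hω3
  refine hb2.trans ?_
  have h5 : ω ^ 2 ≤ (2 / n) ^ 2 := pow_le_pow_left₀ hω0.le hω2n 2
  rw [hV32]
  calc C3 * ω ^ 2 * (33 / V ρ N 2 n) ≤ C3 * (2 / n) ^ 2 * (33 / V ρ N 2 n) := by gcongr
    _ = (132 * C3) / (n ^ 2 * V ρ N 2 n) := by field_simp; ring
    _ ≤ 264 * C3 / (n * ((1 + n) * V ρ N 2 n)) := by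
      rw [div_le_div_iff₀ (by positivity) (by positivity)]
      have h6 : (1 + (n:ℝ)) ≤ 2 * n := by linarith
      have h7 : 0 ≤ 132 * C3 * (n * V ρ N 2 n) := by positivity
      nlinarith [mul_le_mul_of_nonneg_left h6 h7]

theorem keyEstimate (A Cs : ℝ) (q0 : ℕ) (hA : 1 ≤ A) (hCs : 0 ≤ Cs) :
    ∃ (Q0 : ℕ) (C5 : ℝ), 0 < C5 ∧ 1 ≤ Q0 ∧ ∀ (ρ : ℝ) (N : ℕ) (R1 R2 : ℝ → ℝ), 0 ≤ ρ →
      Dec ρ N A R1 → Dec ρ N A R2 →
      (∀ p q : ℕ, PQ p q → q0 ≤ q → ∃ u, Leaf R1 R2 p q Cs u) →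
      ∀ n : ℤ, (Q0:ℝ) ≤ |(n:ℝ)| →
        ‖rc R1 n‖ ≤ C5 / (|(n:ℝ)| * V ρ N 3 n) ∧ ‖rc R2 n‖ ≤ C5 / (|(n:ℝ)| * V ρ N 3 n) := by
  obtain ⟨Q0, C, hC, hQ0, hone⟩ := ke_one A Cs q0 hA hCs
  have hD := ke_D_ne
  have hDp : 0 < |ke_D| := abs_pos.2 hD
  set S : ℝ := |ke_a 1| + |ke_a 2| + |ke_b 1| + |ke_b 2| with hS
  have hS0 : 0 ≤ S := by positivity
  refine ⟨Q0, (S + 1) * C / |ke_D|, by positivity, hQ0, ?_⟩
  intro ρ N R1 R2 hρ hR1 hR2 hleaf n hn
  -- the case of natural numbers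
  have key : ∀ m : ℕ, Q0 ≤ m → ‖rc R1 m‖ ≤ (S + 1) * C / |ke_D| / (m * V ρ N 3 m) ∧
      ‖rc R2 m‖ ≤ (S + 1) * C / |ke_D| / (m * V ρ N 3 m) := by
    intro m hm
    have hm0 : (0:ℝ) < m := Nat.cast_pos.2 (by omega)
    have hV3 : 0 < V ρ N 3 m := V_pos _ _ _ _
    have h1 := hone ρ N R1 R2 hρ hR1 hR2 hleaf m hm 1 (Or.inl rfl)
    have h2 := hone ρ N R1 R2 hρ hR1 hR2 hleaf m hm 2 (Or.inr rfl)
    set E1 := rc R1 m * ((ke_a 1 : ℝ) : ℂ) + rc R2 m * ((ke_b 1 : ℝ) : ℂ) with hE1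
    set E2 := rc R1 m * ((ke_a 2 : ℝ) : ℂ) + rc R2 m * ((ke_b 2 : ℝ) : ℂ) with hE2
    set B := C / (m * V ρ N 3 m) with hB
    have hB0 : 0 ≤ B := by positivity
    have e1 : rc R1 m * ((ke_D : ℝ) : ℂ) =
        ((ke_b 2 : ℝ) : ℂ) * E1 - ((ke_b 1 : ℝ) : ℂ) * E2 := by
      rw [hE1, hE2]
      unfold ke_D
      push_cast
      ring
    have e2 : rc R2 m * ((ke_D : ℝ) : ℂ) =
        ((ke_a 1 : ℝ) : ℂ) * E2 - ((ke_a 2 : ℝ) : ℂ) * E1 := by
      rw [hE1, hE2]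
      unfold ke_D
      push_cast
      ring
    have hgen : ∀ (r : ℂ) (a b : ℝ) (X Y : ℂ), ‖X‖ ≤ B → ‖Y‖ ≤ B → |a| + |b| ≤ S →
        r * ((ke_D : ℝ) : ℂ) = (a : ℂ) * X - (b : ℂ) * Y →
        ‖r‖ ≤ (S + 1) * C / |ke_D| / (m * V ρ N 3 m) := by
      intro r a b X Y hX hY hab h
      have h3 : ‖r‖ * |ke_D| ≤ (|a| + |b|) * B := by
        have h4 := congrArg norm h
        rw [norm_mul, Complex.norm_real, Real.norm_eq_abs] at h4
        rw [h4]
        refine (norm_sub_le _ _).trans ?_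
        rw [norm_mul, norm_mul, Complex.norm_real, Complex.norm_real, Real.norm_eq_abs,
          Real.norm_eq_abs, add_mul]
        gcongr
      have h5 : (S + 1) * C / |ke_D| / (m * V ρ N 3 m) = (S + 1) * B / |ke_D| := by
        rw [hB]
        field_simp
      rw [h5, le_div_iff₀ hDp]
      refine h3.trans ?_
      apply mul_le_mul_of_nonneg_right _ hB0
      linarith
    refine ⟨hgen _ _ _ _ _ h1 h2 ?_ e1, hgen _ _ _ _ _ h2 h1 ?_ e2⟩
    · rw [hS]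
      have := abs_nonneg (ke_a 1)
      have := abs_nonneg (ke_a 2)
      linarith
    · rw [hS]
      have := abs_nonneg (ke_b 1)
      have := abs_nonneg (ke_b 2)
      linarith
  rcases Int.le_total 0 n with h0 | h0
  · obtain ⟨m, rfl⟩ := Int.eq_ofNat_of_zero_le h0
    have habs : |(((m:ℕ):ℤ):ℝ)| = (m:ℝ) := by
      rw [Int.cast_natCast]
      exact abs_of_nonneg (Nat.cast_nonneg m)
    rw [habs] at hn ⊢
    exact key m (by exact_mod_cast hn)
  · obtain ⟨m, hm⟩ := Int.eq_ofNat_of_zero_le (Int.neg_nonneg_of_nonpos h0)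
    have hnm : n = -(m:ℤ) := by omega
    subst hnm
    have habs : |((-(m:ℤ) : ℤ):ℝ)| = (m:ℝ) := by
      rw [Int.cast_neg, abs_neg, Int.cast_natCast]
      exact abs_of_nonneg (Nat.cast_nonneg m)
    rw [habs] at hn ⊢
    rw [ke_fc_conj, ke_fc_conj, V_neg]
    exact key m (by exact_mod_cast hn)

end Pool.Agent.MP_ae5b4e_an_RG
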