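import Mathlib
import Pool.Agent.Lib.MP_ae5b4e_an_RG.DecS
import Pool.Agent.Lib.MP_ae5b4e_an_RG.Wt

/-!
# MP_ae5b4e_an, project REG: decay of the Fourier coefficients of the solutions of the differential equation (section 10)

Text: `/team-store/POR_REG.md`.
-/

noncomputable section

namespace Pool.Agent.MP_ae5b4e_an_RG

open Real Set Filter Topology MeasureTheory intervalIntegral
open scoped ContDiff

private lemma endf_norm_rc {g : ℝ → ℝ} (hg : Continuous g) :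
    ∃ M : ℝ, 0 ≤ M ∧ ∀ k, ‖rc g k‖ ≤ M := by
  obtain ⟨M, hM⟩ := isCompact_Icc.exists_bound_of_continuousOn (s := Icc (0:ℝ) 1) hg.continuousOn
  have hM0 : 0 ≤ M := (norm_nonneg _).trans (hM 0 ⟨le_rfl, zero_le_one⟩)
  refine ⟨M, hM0, fun k => ?_⟩
  unfold rc fc
  refine (intervalIntegral.norm_integral_le_of_norm_le_const (C := M) fun x hx => ?_).trans ?_
  · rw [uIoc_of_le zero_le_one] at hx
    rw [norm_mul, norm_e, mul_one, Complex.norm_real]
    exact hM x ⟨hx.1.le, hx.2⟩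
  · simp

private lemma endf_rc_add {g h : ℝ → ℝ} (hg : Continuous g) (hh : Continuous h) (k : ℤ) :
    rc (fun x => g x + h x) k = rc g k + rc h k := by
  unfold rc fc
  have cg : Continuous fun x => ((g x : ℝ) : ℂ) * e (-k) x :=
    (Complex.continuous_ofReal.comp hg).mul (continuous_e _)
  have ch : Continuous fun x => ((h x : ℝ) : ℂ) * e (-k) x :=
    (Complex.continuous_ofReal.comp hh).mul (continuous_e _)
  rw [← intervalIntegral.integral_add (cg.intervalIntegrable _ _) (ch.intervalIntegrable _ _)]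
  refine intervalIntegral.integral_congr fun x _ => ?_
  simp only
  push_cast
  ring

private lemma endf_rc_neg (g : ℝ → ℝ) (k : ℤ) : rc (fun x => -g x) k = -rc g k := by
  unfold rc fc
  rw [← intervalIntegral.integral_neg]
  refine intervalIntegral.integral_congr fun x _ => ?_
  simp only
  push_cast
  ring

private lemma endf_deriv {g : ℝ → ℝ} (hg : ContDiff ℝ ∞ g) : ContDiff ℝ ∞ (deriv g) :=
  (contDiff_infty_iff_deriv.1 hg).2

private lemma endf_periodic {g : ℝ → ℝ} (hg : Function.Periodic g 1) :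
    Function.Periodic (deriv g) 1 := by
  intro x
  have h : (fun y => g (y + 1)) = g := funext hg
  rw [← deriv_comp_add_const, h]

private lemma endf_summable {ρ : ℝ} (hρ : 0 < ρ) :
    Summable fun l : ℤ => Real.exp (-(ρ * |(l:ℝ)|)) := by
  have h1 : Summable fun n : ℕ => Real.exp (-ρ) ^ n :=
    summable_geometric_of_lt_one (Real.exp_pos _).le (by rw [Real.exp_lt_one_iff]; linarith)
  have h2 : ∀ n : ℕ, Real.exp (-(ρ * (n:ℝ))) = Real.exp (-ρ) ^ n := fun n => by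
    rw [← Real.exp_nat_mul]
    congr 1
    ring
  refine Summable.of_nat_of_neg ?_ ?_
  · refine h1.congr fun n => ?_
    rw [Int.cast_natCast, Nat.abs_cast, h2]
  · refine h1.congr fun n => ?_
    rw [Int.cast_neg, Int.cast_natCast, abs_neg, Nat.abs_cast, h2]

/-- section 10, first part -/
theorem ode_decay {f r m : ℝ → ℝ} {A ρ0 : ℝ} (hρ0 : 0 < ρ0) (hf : ContDiff ℝ ∞ f)
    (pf : Function.Periodic f 1) (hr : ContDiff ℝ ∞ r) (pr : Function.Periodic r 1)
    (hm : ContDiff ℝ ∞ m) (pm : Function.Periodic m 1)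
    (hrk : ∀ k : ℤ, ‖rc r k‖ ≤ A * Real.exp (-(ρ0 * |(k:ℝ)|)))
    (hmk : ∀ k : ℤ, ‖rc m k‖ ≤ A * Real.exp (-(ρ0 * |(k:ℝ)|)))
    (hode : ∀ x, deriv (deriv (deriv f)) x = -(r x) * deriv f x - m x * f x) :
    ∃ A' ρ1 : ℝ, 0 < ρ1 ∧ ∀ k : ℤ, ‖rc f k‖ ≤ A' * Real.exp (-(ρ1 * |(k:ℝ)|)) := by
  have hA : 0 ≤ A := by
    have h1 := (norm_nonneg _).trans (hrk 0)
    have h2 := Real.exp_pos (-(ρ0 * |((0:ℤ):ℝ)|))
    by_contra hA
    rw [not_le] at hA
    nlinarith
  obtain ⟨ρ, hρ⟩ : ∃ ρ, ρ = ρ0 / 2 := ⟨_, rfl⟩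
  have hρpos : 0 < ρ := by rw [hρ]; linarith
  have hf1 := endf_deriv hf
  have hf2 := endf_deriv hf1
  have pf1 := endf_periodic pf
  have pf2 := endf_periodic pf1
  have hsum := endf_summable hρpos
  obtain ⟨E, hE⟩ := hsum
  have hE0 : 0 ≤ E := hE.nonneg fun l => (Real.exp_pos _).le
  obtain ⟨a, ha⟩ : ∃ a : ℤ → ℝ, a = fun k => ‖rc f k‖ := ⟨_, rfl⟩
  have ha0 : ∀ k, 0 ≤ a k := fun k => by rw [ha]; exact norm_nonneg _
  have hak : ∀ k, ‖rc f k‖ = a k := fun k => by rw [ha]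
  have h2π : (1:ℝ) ≤ 2 * π := by have := Real.pi_gt_three; linarith
  have hnd : ∀ {g : ℝ → ℝ}, ContDiff ℝ ∞ g → Function.Periodic g 1 → ∀ k : ℤ,
      ‖rc (deriv g) k‖ = 2 * π * |(k:ℝ)| * ‖rc g k‖ := fun hg pg k => by
    rw [rc_deriv hg pg, norm_mul, norm_mul, norm_mul, norm_mul, Complex.norm_I, mul_one,
      Complex.norm_intCast, Complex.norm_real, Real.norm_of_nonneg Real.pi_pos.le]
    simp
  -- the equation for the coefficients
  have hd1 : ∀ k : ℤ, ‖rc (deriv f) k‖ = 2 * π * |(k:ℝ)| * a k := fun k => by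
    rw [hnd hf pf, hak]
  have hd3 : ∀ k : ℤ, ‖rc (deriv (deriv (deriv f))) k‖ = (2 * π * |(k:ℝ)|) ^ 3 * a k := fun k => by
    rw [hnd hf2 pf2, hnd hf1 pf1, hd1]
    ring
  have heq : ∀ k : ℤ, rc (deriv (deriv (deriv f))) k =
      -rc (fun x => r x * deriv f x) k + -rc (fun x => m x * f x) k := fun k => by
    have e1 : deriv (deriv (deriv f)) = fun x => -(r x * deriv f x) + -(m x * f x) := by
      funext x
      rw [hode]
      ring
    have c1 : Continuous fun x => r x * deriv f x := hr.continuous.mul hf1.continuous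
    have c2 : Continuous fun x => m x * f x := hm.continuous.mul hf.continuous
    rw [e1, endf_rc_add (g := fun x => -(r x * deriv f x)) (h := fun x => -(m x * f x)) c1.neg
      c2.neg, endf_rc_neg, endf_rc_neg]
  obtain ⟨Cc, hCc⟩ : ∃ Cc, Cc = A * (2 * π + 1) * E := ⟨_, rfl⟩
  have hCc0 : 0 ≤ Cc := by rw [hCc]; positivity
  -- the main estimate
  have key : ∀ (N : ℕ) (S : ℝ), 0 ≤ S → (∀ k : ℤ, (1 + |(k:ℝ)|) ^ 2 * w ρ N k * a k ≤ S) →
      ∀ k : ℤ, |(k:ℝ)| ^ 3 * w ρ N k * a k ≤ Cc * S := by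
    intro N S hS0 hS k
    have wk := w_pos ρ N k
    -- both products
    have hconv : ∀ l : ℤ, Real.exp (-(ρ0 * |(l:ℝ)|)) * ((1 + |((k - l : ℤ):ℝ)|) * a (k - l)) ≤
        S / w ρ N k * Real.exp (-(ρ * |(l:ℝ)|)) := by
      intro l
      have wl := w_pos ρ N l
      have wkl := w_pos ρ N (k - l)
      have b0 : (0:ℝ) ≤ |((k - l : ℤ):ℝ)| := abs_nonneg _
      have e1 : w ρ N k ≤ w ρ N l * w ρ N (k - l) := by
        have := w_add (N := N) hρpos.le l (k - l)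
        rwa [add_sub_cancel] at this
      have e2 : w ρ N l ≤ Real.exp (ρ * |(l:ℝ)|) := by
        unfold w
        exact Real.exp_le_exp.2 (mul_le_mul_of_nonneg_left (min_le_left _ _) hρpos.le)
      have e3 : (1 + |((k - l : ℤ):ℝ)|) * w ρ N (k - l) * a (k - l) ≤ S := by
        refine le_trans ?_ (hS (k - l))
        refine mul_le_mul_of_nonneg_right (mul_le_mul_of_nonneg_right ?_ wkl.le) (ha0 _)
        nlinarith
      have e4 : Real.exp (-(ρ0 * |(l:ℝ)|)) = Real.exp (-(ρ * |(l:ℝ)|)) *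
          Real.exp (-(ρ * |(l:ℝ)|)) := by
        rw [← Real.exp_add]
        congr 1
        rw [hρ]
        ring
      have e5 : Real.exp (-(ρ * |(l:ℝ)|)) * Real.exp (ρ * |(l:ℝ)|) = 1 := by
        rw [← Real.exp_add]
        simp
      have p1 := Real.exp_pos (-(ρ * |(l:ℝ)|))
      have p2 := Real.exp_pos (ρ * |(l:ℝ)|)
      have q0 : 0 ≤ (1 + |((k - l : ℤ):ℝ)|) * a (k - l) := mul_nonneg (by linarith) (ha0 _)
      rw [div_mul_eq_mul_div, le_div_iff₀ wk, e4]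
      have e6 : (1 + |((k - l : ℤ):ℝ)|) * a (k - l) * w ρ N k ≤ S * Real.exp (ρ * |(l:ℝ)|) := by
        calc (1 + |((k - l : ℤ):ℝ)|) * a (k - l) * w ρ N k
            ≤ (1 + |((k - l : ℤ):ℝ)|) * a (k - l) * (w ρ N l * w ρ N (k - l)) :=
              mul_le_mul_of_nonneg_left e1 q0
          _ = ((1 + |((k - l : ℤ):ℝ)|) * w ρ N (k - l) * a (k - l)) * w ρ N l := by ring
          _ ≤ S * Real.exp (ρ * |(l:ℝ)|) := mul_le_mul e3 e2 wl.le hS0
      calc Real.exp (-(ρ * |(l:ℝ)|)) * Real.exp (-(ρ * |(l:ℝ)|)) *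
            ((1 + |((k - l : ℤ):ℝ)|) * a (k - l)) * w ρ N k
          = Real.exp (-(ρ * |(l:ℝ)|)) * Real.exp (-(ρ * |(l:ℝ)|)) *
            ((1 + |((k - l : ℤ):ℝ)|) * a (k - l) * w ρ N k) := by ring
        _ ≤ Real.exp (-(ρ * |(l:ℝ)|)) * Real.exp (-(ρ * |(l:ℝ)|)) *
            (S * Real.exp (ρ * |(l:ℝ)|)) := mul_le_mul_of_nonneg_left e6 (by positivity)
        _ = S * Real.exp (-(ρ * |(l:ℝ)|)) *
            (Real.exp (-(ρ * |(l:ℝ)|)) * Real.exp (ρ * |(l:ℝ)|)) := by ring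
        _ = S * Real.exp (-(ρ * |(l:ℝ)|)) := by rw [e5, mul_one]
    have t1 : ‖rc (fun x => r x * deriv f x) k‖ ≤ A * (2 * π) * (S / w ρ N k) * E := by
      refine (rc_mul hr pr hf1 pf1 k).norm_le_of_bounded
        (hE.mul_left (A * (2 * π) * (S / w ρ N k))) fun l => ?_
      rw [norm_mul, hd1]
      have g1 := hrk l
      have g2 : 2 * π * |((k - l : ℤ):ℝ)| * a (k - l) ≤
          2 * π * ((1 + |((k - l : ℤ):ℝ)|) * a (k - l)) := by
        have := ha0 (k - l)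
        have := Real.pi_pos
        nlinarith
      calc ‖rc r l‖ * (2 * π * |((k - l : ℤ):ℝ)| * a (k - l))
          ≤ (A * Real.exp (-(ρ0 * |(l:ℝ)|))) *
              (2 * π * ((1 + |((k - l : ℤ):ℝ)|) * a (k - l))) :=
            mul_le_mul g1 g2 (mul_nonneg (mul_nonneg (by positivity) (abs_nonneg _)) (ha0 _))
              (by positivity)
        _ = A * (2 * π) * (Real.exp (-(ρ0 * |(l:ℝ)|)) *
              ((1 + |((k - l : ℤ):ℝ)|) * a (k - l))) := by ring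
        _ ≤ A * (2 * π) * (S / w ρ N k * Real.exp (-(ρ * |(l:ℝ)|))) :=
            mul_le_mul_of_nonneg_left (hconv l) (by positivity)
        _ = A * (2 * π) * (S / w ρ N k) * Real.exp (-(ρ * |(l:ℝ)|)) := by ring
    have t2 : ‖rc (fun x => m x * f x) k‖ ≤ A * (S / w ρ N k) * E := by
      refine (rc_mul hm pm hf pf k).norm_le_of_bounded
        (hE.mul_left (A * (S / w ρ N k))) fun l => ?_
      rw [norm_mul, hak]
      have g1 := hmk l
      have g2 : a (k - l) ≤ (1 + |((k - l : ℤ):ℝ)|) * a (k - l) := by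
        have := ha0 (k - l)
        have := abs_nonneg ((k - l : ℤ):ℝ)
        nlinarith
      calc ‖rc m l‖ * a (k - l)
          ≤ (A * Real.exp (-(ρ0 * |(l:ℝ)|))) * ((1 + |((k - l : ℤ):ℝ)|) * a (k - l)) :=
            mul_le_mul g1 g2 (ha0 _) (by positivity)
        _ = A * (Real.exp (-(ρ0 * |(l:ℝ)|)) *
              ((1 + |((k - l : ℤ):ℝ)|) * a (k - l))) := by ring
        _ ≤ A * (S / w ρ N k * Real.exp (-(ρ * |(l:ℝ)|))) :=
            mul_le_mul_of_nonneg_left (hconv l) hA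
        _ = A * (S / w ρ N k) * Real.exp (-(ρ * |(l:ℝ)|)) := by ring
    have t3 : (2 * π * |(k:ℝ)|) ^ 3 * a k ≤ Cc * (S / w ρ N k) := by
      rw [← hd3, heq]
      refine (norm_add_le _ _).trans ?_
      rw [norm_neg, norm_neg]
      refine (add_le_add t1 t2).trans (le_of_eq ?_)
      rw [hCc]
      ring
    have t4 : |(k:ℝ)| ^ 3 * a k ≤ (2 * π * |(k:ℝ)|) ^ 3 * a k := by
      refine mul_le_mul_of_nonneg_right (pow_le_pow_left₀ (abs_nonneg _) ?_ 3) (ha0 _)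
      have := abs_nonneg (k:ℝ)
      nlinarith
    have t5 := t4.trans t3
    rw [← mul_div_assoc, le_div_iff₀ wk] at t5
    calc |(k:ℝ)| ^ 3 * w ρ N k * a k = |(k:ℝ)| ^ 3 * a k * w ρ N k := by ring
      _ ≤ Cc * S := t5
  -- first bounds
  obtain ⟨M0, hM0, hM0k⟩ := endf_norm_rc hf.continuous
  obtain ⟨M2, hM2, hM2k⟩ := endf_norm_rc hf2.continuous
  have hfirst : ∀ k : ℤ, (1 + |(k:ℝ)|) ^ 2 * a k ≤ 2 * M0 + 2 * M2 := by
    intro k
    have e1 : a k ≤ M0 := by rw [← hak]; exact hM0k k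
    have e2 : |(k:ℝ)| ^ 2 * a k ≤ M2 := by
      have e3 := hM2k k
      rw [hnd hf1 pf1, hd1] at e3
      refine le_trans ?_ e3
      have e4 : |(k:ℝ)| ≤ 2 * π * |(k:ℝ)| := by
        have := abs_nonneg (k:ℝ)
        nlinarith
      calc |(k:ℝ)| ^ 2 * a k = |(k:ℝ)| * (|(k:ℝ)| * a k) := by ring
        _ ≤ (2 * π * |(k:ℝ)|) * (2 * π * |(k:ℝ)| * a k) := by
          apply mul_le_mul e4 (mul_le_mul_of_nonneg_right e4 (ha0 _))
            (mul_nonneg (abs_nonneg _) (ha0 _))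
          positivity
    have e5 : (1 + |(k:ℝ)|) ^ 2 ≤ 2 + 2 * |(k:ℝ)| ^ 2 := by nlinarith [sq_nonneg (1 - |(k:ℝ)|)]
    have e6 := mul_le_mul_of_nonneg_right e5 (ha0 k)
    linarith
  obtain ⟨K, hK1, hK8⟩ : ∃ K : ℝ, 1 ≤ K ∧ 8 * Cc ≤ K :=
    ⟨max 1 (8 * Cc), le_max_left _ _, le_max_right _ _⟩
  obtain ⟨B, hB⟩ : ∃ B, B = (1 + K) ^ 2 * Real.exp (ρ * K) * (M0 + 1) := ⟨_, rfl⟩
  have hexpK : 1 ≤ Real.exp (ρ * K) := Real.one_le_exp (by positivity)
  have hB1 : 1 ≤ B := by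
    rw [hB]
    have h1 : (1:ℝ) ≤ (1 + K) ^ 2 := by nlinarith
    have h2 : (1:ℝ) ≤ (1 + K) ^ 2 * Real.exp (ρ * K) := by nlinarith
    nlinarith
  have hstep : ∀ (N : ℕ) (S : ℝ), 0 ≤ S →
      (∀ k : ℤ, (1 + |(k:ℝ)|) ^ 2 * w ρ N k * a k ≤ max S B) →
      ∀ k : ℤ, (1 + |(k:ℝ)|) ^ 2 * w ρ N k * a k ≤ max (S / 2) B := by
    intro N S hS0 hS k
    have wk := w_pos ρ N k
    rcases le_total K |(k:ℝ)| with hk | hk
    · have h1 := key N (max S B) (hS0.trans (le_max_left _ _)) hS k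
      have hk0 : 0 < |(k:ℝ)| := by linarith
      have h2 : (1 + |(k:ℝ)|) ^ 2 ≤ 4 * |(k:ℝ)| ^ 2 := by nlinarith
      have h3 : |(k:ℝ)| ^ 2 * w ρ N k * a k ≤ max S B / 8 := by
        have h4 : |(k:ℝ)| * (|(k:ℝ)| ^ 2 * w ρ N k * a k) ≤ |(k:ℝ)| * (max S B / 8) := by
          have h5 : Cc * max S B ≤ |(k:ℝ)| / 8 * max S B :=
            mul_le_mul_of_nonneg_right (by linarith) (hS0.trans (le_max_left _ _))
          calc |(k:ℝ)| * (|(k:ℝ)| ^ 2 * w ρ N k * a k) = |(k:ℝ)| ^ 3 * w ρ N k * a k := by ring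
            _ ≤ Cc * max S B := h1
            _ ≤ |(k:ℝ)| / 8 * max S B := h5
            _ = |(k:ℝ)| * (max S B / 8) := by ring
        exact le_of_mul_le_mul_left h4 hk0
      have h6 : (1 + |(k:ℝ)|) ^ 2 * w ρ N k * a k ≤ max S B / 2 := by
        have h7 : (1 + |(k:ℝ)|) ^ 2 * (w ρ N k * a k) ≤ 4 * |(k:ℝ)| ^ 2 * (w ρ N k * a k) :=
          mul_le_mul_of_nonneg_right h2 (mul_nonneg wk.le (ha0 _))
        linarith
      refine h6.trans ?_
      rcases le_total S B with h8 | h8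
      · rw [max_eq_right h8]
        exact le_trans (by linarith) (le_max_right _ _)
      · rw [max_eq_left h8]
        exact le_max_left _ _
    · refine le_trans ?_ (le_max_right _ _)
      rw [hB]
      have h1 : (1 + |(k:ℝ)|) ^ 2 ≤ (1 + K) ^ 2 :=
        pow_le_pow_left₀ (by positivity) (by linarith) 2
      have h2 : w ρ N k ≤ Real.exp (ρ * K) := by
        unfold w
        exact Real.exp_le_exp.2 (mul_le_mul_of_nonneg_left ((min_le_left _ _).trans hk) hρpos.le)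
      have h3 : a k ≤ M0 + 1 := by
        have := hM0k k
        rw [hak] at this
        linarith
      exact mul_le_mul (mul_le_mul h1 h2 wk.le (by positivity)) h3 (ha0 _) (by positivity)
  have hfin : ∀ (N : ℕ) (k : ℤ), (1 + |(k:ℝ)|) ^ 2 * w ρ N k * a k ≤ B := by
    intro N k
    obtain ⟨S0, hS0⟩ : ∃ S0, S0 = Real.exp (ρ * N) * (2 * M0 + 2 * M2) := ⟨_, rfl⟩
    have hS00 : 0 ≤ S0 := by rw [hS0]; positivity
    have hiter : ∀ n : ℕ, ∀ k : ℤ, (1 + |(k:ℝ)|) ^ 2 * w ρ N k * a k ≤ max (S0 / 2 ^ n) B := by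
      intro n
      induction n with
      | zero =>
        intro k
        refine le_trans ?_ (le_max_left _ _)
        rw [pow_zero, div_one, hS0]
        have h1 : w ρ N k ≤ Real.exp (ρ * N) := by
          unfold w
          exact Real.exp_le_exp.2 (mul_le_mul_of_nonneg_left (min_le_right _ _) hρpos.le)
        calc (1 + |(k:ℝ)|) ^ 2 * w ρ N k * a k = w ρ N k * ((1 + |(k:ℝ)|) ^ 2 * a k) := by ring
          _ ≤ Real.exp (ρ * N) * (2 * M0 + 2 * M2) :=
            mul_le_mul h1 (hfirst k) (mul_nonneg (by positivity) (ha0 _)) (Real.exp_pos _).le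
      | succ n ih =>
        intro k
        have h1 := hstep N (S0 / 2 ^ n) (by positivity) ih k
        rwa [div_div, ← pow_succ] at h1
    obtain ⟨n, hn⟩ := exists_nat_gt S0
    have h1 : S0 / 2 ^ n ≤ B := by
      refine le_trans ?_ hB1
      rw [div_le_one (by positivity)]
      have h2 : (n:ℝ) < 2 ^ n := by exact_mod_cast Nat.lt_two_pow_self
      linarith
    have h2 := hiter n k
    rwa [max_eq_right h1] at h2
  refine ⟨B, ρ, hρpos, fun k => ?_⟩
  have h1 := hfin k.natAbs k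
  have h2 : w ρ k.natAbs k = Real.exp (ρ * |(k:ℝ)|) := by
    unfold w
    rw [Nat.cast_natAbs, Int.cast_abs, min_self]
  rw [h2] at h1
  rw [hak]
  have h3 : Real.exp (ρ * |(k:ℝ)|) * a k ≤ B := by
    refine le_trans ?_ h1
    have h4 : (1:ℝ) ≤ (1 + |(k:ℝ)|) ^ 2 := by nlinarith [abs_nonneg (k:ℝ)]
    have h5 : 0 ≤ Real.exp (ρ * |(k:ℝ)|) * a k := mul_nonneg (Real.exp_pos _).le (ha0 _)
    nlinarith
  rw [Real.exp_neg, ← div_eq_mul_inv, le_div_iff₀ (Real.exp_pos _), mul_comm]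
  exact h3

end Pool.Agent.MP_ae5b4e_an_RG
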