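import Mathlib
import Pool.Agent.Lib.MP_ae5b4e_an_RG.Defs

/-!
# MP_ae5b4e_an, project REG: the law along a curve of periodic points (definition, section 4)

Text: `/team-store/POR_REG.md`.
-/

noncomputable section

namespace Pool.Agent.MP_ae5b4e_an_RG

open Real Set Filter Topology MeasureTheory intervalIntegral
open scoped ContDiff

/-- A curve of `p/q`-periodic points that satisfies the expanded law. -/
structure Orb (p q : ℕ) (L r b : ℝ → ℝ) (C : ℝ) : Prop where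
  cont : Continuous L
  mono : StrictMono L
  per : ∀ x, L (x + 1) = L x + 1
  orb : ∀ x, ∑ j ∈ Finset.range q, (L (x + j * ((p:ℝ) / q)) - (x + j * ((p:ℝ) / q))) = 0
  law : ∀ x, ∃ ρm ρp : ℝ,
    |ρm + r (L (x - (p:ℝ) / q)) / 6 * (L x - L (x - (p:ℝ) / q)) ^ 2 +
      b (L (x - (p:ℝ) / q)) * (L x - L (x - (p:ℝ) / q)) ^ 3| ≤
      C * (L x - L (x - (p:ℝ) / q)) ^ 4 ∧
    |ρp + r (L (x + (p:ℝ) / q)) / 6 * (L (x + (p:ℝ) / q) - L x) ^ 2 -
      b (L (x + (p:ℝ) / q)) * (L (x + (p:ℝ) / q) - L x) ^ 3| ≤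
      C * (L (x + (p:ℝ) / q) - L x) ^ 4 ∧
    (L (x + (p:ℝ) / q) - L x) - (L x - L (x - (p:ℝ) / q)) =
      ((L x - L (x - (p:ℝ) / q)) * ρp - (L (x + (p:ℝ) / q) - L x) * ρm) / 2

/-- the a priori estimates for a curve of periodic points -/
structure Apr (p q : ℕ) (L : ℝ → ℝ) (K : ℝ) : Prop where
  step : ∀ x, |L (x + (p:ℝ) / q) - L x - (p:ℝ) / q| ≤ K * ((p:ℝ) / q) ^ 3
  near : ∀ x, |L x - x| ≤ K * ((p:ℝ) / q) ^ 2
  diff : ∀ x, |(L (x + (p:ℝ) / q) - L x) - (L x - L (x - (p:ℝ) / q))| ≤ K * ((p:ℝ) / q) ^ 4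

end Pool.Agent.MP_ae5b4e_an_RG
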