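import Mathlib
import Pool.Agent.Lib.MP_ae5b4e_an_RG.OrbD

/-!
# MP_ae5b4e_an, project REG: a priori estimates (section 4.3)

Text: `/team-store/POR_REG.md`.
-/

noncomputable section

namespace Pool.Agent.MP_ae5b4e_an_RG

open Real Set Filter Topology MeasureTheory intervalIntegral
open scoped ContDiff

/-- one step of the law, for the two increments `s` and `t` -/
private theorem apri_step {B C C1 s t rm rp Rm Rp bm bp : ℝ} (hB : 0 ≤ B) (hC : 0 ≤ C)
    (hC1 : 2 * B + C + 1 ≤ C1) (hs : 0 < s) (ht : 0 < t) (hs1 : s ≤ 1 / (8 * C1))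
    (ht1 : t ≤ 1 / (8 * C1)) (hRm : |Rm| ≤ B) (hRp : |Rp| ≤ B) (hbm : |bm| ≤ B) (hbp : |bp| ≤ B)
    (h1 : |rm + Rm / 6 * s ^ 2 + bm * s ^ 3| ≤ C * s ^ 4)
    (h2 : |rp + Rp / 6 * t ^ 2 - bp * t ^ 3| ≤ C * t ^ 4) :
    |rm| ≤ C1 * s ^ 2 ∧ |rp| ≤ C1 * t ^ 2 := by
  have hC1p : 1 ≤ C1 := by linarith
  have h8 : 1 / (8 * C1) ≤ 1 := by
    rw [div_le_one (by linarith)]
    linarith
  have hs' : s ≤ 1 := hs1.trans h8
  have ht' : t ≤ 1 := ht1.trans h8
  have key : ∀ (x X y z : ℝ), 0 < z → z ≤ 1 → |X| ≤ B → |y| ≤ B →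
      |x + X / 6 * z ^ 2 + y * z ^ 3| ≤ C * z ^ 4 → |x| ≤ C1 * z ^ 2 := by
    intro x X y z hz hz1 hX hy h
    have e1 : |X / 6 * z ^ 2| ≤ B * z ^ 2 := by
      rw [abs_mul, abs_div, abs_of_pos (by norm_num : (0:ℝ) < 6), abs_of_pos (by positivity : 0 < z ^ 2)]
      have : |X| / 6 ≤ B := by linarith [abs_nonneg X]
      exact mul_le_mul_of_nonneg_right this (by positivity)
    have e2 : |y * z ^ 3| ≤ B * z ^ 2 := by
      rw [abs_mul, abs_of_pos (by positivity : 0 < z ^ 3)]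
      have h3 : z ^ 3 ≤ z ^ 2 := pow_le_pow_of_le_one hz.le hz1 (by norm_num)
      exact mul_le_mul hy h3 (by positivity) hB
    have e3 : C * z ^ 4 ≤ C * z ^ 2 := by
      have h3 : z ^ 4 ≤ z ^ 2 := pow_le_pow_of_le_one hz.le hz1 (by norm_num)
      exact mul_le_mul_of_nonneg_left h3 hC
    have e4 : x = (x + X / 6 * z ^ 2 + y * z ^ 3) - X / 6 * z ^ 2 - y * z ^ 3 := by ring
    have e5 : |x| ≤ C * z ^ 2 + B * z ^ 2 + B * z ^ 2 := by
      rw [e4]
      calc |(x + X / 6 * z ^ 2 + y * z ^ 3) - X / 6 * z ^ 2 - y * z ^ 3|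
          ≤ |(x + X / 6 * z ^ 2 + y * z ^ 3) - X / 6 * z ^ 2| + |y * z ^ 3| := abs_sub _ _
        _ ≤ |x + X / 6 * z ^ 2 + y * z ^ 3| + |X / 6 * z ^ 2| + |y * z ^ 3| := by
            gcongr
            exact abs_sub _ _
        _ ≤ C * z ^ 2 + B * z ^ 2 + B * z ^ 2 := by linarith
    have e6 : (C + B + B) * z ^ 2 ≤ C1 * z ^ 2 :=
      mul_le_mul_of_nonneg_right (by linarith) (by positivity)
    linarith
  refine ⟨key rm Rm bm s hs hs' hRm hbm h1, key rp Rp (-bp) t ht ht' hRp (by rwa [abs_neg]) ?_⟩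
  have : rp + Rp / 6 * t ^ 2 + -bp * t ^ 3 = rp + Rp / 6 * t ^ 2 - bp * t ^ 3 := by ring
  rw [this]
  exact h2

/-- multiplicative form of the law -/
private theorem apri_ratio {C1 s t rm rp : ℝ} (hC1 : 1 ≤ C1) (hs : 0 < s) (ht : 0 < t)
    (hs1 : s ≤ 1 / (8 * C1)) (ht1 : t ≤ 1 / (8 * C1)) (hrm : |rm| ≤ C1 * s ^ 2)
    (hrp : |rp| ≤ C1 * t ^ 2) (h : t - s = (s * rp - t * rm) / 2) :
    |rm| ≤ 1 / 4 ∧ t ≤ s * Real.exp (C1 * (s ^ 2 + t ^ 2)) := by
  have hC0 : 0 < C1 := by linarith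
  have h8 : ∀ z : ℝ, 0 < z → z ≤ 1 / (8 * C1) → C1 * z ^ 2 ≤ 1 / 4 := by
    intro z hz hz1
    have h1 : C1 * z ≤ 1 / 8 := by
      calc C1 * z ≤ C1 * (1 / (8 * C1)) := mul_le_mul_of_nonneg_left hz1 hC0.le
        _ = 1 / 8 := by field_simp
    have h2 : z ≤ 1 := by
      refine hz1.trans ?_
      rw [div_le_one (by linarith)]
      linarith
    calc C1 * z ^ 2 = (C1 * z) * z := by ring
      _ ≤ (1 / 8) * 1 := mul_le_mul h1 h2 hz.le (by norm_num)
      _ ≤ 1 / 4 := by norm_num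
  have h1 : |rm| ≤ 1 / 4 := hrm.trans (h8 s hs hs1)
  refine ⟨h1, ?_⟩
  have h2 := abs_le.1 h1
  have e1 : t * (2 + rm) = s * (2 + rp) := by linarith
  have e2 : rp - rm ≤ C1 * (s ^ 2 + t ^ 2) := by
    have h3 := (abs_le.1 hrp).2
    have h4 := (abs_le.1 hrm).1
    linarith
  have e3 : 0 ≤ C1 * (s ^ 2 + t ^ 2) := by positivity
  have e4 : t ≤ s * (1 + C1 * (s ^ 2 + t ^ 2)) := by
    have h5 : s * (2 + rp) ≤ s * ((1 + C1 * (s ^ 2 + t ^ 2)) * (2 + rm)) := by
      apply mul_le_mul_of_nonneg_left _ hs.le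
      nlinarith
    have h6 : t * (2 + rm) ≤ (s * (1 + C1 * (s ^ 2 + t ^ 2))) * (2 + rm) := by
      rw [e1]
      linarith
    exact le_of_mul_le_mul_right h6 (by linarith)
  have e5 : 1 + C1 * (s ^ 2 + t ^ 2) ≤ Real.exp (C1 * (s ^ 2 + t ^ 2)) := by
    linarith [Real.add_one_le_exp (C1 * (s ^ 2 + t ^ 2))]
  exact e4.trans (mul_le_mul_of_nonneg_left e5 hs.le)

/-- additive form of the law -/
private theorem apri_diff {B C s t om rm rp Rm Rp bm bp : ℝ} (hB : 0 ≤ B) (hC : 0 ≤ C)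
    (hom : 0 < om) (hom1 : om ≤ 1) (hBom : B * om ^ 2 ≤ 1 / 8)
    (hs : 0 < s) (ht : 0 < t) (hs1 : s ≤ 2 * om) (ht1 : t ≤ 2 * om)
    (hRp : |Rp| ≤ B) (hR : |Rp - Rm| ≤ B * (s + t)) (hbm : |bm| ≤ B) (hbp : |bp| ≤ B)
    (h1 : |rm + Rm / 6 * s ^ 2 + bm * s ^ 3| ≤ C * s ^ 4)
    (h2 : |rp + Rp / 6 * t ^ 2 - bp * t ^ 3| ≤ C * t ^ 4)
    (hrm : |rm| ≤ 1 / 4) (h : t - s = (s * rp - t * rm) / 2) :
    |t - s| ≤ 2 * (19 * B + 32 * C) * om ^ 4 := by
  have hp2 : ∀ z : ℝ, 0 < z → z ≤ 2 * om → z ^ 2 ≤ 4 * om ^ 2 := by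
    intro z hz hz1
    calc z ^ 2 ≤ (2 * om) ^ 2 := pow_le_pow_left₀ hz.le hz1 2
      _ = 4 * om ^ 2 := by ring
  have hp3 : ∀ z : ℝ, 0 < z → z ≤ 2 * om → z ^ 3 ≤ 8 * om ^ 3 := by
    intro z hz hz1
    calc z ^ 3 ≤ (2 * om) ^ 3 := pow_le_pow_left₀ hz.le hz1 3
      _ = 8 * om ^ 3 := by ring
  have hom43 : om ^ 4 ≤ om ^ 3 := pow_le_pow_of_le_one hom.le hom1 (by norm_num)
  have hp4 : ∀ z : ℝ, 0 < z → z ≤ 2 * om → z ^ 4 ≤ 16 * om ^ 3 := by
    intro z hz hz1
    calc z ^ 4 ≤ (2 * om) ^ 4 := pow_le_pow_left₀ hz.le hz1 4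
      _ = 16 * om ^ 4 := by ring
      _ ≤ 16 * om ^ 3 := by linarith
  have e1 : |Rp / 6 * (t ^ 2 - s ^ 2)| ≤ B * om * |t - s| := by
    have h3 : t ^ 2 - s ^ 2 = (t + s) * (t - s) := by ring
    rw [h3, abs_mul, abs_mul, abs_div, abs_of_pos (by norm_num : (0:ℝ) < 6),
      abs_of_pos (by linarith : 0 < t + s)]
    have h4 : |Rp| / 6 * (t + s) ≤ B * om := by
      calc |Rp| / 6 * (t + s) ≤ B / 6 * (4 * om) := by
            apply mul_le_mul _ (by linarith) (by linarith) (by positivity)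
            linarith
        _ ≤ B * om := by nlinarith [mul_nonneg hB hom.le]
    calc |Rp| / 6 * ((t + s) * |t - s|) = (|Rp| / 6 * (t + s)) * |t - s| := by ring
      _ ≤ B * om * |t - s| := mul_le_mul_of_nonneg_right h4 (abs_nonneg _)
  have e2 : |(Rp - Rm) / 6 * s ^ 2| ≤ 3 * B * om ^ 3 := by
    rw [abs_mul, abs_div, abs_of_pos (by norm_num : (0:ℝ) < 6), abs_of_pos (by positivity : 0 < s ^ 2)]
    calc |Rp - Rm| / 6 * s ^ 2 ≤ (B * (4 * om)) / 6 * (4 * om ^ 2) := by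
          apply mul_le_mul _ (hp2 s hs hs1) (by positivity) (by positivity)
          have : B * (s + t) ≤ B * (4 * om) := mul_le_mul_of_nonneg_left (by linarith) hB
          linarith
      _ ≤ 3 * B * om ^ 3 := by nlinarith [mul_nonneg hB (pow_pos hom 3).le]
  have e3 : |bm * s ^ 3| ≤ 8 * B * om ^ 3 := by
    rw [abs_mul, abs_of_pos (by positivity : 0 < s ^ 3)]
    calc |bm| * s ^ 3 ≤ B * (8 * om ^ 3) := mul_le_mul hbm (hp3 s hs hs1) (by positivity) hB
      _ = 8 * B * om ^ 3 := by ring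
  have e4 : |bp * t ^ 3| ≤ 8 * B * om ^ 3 := by
    rw [abs_mul, abs_of_pos (by positivity : 0 < t ^ 3)]
    calc |bp| * t ^ 3 ≤ B * (8 * om ^ 3) := mul_le_mul hbp (hp3 t ht ht1) (by positivity) hB
      _ = 8 * B * om ^ 3 := by ring
  have e5 : C * s ^ 4 ≤ 16 * C * om ^ 3 := by
    calc C * s ^ 4 ≤ C * (16 * om ^ 3) := mul_le_mul_of_nonneg_left (hp4 s hs hs1) hC
      _ = 16 * C * om ^ 3 := by ring
  have e6 : C * t ^ 4 ≤ 16 * C * om ^ 3 := by
    calc C * t ^ 4 ≤ C * (16 * om ^ 3) := mul_le_mul_of_nonneg_left (hp4 t ht ht1) hC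
      _ = 16 * C * om ^ 3 := by ring
  have e7 : |rp - rm| ≤ B * om * |t - s| + (19 * B + 32 * C) * om ^ 3 := by
    have f1 := abs_le.1 h1
    have f2 := abs_le.1 h2
    have f3 := abs_le.1 e1
    have f4 := abs_le.1 e2
    have f5 := abs_le.1 e3
    have f6 := abs_le.1 e4
    have f7 : Rp / 6 * (t ^ 2 - s ^ 2) + (Rp - Rm) / 6 * s ^ 2 =
        Rp / 6 * t ^ 2 - Rm / 6 * s ^ 2 := by ring
    rw [abs_le]
    constructor
    · nlinarith [f1.1, f1.2, f2.1, f2.2]
    · nlinarith [f1.1, f1.2, f2.1, f2.2]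
  have e8 : t - s = (s * (rp - rm) - (t - s) * rm) / 2 := by linarith
  have e9 : |t - s| ≤ (s * |rp - rm| + |t - s| * |rm|) / 2 := by
    have g1 : |s * (rp - rm) - (t - s) * rm| ≤ s * |rp - rm| + |t - s| * |rm| := by
      calc |s * (rp - rm) - (t - s) * rm| ≤ |s * (rp - rm)| + |(t - s) * rm| := abs_sub _ _
        _ = s * |rp - rm| + |t - s| * |rm| := by rw [abs_mul, abs_mul, abs_of_pos hs]
    have g2 : |t - s| = |s * (rp - rm) - (t - s) * rm| / 2 := by
      conv_lhs => rw [e8]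
      rw [abs_div, abs_of_pos (by norm_num : (0:ℝ) < 2)]
    linarith
  have e10 : s * |rp - rm| ≤ 2 * om * (B * om * |t - s| + (19 * B + 32 * C) * om ^ 3) :=
    mul_le_mul hs1 e7 (abs_nonneg _) (by positivity)
  have e11 : |t - s| * |rm| ≤ |t - s| * (1 / 4) := mul_le_mul_of_nonneg_left hrm (abs_nonneg _)
  have e12 : B * om ^ 2 * |t - s| ≤ 1 / 8 * |t - s| := mul_le_mul_of_nonneg_right hBom (abs_nonneg _)
  have e13 : 2 * om * (B * om * |t - s| + (19 * B + 32 * C) * om ^ 3) =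
      2 * (B * om ^ 2 * |t - s|) + 2 * ((19 * B + 32 * C) * om ^ 4) := by ring
  have e14 : 0 ≤ (19 * B + 32 * C) * om ^ 4 := by positivity
  nlinarith [abs_nonneg (t - s)]

/-- translation by integers -/
private theorem apri_per {L : ℝ → ℝ} (h : ∀ x, L (x + 1) = L x + 1) (n : ℕ) (x : ℝ) :
    L (x + n) = L x + n := by
  induction n with
  | zero => simp
  | succ n ih =>
    have : x + ((n + 1 : ℕ) : ℝ) = (x + n) + 1 := by push_cast; ring
    rw [this, h, ih]
    push_cast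
    ring

/-- chains of multiplicative estimates -/
private theorem apri_chain {c : ℝ} (hc : 0 ≤ c) {d : ℕ → ℝ} (hd : ∀ n, 0 < d n)
    (h : ∀ n, d (n + 1) ≤ d n * Real.exp (c * (d n ^ 2 + d (n + 1) ^ 2))) (n : ℕ) :
    d n ≤ d 0 * Real.exp (2 * c * ∑ j ∈ Finset.range (n + 1), d j ^ 2) := by
  have key : ∀ n, d n ≤ d 0 * Real.exp (c * (2 * ∑ j ∈ Finset.range n, d j ^ 2 + d n ^ 2)) := by
    intro n
    induction n with
    | zero =>
      have : 1 ≤ Real.exp (c * (2 * ∑ j ∈ Finset.range 0, d j ^ 2 + d 0 ^ 2)) := by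
        apply Real.one_le_exp
        have := hd 0
        simp only [Finset.range_zero, Finset.sum_empty]
        positivity
      nlinarith [hd 0]
    | succ n ih =>
      calc d (n + 1) ≤ d n * Real.exp (c * (d n ^ 2 + d (n + 1) ^ 2)) := h n
        _ ≤ (d 0 * Real.exp (c * (2 * ∑ j ∈ Finset.range n, d j ^ 2 + d n ^ 2))) *
            Real.exp (c * (d n ^ 2 + d (n + 1) ^ 2)) :=
            mul_le_mul_of_nonneg_right ih (Real.exp_pos _).le
        _ = d 0 * Real.exp (c * (2 * ∑ j ∈ Finset.range (n + 1), d j ^ 2 + d (n + 1) ^ 2)) := by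
            rw [mul_assoc, ← Real.exp_add, Finset.sum_range_succ]
            congr 2
            ring
  refine (key n).trans (mul_le_mul_of_nonneg_left (Real.exp_le_exp.2 ?_) (hd 0).le)
  rw [Finset.sum_range_succ]
  nlinarith [mul_nonneg hc (sq_nonneg (d n))]

/-- A PRIORI -/
theorem apriori (B C : ℝ) (hB : 0 ≤ B) (hC : 0 ≤ C) :
    ∃ ε0 K : ℝ, 0 < ε0 ∧ 0 < K ∧ ∀ (p q : ℕ) (L r b : ℝ → ℝ), PQ p q → (∀ x, |r x| ≤ B) →
      (∀ x y, |r x - r y| ≤ B * |x - y|) → (∀ x, |b x| ≤ B) → Orb p q L r b C →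
      (∀ x, L (x + (p:ℝ) / q) - L x ≤ ε0) → Apr p q L K := by
  set C1 : ℝ := 2 * B + C + 1 with hC1
  have hC1p : 1 ≤ C1 := by rw [hC1]; linarith
  have hC10 : 0 < C1 := by linarith
  set C2 : ℝ := 19 * B + 32 * C with hC2
  have hC20 : 0 ≤ C2 := by rw [hC2]; positivity
  refine ⟨1 / (8 * C1), 8 * C2 + 1, by positivity, by positivity, ?_⟩
  intro p q L r b hpq hr hrl hb hO hL
  obtain ⟨hp, hq, -⟩ := hpq
  have hp2 : (p : ℝ) ≤ 2 := by
    rcases hp with rfl | rfl <;> norm_num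
  have hp0 : (0:ℝ) < p := by
    rcases hp with rfl | rfl <;> norm_num
  have hq0 : (0:ℝ) < q := by
    have : 0 < q := by omega
    exact_mod_cast this
  set om : ℝ := (p:ℝ) / q with hom
  have hom0 : 0 < om := div_pos hp0 hq0
  have hqom : q * om = p := by rw [hom]; field_simp
  set D : ℝ → ℝ := fun x => L (x + om) - L x with hD
  have hDpos : ∀ x, 0 < D x := fun x => sub_pos.2 (hO.mono (by linarith))
  have hDle : ∀ x, D x ≤ 1 / (8 * C1) := hL
  have hper : ∀ x, D (x + q * om) = D x := by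
    intro x
    show L (x + q * om + om) - L (x + q * om) = L (x + om) - L x
    have h1 : x + q * om + om = (x + om) + p := by rw [hqom]; ring
    rw [h1, hqom, apri_per hO.per, apri_per hO.per]
    ring
  have hsum : ∀ x, ∑ j ∈ Finset.range q, D (x + j * om) = p := by
    intro x
    have h1 : ∀ j : ℕ, D (x + j * om) = L (x + ((j + 1 : ℕ) : ℝ) * om) - L (x + (j : ℝ) * om) := by
      intro j
      show L (x + j * om + om) - L (x + j * om) = _
      congr 2
      push_cast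
      ring
    rw [Finset.sum_congr rfl fun j _ => h1 j,
      Finset.sum_range_sub (fun j : ℕ => L (x + (j : ℝ) * om)) q, hqom, apri_per hO.per]
    push_cast
    ring_nf
  -- the law for consecutive increments
  have hlaw : ∀ x, ∃ ρm ρp : ℝ,
      |ρm + r (L x) / 6 * D x ^ 2 + b (L x) * D x ^ 3| ≤ C * D x ^ 4 ∧
      |ρp + r (L (x + om + om)) / 6 * D (x + om) ^ 2 - b (L (x + om + om)) * D (x + om) ^ 3| ≤
        C * D (x + om) ^ 4 ∧ D (x + om) - D x = (D x * ρp - D (x + om) * ρm) / 2 := by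
    intro x
    have h1 := hO.law (x + om)
    rw [add_sub_cancel_right] at h1
    exact h1
  have hbase : ∀ x, D (x + om) ≤ D x * Real.exp (C1 * (D x ^ 2 + D (x + om) ^ 2)) := by
    intro x
    obtain ⟨ρm, ρp, h1, h2, h3⟩ := hlaw x
    obtain ⟨h4, h5⟩ := apri_step hB hC hC1.ge (hDpos x) (hDpos (x + om)) (hDle x)
      (hDle (x + om)) (hr _) (hr _) (hb _) (hb _) h1 h2
    exact (apri_ratio hC1p (hDpos x) (hDpos (x + om)) (hDle x) (hDle (x + om)) h4 h5 h3).2
  have hfac : ∀ x, ∀ j : ℕ, j < q → D (x + j * om) ≤ 2 * D x := by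
    intro x j hj
    have h1 := apri_chain hC10.le (d := fun n : ℕ => D (x + n * om)) (fun n => hDpos _) (by
      intro n
      have h2 := hbase (x + n * om)
      have h3 : x + ((n + 1 : ℕ) : ℝ) * om = x + n * om + om := by push_cast; ring
      show D (x + ((n + 1 : ℕ) : ℝ) * om) ≤ D (x + n * om) *
        Real.exp (C1 * (D (x + n * om) ^ 2 + D (x + ((n + 1 : ℕ) : ℝ) * om) ^ 2))
      rw [h3]
      exact h2) j
    have h4 : ∑ i ∈ Finset.range (j + 1), D (x + i * om) ^ 2 ≤ (1 / (8 * C1)) * 2 := by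
      calc ∑ i ∈ Finset.range (j + 1), D (x + i * om) ^ 2
          ≤ ∑ i ∈ Finset.range q, D (x + i * om) ^ 2 := by
            refine Finset.sum_le_sum_of_subset_of_nonneg ?_ fun i _ _ => sq_nonneg _
            intro i hi
            rw [Finset.mem_range] at hi ⊢
            omega
        _ ≤ ∑ i ∈ Finset.range q, (1 / (8 * C1)) * D (x + i * om) := by
            refine Finset.sum_le_sum fun i _ => ?_
            rw [sq]
            exact mul_le_mul_of_nonneg_right (hDle _) (hDpos _).le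
        _ = (1 / (8 * C1)) * p := by rw [← Finset.mul_sum, hsum]
        _ ≤ (1 / (8 * C1)) * 2 := mul_le_mul_of_nonneg_left hp2 (by positivity)
    have h5 : 2 * C1 * ∑ i ∈ Finset.range (j + 1), D (x + i * om) ^ 2 ≤ 1 / 2 := by
      calc 2 * C1 * ∑ i ∈ Finset.range (j + 1), D (x + i * om) ^ 2
          ≤ 2 * C1 * ((1 / (8 * C1)) * 2) := mul_le_mul_of_nonneg_left h4 (by positivity)
        _ = 1 / 2 := by field_simp; norm_num
    have h6 : Real.exp (2 * C1 * ∑ i ∈ Finset.range (j + 1), D (x + i * om) ^ 2) ≤ 2 := by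
      refine (Real.exp_le_exp.2 h5).trans ?_
      have h7 : Real.exp (1 / 2) ^ 2 ≤ 2 ^ 2 := by
        rw [← Real.exp_nat_mul]
        have : ((2 : ℕ) : ℝ) * (1 / 2) = 1 := by norm_num
        rw [this]
        linarith [Real.exp_one_lt_d9]
      exact le_of_sq_le_sq h7 (by norm_num)
    have h8 : D (x + ((0:ℕ):ℝ) * om) = D x := by simp
    calc D (x + j * om) ≤ D (x + ((0:ℕ):ℝ) * om) *
          Real.exp (2 * C1 * ∑ i ∈ Finset.range (j + 1), D (x + i * om) ^ 2) := h1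
      _ ≤ D x * 2 := by
          rw [h8]
          exact mul_le_mul_of_nonneg_left h6 (hDpos x).le
      _ = 2 * D x := by ring
  have hfac' : ∀ x, ∀ j : ℕ, j < q → D x ≤ 2 * D (x + j * om) := by
    intro x j hj
    rcases Nat.eq_zero_or_pos j with h0 | h0
    · subst h0
      simp only [Nat.cast_zero, zero_mul, add_zero]
      linarith [hDpos x]
    · have h1 := hfac (x + j * om) (q - j) (by omega)
      have h2 : x + j * om + ((q - j : ℕ) : ℝ) * om = x + q * om := by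
        rw [Nat.cast_sub hj.le]
        ring
      rw [h2, hper] at h1
      exact h1
  have hup : ∀ x, D x ≤ 2 * om := by
    intro x
    have h1 : ∑ j ∈ Finset.range q, D x ≤ ∑ j ∈ Finset.range q, 2 * D (x + j * om) :=
      Finset.sum_le_sum fun j hj => hfac' x j (Finset.mem_range.1 hj)
    rw [← Finset.mul_sum, hsum, Finset.sum_const, Finset.card_range, nsmul_eq_mul, ← hqom] at h1
    have h2 : (q:ℝ) * D x ≤ q * (2 * om) := by linarith
    exact le_of_mul_le_mul_left h2 hq0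
  have hlow : ∀ x, om ≤ 2 * D x := by
    intro x
    have h1 : ∑ j ∈ Finset.range q, D (x + j * om) ≤ ∑ j ∈ Finset.range q, 2 * D x :=
      Finset.sum_le_sum fun j hj => hfac x j (Finset.mem_range.1 hj)
    rw [hsum, Finset.sum_const, Finset.card_range, nsmul_eq_mul, ← hqom] at h1
    exact le_of_mul_le_mul_left h1 hq0
  have homε : om ≤ 1 / (4 * C1) := by
    have h1 := hlow 0
    have h2 := hDle 0
    have h3 : 2 * (1 / (8 * C1)) = 1 / (4 * C1) := by field_simp; norm_num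
    linarith
  have hom1 : om ≤ 1 := by
    refine homε.trans ?_
    rw [div_le_one (by linarith)]
    linarith
  have hBom : B * om ^ 2 ≤ 1 / 8 := by
    have h1 : B ≤ C1 := by rw [hC1]; linarith
    have h2 : C1 * om ≤ 1 / 4 := by
      calc C1 * om ≤ C1 * (1 / (4 * C1)) := mul_le_mul_of_nonneg_left homε hC10.le
        _ = 1 / 4 := by field_simp
    have h3 : om ≤ 1 / 4 := by
      refine homε.trans ?_
      apply one_div_le_one_div_of_le (by norm_num)
      linarith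
    have h4 : B * om ≤ 1 / 4 := (mul_le_mul_of_nonneg_right h1 hom0.le).trans h2
    calc B * om ^ 2 = (B * om) * om := by ring
      _ ≤ (1 / 4) * (1 / 4) := mul_le_mul h4 h3 hom0.le (by norm_num)
      _ ≤ 1 / 8 := by norm_num
  have hdiff : ∀ x, |D (x + om) - D x| ≤ 2 * C2 * om ^ 4 := by
    intro x
    obtain ⟨ρm, ρp, h1, h2, h3⟩ := hlaw x
    obtain ⟨h4, h5⟩ := apri_step hB hC hC1.ge (hDpos x) (hDpos (x + om)) (hDle x)
      (hDle (x + om)) (hr _) (hr _) (hb _) (hb _) h1 h2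
    have h6 := (apri_ratio hC1p (hDpos x) (hDpos (x + om)) (hDle x) (hDle (x + om)) h4 h5 h3).1
    have h7 : |r (L (x + om + om)) - r (L x)| ≤ B * (D x + D (x + om)) := by
      refine (hrl _ _).trans ?_
      have h8 : L (x + om + om) - L x = D x + D (x + om) := by
        show _ = (L (x + om) - L x) + (L (x + om + om) - L (x + om))
        ring
      rw [h8, abs_of_pos (add_pos (hDpos _) (hDpos _))]
    exact apri_diff hB hC hom0 hom1 hBom (hDpos x) (hDpos (x + om)) (hup x) (hup (x + om)) (hr _) h7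
      (hb _) (hb _) h1 h2 h6 h3
  have hK1 : 0 ≤ 2 * C2 * om ^ 4 := by positivity
  have hchain : ∀ (f : ℝ → ℝ) (c : ℝ), (∀ x, |f (x + om) - f x| ≤ c) → ∀ (x : ℝ) (j : ℕ),
      |f (x + j * om) - f x| ≤ j * c := by
    intro f c hf x j
    induction j with
    | zero => simp
    | succ j ih =>
      have h1 : x + ((j + 1 : ℕ) : ℝ) * om = x + j * om + om := by push_cast; ring
      rw [h1]
      calc |f (x + j * om + om) - f x| = |(f (x + j * om + om) - f (x + j * om)) +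
            (f (x + j * om) - f x)| := by congr 1; ring
        _ ≤ |f (x + j * om + om) - f (x + j * om)| + |f (x + j * om) - f x| := abs_add_le _ _
        _ ≤ c + j * c := add_le_add (hf _) ih
        _ = ((j + 1 : ℕ) : ℝ) * c := by push_cast; ring
  have hmean : ∀ (f : ℝ → ℝ) (c m : ℝ), 0 ≤ c → (∀ x, |f (x + om) - f x| ≤ c) →
      (∀ x, ∑ j ∈ Finset.range q, f (x + j * om) = q * m) → ∀ x, |f x - m| ≤ q * c := by
    intro f c m hc hf hs x
    have h1 : |∑ j ∈ Finset.range q, (f x - f (x + j * om))| ≤ ∑ j ∈ Finset.range q, q * c := by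
      refine (Finset.abs_sum_le_sum_abs _ _).trans (Finset.sum_le_sum fun j hj => ?_)
      rw [abs_sub_comm]
      refine (hchain f c hf x j).trans ?_
      have : (j : ℝ) ≤ q := by exact_mod_cast (Finset.mem_range.1 hj).le
      exact mul_le_mul_of_nonneg_right this hc
    rw [Finset.sum_sub_distrib, hs, Finset.sum_const, Finset.sum_const, Finset.card_range,
      nsmul_eq_mul, nsmul_eq_mul, ← mul_sub, abs_mul, abs_of_pos hq0] at h1
    exact le_of_mul_le_mul_left h1 hq0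
  have hstep : ∀ x, |D x - om| ≤ 4 * C2 * om ^ 3 := by
    intro x
    have h1 := hmean D (2 * C2 * om ^ 4) om hK1 hdiff (fun x => by rw [hsum, hqom]) x
    calc |D x - om| ≤ q * (2 * C2 * om ^ 4) := h1
      _ = (q * om) * (2 * C2 * om ^ 3) := by ring
      _ ≤ 2 * (2 * C2 * om ^ 3) := by
          rw [hqom]
          exact mul_le_mul_of_nonneg_right hp2 (by positivity)
      _ = 4 * C2 * om ^ 3 := by ring
  have hnear : ∀ x, |L x - x| ≤ 8 * C2 * om ^ 2 := by
    intro x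
    have h1 := hmean (fun x => L x - x) (4 * C2 * om ^ 3) 0 (by positivity) (fun x => by
      have h2 := hstep x
      have h3 : (L (x + om) - (x + om)) - (L x - x) = D x - om := by
        show _ = (L (x + om) - L x) - om
        ring
      show |(L (x + om) - (x + om)) - (L x - x)| ≤ _
      rw [h3]
      exact h2) (fun x => by rw [mul_zero]; exact hO.orb x) x
    rw [sub_zero] at h1
    calc |L x - x| ≤ q * (4 * C2 * om ^ 3) := h1
      _ = (q * om) * (4 * C2 * om ^ 2) := by ring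
      _ ≤ 2 * (4 * C2 * om ^ 2) := by
          rw [hqom]
          exact mul_le_mul_of_nonneg_right hp2 (by positivity)
      _ = 8 * C2 * om ^ 2 := by ring
  refine ⟨fun x => ?_, fun x => ?_, fun x => ?_⟩
  · refine (hstep x).trans (mul_le_mul_of_nonneg_right (by linarith) (by positivity))
  · refine (hnear x).trans (mul_le_mul_of_nonneg_right (by linarith) (by positivity))
  · have h1 := hdiff (x - om)
    have h2 : D (x - om + om) - D (x - om) = (L (x + om) - L x) - (L x - L (x - om)) := by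
      show (L (x - om + om + om) - L (x - om + om)) - (L (x - om + om) - L (x - om)) = _
      rw [sub_add_cancel]
    rw [h2] at h1
    exact h1.trans (mul_le_mul_of_nonneg_right (by linarith) (by positivity))

end Pool.Agent.MP_ae5b4e_an_RG
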