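import Mathlib
import Pool.Agent.Lib.MP_ae5b4e_an_RG.OrbD

/-!
# MP_ae5b4e_an, project REG: the integral of m vanishes (section 4.3)

Text: `/team-store/POR_REG.md`.
-/

noncomputable section

namespace Pool.Agent.MP_ae5b4e_an_RG

open Real Set Filter Topology MeasureTheory intervalIntegral
open scoped ContDiff

private lemma intm_am {x y X Y : ℝ} (h1 : |x| ≤ X) (h2 : |y| ≤ Y) : |x * y| ≤ X * Y := by
  rw [abs_mul]
  exact mul_le_mul h1 h2 (abs_nonneg _) ((abs_nonneg _).trans h1)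

private lemma intm_alg {w1 Dm Dp r0 r1 b0 rm rp bm bp ρm ρp K B C : ℝ} (hw1 : 0 < w1) (hw11 : w1 ≤ 1)
    (hC : 0 ≤ C) (hK : 0 ≤ K) (hK1 : K * w1 ^ 2 ≤ 1)
    (h1 : |Dp - w1| ≤ K * w1 ^ 3) (h2 : |Dm - w1| ≤ K * w1 ^ 3) (h3 : |Dp - Dm| ≤ K * w1 ^ 4)
    (hrm : |rm - r0 + Dm * r1| ≤ B * Dm ^ 2) (hrp : |rp - r0 - Dp * r1| ≤ B * Dp ^ 2)
    (hbm : |bm - b0| ≤ B * |Dm|) (hbp : |bp - b0| ≤ B * |Dp|)
    (hr0 : |r0| ≤ B) (hr1 : |r1| ≤ B) (hb0 : |b0| ≤ B)
    (hρm : |ρm + rm / 6 * Dm ^ 2 + bm * Dm ^ 3| ≤ C * Dm ^ 4)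
    (hρp : |ρp + rp / 6 * Dp ^ 2 - bp * Dp ^ 3| ≤ C * Dp ^ 4)
    (hl : Dp - Dm = (Dm * ρp - Dp * ρm) / 2) :
    |Dp - Dm - w1 ^ 4 * (b0 - r1 / 6)| ≤ (32 * C + 38 * B + 31 * (B * K)) * w1 ^ 5 := by
  have hB : 0 ≤ B := (abs_nonneg _).trans hr0
  have hKw1 : K * w1 ^ 3 ≤ w1 := by
    calc K * w1 ^ 3 = (K * w1 ^ 2) * w1 := by ring
      _ ≤ 1 * w1 := mul_le_mul_of_nonneg_right hK1 hw1.le
      _ = w1 := one_mul _
  have hDp : |Dp| ≤ 2 * w1 := by
    have := abs_le.1 h1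
    rw [abs_le]; constructor <;> linarith
  have hDm : |Dm| ≤ 2 * w1 := by
    have := abs_le.1 h2
    rw [abs_le]; constructor <;> linarith
  have hpw : ∀ {D : ℝ} (n : ℕ), |D| ≤ 2 * w1 → |D ^ n| ≤ (2 * w1) ^ n := by
    intro D n h
    rw [abs_pow]
    exact pow_le_pow_left₀ (abs_nonneg _) h n
  obtain ⟨e1, he1⟩ : ∃ e1, e1 = ρm + rm / 6 * Dm ^ 2 + bm * Dm ^ 3 := ⟨_, rfl⟩
  obtain ⟨e2, he2⟩ : ∃ e2, e2 = ρp + rp / 6 * Dp ^ 2 - bp * Dp ^ 3 := ⟨_, rfl⟩
  obtain ⟨f1, hf1⟩ : ∃ f1, f1 = rm - r0 + Dm * r1 := ⟨_, rfl⟩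
  obtain ⟨f2, hf2⟩ : ∃ f2, f2 = rp - r0 - Dp * r1 := ⟨_, rfl⟩
  obtain ⟨g1, hg1⟩ : ∃ g1, g1 = bm - b0 := ⟨_, rfl⟩
  obtain ⟨g2, hg2⟩ : ∃ g2, g2 = bp - b0 := ⟨_, rfl⟩
  rw [← he1] at hρm
  rw [← he2] at hρp
  rw [← hf1] at hrm
  rw [← hf2] at hrp
  rw [← hg1] at hbm
  rw [← hg2] at hbp
  have he1' : |e1| ≤ C * (2 * w1) ^ 4 :=
    hρm.trans (mul_le_mul_of_nonneg_left ((le_abs_self _).trans (hpw 4 hDm)) hC)
  have he2' : |e2| ≤ C * (2 * w1) ^ 4 :=
    hρp.trans (mul_le_mul_of_nonneg_left ((le_abs_self _).trans (hpw 4 hDp)) hC)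
  have hf1' : |f1| ≤ B * (2 * w1) ^ 2 :=
    hrm.trans (mul_le_mul_of_nonneg_left ((le_abs_self _).trans (hpw 2 hDm)) hB)
  have hf2' : |f2| ≤ B * (2 * w1) ^ 2 :=
    hrp.trans (mul_le_mul_of_nonneg_left ((le_abs_self _).trans (hpw 2 hDp)) hB)
  have hg1' : |g1| ≤ B * (2 * w1) := hbm.trans (mul_le_mul_of_nonneg_left hDm hB)
  have hg2' : |g2| ≤ B * (2 * w1) := hbp.trans (mul_le_mul_of_nonneg_left hDp hB)
  have t1 : |Dm * e2| ≤ (2 * w1) * (C * (2 * w1) ^ 4) := intm_am hDm he2'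
  have t2 : |Dp * e1| ≤ (2 * w1) * (C * (2 * w1) ^ 4) := intm_am hDp he1'
  have t3 : |Dm * Dp ^ 2 * f2| ≤ (2 * w1) * (2 * w1) ^ 2 * (B * (2 * w1) ^ 2) :=
    intm_am (intm_am hDm (hpw 2 hDp)) hf2'
  have t4 : |Dp * Dm ^ 2 * f1| ≤ (2 * w1) * (2 * w1) ^ 2 * (B * (2 * w1) ^ 2) :=
    intm_am (intm_am hDp (hpw 2 hDm)) hf1'
  have t5 : |Dm * Dp ^ 3 * g2| ≤ (2 * w1) * (2 * w1) ^ 3 * (B * (2 * w1)) :=
    intm_am (intm_am hDm (hpw 3 hDp)) hg2'
  have t6 : |Dp * Dm ^ 3 * g1| ≤ (2 * w1) * (2 * w1) ^ 3 * (B * (2 * w1)) :=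
    intm_am (intm_am hDp (hpw 3 hDm)) hg1'
  have t7 : |r0 * (Dm * Dp) * (Dp - Dm)| ≤ B * ((2 * w1) * (2 * w1)) * (K * w1 ^ 4) :=
    intm_am (intm_am hr0 (intm_am hDm hDp)) h3
  have hww1 : |w1| ≤ w1 := (abs_of_pos hw1).le
  have s1 : |(Dm - w1) * Dp ^ 3| ≤ K * w1 ^ 3 * (2 * w1) ^ 3 := intm_am h2 (hpw 3 hDp)
  have s2 : |w1 * ((Dp - w1) * (Dp ^ 2 + Dp * w1 + w1 ^ 2))| ≤
      w1 * ((K * w1 ^ 3) * ((2 * w1) ^ 2 + (2 * w1) * w1 + w1 ^ 2)) := by
    refine intm_am hww1 (intm_am h1 ?_)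
    refine (abs_add_le _ _).trans (add_le_add ((abs_add_le _ _).trans
      (add_le_add (hpw 2 hDp) (intm_am hDp hww1))) ?_)
    rw [abs_of_nonneg (by positivity)]
  have s3 : |(Dp - w1) * Dm ^ 3| ≤ K * w1 ^ 3 * (2 * w1) ^ 3 := intm_am h1 (hpw 3 hDm)
  have s4 : |w1 * ((Dm - w1) * (Dm ^ 2 + Dm * w1 + w1 ^ 2))| ≤
      w1 * ((K * w1 ^ 3) * ((2 * w1) ^ 2 + (2 * w1) * w1 + w1 ^ 2)) := by
    refine intm_am hww1 (intm_am h2 ?_)
    refine (abs_add_le _ _).trans (add_le_add ((abs_add_le _ _).trans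
      (add_le_add (hpw 2 hDm) (intm_am hDm hww1))) ?_)
    rw [abs_of_nonneg (by positivity)]
  have s5 : |Dm * Dp ^ 3 + Dp * Dm ^ 3 - 2 * w1 ^ 4| ≤ 30 * K * w1 ^ 6 := by
    have e0 : Dm * Dp ^ 3 + Dp * Dm ^ 3 - 2 * w1 ^ 4 = ((Dm - w1) * Dp ^ 3 +
        w1 * ((Dp - w1) * (Dp ^ 2 + Dp * w1 + w1 ^ 2))) + ((Dp - w1) * Dm ^ 3 +
        w1 * ((Dm - w1) * (Dm ^ 2 + Dm * w1 + w1 ^ 2))) := by ring
    rw [e0]
    refine (abs_add_le _ _).trans ((add_le_add ((abs_add_le _ _).trans (add_le_add s1 s2))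
      ((abs_add_le _ _).trans (add_le_add s3 s4))).trans (le_of_eq ?_))
    ring
  have hbr : |b0 - r1 / 6| ≤ 2 * B := by
    have h4 := abs_le.1 hb0
    have h5 := abs_le.1 hr1
    rw [abs_le]; constructor <;> linarith
  have t8 : |(b0 - r1 / 6) * (Dm * Dp ^ 3 + Dp * Dm ^ 3 - 2 * w1 ^ 4)| ≤
      (2 * B) * (30 * K * w1 ^ 6) := intm_am hbr s5
  have hw16 : w1 ^ 6 ≤ w1 ^ 5 := pow_le_pow_of_le_one hw1.le hw11 (by norm_num)
  have hBK : 0 ≤ B * K := mul_nonneg hB hK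
  have hBK6 : B * K * w1 ^ 6 ≤ B * K * w1 ^ 5 := mul_le_mul_of_nonneg_left hw16 hBK
  have hBK5 : 0 ≤ B * K * w1 ^ 5 := by positivity
  have hBw1 : 0 ≤ B * w1 ^ 5 := by positivity
  have hCw1 : 0 ≤ C * w1 ^ 5 := by positivity
  have e3 : Dp - Dm - w1 ^ 4 * (b0 - r1 / 6) = (Dm * e2 - Dp * e1 - Dm * Dp ^ 2 * f2 / 6 +
      Dp * Dm ^ 2 * f1 / 6 + Dm * Dp ^ 3 * g2 + Dp * Dm ^ 3 * g1 -
      r0 * (Dm * Dp) * (Dp - Dm) / 6 +
      (b0 - r1 / 6) * (Dm * Dp ^ 3 + Dp * Dm ^ 3 - 2 * w1 ^ 4)) / 2 := by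
    rw [he1, he2, hf1, hf2, hg1, hg2]
    linear_combination hl
  rw [e3]
  have u1 := abs_le.1 t1
  have u2 := abs_le.1 t2
  have u3 := abs_le.1 t3
  have u4 := abs_le.1 t4
  have u5 := abs_le.1 t5
  have u6 := abs_le.1 t6
  have u7 := abs_le.1 t7
  have u8 := abs_le.1 t8
  ring_nf at u1 u2 u3 u4 u5 u6 u7 u8 hBK6 hBK5 hBw1 hCw1 ⊢
  rw [abs_le]
  constructor <;> linarith [u1.1, u1.2, u2.1, u2.2, u3.1, u3.2, u4.1, u4.2, u5.1, u5.2, u6.1,
    u6.2, u7.1, u7.2, u8.1, u8.2]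

private lemma intm_bdd {f : ℝ → ℝ} (hf : Continuous f) (pf : Function.Periodic f 1) :
    ∃ B, ∀ x, |f x| ≤ B := by
  obtain ⟨B, hB⟩ := (pf.compact_of_continuous one_ne_zero hf).isBounded.exists_norm_le
  exact ⟨B, fun x => hB _ (mem_range_self x)⟩

private lemma intm_per {f : ℝ → ℝ} (pf : Function.Periodic f 1) :
    Function.Periodic (deriv f) 1 := by
  intro x
  have h : (fun y => f (y + 1)) = f := funext pf
  rw [← deriv_comp_add_const, h]

private lemma intm_lip {f : ℝ → ℝ} (hf : ContDiff ℝ ∞ f) {B : ℝ} (hB : ∀ x, |deriv f x| ≤ B)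
    (x y : ℝ) : |f x - f y| ≤ B * |x - y| := by
  have h := Convex.norm_image_sub_le_of_norm_deriv_le (f := f) (C := B) (s := univ) (x := y)
    (y := x) (fun z _ => (hf.differentiable (by simp)).differentiableAt) (fun z _ => hB z)
    convex_univ (mem_univ _) (mem_univ _)
  simpa using h

private lemma intm_tay {f : ℝ → ℝ} (hf : ContDiff ℝ ∞ f) {B : ℝ}
    (hB : ∀ x, |deriv (deriv f) x| ≤ B) (x y : ℝ) :
    |f x - f y - (x - y) * deriv f y| ≤ B * (x - y) ^ 2 := by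
  have hB0 : 0 ≤ B := (abs_nonneg _).trans (hB 0)
  have hd : ContDiff ℝ ∞ (deriv f) := (contDiff_infty_iff_deriv.1 hf).2
  have hdd : ∀ z, HasDerivAt (fun z => f z - z * deriv f y) (deriv f z - 1 * deriv f y) z :=
    fun z => ((hf.differentiable (by simp)).differentiableAt.hasDerivAt).sub
      ((hasDerivAt_id z).mul_const _)
  have h := Convex.norm_image_sub_le_of_norm_deriv_le (f := fun z => f z - z * deriv f y)
    (C := B * |x - y|) (s := uIcc y x) (x := y) (y := x)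
    (fun z _ => (hdd z).differentiableAt) (fun z hz => ?_)
    (convex_uIcc _ _) left_mem_uIcc right_mem_uIcc
  · have e1 : (f x - x * deriv f y) - (f y - y * deriv f y) =
        f x - f y - (x - y) * deriv f y := by ring
    simp only [Real.norm_eq_abs, e1] at h
    calc |f x - f y - (x - y) * deriv f y| ≤ B * |x - y| * |x - y| := h
      _ = B * (|x - y|) ^ 2 := by ring
      _ = B * (x - y) ^ 2 := by rw [sq_abs]
  · rw [(hdd z).deriv, one_mul, Real.norm_eq_abs]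
    refine (intm_lip hd hB z y).trans (mul_le_mul_of_nonneg_left ?_ hB0)
    exact abs_sub_left_of_mem_uIcc hz

/-- `∫ m = 0` -/
theorem int_m_zero {r m : ℝ → ℝ} (hr : ContDiff ℝ ∞ r) (hm : ContDiff ℝ ∞ m)
    (pr : Function.Periodic r 1) (pm : Function.Periodic m 1) {C K : ℝ} {q0 : ℕ} (hC : 0 ≤ C)
    (hK : 0 ≤ K)
    (H : ∀ q, q0 ≤ q → ∃ L, Orb 1 q L r (fun x => deriv r x / 10 + m x / 20) C ∧ Apr 1 q L K) :
    ∫ x in (0:ℝ)..1, m x = 0 := by
  have hr1 : ContDiff ℝ ∞ (deriv r) := (contDiff_infty_iff_deriv.1 hr).2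
  have hr2 : ContDiff ℝ ∞ (deriv (deriv r)) := (contDiff_infty_iff_deriv.1 hr1).2
  have pr1 := intm_per pr
  have pr2 := intm_per pr1
  obtain ⟨b, hb⟩ : ∃ b : ℝ → ℝ, b = fun x => deriv r x / 10 + m x / 20 := ⟨_, rfl⟩
  obtain ⟨g, hg⟩ : ∃ g : ℝ → ℝ, g = fun x => m x / 20 - deriv r x / 15 := ⟨_, rfl⟩
  have hbs : ContDiff ℝ ∞ b := by
    rw [hb]; exact (hr1.div_const _).add (hm.div_const _)
  have hgs : ContDiff ℝ ∞ g := by
    rw [hg]; exact (hm.div_const _).sub (hr1.div_const _)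
  have pb : Function.Periodic b 1 := by
    intro x; simp only [hb, pr1 x, pm x]
  have pg : Function.Periodic g 1 := by
    intro x; simp only [hg, pr1 x, pm x]
  obtain ⟨B0, hB0⟩ := intm_bdd hr.continuous pr
  obtain ⟨B1, hB1⟩ := intm_bdd hr1.continuous pr1
  obtain ⟨B2, hB2⟩ := intm_bdd hr2.continuous pr2
  obtain ⟨B3, hB3⟩ := intm_bdd hbs.continuous pb
  obtain ⟨B4, hB4⟩ := intm_bdd (contDiff_infty_iff_deriv.1 hbs).2.continuous (intm_per pb)
  obtain ⟨B5, hB5⟩ := intm_bdd (contDiff_infty_iff_deriv.1 hgs).2.continuous (intm_per pg)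
  have p0 := (abs_nonneg _).trans (hB0 0)
  have p1 := (abs_nonneg _).trans (hB1 0)
  have p2 := (abs_nonneg _).trans (hB2 0)
  have p3 := (abs_nonneg _).trans (hB3 0)
  have p4 := (abs_nonneg _).trans (hB4 0)
  have p5 := (abs_nonneg _).trans (hB5 0)
  obtain ⟨B, hBd⟩ : ∃ B : ℝ, B = B0 + B1 + B2 + B3 + B4 + B5 := ⟨_, rfl⟩
  have q0' : ∀ x, |r x| ≤ B := fun x => (hB0 x).trans (by linarith)
  have q1' : ∀ x, |deriv r x| ≤ B := fun x => (hB1 x).trans (by linarith)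
  have q2' : ∀ x, |deriv (deriv r) x| ≤ B := fun x => (hB2 x).trans (by linarith)
  have q3' : ∀ x, |b x| ≤ B := fun x => (hB3 x).trans (by linarith)
  have q4' : ∀ x, |deriv b x| ≤ B := fun x => (hB4 x).trans (by linarith)
  have q5' : ∀ x, |deriv g x| ≤ B := fun x => (hB5 x).trans (by linarith)
  have hBn : 0 ≤ B := by linarith
  obtain ⟨M, hM⟩ : ∃ M : ℝ, M = 32 * C + 38 * B + 31 * (B * K) + B * K := ⟨_, rfl⟩
  -- the main estimate
  have key : ∀ q : ℕ, q0 ≤ q → 1 ≤ q → K * (1 / (q:ℝ)) ^ 2 ≤ 1 →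
      |∫ x in (0:ℝ)..1, g x| ≤ M * (1 / (q:ℝ)) := by
    intro q hq hq1 hKq
    obtain ⟨L, hO, hA⟩ := H q hq
    rw [← hb] at hO
    obtain ⟨w1, hw1⟩ : ∃ w1 : ℝ, w1 = 1 / (q:ℝ) := ⟨_, rfl⟩
    have hqpos : (0:ℝ) < q := by exact_mod_cast (lt_of_lt_of_le Nat.zero_lt_one hq1)
    have hw10 : 0 < w1 := by rw [hw1]; positivity
    have hw11 : w1 ≤ 1 := by
      rw [hw1, div_le_one hqpos]; exact_mod_cast hq1
    have hcast : ((1:ℕ):ℝ) / (q:ℝ) = w1 := by rw [hw1]; norm_num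
    rw [← hw1] at hKq ⊢
    have hstep := hA.step
    have hnear := hA.near
    have hdiff := hA.diff
    have hlaw := hO.law
    simp only [hcast] at hstep hnear hdiff hlaw
    have hLc := hO.cont
    have est : ∀ x, |(L (x + w1) - L x) - (L x - L (x - w1)) - w1 ^ 4 * g (L x)| ≤
        (32 * C + 38 * B + 31 * (B * K)) * w1 ^ 5 := by
      intro x
      obtain ⟨ρm, ρp, l1, l2, l3⟩ := hlaw x
      have s1 := hstep x
      have s2 := hstep (x - w1)
      rw [sub_add_cancel] at s2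
      have eg : g (L x) = b (L x) - deriv r (L x) / 6 := by
        rw [hg, hb]; ring
      rw [eg]
      refine intm_alg (r0 := r (L x)) (rm := r (L (x - w1))) (rp := r (L (x + w1)))
        (bm := b (L (x - w1))) (bp := b (L (x + w1))) (ρm := ρm) (ρp := ρp) hw10 hw11 hC hK hKq
        s1 s2 (hdiff x) ?_ ?_ ?_ ?_ (q0' _) (q1' _) (q3' _) l1 l2 l3
      · have := intm_tay hr q2' (L (x - w1)) (L x)
        have e1 : r (L (x - w1)) - r (L x) + (L x - L (x - w1)) * deriv r (L x) =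
            r (L (x - w1)) - r (L x) - (L (x - w1) - L x) * deriv r (L x) := by ring
        rw [e1, show (L x - L (x - w1)) ^ 2 = (L (x - w1) - L x) ^ 2 by ring]
        exact this
      · exact intm_tay hr q2' (L (x + w1)) (L x)
      · have := intm_lip hbs q4' (L (x - w1)) (L x)
        rwa [abs_sub_comm (L (x - w1))] at this
      · exact intm_lip hbs q4' (L (x + w1)) (L x)
    -- the integral of the difference
    have hDc : Continuous fun x => L (x + w1) - L x :=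
      (hLc.comp (continuous_id.add continuous_const)).sub hLc
    have hDp : Function.Periodic (fun x => L (x + w1) - L x) 1 := by
      intro x
      have e1 : x + 1 + w1 = (x + w1) + 1 := by ring
      simp only [e1, hO.per]
      ring
    have hint : ∫ x in (0:ℝ)..1, ((L (x + w1) - L x) - (L x - L (x - w1))) = 0 := by
      have hDc' : Continuous fun x => L x - L (x - w1) :=
        hLc.sub (hLc.comp (continuous_id.sub continuous_const))
      rw [intervalIntegral.integral_sub (hDc.intervalIntegrable _ _)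
        (hDc'.intervalIntegrable _ _)]
      have e1 : ∫ x in (0:ℝ)..1, (L x - L (x - w1)) =
          ∫ x in (0 - w1)..(1 - w1), (L (x + w1) - L x) := by
        rw [← intervalIntegral.integral_comp_sub_right (fun x => L (x + w1) - L x) w1]
        refine intervalIntegral.integral_congr fun x _ => ?_
        simp only [sub_add_cancel]
      rw [e1]
      have e2 := hDp.intervalIntegral_add_eq (0 - w1) 0
      have e3 : (0:ℝ) - w1 + 1 = 1 - w1 := by ring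
      rw [e3, zero_add] at e2
      rw [e2, sub_self]
    have hgL : Continuous fun x => g (L x) := hgs.continuous.comp hLc
    have hgc : Continuous g := hgs.continuous
    have est2 : ∀ x, |w1 ^ 4 * g x + ((L (x + w1) - L x) - (L x - L (x - w1)) - w1 ^ 4 * g (L x)) -
        ((L (x + w1) - L x) - (L x - L (x - w1)))| ≤ B * K * w1 ^ 5 := by
      intro x
      have e1 : w1 ^ 4 * g x + ((L (x + w1) - L x) - (L x - L (x - w1)) - w1 ^ 4 * g (L x)) -
        ((L (x + w1) - L x) - (L x - L (x - w1))) = w1 ^ 4 * (g x - g (L x)) := by ring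
      rw [e1, abs_mul, abs_of_pos (by positivity)]
      have h1 := intm_lip hgs q5' x (L x)
      rw [abs_sub_comm x] at h1
      have h2 : w1 ^ 6 ≤ w1 ^ 5 := pow_le_pow_of_le_one hw10.le hw11 (by norm_num)
      calc w1 ^ 4 * |g x - g (L x)| ≤ w1 ^ 4 * (B * (K * w1 ^ 2)) := by
            refine mul_le_mul_of_nonneg_left (h1.trans ?_) (by positivity)
            exact mul_le_mul_of_nonneg_left (hnear x) hBn
        _ = B * K * w1 ^ 6 := by ring
        _ ≤ B * K * w1 ^ 5 := mul_le_mul_of_nonneg_left h2 (mul_nonneg hBn hK)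
    have est3 : ∀ x, |((L (x + w1) - L x) - (L x - L (x - w1))) - w1 ^ 4 * g x| ≤ M * w1 ^ 5 := by
      intro x
      have h1 := abs_le.1 (est x)
      have h2 := abs_le.1 (est2 x)
      rw [hM, abs_le]
      constructor <;> linarith [h1.1, h1.2, h2.1, h2.2]
    have hI : |∫ x in (0:ℝ)..1, (((L (x + w1) - L x) - (L x - L (x - w1))) - w1 ^ 4 * g x)| ≤
        M * w1 ^ 5 := by
      have := intervalIntegral.norm_integral_le_of_norm_le_const (a := 0) (b := 1)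
        (C := M * w1 ^ 5)
        (f := fun x => ((L (x + w1) - L x) - (L x - L (x - w1))) - w1 ^ 4 * g x)
        (fun x _ => est3 x)
      simpa using this
    have hDD : Continuous fun x => (L (x + w1) - L x) - (L x - L (x - w1)) :=
      hDc.sub (hLc.sub (hLc.comp (continuous_id.sub continuous_const)))
    have hwg : Continuous fun x => w1 ^ 4 * g x := continuous_const.mul hgc
    rw [intervalIntegral.integral_sub (hDD.intervalIntegrable _ _)
      (hwg.intervalIntegrable _ _), hint,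
      intervalIntegral.integral_const_mul, zero_sub, abs_neg, abs_mul,
      abs_of_pos (by positivity : 0 < w1 ^ 4)] at hI
    have h5 : w1 ^ 4 * |∫ x in (0:ℝ)..1, g x| ≤ w1 ^ 4 * (M * w1) := by
      calc _ ≤ M * w1 ^ 5 := hI
        _ = w1 ^ 4 * (M * w1) := by ring
    exact le_of_mul_le_mul_left h5 (by positivity)
  -- the limit
  have hlim : |∫ x in (0:ℝ)..1, g x| ≤ 0 := by
    have t1 : Tendsto (fun q : ℕ => M * (1 / (q:ℝ))) atTop (𝓝 (M * 0)) :=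
      tendsto_one_div_atTop_nhds_zero_nat.const_mul M
    rw [mul_zero] at t1
    refine ge_of_tendsto t1 ?_
    have t2 : Tendsto (fun q : ℕ => K * (1 / (q:ℝ)) ^ 2) atTop (𝓝 (K * 0 ^ 2)) :=
      (tendsto_one_div_atTop_nhds_zero_nat.pow 2).const_mul K
    have t3 : ∀ᶠ q : ℕ in atTop, K * (1 / (q:ℝ)) ^ 2 ≤ 1 :=
      t2.eventually (ge_mem_nhds (by norm_num)) |>.mono fun q h => h
    filter_upwards [eventually_ge_atTop q0, eventually_ge_atTop 1, t3] with q h1 h2 h3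
    exact key q h1 h2 h3
  have hzero : ∫ x in (0:ℝ)..1, g x = 0 := abs_nonpos_iff.1 hlim
  have hrint : ∫ x in (0:ℝ)..1, deriv r x = 0 := by
    rw [intervalIntegral.integral_deriv_eq_sub
      (fun x _ => (hr.differentiable (by simp)).differentiableAt)
      (hr1.continuous.intervalIntegrable _ _)]
    have := pr 0
    rw [zero_add] at this
    rw [this, sub_self]
  have hgint : ∫ x in (0:ℝ)..1, g x =
      (∫ x in (0:ℝ)..1, m x) / 20 - (∫ x in (0:ℝ)..1, deriv r x) / 15 := by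
    rw [hg, intervalIntegral.integral_sub ((hm.continuous.div_const _).intervalIntegrable _ _)
      ((hr1.continuous.div_const _).intervalIntegrable _ _), intervalIntegral.integral_div,
      intervalIntegral.integral_div]
  rw [hzero, hrint] at hgint
  linarith

end Pool.Agent.MP_ae5b4e_an_RG
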