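import Mathlib
import Pool.Agent.Lib.MP_ae5b4e_an_RG.Defs

/-!
# MP_ae5b4e_an, project REG: monotone families of circle maps and their curves of periodic points (definitions, section 2)

Text: `/team-store/POR_REG.md`.
-/

noncomputable section

namespace Pool.Agent.MP_ae5b4e_an_RG

open Real Set Filter Topology MeasureTheory intervalIntegral
open scoped ContDiff

/-- A monotone family of lifts of circle maps of period `T`: `F c t = T_c(t)`, `0 < c < 1`
(properties (T1)-(T3) of the text). -/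
structure TMap (T : ℝ) (F : ℝ → ℝ → ℝ) : Prop where
  T_pos : 0 < T
  cont : ContinuousOn (fun z : ℝ × ℝ => F z.1 z.2) (Ioo 0 1 ×ˢ univ)
  gt : ∀ c ∈ Ioo (0:ℝ) 1, ∀ t, t < F c t
  per : ∀ c ∈ Ioo (0:ℝ) 1, ∀ t, F c (t + T) = F c t + T
  mono_c : ∀ t, StrictMonoOn (fun c => F c t) (Ioo 0 1)
  mono_t : ∀ c ∈ Ioo (0:ℝ) 1, StrictMono (F c)
  lim : ∀ t, Tendsto (fun c => F c t) (𝓝[>] 0) (𝓝 t)

/-- The curve of the `p/q`-periodic points in the adapted parameter `x` (period `T`): `L` conjugates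
the translation by `p T / q` to the restriction of the family to that curve. -/
structure PLeaf (T : ℝ) (F : ℝ → ℝ → ℝ) (p q : ℕ) (L : ℝ → ℝ) : Prop where
  cont : Continuous L
  mono : StrictMono L
  per : ∀ x, L (x + T) = L x + T
  com : ∀ x, ∃ c ∈ Ioo (0:ℝ) 1, F c (L (x - (p:ℝ) * T / q)) = L x ∧
    F c (L x) = L (x + (p:ℝ) * T / q)
  orb : ∀ x, ∑ j ∈ Finset.range q,
    (L (x + j * ((p:ℝ) * T / q)) - (x + j * ((p:ℝ) * T / q))) = 0

end Pool.Agent.MP_ae5b4e_an_RG
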