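import Mathlib
import Pool.Agent.Lib.MP_ae5b4e_an_hopf.Plane
import Pool.Agent.Lib.MP_ae5b4e_an_RG.TMap

/-!
# MP_ae5b4e_an, project REG: families of invariant curves (section 1)

Text: `/team-store/POR_REG.md`.
-/

noncomputable section

namespace Pool.Agent.MP_ae5b4e_an_RG

open Real Set Filter Topology MeasureTheory intervalIntegral
open scoped ContDiff
open Pool.Agent.MP_ae5b4e_an_hopf

/-- A family of closed curves around a closed convex curve, for which all the involutions of the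
tangent lines are projective (`feq`).  The curves are only continuous. -/
structure LSys (T : ℝ) (Γ : ℝ → Fin 3 → ℝ) (U : ℝ → ℝ → ℝ) (κ : ℝ → ℝ) : Prop where
  curve : Curve T Γ
  cont : ContinuousOn (fun z : ℝ × ℝ => U z.1 z.2) (Ioo 0 1 ×ˢ univ)
  per : ∀ c ∈ Ioo (0:ℝ) 1, ∀ t, U c (t + T) = U c t
  anti : ∀ t, StrictAntiOn (fun c => U c t) (Ioo 0 1)
  lim0 : ∀ t, Tendsto (fun c => U c t) (𝓝[>] 0) atTop
  smooth_κ : ContDiff ℝ ∞ κ
  feq : ∀ c ∈ Ioo (0:ℝ) 1, ∀ t s, t < s → s < t + T → L1 Γ t s = -(U c t) →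
    U c s = κ s + L1 Γ s t

variable {T : ℝ} {Γ : ℝ → Fin 3 → ℝ} {U : ℝ → ℝ → ℝ} {κ : ℝ → ℝ}

namespace LSys

lemma nxt_spec (h : LSys T Γ U κ) (c t : ℝ) : t < nxt Γ T U c t ∧ nxt Γ T U c t < t + T ∧
    L1 Γ t (nxt Γ T U c t) = -(U c t) := h.curve.nx_spec t (U c t)

lemma nxt_per (h : LSys T Γ U κ) {c : ℝ} (hc : c ∈ Ioo (0:ℝ) 1) (t : ℝ) :
    nxt Γ T U c (t + T) = nxt Γ T U c t + T := by
  unfold nxt
  rw [h.per c hc, h.curve.nx_per]

lemma cont_nxt (h : LSys T Γ U κ) :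
    ContinuousOn (fun z : ℝ × ℝ => nxt Γ T U z.1 z.2) (Ioo 0 1 ×ˢ univ) := by
  have h1 : Continuous (fun p : ℝ × ℝ => nx Γ T p.1 p.2) := h.curve.contDiff_nx.continuous
  have h2 : ContinuousOn (fun z : ℝ × ℝ => (z.2, U z.1 z.2)) (Ioo 0 1 ×ˢ univ) :=
    continuousOn_snd.prodMk h.cont
  exact h1.comp_continuousOn h2

lemma cont_slice (h : LSys T Γ U κ) {c : ℝ} (hc : c ∈ Ioo (0:ℝ) 1) :
    Continuous (nxt Γ T U c) :=
  h.cont_nxt.comp_continuous (f := fun t : ℝ => (c, t)) (by fun_prop) fun t => ⟨hc, mem_univ _⟩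

lemma feq' (h : LSys T Γ U κ) {c : ℝ} (hc : c ∈ Ioo (0:ℝ) 1) (t : ℝ) :
    U c (nxt Γ T U c t) = κ (nxt Γ T U c t) + L1 Γ (nxt Γ T U c t) t :=
  h.feq c hc t _ (h.nxt_spec c t).1 (h.nxt_spec c t).2.1 (h.nxt_spec c t).2.2

lemma inj_nxt (h : LSys T Γ U κ) {c : ℝ} (hc : c ∈ Ioo (0:ℝ) 1) :
    Function.Injective (nxt Γ T U c) := by
  intro t t' htt
  have e1 := h.feq' hc t
  have e2 := h.feq' hc t'
  obtain ⟨a1, a2, -⟩ := h.nxt_spec c t
  obtain ⟨b1, b2, -⟩ := h.nxt_spec c t'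
  rw [← htt] at e2 b1 b2
  have e3 : L1 Γ (nxt Γ T U c t) (t + T) = L1 Γ (nxt Γ T U c t) (t' + T) := by
    rw [h.curve.L1_per_right, h.curve.L1_per_right]
    linarith
  have e4 := (h.curve.strictMono_L1 (nxt Γ T U c t)).injOn
    (show t + T ∈ Ioo (nxt Γ T U c t) (nxt Γ T U c t + T) from ⟨a2, by linarith⟩)
    (show t' + T ∈ Ioo (nxt Γ T U c t) (nxt Γ T U c t + T) from ⟨b2, by linarith⟩) e3
  linarith

lemma surj_nxt (h : LSys T Γ U κ) {c : ℝ} (hc : c ∈ Ioo (0:ℝ) 1) (s : ℝ) :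
    ∃ t, nxt Γ T U c t = s := by
  have hT := h.curve.T_pos
  have h1 := (h.nxt_spec c (s - T)).2.1
  have h2 := (h.nxt_spec c s).1
  have h3 := intermediate_value_Icc (show s - T ≤ s by linarith) (h.cont_slice hc).continuousOn
  obtain ⟨t, -, ht⟩ := h3 (show s ∈ Icc _ _ from ⟨by linarith, h2.le⟩)
  exact ⟨t, ht⟩

/-- (T1)-(T3) -/
theorem tmap (h : LSys T Γ U κ) : TMap T (nxt Γ T U) where
  T_pos := h.curve.T_pos
  cont := h.cont_nxt
  gt := fun c _ t => (h.nxt_spec c t).1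
  per := fun c hc t => h.nxt_per hc t
  mono_c := fun t a ha b hb hab => h.curve.nx_strictAnti t (h.anti t ha hb hab)
  mono_t := by
    intro c hc
    rcases (h.cont_slice hc).strictMono_of_inj (h.inj_nxt hc) with h1 | h1
    · exact h1
    · exfalso
      have hT := h.curve.T_pos
      have h2 := h1 (show (0:ℝ) < 0 + T by linarith)
      rw [h.nxt_per hc] at h2
      linarith
  lim := by
    intro t
    have hT := h.curve.T_pos
    rw [tendsto_order]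
    refine ⟨fun a ha => Eventually.of_forall fun c => ha.trans (h.nxt_spec c t).1,
      fun b hb => ?_⟩
    have hs1 : t < min b (t + T / 2) := lt_min hb (by linarith)
    have hs2 : min b (t + T / 2) < t + T := (min_le_right _ _).trans_lt (by linarith)
    filter_upwards [(h.lim0 t).eventually_gt_atTop (-(L1 Γ t (min b (t + T / 2))))] with c hc
    refine lt_of_lt_of_le ?_ (min_le_left b (t + T / 2))
    obtain ⟨a1, a2, a3⟩ := h.nxt_spec c t
    refine ((h.curve.strictMono_L1 t).lt_iff_lt ⟨a1, a2⟩ ⟨hs1, hs2⟩).1 ?_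
    show L1 Γ t (nxt Γ T U c t) < L1 Γ t (min b (t + T / 2))
    rw [a3]
    linarith

/-- (T4) -/
theorem law (h : LSys T Γ U κ) {c : ℝ} (hc : c ∈ Ioo (0:ℝ) 1) (t : ℝ) :
    L1 Γ (nxt Γ T U c t) (nxt Γ T U c (nxt Γ T U c t)) + L1 Γ (nxt Γ T U c t) t +
      κ (nxt Γ T U c t) = 0 := by
  have h1 := h.feq' hc t
  have h2 := (h.nxt_spec c (nxt Γ T U c t)).2.2
  linarith

theorem κ_per (h : LSys T Γ U κ) (t : ℝ) : κ (t + T) = κ t := by
  have hc : (1/2:ℝ) ∈ Ioo (0:ℝ) 1 := ⟨by norm_num, by norm_num⟩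
  obtain ⟨r, rfl⟩ := h.surj_nxt hc t
  have e1 := h.feq' hc r
  have e2 := h.feq' hc (r + T)
  rw [h.nxt_per hc, h.per _ hc, h.curve.L1_per_left, h.curve.L1_per_right] at e2
  linarith

end LSys

end Pool.Agent.MP_ae5b4e_an_RG
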