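import Mathlib
import Pool.Agent.Lib.MP_ae5b4e_an_RG.TMap

/-!
# MP_ae5b4e_an, project REG: LEMMA PER: the steps are small (section 2)

Text: `/team-store/POR_REG.md`.
-/

noncomputable section

namespace Pool.Agent.MP_ae5b4e_an_RG

open Real Set Filter Topology MeasureTheory intervalIntegral
open scoped ContDiff

private theorem perS_cont {T : ℝ} {F : ℝ → ℝ → ℝ} (h : TMap T F) {c : ℝ} (hc : c ∈ Ioo (0:ℝ) 1) :
    Continuous fun t => F c t - t := by
  have h1 : Continuous fun t => F c t := by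
    have := h.cont.comp_continuous (f := fun t : ℝ => ((c, t) : ℝ × ℝ)) (by fun_prop)
      (fun t => ⟨hc, mem_univ _⟩)
    exact this
  exact h1.sub continuous_id

private theorem perS_periodic {T : ℝ} {F : ℝ → ℝ → ℝ} (h : TMap T F) {c : ℝ}
    (hc : c ∈ Ioo (0:ℝ) 1) : Function.Periodic (fun t => F c t - t) T := by
  intro t
  show F c (t + T) - (t + T) = F c t - t
  rw [h.per c hc t]
  ring

private theorem perS_small {T : ℝ} {F : ℝ → ℝ → ℝ} (h : TMap T F) {ε : ℝ} (hε : 0 < ε) :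
    ∃ c ∈ Ioo (0:ℝ) 1, ∀ t, F c t - t ≤ ε := by
  by_contra hcon
  push Not at hcon
  set a : ℕ → ℝ := fun n => 1 / ((n : ℝ) + 2) with ha
  have hmem : ∀ n, a n ∈ Ioo (0:ℝ) 1 := by
    intro n
    have hn : (0:ℝ) ≤ n := Nat.cast_nonneg n
    refine ⟨by simp only [ha]; positivity, ?_⟩
    simp only [ha]
    rw [div_lt_one (by positivity)]
    linarith
  have hdec : ∀ n, a (n + 1) ≤ a n := by
    intro n
    have hn : (0:ℝ) ≤ n := Nat.cast_nonneg n
    simp only [ha]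
    apply one_div_le_one_div_of_le (by positivity)
    push_cast
    linarith
  have hlim : Tendsto a atTop (𝓝[>] 0) := by
    rw [tendsto_nhdsWithin_iff]
    refine ⟨?_, Eventually.of_forall fun n => (hmem n).1⟩
    have h1 : Tendsto (fun n : ℕ => ((n : ℝ) + 2)) atTop atTop :=
      tendsto_atTop_add_const_right _ _ tendsto_natCast_atTop_atTop
    have h2 : Tendsto (fun n : ℕ => ((n : ℝ) + 2)⁻¹) atTop (𝓝 0) := h1.inv_tendsto_atTop
    simpa [ha] using h2
  let K : ℕ → Set ℝ := fun n => Icc 0 T ∩ {t | ε ≤ F (a n) t - t}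
  have hcl : ∀ n, IsClosed {t | ε ≤ F (a n) t - t} := fun n =>
    isClosed_le continuous_const (perS_cont h (hmem n))
  have hne : (⋂ n, K n).Nonempty := by
    refine IsCompact.nonempty_iInter_of_sequence_nonempty_isCompact_isClosed K ?_ ?_ ?_ ?_
    · intro n t ht
      refine ⟨ht.1, ?_⟩
      have h2 : F (a (n + 1)) t ≤ F (a n) t :=
        (h.mono_c t).monotoneOn (hmem (n + 1)) (hmem n) (hdec n)
      have h3 : ε ≤ F (a (n + 1)) t - t := ht.2
      show ε ≤ F (a n) t - t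
      linarith
    · intro n
      obtain ⟨t, ht⟩ := hcon (a n) (hmem n)
      obtain ⟨s, hs, e⟩ := (perS_periodic h (hmem n)).exists_mem_Ico₀ h.T_pos t
      refine ⟨s, ⟨hs.1, hs.2.le⟩, ?_⟩
      show ε ≤ F (a n) s - s
      have e' : F (a n) t - t = F (a n) s - s := e
      linarith
    · exact isCompact_Icc.inter_right (hcl 0)
    · intro n
      exact isClosed_Icc.inter (hcl n)
  obtain ⟨t, ht⟩ := hne
  rw [mem_iInter] at ht
  have h4 : Tendsto (fun n => F (a n) t) atTop (𝓝 t) := (h.lim t).comp hlim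
  have h5 : t + ε ≤ t := by
    refine ge_of_tendsto h4 (Eventually.of_forall fun n => ?_)
    have h6 : ε ≤ F (a n) t - t := (ht n).2
    linarith
  linarith

private theorem perS_big {T : ℝ} {F : ℝ → ℝ → ℝ} (h : TMap T F) {c : ℝ} (hc : c ∈ Ioo (0:ℝ) 1) :
    ∃ δ : ℝ, 0 < δ ∧ ∀ t, δ ≤ F c t - t := by
  obtain ⟨s, hs, hmin⟩ := isCompact_Icc.exists_isMinOn (nonempty_Icc.2 h.T_pos.le)
    (perS_cont h hc).continuousOn
  refine ⟨F c s - s, sub_pos.2 (h.gt c hc s), fun t => ?_⟩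
  obtain ⟨u, hu, e⟩ := (perS_periodic h hc).exists_mem_Ico₀ h.T_pos t
  have e' : F c t - t = F c u - u := e
  rw [e']
  exact hmin (show u ∈ Icc 0 T from ⟨hu.1, hu.2.le⟩)

private theorem perS_orb {T : ℝ} {F : ℝ → ℝ → ℝ} (h : TMap T F) {p q : ℕ} {L : ℝ → ℝ}
    (hL : PLeaf T F p q L) (x : ℝ) : ∃ c ∈ Ioo (0:ℝ) 1, ∀ j : ℕ,
      F c (L (x + j * ((p:ℝ) * T / q))) = L (x + (j + 1 : ℕ) * ((p:ℝ) * T / q)) := by
  obtain ⟨c, hc, h1, h2⟩ := hL.com x
  refine ⟨c, hc, fun j => ?_⟩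
  induction j with
  | zero => simpa using h2
  | succ j ih =>
    obtain ⟨c', hc', h3, h4⟩ := hL.com (x + (j + 1 : ℕ) * ((p:ℝ) * T / q))
    have e1 : x + (j + 1 : ℕ) * ((p:ℝ) * T / q) - (p:ℝ) * T / q = x + j * ((p:ℝ) * T / q) := by
      push_cast
      ring
    have e2 : x + (j + 1 : ℕ) * ((p:ℝ) * T / q) + (p:ℝ) * T / q =
        x + (j + 1 + 1 : ℕ) * ((p:ℝ) * T / q) := by
      push_cast
      ring
    rw [e1] at h3
    rw [e2] at h4
    have e3 : c' = c := (h.mono_c (L (x + j * ((p:ℝ) * T / q)))).injOn hc' hc (h3.trans ih.symm)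
    rw [e3] at h4
    exact h4

private theorem perS_per {T : ℝ} {F : ℝ → ℝ → ℝ} {p q : ℕ} {L : ℝ → ℝ}
    (hL : PLeaf T F p q L) (x : ℝ) (k : ℕ) : L (x + k * T) = L x + k * T := by
  induction k with
  | zero => simp
  | succ k ih =>
    have e : x + (k + 1 : ℕ) * T = x + k * T + T := by
      push_cast
      ring
    rw [e, hL.per, ih]
    push_cast
    ring

/-- LEMMA PER (smallness of the steps) -/
theorem pleaf_small {T : ℝ} {F : ℝ → ℝ → ℝ} (h : TMap T F) {ε : ℝ} (hε : 0 < ε) :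
    ∃ q1 : ℕ, ∀ (p q : ℕ) (L : ℝ → ℝ), PQ p q → q1 ≤ q → PLeaf T F p q L →
      ∀ x, L (x + (p:ℝ) * T / q) - L x ≤ ε := by
  obtain ⟨c1, hc1, hs⟩ := perS_small h hε
  obtain ⟨δ, hδ, hb⟩ := perS_big h hc1
  obtain ⟨q1, hq1⟩ := exists_nat_gt (2 * T / δ)
  refine ⟨q1, fun p q L hpq hq hL x => ?_⟩
  have hT := h.T_pos
  have hqδ : 2 * T < q * δ := by
    have h1 : 2 * T / δ < q := lt_of_lt_of_le hq1 (Nat.cast_le.2 hq)
    rwa [div_lt_iff₀ hδ] at h1
  have hq0 : (0:ℝ) < q := by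
    have : 0 < q := lt_of_lt_of_le (by norm_num) hpq.2.1
    exact_mod_cast this
  have hp2 : (p:ℝ) ≤ 2 := by
    rcases hpq.1 with h1 | h1 <;> rw [h1] <;> norm_num
  obtain ⟨c, hc, horb⟩ := perS_orb h hL x
  have hlt : c < c1 := by
    by_contra hge
    push Not at hge
    have hstep : ∀ j : ℕ, δ ≤ L (x + (j + 1 : ℕ) * ((p:ℝ) * T / q)) -
        L (x + j * ((p:ℝ) * T / q)) := by
      intro j
      rw [← horb j]
      have h1 : F c1 (L (x + j * ((p:ℝ) * T / q))) ≤ F c (L (x + j * ((p:ℝ) * T / q))) :=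
        (h.mono_c _).monotoneOn hc1 hc hge
      have h2 := hb (L (x + j * ((p:ℝ) * T / q)))
      linarith
    have hsum : ∀ n : ℕ, n * δ ≤ L (x + n * ((p:ℝ) * T / q)) - L x := by
      intro n
      induction n with
      | zero => simp
      | succ n ih =>
        have h1 := hstep n
        push_cast at h1 ih ⊢
        linarith
    have h3 := hsum q
    have e : (q:ℝ) * ((p:ℝ) * T / q) = p * T := by
      field_simp
    rw [e, perS_per hL x p] at h3
    have h4 : (p:ℝ) * T ≤ 2 * T := by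
      exact mul_le_mul_of_nonneg_right hp2 hT.le
    linarith
  have h5 := horb 0
  have h6 : F c (L x) = L (x + (p:ℝ) * T / q) := by simpa using h5
  rw [← h6]
  have h7 : F c (L x) ≤ F c1 (L x) := (h.mono_c _).monotoneOn hc hc1 hlt.le
  have h8 := hs (L x)
  linarith

end Pool.Agent.MP_ae5b4e_an_RG
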