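import Mathlib
import Pool.Agent.Lib.MP_ae5b4e_an_RG.LSys
import Pool.Agent.Lib.MP_ae5b4e_an_RG.Per
import Pool.Agent.Lib.MP_ae5b4e_an_RG.PerS

/-!
# MP_ae5b4e_an, project REG: LEMMA MEAN: the integral of kappa vanishes (section 3)

Text: `/team-store/POR_REG.md`.
-/

noncomputable section

namespace Pool.Agent.MP_ae5b4e_an_RG

open Real Set Filter Topology MeasureTheory intervalIntegral
open scoped ContDiff
open Pool.Agent.MP_ae5b4e_an_hopf

private lemma MK_local {B Cf dm dp χ : ℝ} (hB : |χ| ≤ B) (hC : 0 ≤ Cf) (hm : 0 < dm)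
    (hp : 0 < dp) (hm1 : dm ≤ 1) (hp1 : dp ≤ 1)
    (h : |2 / dm - 2 / dp + χ| ≤ Cf * (dm + dp)) :
    |dp - dm| ≤ (B + 2 * Cf) / 2 * (dm * dp) := by
  have h1 : dp - dm = (dm * dp) / 2 * ((2 / dm - 2 / dp + χ) - χ) := by
    field_simp
    ring
  have h2 : |(2 / dm - 2 / dp + χ) - χ| ≤ B + 2 * Cf := by
    have h3 := abs_sub (2 / dm - 2 / dp + χ) χ
    have h4 : Cf * (dm + dp) ≤ Cf * 2 := mul_le_mul_of_nonneg_left (by linarith) hC
    linarith
  have h5 : 0 ≤ dm * dp / 2 := by positivity
  rw [h1, abs_mul, abs_of_nonneg h5]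
  calc dm * dp / 2 * |(2 / dm - 2 / dp + χ) - χ| ≤ dm * dp / 2 * (B + 2 * Cf) :=
        mul_le_mul_of_nonneg_left h2 h5
    _ = _ := by ring

private lemma MK_logle {a b : ℝ} (ha : 0 < a) (hb : 0 < b) :
    Real.log b - Real.log a ≤ (b - a) / a := by
  rw [← Real.log_div hb.ne' ha.ne']
  have h := Real.log_le_sub_one_of_pos (div_pos hb ha)
  have h2 : b / a - 1 = (b - a) / a := by field_simp
  linarith

private lemma MK_log {A dm dp : ℝ} (hm : 0 < dm) (hp : 0 < dp)
    (h : |dp - dm| ≤ A / 2 * (dm * dp)) :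
    |Real.log dp - Real.log dm| ≤ A / 2 * (dm + dp) := by
  have hA : 0 ≤ A := by
    by_contra hA
    push Not at hA
    have : A / 2 * (dm * dp) < 0 := mul_neg_of_neg_of_pos (by linarith) (mul_pos hm hp)
    have := abs_nonneg (dp - dm)
    linarith
  have h1 := MK_logle hm hp
  have h2 := MK_logle hp hm
  obtain ⟨h3, h4⟩ := abs_le.1 h
  have h5 : (dp - dm) / dm ≤ A / 2 * dp := by
    rw [div_le_iff₀ hm]; linarith
  have h6 : (dm - dp) / dp ≤ A / 2 * dm := by
    rw [div_le_iff₀ hp]; linarith
  have h7 : 0 ≤ A / 2 * dm := by positivity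
  have h8 : 0 ≤ A / 2 * dp := by positivity
  rw [abs_le]
  constructor <;> linarith

private lemma MK_fine {B Cf W dm dp χ : ℝ} (hB : |χ| ≤ B) (hC : 0 ≤ Cf) (hm : 0 < dm)
    (hp : 0 < dp) (hmW : dm ≤ W) (hpW : dp ≤ W)
    (hd : |dp - dm| ≤ (B + 2 * Cf) / 2 * (dm * dp))
    (h : |2 / dm - 2 / dp + χ| ≤ Cf * (dm + dp)) :
    |Real.log dp - Real.log dm + χ * dp / 2| ≤ (Cf + (B + 2 * Cf) * B / 4) * W ^ 2 := by
  have hB0 : 0 ≤ B := (abs_nonneg _).trans hB
  have hW : 0 ≤ W := hm.le.trans hmW
  set r := 2 / dm - 2 / dp + χ with hr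
  have h1 : dp - dm = (dm * dp) / 2 * (r - χ) := by
    rw [hr]
    field_simp
    ring
  have hrW : |r| ≤ Cf * (2 * W) := h.trans (mul_le_mul_of_nonneg_left (by linarith) hC)
  have e1 := MK_logle hm hp
  have e2 := MK_logle hp hm
  have f1 : (dp - dm) / dm = dp / 2 * (r - χ) := by
    rw [h1]; field_simp
  have f2 : (dm - dp) / dp = -(dm / 2 * (r - χ)) := by
    have : dm - dp = -((dm * dp) / 2 * (r - χ)) := by linarith
    rw [this]; field_simp
  have g1 : |dp * r / 2| ≤ Cf * W ^ 2 := by
    rw [abs_div, abs_mul, abs_of_pos hp]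
    have : dp * |r| ≤ W * (Cf * (2 * W)) := mul_le_mul hpW hrW (abs_nonneg _) hW
    have h2 : |(2:ℝ)| = 2 := by norm_num
    rw [h2]
    linarith [this]
  have g2 : |dm * r / 2| ≤ Cf * W ^ 2 := by
    rw [abs_div, abs_mul, abs_of_pos hm]
    have : dm * |r| ≤ W * (Cf * (2 * W)) := mul_le_mul hmW hrW (abs_nonneg _) hW
    have h2 : |(2:ℝ)| = 2 := by norm_num
    rw [h2]
    linarith [this]
  have g3 : |χ * (dp - dm) / 2| ≤ (B + 2 * Cf) * B / 4 * W ^ 2 := by
    rw [abs_div, abs_mul]
    have h2 : |(2:ℝ)| = 2 := by norm_num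
    rw [h2]
    have h3 : dm * dp ≤ W * W := mul_le_mul hmW hpW hp.le hW
    have h4 : |dp - dm| ≤ (B + 2 * Cf) / 2 * (W * W) :=
      hd.trans (mul_le_mul_of_nonneg_left h3 (by positivity))
    have h5 : |χ| * |dp - dm| ≤ B * ((B + 2 * Cf) / 2 * (W * W)) :=
      mul_le_mul hB h4 (abs_nonneg _) hB0
    linarith [h5]
  have g4 : 0 ≤ (B + 2 * Cf) * B / 4 * W ^ 2 := by positivity
  have g5 : 0 ≤ Cf * W ^ 2 := by positivity
  obtain ⟨a1, a2⟩ := abs_le.1 g1
  obtain ⟨b1, b2⟩ := abs_le.1 g2
  obtain ⟨c1, c2⟩ := abs_le.1 g3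
  rw [f1] at e1
  rw [f2] at e2
  rw [abs_le]
  constructor
  · have : dm / 2 * (r - χ) ≤ Real.log dp - Real.log dm := by linarith
    nlinarith
  · nlinarith

private lemma MK_orbit {A om : ℝ} {L D : ℝ → ℝ} (hD : ∀ x, D x = L (x + om) - L x)
    (hlog : ∀ x, |Real.log (D (x + om)) - Real.log (D x)| ≤ A / 2 * (D x + D (x + om)))
    (x : ℝ) (n : ℕ) :
    |Real.log (D (x + n * om)) - Real.log (D x)| ≤
      A / 2 * ((L (x + n * om) - L x) + (L (x + n * om + om) - L (x + om))) := by
  induction n with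
  | zero => simp
  | succ n ih =>
    have e : x + ((n + 1 : ℕ) : ℝ) * om = x + n * om + om := by push_cast; ring
    rw [e]
    have h1 := hlog (x + n * om)
    have h2 : Real.log (D (x + n * om + om)) - Real.log (D x) =
        (Real.log (D (x + n * om + om)) - Real.log (D (x + n * om))) +
          (Real.log (D (x + n * om)) - Real.log (D x)) := by ring
    rw [h2]
    refine (abs_add_le _ _).trans ((add_le_add h1 ih).trans (le_of_eq ?_))
    rw [hD (x + n * om), hD (x + n * om + om)]
    ring

private lemma MK_abs {T : ℝ} (hT : 0 < T) {χ : ℝ → ℝ} (hχ : Continuous χ)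
    (hper : ∀ t, χ (t + T) = χ t) {B M Cf : ℝ} (hB : ∀ t, |χ t| ≤ B) (hM : 0 ≤ M)
    (hlip : ∀ s t, |χ s - χ t| ≤ M * |s - t|) (hC : 0 ≤ Cf) :
    ∃ C : ℝ, ∀ (q : ℕ) (L : ℝ → ℝ), 1 ≤ q → Continuous L → StrictMono L →
      (∀ x, L (x + T) = L x + T) → (∀ x, L (x + T / q) - L x ≤ 1) →
      (∀ x, |2 / (L x - L (x - T / q)) - 2 / (L (x + T / q) - L x) + χ (L x)| ≤
        Cf * ((L x - L (x - T / q)) + (L (x + T / q) - L x))) →
      |∫ t in (0:ℝ)..T, χ t| ≤ C * (T / q) := by
  set A := B + 2 * Cf with hA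
  have hB0 : 0 ≤ B := (abs_nonneg _).trans (hB 0)
  have hA0 : 0 ≤ A := by positivity
  set K := Real.exp (A * T) with hK
  set E := Cf + (B + 2 * Cf) * B / 4 with hE
  have hE0 : 0 ≤ E := by positivity
  refine ⟨(2 * T * E + T * M) * K ^ 2, ?_⟩
  intro q L hq cL mL perL small law
  have hq0 : (0:ℝ) < q := by exact_mod_cast hq
  set om := T / (q:ℝ) with hom
  have hom0 : 0 < om := div_pos hT hq0
  have hqom : (q:ℝ) * om = T := by rw [hom]; field_simp
  set D : ℝ → ℝ := fun x => L (x + om) - L x with hDdef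
  have hD : ∀ x, D x = L (x + om) - L x := fun x => rfl
  have Dpos : ∀ x, 0 < D x := fun x => sub_pos.2 (mL (by linarith))
  have cD : Continuous D := (cL.comp (continuous_id.add continuous_const)).sub cL
  have perD : ∀ x, D (x + T) = D x := by
    intro x
    have e : x + T + om = x + om + T := by ring
    rw [hD, hD, e, perL, perL]
    ring
  -- the law at the point x + om
  have law' : ∀ x, |2 / D x - 2 / D (x + om) + χ (L (x + om))| ≤ Cf * (D x + D (x + om)) := by
    intro x
    have h1 := law (x + om)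
    have e : x + om - om = x := by ring
    rw [e] at h1
    exact h1
  have loc : ∀ x, |D (x + om) - D x| ≤ (B + 2 * Cf) / 2 * (D x * D (x + om)) := fun x =>
    MK_local (hB _) hC (Dpos x) (Dpos _) (small x) (small _) (law' x)
  have hlog : ∀ x, |Real.log (D (x + om)) - Real.log (D x)| ≤ A / 2 * (D x + D (x + om)) :=
    fun x => MK_log (Dpos x) (Dpos _) (loc x)
  have orb := MK_orbit hD hlog
  -- all the steps are comparable
  have comp : ∀ x (n : ℕ), n < q → D x ≤ K * D (x + n * om) := by
    intro x n hn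
    have h1 := orb x n
    have hnT : (n:ℝ) * om ≤ T := by
      rw [← hqom]
      exact mul_le_mul_of_nonneg_right (by exact_mod_cast hn.le) hom0.le
    have h2 : L (x + n * om) - L x ≤ T := by
      have := mL.monotone (show x + n * om ≤ x + T by linarith)
      rw [perL] at this
      linarith
    have h3 : L (x + n * om + om) - L (x + om) ≤ T := by
      have := mL.monotone (show x + n * om + om ≤ x + om + T by linarith)
      rw [perL] at this
      linarith
    have h4 : A / 2 * ((L (x + n * om) - L x) + (L (x + n * om + om) - L (x + om))) ≤ A * T := by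
      have : A / 2 * ((L (x + n * om) - L x) + (L (x + n * om + om) - L (x + om))) ≤ A / 2 * (T + T) :=
        mul_le_mul_of_nonneg_left (by linarith) (by positivity)
      linarith
    have h5 : Real.log (D x) ≤ A * T + Real.log (D (x + n * om)) := by
      have := (abs_le.1 (h1.trans h4)).1
      linarith
    have h6 : D x ≤ Real.exp (A * T + Real.log (D (x + n * om))) := by
      rw [← Real.log_le_iff_le_exp (Dpos x)]
      exact h5
    rwa [Real.exp_add, Real.exp_log (Dpos _)] at h6
  have hKpos : 0 < K := Real.exp_pos _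
  have bdD : ∀ x, D x ≤ K * om := by
    intro x
    have h1 : ∑ n ∈ Finset.range q, D x ≤ ∑ n ∈ Finset.range q, K * D (x + n * om) :=
      Finset.sum_le_sum fun n hn => comp x n (Finset.mem_range.1 hn)
    rw [Finset.sum_const, Finset.card_range, nsmul_eq_mul, ← Finset.mul_sum] at h1
    have h2 : ∑ n ∈ Finset.range q, D (x + n * om) = T := by
      have h3 : ∀ n ∈ Finset.range q, D (x + n * om) =
          (fun m : ℕ => L (x + m * om)) (n + 1) - (fun m : ℕ => L (x + m * om)) n := by
        intro n _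
        simp only [hD]
        congr 2
        push_cast
        ring
      rw [Finset.sum_congr rfl h3, Finset.sum_range_sub (fun m : ℕ => L (x + m * om)) q]
      simp only [Nat.cast_zero, zero_mul, add_zero, hqom, perL]
      ring
    rw [h2] at h1
    have h4 : D x = (q * D x) / q := by field_simp
    rw [h4, hom]
    rw [div_le_iff₀ hq0]
    calc (q:ℝ) * D x ≤ K * T := h1
      _ = K * (T / q) * q := by field_simp
  set W := K * om with hW
  have hW0 : 0 ≤ W := by positivity
  have fine : ∀ x, |Real.log (D (x + om)) - Real.log (D x) + χ (L (x + om)) * D (x + om) / 2| ≤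
      E * W ^ 2 := fun x =>
    MK_fine (hB _) hC (Dpos x) (Dpos _) (bdD x) (bdD _) (loc x) (law' x)
  -- integration
  have clog : Continuous fun x => Real.log (D x) := cD.log fun x => (Dpos x).ne'
  have cshift : ∀ {f : ℝ → ℝ}, Continuous f → Continuous fun x => f (x + om) := fun hf =>
    hf.comp (continuous_id.add continuous_const)
  have ii : ∀ {f : ℝ → ℝ}, Continuous f → ∀ a b : ℝ, IntervalIntegrable f volume a b :=
    fun hf a b => hf.intervalIntegrable a b
  have shift : ∀ {f : ℝ → ℝ}, Continuous f → (∀ x, f (x + T) = f x) →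
      ∫ x in (0:ℝ)..T, f (x + om) = ∫ x in (0:ℝ)..T, f x := by
    intro f hf hfp
    rw [intervalIntegral.integral_comp_add_right]
    have h1 := Function.Periodic.intervalIntegral_add_eq (f := f) (T := T) hfp (0 + om) 0
    have e : 0 + om + T = T + om := by ring
    rw [e] at h1
    rw [h1]
    congr 1
    ring
  set g : ℝ → ℝ := fun x => χ (L x) * D x with hg
  have cg : Continuous g := (hχ.comp cL).mul cD
  have pg : ∀ x, g (x + T) = g x := by
    intro x
    simp only [hg, perL, hper, perD]
  have int1 : |∫ x in (0:ℝ)..T, g x| ≤ 2 * T * E * W ^ 2 := by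
    have h1 : ∫ x in (0:ℝ)..T, (Real.log (D (x + om)) - Real.log (D x) +
        χ (L (x + om)) * D (x + om) / 2) = (∫ x in (0:ℝ)..T, g x) / 2 := by
      have c1 : Continuous fun x => Real.log (D (x + om)) - Real.log (D x) :=
        (cshift clog).sub clog
      have c2 : Continuous fun x => χ (L (x + om)) * D (x + om) / 2 :=
        (cshift cg).div_const 2
      have c3 : Continuous fun x => Real.log (D (x + om)) := cshift clog
      rw [intervalIntegral.integral_add (ii c1 _ _) (ii c2 _ _),
        intervalIntegral.integral_sub (ii c3 _ _) (ii clog _ _),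
        intervalIntegral.integral_div]
      rw [shift clog (fun x => by rw [perD]), sub_self, zero_add]
      have h2 := shift cg pg
      simp only [hg] at h2 ⊢
      rw [h2]
    have h2 : ‖∫ x in (0:ℝ)..T, (Real.log (D (x + om)) - Real.log (D x) +
        χ (L (x + om)) * D (x + om) / 2)‖ ≤ E * W ^ 2 * |T - 0| :=
      intervalIntegral.norm_integral_le_of_norm_le_const fun x _ => fine x
    rw [h1, sub_zero, abs_of_pos hT, Real.norm_eq_abs, abs_div] at h2
    have h3 : |(2:ℝ)| = 2 := by norm_num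
    rw [h3] at h2
    linarith
  -- primitive of χ
  set X : ℝ → ℝ := fun t => ∫ s in (0:ℝ)..t, χ s with hX
  have cX : Continuous X :=
    intervalIntegral.continuous_primitive (fun a b => ii hχ a b) 0
  have Xstep : ∀ a b, a ≤ b → |X b - X a - χ a * (b - a)| ≤ M * (b - a) ^ 2 := by
    intro a b hab
    have h1 : X b - X a = ∫ s in a..b, χ s := by
      simp only [hX]
      exact intervalIntegral.integral_interval_sub_left (ii hχ _ _) (ii hχ _ _)
    have h2 : X b - X a - χ a * (b - a) = ∫ s in a..b, (χ s - χ a) := by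
      rw [h1, intervalIntegral.integral_sub (ii hχ _ _) (ii continuous_const _ _),
        intervalIntegral.integral_const, smul_eq_mul]
      ring
    rw [h2]
    have h3 : ‖∫ s in a..b, (χ s - χ a)‖ ≤ M * (b - a) * |b - a| := by
      refine intervalIntegral.norm_integral_le_of_norm_le_const fun s hs => ?_
      rw [uIoc_of_le hab] at hs
      refine (hlip s a).trans (mul_le_mul_of_nonneg_left ?_ hM)
      rw [abs_of_pos (by linarith [hs.1])]
      linarith [hs.2]
    rw [Real.norm_eq_abs, abs_of_nonneg (sub_nonneg.2 hab)] at h3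
    calc _ ≤ _ := h3
      _ = _ := by ring
  have XT : ∀ t, X (t + T) = X t + X T := by
    intro t
    have h1 : X (t + T) - X t = ∫ s in t..(t + T), χ s := by
      simp only [hX]
      exact intervalIntegral.integral_interval_sub_left (ii hχ _ _) (ii hχ _ _)
    have h2 := Function.Periodic.intervalIntegral_add_eq (f := χ) (T := T) hper t 0
    rw [zero_add] at h2
    rw [h2] at h1
    have : X T = ∫ s in (0:ℝ)..T, χ s := rfl
    linarith
  set Y : ℝ → ℝ := fun x => X (L x) with hY
  have cY : Continuous Y := cX.comp cL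
  have YT : ∀ x, Y (x + T) = Y x + X T := by
    intro x
    simp only [hY, perL, XT]
  have int2 : ∫ x in (0:ℝ)..T, (Y (x + om) - Y x) = om * X T := by
    rw [intervalIntegral.integral_sub (ii (cshift cY) _ _) (ii cY _ _),
      intervalIntegral.integral_comp_add_right, zero_add]
    have h1 : ∫ x in om..(T + om), Y x = (∫ x in (0:ℝ)..T, Y x) - (∫ x in (0:ℝ)..om, Y x) +
        ∫ x in T..(T + om), Y x := by
      have e1 := intervalIntegral.integral_add_adjacent_intervals (ii cY 0 om) (ii cY om (T + om))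
      have e2 := intervalIntegral.integral_add_adjacent_intervals (ii cY 0 T) (ii cY T (T + om))
      linarith
    have h2 : ∫ x in T..(T + om), Y x = ∫ x in (0:ℝ)..om, Y (x + T) := by
      rw [intervalIntegral.integral_comp_add_right, zero_add, add_comm]
    have h3 : ∫ x in (0:ℝ)..om, Y (x + T) = (∫ x in (0:ℝ)..om, Y x) + om * X T := by
      simp only [YT]
      rw [intervalIntegral.integral_add (ii cY _ _) (ii continuous_const _ _),
        intervalIntegral.integral_const, smul_eq_mul, sub_zero]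
    rw [h1, h2, h3]
    ring
  have int3 : |∫ x in (0:ℝ)..T, (Y (x + om) - Y x - g x)| ≤ T * M * W ^ 2 := by
    have h2 : ‖∫ x in (0:ℝ)..T, (Y (x + om) - Y x - g x)‖ ≤ M * W ^ 2 * |T - 0| := by
      refine intervalIntegral.norm_integral_le_of_norm_le_const fun x _ => ?_
      have h3 := Xstep (L x) (L (x + om)) (mL.monotone (by linarith))
      refine h3.trans (mul_le_mul_of_nonneg_left ?_ hM)
      exact pow_le_pow_left₀ (Dpos x).le (bdD x) 2
    rw [sub_zero, abs_of_pos hT, Real.norm_eq_abs] at h2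
    calc _ ≤ _ := h2
      _ = _ := by ring
  have cYY : Continuous fun x => Y (x + om) - Y x := (cshift cY).sub cY
  rw [intervalIntegral.integral_sub (ii cYY _ _) (ii cg _ _), int2] at int3
  have fin1 : |om * X T| ≤ (2 * T * E + T * M) * W ^ 2 := by
    have h1 := abs_add_le (om * X T - ∫ x in (0:ℝ)..T, g x) (∫ x in (0:ℝ)..T, g x)
    rw [sub_add_cancel] at h1
    calc _ ≤ _ := h1
      _ ≤ T * M * W ^ 2 + 2 * T * E * W ^ 2 := add_le_add int3 int1
      _ = _ := by ring
  rw [abs_mul, abs_of_pos hom0] at fin1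
  have fin2 : om * |X T| ≤ om * ((2 * T * E + T * M) * K ^ 2 * om) := by
    calc om * |X T| ≤ _ := fin1
      _ = _ := by rw [hW]; ring
  exact le_of_mul_le_mul_left fin2 hom0

/-- LEMMA MEAN -/
theorem LSys.mean_zero {T : ℝ} {Γ : ℝ → Fin 3 → ℝ} {U : ℝ → ℝ → ℝ} {κ : ℝ → ℝ}
    (h : LSys T Γ U κ) : ∫ t in (0:ℝ)..T, κ t = 0 := by
  have hT : 0 < T := h.curve.T_pos
  have hWs : ContDiff ℝ ∞ (deriv (Wr Γ)) := (contDiff_infty_iff_deriv.1 h.curve.contDiff_Wr).2
  have hWp : ∀ y, deriv (Wr Γ) (y + T) = deriv (Wr Γ) y := by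
    intro y
    have h1 : (fun s => Wr Γ (s + T)) = Wr Γ := funext h.curve.Wr_per
    have h2 := congrFun (congrArg deriv h1) y
    rwa [deriv_comp_add_const] at h2
  have hq : ContDiff ℝ ∞ fun y => deriv (Wr Γ) y / Wr Γ y / 3 :=
    (hWs.div h.curve.contDiff_Wr fun y => (h.curve.Wr_pos y).ne').div_const 3
  set χ : ℝ → ℝ := fun t => κ t + 2 * (deriv (Wr Γ) t / Wr Γ t / 3) with hχdef
  have hχs : ContDiff ℝ ∞ χ := h.smooth_κ.add (contDiff_const.mul hq)
  have hχp : Function.Periodic χ T := by
    intro t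
    simp only [hχdef, h.κ_per, hWp, h.curve.Wr_per]
  have hχc : Continuous χ := hχs.continuous
  obtain ⟨B, hB⟩ : ∃ B, ∀ t, |χ t| ≤ B := by
    obtain ⟨B, hB⟩ := (hχp.isBounded_of_continuous hT.ne' hχc).exists_norm_le
    exact ⟨B, fun t => hB _ ⟨t, rfl⟩⟩
  obtain ⟨M, hM⟩ : ∃ M, ∀ t, |deriv χ t| ≤ M := by
    have h1 : Function.Periodic (deriv χ) T := by
      intro t
      have h1 : (fun s => χ (s + T)) = χ := funext hχp
      have h2 := congrFun (congrArg deriv h1) t
      rwa [deriv_comp_add_const] at h2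
    have h2 : Continuous (deriv χ) := (contDiff_infty_iff_deriv.1 hχs).2.continuous
    obtain ⟨B, hB⟩ := (h1.isBounded_of_continuous hT.ne' h2).exists_norm_le
    exact ⟨B, fun t => hB _ ⟨t, rfl⟩⟩
  have hM0 : 0 ≤ M := (abs_nonneg _).trans (hM 0)
  have hlip : ∀ s t, |χ s - χ t| ≤ M * |s - t| := by
    intro s t
    have := Convex.norm_image_sub_le_of_norm_deriv_le (f := χ) (C := M) (s := univ)
      (x := t) (y := s) (fun x _ => (hχs.differentiable (by simp)) x)
      (fun x _ => hM x) convex_univ (mem_univ _) (mem_univ _)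
    simpa [Real.norm_eq_abs] using this
  obtain ⟨Cf, hC0, hC⟩ := h.curve.nice_el.P1.lip hT
  obtain ⟨C, hCC⟩ := MK_abs hT hχc hχp hB hM0 hlip hC0
  -- the integral of χ is zero
  have key : ∫ t in (0:ℝ)..T, χ t = 0 := by
    obtain ⟨q0, hq0⟩ := exists_pleaf h.tmap
    obtain ⟨q1, hq1⟩ := pleaf_small h.tmap (ε := min (T / 2) 1) (by positivity)
    have bound : ∀ q : ℕ, max (max q0 q1) 2 ≤ q → |∫ t in (0:ℝ)..T, χ t| ≤ C * (T / q) := by
      intro q hq
      have a0 : q0 ≤ q := le_trans (le_trans (le_max_left _ _) (le_max_left _ _)) hq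
      have a1 : q1 ≤ q := le_trans (le_trans (le_max_right _ _) (le_max_left _ _)) hq
      have a2 : 2 ≤ q := le_trans (le_max_right _ _) hq
      have hPQ : PQ 1 q := ⟨Or.inl rfl, a2, Nat.coprime_one_left q⟩
      obtain ⟨L, hL⟩ := hq0 1 q hPQ a0
      have sm := hq1 1 q L hPQ a1 hL
      have e : ((1:ℕ):ℝ) * T / q = T / q := by push_cast; ring
      rw [e] at sm
      have hcom := hL.com
      rw [e] at hcom
      have hqr : (0:ℝ) < q := by exact_mod_cast (by omega : 0 < q)
      have hom : 0 < T / q := div_pos hT hqr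
      refine hCC q L (by omega) hL.cont hL.mono hL.per
        (fun x => (sm x).trans (min_le_right _ _)) ?_
      intro x
      obtain ⟨c, hc, h1, h2⟩ := hcom x
      have dm : L (x - T / q) < L x := hL.mono (by linarith)
      have dp : L x < L (x + T / q) := hL.mono (by linarith)
      have dms : L x - L (x - T / q) ≤ T / 2 := by
        have := (sm (x - T / q)).trans (min_le_left _ _)
        rwa [sub_add_cancel] at this
      have dps : L (x + T / q) - L x ≤ T / 2 := (sm x).trans (min_le_left _ _)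
      have law := h.law hc (L (x - T / q))
      rw [h1, h2] at law
      rw [h.curve.L1_eq dp.ne (by rw [abs_lt]; constructor <;> linarith),
        h.curve.L1_eq dm.ne' (by rw [abs_lt]; constructor <;> linarith)] at law
      have l1 := hC (L x, L (x + T / q)) (L x, L x)
        (by rw [abs_le]; constructor <;> simp only <;> linarith) (by simp; positivity)
      have l2 := hC (L x, L (x - T / q)) (L x, L x)
        (by rw [abs_le]; constructor <;> simp only <;> linarith) (by simp; positivity)
      have n1 : ‖((L x, L (x + T / q)) : ℝ × ℝ) - (L x, L x)‖ = L (x + T / q) - L x := by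
        rw [Prod.mk_sub_mk, Prod.norm_mk, sub_self, norm_zero, Real.norm_eq_abs,
          abs_of_pos (sub_pos.2 dp)]
        exact max_eq_right (by linarith)
      have n2 : ‖((L x, L (x - T / q)) : ℝ × ℝ) - (L x, L x)‖ = L x - L (x - T / q) := by
        rw [Prod.mk_sub_mk, Prod.norm_mk, sub_self, norm_zero, Real.norm_eq_abs,
          abs_of_neg (sub_neg.2 dm)]
        rw [max_eq_right (by linarith)]
        ring
      rw [n1] at l1
      rw [n2] at l2
      have hel := h.curve.el_P1 (L x)
      have e1 : 2 / (L x - L (x + T / q)) = -(2 / (L (x + T / q) - L x)) := by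
        rw [← neg_sub (L (x + T / q)) (L x), div_neg]
      rw [e1] at law
      have e2 : 2 / (L x - L (x - T / q)) - 2 / (L (x + T / q) - L x) + χ (L x) =
          -((P1 (el Γ) (L x, L (x + T / q)) - P1 (el Γ) (L x, L x)) +
            (P1 (el Γ) (L x, L (x - T / q)) - P1 (el Γ) (L x, L x))) := by
        simp only [hχdef]
        rw [← hel]
        linarith
      rw [e2, abs_neg]
      refine (abs_add_le _ _).trans ((add_le_add l1 l2).trans (le_of_eq ?_))
      ring
    -- limit
    have hlim : Tendsto (fun q : ℕ => C * (T / q)) atTop (𝓝 0) := by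
      have := (tendsto_const_div_atTop_nhds_zero_nat T).const_mul C
      simpa using this
    have h1 : |∫ t in (0:ℝ)..T, χ t| ≤ 0 :=
      ge_of_tendsto hlim (by
        filter_upwards [eventually_ge_atTop (max (max q0 q1) 2)] with q hq
        exact bound q hq)
    exact abs_nonpos_iff.1 h1
  -- the integral of the logarithmic derivative is zero
  have key2 : ∫ t in (0:ℝ)..T, (deriv (Wr Γ) t / Wr Γ t / 3) = 0 := by
    have hd : ∀ t ∈ uIcc 0 T, HasDerivAt (fun t => Real.log (Wr Γ t) / 3)
        (deriv (Wr Γ) t / Wr Γ t / 3) t := by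
      intro t _
      exact ((h.curve.hasDerivAt_Wr t).log (h.curve.Wr_pos t).ne').div_const 3
    rw [intervalIntegral.integral_eq_sub_of_hasDerivAt hd (hq.continuous.intervalIntegrable _ _)]
    have : Wr Γ T = Wr Γ 0 := by simpa using h.curve.Wr_per 0
    rw [this, sub_self]
  have key3 : ∫ t in (0:ℝ)..T, χ t = (∫ t in (0:ℝ)..T, κ t) +
      2 * ∫ t in (0:ℝ)..T, (deriv (Wr Γ) t / Wr Γ t / 3) := by
    have cc : Continuous fun t => 2 * (deriv (Wr Γ) t / Wr Γ t / 3) :=
      continuous_const.mul hq.continuous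
    simp only [hχdef]
    rw [intervalIntegral.integral_add (h.smooth_κ.continuous.intervalIntegrable _ _)
      (cc.intervalIntegrable _ _), intervalIntegral.integral_const_mul]
  rw [key, key2] at key3
  linarith

end Pool.Agent.MP_ae5b4e_an_RG
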