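import Mathlib
import Pool.Agent.Lib.MP_ae5b4e_an_RG.MeanK

/-!
# MP_ae5b4e_an, project REG: the normal form (section 3)

Text: `/team-store/POR_REG.md`.
-/

noncomputable section

namespace Pool.Agent.MP_ae5b4e_an_RG

open Real Set Filter Topology MeasureTheory intervalIntegral
open scoped ContDiff
open Pool.Agent.MP_ae5b4e_an_hopf

/-- NORMAL FORM: period one, `κ = 0`, Wronskian one. -/
theorem LSys.normalize {T : ℝ} {Γ : ℝ → Fin 3 → ℝ} {U : ℝ → ℝ → ℝ} {κ : ℝ → ℝ}
    (h : LSys T Γ U κ) :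
    ∃ (σ lam : ℝ → ℝ) (U' : ℝ → ℝ → ℝ), ContDiff ℝ ∞ σ ∧ (∀ x, 0 < deriv σ x) ∧
      (∀ x, σ (x + 1) = σ x + T) ∧ ContDiff ℝ ∞ lam ∧ (∀ x, 0 < lam x) ∧
      (∀ x, deriv lam x = lam x * (κ (σ x) / 2) * deriv σ x) ∧
      LSys 1 (fun x => lam x • Γ (σ x)) U' (fun _ => 0) ∧
      ∀ x, Wr (fun x => lam x • Γ (σ x)) x = 1 := by
  have hT := h.curve.T_pos
  have hC := h.curve
  have hκs := h.smooth_κ
  have hκd : ∀ t, HasDerivAt κ (deriv κ t) t := fun t =>
    (hκs.differentiable (by simp) t).hasDerivAt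
  -- the scaling factor
  obtain ⟨hFs, hFd⟩ := contDiff_prim (hκs.div_const 2)
  set F : ℝ → ℝ := fun t => ∫ x in (0)..t, κ x / 2 with hF
  set f0 : ℝ → ℝ := fun t => exp (F t) with hf
  have hf0s : ContDiff ℝ ∞ f0 := hFs.exp
  have hf00 : ∀ t, 0 < f0 t := fun t => exp_pos _
  have hf0d : ∀ t, HasDerivAt f0 (f0 t * (κ t / 2)) t := fun t => (hFd t).exp
  have hint0 : ∫ x in (0)..T, κ x / 2 = 0 := by
    rw [intervalIntegral.integral_div, h.mean_zero]
    simp
  have hf0p : ∀ t, f0 (t + T) = f0 t := by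
    intro t
    simp only [hf, hF]
    rw [prim_per (hκs.div_const 2).continuous (fun t => by simp only [h.κ_per]) t, hint0, add_zero]
  -- the speed
  set m0 : ℝ → ℝ := fun t => f0 t * Wr Γ t ^ ((1:ℝ) / 3) with hm
  have hm00 : ∀ t, 0 < m0 t := fun t => mul_pos (hf00 t) (rpow_pos_of_pos (hC.Wr_pos t) _)
  have hm0s : ContDiff ℝ ∞ m0 :=
    hf0s.mul (hC.contDiff_Wr.rpow_const_of_ne fun t => (hC.Wr_pos t).ne')
  have hm0p : ∀ t, m0 (t + T) = m0 t := by
    intro t
    simp only [hm, hf0p, hC.Wr_per]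
  have hm03 : ∀ t, m0 t ^ 3 = f0 t ^ 3 * Wr Γ t := by
    intro t
    simp only [hm]
    rw [mul_pow, ← rpow_natCast (Wr Γ t ^ ((1:ℝ) / 3)) 3, ← rpow_mul (hC.Wr_pos t).le]
    norm_num
  obtain ⟨τ, σ0, S, hS0, hσ0s, hτd, hσ0d, e1, e2, hτm, hσ0m, hτp, hσ0p⟩ :=
    exists_param hT hm0s hm00 hm0p
  -- normalization by the length
  obtain ⟨f, hfe⟩ : ∃ f : ℝ → ℝ, ∀ t, f t = f0 t / S := ⟨fun t => f0 t / S, fun t => rfl⟩
  obtain ⟨m, hme⟩ : ∃ m : ℝ → ℝ, ∀ t, m t = m0 t / S := ⟨fun t => m0 t / S, fun t => rfl⟩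
  obtain ⟨σ, hσe⟩ : ∃ σ : ℝ → ℝ, ∀ x, σ x = σ0 (S * x) := ⟨fun x => σ0 (S * x), fun x => rfl⟩
  have hf0 : ∀ t, 0 < f t := fun t => by rw [hfe]; exact div_pos (hf00 t) hS0
  have hm0 : ∀ t, 0 < m t := fun t => by rw [hme]; exact div_pos (hm00 t) hS0
  have hfs : ContDiff ℝ ∞ f := by
    rw [show f = fun t => f0 t / S from funext hfe]
    exact hf0s.div_const S
  have hms : ContDiff ℝ ∞ m := by
    rw [show m = fun t => m0 t / S from funext hme]
    exact hm0s.div_const S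
  have hfd : ∀ t, HasDerivAt f (f t * (κ t / 2)) t := by
    intro t
    rw [show f = fun t => f0 t / S from funext hfe]
    refine ((hf0d t).div_const S).congr_deriv ?_
    ring
  have hfp : ∀ t, f (t + T) = f t := fun t => by rw [hfe, hfe, hf0p]
  have hmp : ∀ t, m (t + T) = m t := fun t => by rw [hme, hme, hm0p]
  have hm3 : ∀ t, m t ^ 3 = f t ^ 3 * Wr Γ t := by
    intro t
    rw [hme, hfe, div_pow, div_pow, hm03]
    ring
  have hσs : ContDiff ℝ ∞ σ := by
    rw [show σ = fun x => σ0 (S * x) from funext hσe]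
    exact hσ0s.comp (contDiff_const.mul contDiff_id)
  have hσd : ∀ x, HasDerivAt σ (1 / m (σ x)) x := by
    intro x
    have k1 : HasDerivAt (fun x : ℝ => S * x) S x := by
      simpa using (hasDerivAt_id x).const_mul S
    have k2 := (hσ0d (S * x)).comp x k1
    rw [show σ = σ0 ∘ fun x => S * x from funext hσe]
    refine k2.congr_deriv ?_
    show 1 / m0 (σ0 (S * x)) * S = 1 / m (σ0 (S * x))
    rw [hme]
    have a1 := (hm00 (σ0 (S * x))).ne'
    have a2 := hS0.ne'
    field_simp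
  have hσm : StrictMono σ := by
    intro x y hxy
    rw [hσe, hσe]
    exact hσ0m (mul_lt_mul_of_pos_left hxy hS0)
  have hσp : ∀ x, σ (x + 1) = σ x + T := by
    intro x
    rw [hσe, hσe, mul_add, mul_one, hσ0p]
  -- derivatives of the new curve
  set G : ℝ → Fin 3 → ℝ := fun x => f (σ x) • Γ (σ x) with hG
  have hGd : ∀ x, HasDerivAt G
      ((f (σ x) / m (σ x)) • ((κ (σ x) / 2) • Γ (σ x) + deriv Γ (σ x))) x := by
    intro x
    have k1 := (hfd (σ x)).comp x (hσd x)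
    have k2 := (hC.hd0 (σ x)).scomp x (hσd x)
    refine (k1.smul k2).congr_deriv ?_
    funext i
    simp only [Function.comp, Pi.add_apply, Pi.smul_apply, smul_eq_mul]
    ring
  have hdG : deriv G = fun x => (f (σ x) / m (σ x)) • ((κ (σ x) / 2) • Γ (σ x) + deriv Γ (σ x)) :=
    funext fun x => (hGd x).deriv
  -- second derivative
  have hβs : ContDiff ℝ ∞ fun t => f t / m t := hfs.div hms fun t => (hm0 t).ne'
  have hβd : ∀ t, HasDerivAt (fun t => f t / m t) (deriv (fun t => f t / m t) t) t := fun t =>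
    (hβs.differentiable (by simp) t).hasDerivAt
  have hGdd : ∀ x, HasDerivAt (deriv G)
      ((deriv (fun t => f t / m t) (σ x) / m (σ x)) • ((κ (σ x) / 2) • Γ (σ x) + deriv Γ (σ x)) +
        (f (σ x) / m (σ x) / m (σ x)) • ((deriv κ (σ x) / 2) • Γ (σ x) +
          (κ (σ x) / 2) • deriv Γ (σ x) + deriv (deriv Γ) (σ x))) x := by
    intro x
    rw [hdG]
    have k1 := (hβd (σ x)).comp x (hσd x)
    have k2 := (((hκd (σ x)).div_const 2)).comp x (hσd x)
    have k3 := (hC.hd0 (σ x)).scomp x (hσd x)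
    have k4 := (hC.hd1 (σ x)).scomp x (hσd x)
    have k5 := k1.smul ((k2.smul k3).add k4)
    refine k5.congr_deriv ?_
    show (f (σ x) / m (σ x)) • ((κ (σ x) / 2) • (1 / m (σ x)) • deriv Γ (σ x) +
          (deriv κ (σ x) / 2 * (1 / m (σ x))) • Γ (σ x) +
          (1 / m (σ x)) • deriv (deriv Γ) (σ x)) +
      (deriv (fun t => f t / m t) (σ x) * (1 / m (σ x))) •
        ((κ (σ x) / 2) • Γ (σ x) + deriv Γ (σ x)) = _
    funext i
    simp only [Pi.add_apply, Pi.smul_apply, smul_eq_mul]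
    ring
  have hddG : ∀ x, deriv (deriv G) x = (deriv (fun t => f t / m t) (σ x) / m (σ x)) •
        ((κ (σ x) / 2) • Γ (σ x) + deriv Γ (σ x)) +
        (f (σ x) / m (σ x) / m (σ x)) • ((deriv κ (σ x) / 2) • Γ (σ x) +
          (κ (σ x) / 2) • deriv Γ (σ x) + deriv (deriv Γ) (σ x)) := fun x => (hGdd x).deriv
  have hWr : ∀ x, Wr G x = 1 := by
    intro x
    unfold Wr
    rw [hddG x, hdG]
    show det3 (f (σ x) • Γ (σ x)) _ _ = 1
    rw [det3_lin2]
    have k := hm3 (σ x)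
    have k0 : det3 (Γ (σ x)) (deriv Γ (σ x)) (deriv (deriv Γ) (σ x)) = Wr Γ (σ x) := rfl
    have hn := (hm0 (σ x)).ne'
    rw [k0]
    field_simp
    linarith
  have hdd : ∀ x y, dd G x y = f (σ x) * f (σ y) * (f (σ y) / m (σ y)) * dd Γ (σ x) (σ y) := by
    intro x y
    unfold dd
    rw [hdG]
    exact det3_lin _ _ _ _ _ _ _
  have hlt : ∀ x y, x < y → y < x + 1 → σ x < σ y ∧ σ y < σ x + T := by
    intro x y h1 h2
    refine ⟨hσm h1, ?_⟩
    rw [← hσp]
    exact hσm h2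
  have hGs : ContDiff ℝ ∞ G := (hfs.comp hσs).smul (hC.smooth.comp hσs)
  have hcurve : Curve 1 G :=
    { T_pos := one_pos
      smooth := hGs
      per := fun x => by simp only [hG, hσp, hfp, hC.per]
      pos := fun x y h1 h2 => by
        obtain ⟨k1, k2⟩ := hlt x y h1 h2
        rw [hdd]
        have a1 := hf0 (σ x)
        have a2 := hf0 (σ y)
        have a3 := hm0 (σ y)
        have a4 := hC.dd_pos_right k1 k2
        positivity
      Wr_pos := fun x => by rw [hWr]; exact one_pos }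
  -- the logarithmic derivative
  have hL1 : ∀ x y, dd Γ (σ x) (σ y) ≠ 0 → L1 G x y = (κ (σ x) / 2 + L1 Γ (σ x) (σ y)) / m (σ x) := by
    intro x y hn
    have a1 := (hf0 (σ x)).ne'
    have a2 := (hf0 (σ y)).ne'
    have a3 := (hm0 (σ y)).ne'
    have a4 := (hm0 (σ x)).ne'
    have hddx : ddx G x y = (f (σ x) / m (σ x)) * (f (σ y)) * (f (σ y) / m (σ y)) *
        ((κ (σ x) / 2) * dd Γ (σ x) (σ y) + ddx Γ (σ x) (σ y)) := by
      unfold ddx dd
      rw [hdG]
      simp only [hG]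
      unfold det3
      simp only [Pi.smul_apply, Pi.add_apply, smul_eq_mul]
      ring
    unfold L1
    rw [hddx, hdd]
    field_simp
  refine ⟨σ, fun x => f (σ x), fun c x => (U c (σ x) - κ (σ x) / 2) / m (σ x), hσs, ?_, hσp,
    hfs.comp hσs, fun x => hf0 _, ?_, ?_, hWr⟩
  · intro x
    rw [(hσd x).deriv]
    exact div_pos one_pos (hm0 _)
  · intro x
    have k1 := (hfd (σ x)).comp x (hσd x)
    have k2 : deriv (fun x => f (σ x)) x = f (σ x) * (κ (σ x) / 2) * (1 / m (σ x)) := k1.deriv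
    rw [k2, (hσd x).deriv]
  · refine ⟨hcurve, ?_, ?_, ?_, ?_, contDiff_const, ?_⟩
    · -- continuity
      have k1 : ContinuousOn (fun q : ℝ × ℝ => U q.1 (σ q.2)) (Ioo 0 1 ×ˢ univ) := by
        refine h.cont.comp (f := fun q : ℝ × ℝ => (q.1, σ q.2))
          (continuous_fst.prodMk (hσs.continuous.comp continuous_snd)).continuousOn ?_
        rintro q ⟨hq, -⟩
        exact ⟨hq, mem_univ _⟩
      have k2 : Continuous (fun q : ℝ × ℝ => κ (σ q.2) / 2) :=
        (hκs.continuous.comp (hσs.continuous.comp continuous_snd)).div_const 2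
      have k3 : Continuous (fun q : ℝ × ℝ => m (σ q.2)) :=
        hms.continuous.comp (hσs.continuous.comp continuous_snd)
      exact (k1.sub k2.continuousOn).div k3.continuousOn fun q _ => (hm0 _).ne'
    · intro c hc x
      simp only [hσp, hmp, h.κ_per, h.per c hc]
    · intro x c hc c' hc' hcc
      have k1 := h.anti (σ x) hc hc' hcc
      show (U c' (σ x) - κ (σ x) / 2) / m (σ x) < (U c (σ x) - κ (σ x) / 2) / m (σ x)
      have k2 : U c' (σ x) < U c (σ x) := k1
      exact div_lt_div_of_pos_right (by linarith) (hm0 _)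
    · intro x
      refine Tendsto.atTop_div_const (hm0 _) ?_
      exact tendsto_atTop_add_const_right _ (-(κ (σ x) / 2)) (h.lim0 (σ x))
    · intro c hc x y h1 h2 h3
      obtain ⟨k1, k2⟩ := hlt x y h1 h2
      have n1 := (hC.dd_pos_right k1 k2).ne'
      have n2 := (hC.dd_pos_left k1 k2).ne'
      have h3' : L1 G x y = -((U c (σ x) - κ (σ x) / 2) / m (σ x)) := h3
      rw [hL1 x y n1, ← neg_div] at h3'
      have a1 := (hm0 (σ x)).ne'
      have a2 := (hm0 (σ y)).ne'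
      have h4 : L1 Γ (σ x) (σ y) = -(U c (σ x)) := by
        have := (div_left_inj' a1).1 h3'
        linarith
      have h5 := h.feq c hc (σ x) (σ y) k1 k2 h4
      show (U c (σ y) - κ (σ y) / 2) / m (σ y) = 0 + L1 G y x
      rw [zero_add, hL1 y x n2, h5]
      congr 1
      ring

end Pool.Agent.MP_ae5b4e_an_RG
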