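import Mathlib
import Pool.Agent.Lib.MP_ae5b4e_an_hopf.Det
import Pool.Agent.Lib.MP_ae5b4e_an_RG.Defs

/-!
# MP_ae5b4e_an, project REG: the differential equation of the curve (section 3)

Text: `/team-store/POR_REG.md`.
-/

noncomputable section

namespace Pool.Agent.MP_ae5b4e_an_RG

open Real Set Filter Topology MeasureTheory intervalIntegral
open scoped ContDiff
open Pool.Agent.MP_ae5b4e_an_hopf

private lemma ode_cramer (a b c w : Fin 3 → ℝ) (h : det3 a b c = 1) (h0 : det3 a b w = 0) :
    w = -(-det3 a w c) • b - (-det3 w b c) • a := by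
  have key : ∀ i, det3 a b c * w i = det3 w b c * a i + det3 a w c * b i + det3 a b w * c i := by
    intro i
    unfold det3
    fin_cases i <;> simp <;> ring
  funext i
  have h1 := key i
  rw [h, h0] at h1
  simp only [Pi.sub_apply, Pi.smul_apply, smul_eq_mul]
  linarith

/-- the differential equation of third order of the normalized curve -/
theorem exists_ode {P : ℝ → Fin 3 → ℝ} (h : Curve 1 P) (hW : ∀ x, Wr P x = 1) :
    ∃ r m : ℝ → ℝ, ContDiff ℝ ∞ r ∧ ContDiff ℝ ∞ m ∧ Function.Periodic r 1 ∧
      Function.Periodic m 1 ∧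
      ∀ x, deriv (deriv (deriv P)) x = -(r x) • deriv P x - m x • P x := by
  have s0 := h.smooth
  have s1 := h.smooth1
  have s2 := h.smooth2
  have s3 : ContDiff ℝ ∞ (deriv (deriv (deriv P))) := (contDiff_infty_iff_deriv.1 s2).2
  have p3 : ∀ t, deriv (deriv (deriv P)) (t + 1) = deriv (deriv (deriv P)) t := by
    intro t
    have h1 := deriv_comp_add_const (deriv (deriv P)) 1 t
    have h2 : (fun x => deriv (deriv P) (x + 1)) = deriv (deriv P) := funext fun x => h.per2 x
    rw [h2] at h1
    exact h1.symm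
  refine ⟨fun x => -det3 (P x) (deriv (deriv (deriv P)) x) (deriv (deriv P) x),
    fun x => -det3 (deriv (deriv (deriv P)) x) (deriv P x) (deriv (deriv P) x), ?_, ?_, ?_, ?_, ?_⟩
  · exact (contDiff_det3 s0 s3 s2).neg
  · exact (contDiff_det3 s3 s1 s2).neg
  · intro t
    simp only [h.per, p3, h.per2]
  · intro t
    simp only [h.per1, p3, h.per2]
  · intro x
    have h1 := hasDerivAt_det3 (h.hd0 x) (h.hd1 x) (h.hd2 x)
    have h2 : (fun t => det3 (P t) (deriv P t) (deriv (deriv P) t)) = fun _ => (1 : ℝ) :=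
      funext fun t => hW t
    rw [h2] at h1
    have h3 := h1.unique (hasDerivAt_const x (1 : ℝ))
    rw [det3_self_left, det3_self_right, zero_add, zero_add] at h3
    exact ode_cramer _ _ _ _ (hW x) h3

end Pool.Agent.MP_ae5b4e_an_RG
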