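import Mathlib
import Pool.Agent.Lib.MP_ae5b4e_an_RG.LinK

/-!
# MP_ae5b4e_an, project REG: expansion of RR (section 4.2)

Text: `/team-store/POR_REG.md`.
-/

noncomputable section

namespace Pool.Agent.MP_ae5b4e_an_RG

open Real Set Filter Topology MeasureTheory intervalIntegral
open scoped ContDiff

/-- the double integral -/
private def DJ (F : ℝ → ℝ → ℝ) (σ : ℝ) : ℝ := ∫ s in (0:ℝ)..σ, ∫ s' in (0:ℝ)..s, F s s'

private theorem inner_cont' {F : ℝ → ℝ → ℝ} (hF : Continuous fun z : ℝ × ℝ => F z.1 z.2) :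
    Continuous fun s : ℝ => ∫ s' in (0:ℝ)..s, F s s' :=
  intervalIntegral.continuous_parametric_intervalIntegral_of_continuous (f := F) hF continuous_id

private theorem DJ_cont {F : ℝ → ℝ → ℝ} (hF : Continuous fun z : ℝ × ℝ => F z.1 z.2) :
    Continuous (DJ F) :=
  intervalIntegral.continuous_primitive
    (fun a b => (inner_cont' hF).intervalIntegrable a b) 0

private theorem one_bd' {F : ℝ → ℝ} {c σ : ℝ} (hc : 0 ≤ c) (hσ : σ ∈ Icc (0:ℝ) 1)
    (h : ∀ s ∈ Icc (0:ℝ) 1, |F s| ≤ c) : |∫ s in (0:ℝ)..σ, F s| ≤ c := by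
  have h1 := intervalIntegral.norm_integral_le_of_norm_le_const (a := 0) (b := σ) (C := c) (f := F)
    fun s hs => by
      rw [uIoc_of_le hσ.1] at hs
      exact h s ⟨hs.1.le, hs.2.trans hσ.2⟩
  rw [sub_zero, abs_of_nonneg hσ.1] at h1
  exact h1.trans (mul_le_of_le_one_right hc hσ.2)

private theorem DJ_bd {F : ℝ → ℝ → ℝ} {c σ : ℝ} (hc : 0 ≤ c) (hσ : σ ∈ Icc (0:ℝ) 1)
    (h : ∀ s ∈ Icc (0:ℝ) 1, ∀ s' ∈ Icc (0:ℝ) 1, |F s s'| ≤ c) : |DJ F σ| ≤ c :=
  one_bd' hc hσ fun s hs => one_bd' hc hs fun s' hs' => h s hs s' hs'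

private theorem DJ_sub {F F' : ℝ → ℝ → ℝ} (hF : Continuous fun z : ℝ × ℝ => F z.1 z.2)
    (hF' : Continuous fun z : ℝ × ℝ => F' z.1 z.2) (σ : ℝ) :
    DJ F σ - DJ F' σ = DJ (fun s s' => F s s' - F' s s') σ := by
  have c1 := inner_cont' hF
  have c2 := inner_cont' hF'
  unfold DJ
  rw [← intervalIntegral.integral_sub (c1.intervalIntegrable _ _) (c2.intervalIntegrable _ _)]
  refine intervalIntegral.integral_congr fun s _ => ?_
  have d1 : Continuous fun s' : ℝ => F s s' := hF.comp (by fun_prop : Continuous fun t : ℝ => (s, t))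
  have d2 : Continuous fun s' : ℝ => F' s s' :=
    hF'.comp (by fun_prop : Continuous fun t : ℝ => (s, t))
  exact (intervalIntegral.integral_sub (d1.intervalIntegrable _ _) (d2.intervalIntegrable _ _)).symm

private theorem DJ_congr {F F' : ℝ → ℝ → ℝ} {σ : ℝ} (hσ : σ ∈ Icc (0:ℝ) 1)
    (h : ∀ s ∈ Icc (0:ℝ) 1, ∀ s' ∈ Icc (0:ℝ) 1, F s s' = F' s s') : DJ F σ = DJ F' σ := by
  refine intervalIntegral.integral_congr fun s hs => ?_
  rw [uIcc_of_le hσ.1] at hs
  have hs1 : s ∈ Icc (0:ℝ) 1 := ⟨hs.1, hs.2.trans hσ.2⟩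
  refine intervalIntegral.integral_congr fun s' hs' => ?_
  rw [uIcc_of_le hs1.1] at hs'
  exact h s hs1 s' ⟨hs'.1, hs'.2.trans hs1.2⟩

/-- The Volterra estimate: from a bounded continuous kernel. -/
private theorem volt_est {K : ℝ → ℝ → ℝ} {y : ℝ → ℝ} {d B : ℝ}
    (hK : Continuous fun z : ℝ × ℝ => K z.1 z.2) (hy : Continuous y) (hB : 0 < B)
    (hKb : ∀ s ∈ Icc (0:ℝ) 1, ∀ s' ∈ Icc (0:ℝ) 1, |K s s'| ≤ 2 * B)
    (hd : 16 * B * d ^ 2 ≤ 1)
    (hV : ∀ σ ∈ Icc (0:ℝ) 1, y σ = 2 * σ - d ^ 2 * DJ (fun s s' => K s s' * y s') σ) :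
    |(y 1 - 2 * ∫ s in (0:ℝ)..1, y s) / (∫ s in (0:ℝ)..1, y s) +
      d ^ 2 * (DJ (fun s s' => K s s' * (2 * s')) 1 -
        2 * ∫ σ in (0:ℝ)..1, DJ (fun s s' => K s s' * (2 * s')) σ)| ≤ 432 * B ^ 2 * d ^ 4 := by
  have hd2 : 0 ≤ d ^ 2 := sq_nonneg d
  have cKy : Continuous fun z : ℝ × ℝ => K z.1 z.2 * y z.2 := hK.mul (hy.comp continuous_snd)
  have cKl : Continuous fun z : ℝ × ℝ => K z.1 z.2 * (2 * z.2) := hK.mul (by fun_prop)
  -- sup bound
  obtain ⟨x0, hx0, hmax⟩ := isCompact_Icc.exists_isMaxOn (nonempty_Icc.2 (zero_le_one (α := ℝ)))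
    (continuous_abs.comp hy).continuousOn
  set M : ℝ := |y x0| with hM
  have hyM : ∀ s ∈ Icc (0:ℝ) 1, |y s| ≤ M := fun s hs => hmax hs
  have hM0 : 0 ≤ M := abs_nonneg _
  have hG0 : ∀ σ ∈ Icc (0:ℝ) 1, |DJ (fun s s' => K s s' * y s') σ| ≤ 2 * B * M := by
    intro σ hσ
    refine DJ_bd (by positivity) hσ fun s hs s' hs' => ?_
    rw [abs_mul]
    exact mul_le_mul (hKb s hs s' hs') (hyM s' hs') (abs_nonneg _) (by positivity)
  have hM4 : M ≤ 4 := by
    have h1 := hV x0 hx0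
    have h2 := hG0 x0 hx0
    have h3 : M ≤ 2 + d ^ 2 * (2 * B * M) := by
      rw [hM, h1]
      refine (abs_sub _ _).trans ?_
      rw [abs_mul, abs_mul, abs_of_nonneg hd2, abs_of_nonneg hx0.1, abs_of_nonneg (zero_le_two (α := ℝ))]
      have h4 : d ^ 2 * |DJ (fun s s' => K s s' * y s') x0| ≤ d ^ 2 * (2 * B * |y x0|) :=
        mul_le_mul_of_nonneg_left h2 hd2
      have h5 := hx0.2
      rw [h1] at h4
      linarith
    have h6 : d ^ 2 * (2 * B * M) ≤ M / 8 := by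
      have : (16 * B * d ^ 2) * M ≤ 1 * M := mul_le_mul_of_nonneg_right hd hM0
      nlinarith
    linarith
  set G : ℝ → ℝ := fun σ => -(d ^ 2 * DJ (fun s s' => K s s' * y s') σ) with hG
  set L : ℝ → ℝ := fun σ => -(d ^ 2 * DJ (fun s s' => K s s' * (2 * s')) σ) with hL
  have cG : Continuous G := (continuous_const.mul (DJ_cont cKy)).neg
  have cL : Continuous L := (continuous_const.mul (DJ_cont cKl)).neg
  have hyG : ∀ σ ∈ Icc (0:ℝ) 1, y σ = 2 * σ + G σ := by
    intro σ hσ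
    rw [hV σ hσ]
    simp only [hG]
    ring
  have hGb : ∀ σ ∈ Icc (0:ℝ) 1, |G σ| ≤ 8 * B * d ^ 2 := by
    intro σ hσ
    simp only [hG]
    rw [abs_neg, abs_mul, abs_of_nonneg hd2]
    have h1 := hG0 σ hσ
    have h2 : 2 * B * M ≤ 8 * B := by nlinarith
    nlinarith
  have hGL : ∀ σ ∈ Icc (0:ℝ) 1, |G σ - L σ| ≤ 16 * B ^ 2 * d ^ 4 := by
    intro σ hσ
    have h1 : G σ - L σ = -(d ^ 2 * DJ (fun s s' => K s s' * y s' - K s s' * (2 * s')) σ) := by
      rw [← DJ_sub cKy cKl]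
      simp only [hG, hL]
      ring
    rw [h1, abs_neg, abs_mul, abs_of_nonneg hd2]
    have h2 : |DJ (fun s s' => K s s' * y s' - K s s' * (2 * s')) σ| ≤ 2 * B * (8 * B * d ^ 2) := by
      refine DJ_bd (by positivity) hσ fun s hs s' hs' => ?_
      have h3 : K s s' * y s' - K s s' * (2 * s') = K s s' * G s' := by
        rw [hyG s' hs']
        ring
      rw [h3, abs_mul]
      exact mul_le_mul (hKb s hs s' hs') (hGb s' hs') (abs_nonneg _) (by positivity)
    calc d ^ 2 * |DJ (fun s s' => K s s' * y s' - K s s' * (2 * s')) σ|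
        ≤ d ^ 2 * (2 * B * (8 * B * d ^ 2)) := mul_le_mul_of_nonneg_left h2 hd2
      _ = 16 * B ^ 2 * d ^ 4 := by ring
  have one_mem : (1:ℝ) ∈ Icc (0:ℝ) 1 := right_mem_Icc.2 zero_le_one
  have hIy : (∫ s in (0:ℝ)..1, y s) = 1 + ∫ s in (0:ℝ)..1, G s := by
    have h1 : (∫ s in (0:ℝ)..1, y s) = ∫ s in (0:ℝ)..1, (2 * s + G s) := by
      refine intervalIntegral.integral_congr fun s hs => ?_
      rw [uIcc_of_le zero_le_one] at hs
      exact hyG s hs
    rw [h1, intervalIntegral.integral_add ((by fun_prop : Continuous fun s : ℝ => 2 * s).intervalIntegrable _ _)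
      (cG.intervalIntegrable _ _), intervalIntegral.integral_const_mul, integral_id]
    norm_num
  set I : ℝ := ∫ s in (0:ℝ)..1, G s with hI
  have hIb : |I| ≤ 8 * B * d ^ 2 := one_bd' (by positivity) one_mem hGb
  have hI2 : |I| ≤ 1 / 2 := by linarith
  have hIL : |I - ∫ s in (0:ℝ)..1, L s| ≤ 16 * B ^ 2 * d ^ 4 := by
    rw [hI, ← intervalIntegral.integral_sub (cG.intervalIntegrable _ _) (cL.intervalIntegrable _ _)]
    exact one_bd' (by positivity) one_mem hGL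
  have hnum : y 1 - 2 * (∫ s in (0:ℝ)..1, y s) = G 1 - 2 * I := by
    rw [hIy, hyG 1 one_mem]
    ring
  have hLin : d ^ 2 * (DJ (fun s s' => K s s' * (2 * s')) 1 -
        2 * ∫ σ in (0:ℝ)..1, DJ (fun s s' => K s s' * (2 * s')) σ) =
      -(L 1 - 2 * ∫ σ in (0:ℝ)..1, L σ) := by
    have h1 : (∫ σ in (0:ℝ)..1, L σ) =
        -(d ^ 2 * ∫ σ in (0:ℝ)..1, DJ (fun s s' => K s s' * (2 * s')) σ) := by
      simp only [hL]
      rw [intervalIntegral.integral_neg, intervalIntegral.integral_const_mul]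
    rw [h1]
    simp only [hL]
    ring
  rw [hnum, hIy, hLin]
  have hden : 1 / 2 ≤ 1 + I := by
    have := (abs_le.1 hI2).1
    linarith
  have hden0 : (1 + I) ≠ 0 := by linarith
  have hkey : (G 1 - 2 * I) / (1 + I) + -(L 1 - 2 * ∫ σ in (0:ℝ)..1, L σ) =
      -((G 1 - 2 * I) * I / (1 + I)) + ((G 1 - L 1) - 2 * (I - ∫ σ in (0:ℝ)..1, L σ)) := by
    field_simp
    ring
  rw [hkey]
  have hn : |G 1 - 2 * I| ≤ 24 * B * d ^ 2 := by
    have h1 := hGb 1 one_mem
    have h2 : |G 1 - 2 * I| ≤ |G 1| + 2 * |I| := by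
      refine (abs_sub _ _).trans ?_
      rw [abs_mul, abs_of_nonneg (zero_le_two (α := ℝ))]
    linarith
  have hq : |(G 1 - 2 * I) * I / (1 + I)| ≤ 384 * B ^ 2 * d ^ 4 := by
    rw [abs_div, abs_mul, abs_of_pos (by linarith : 0 < 1 + I), div_le_iff₀ (by linarith)]
    have h1 : |G 1 - 2 * I| * |I| ≤ (24 * B * d ^ 2) * (8 * B * d ^ 2) :=
      mul_le_mul hn hIb (abs_nonneg _) (by positivity)
    have h2 : 0 ≤ 384 * B ^ 2 * d ^ 4 := by positivity
    nlinarith
  have h1 := hGL 1 one_mem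
  calc |-((G 1 - 2 * I) * I / (1 + I)) + ((G 1 - L 1) - 2 * (I - ∫ σ in (0:ℝ)..1, L σ))|
      ≤ |-((G 1 - 2 * I) * I / (1 + I))| + |(G 1 - L 1) - 2 * (I - ∫ σ in (0:ℝ)..1, L σ)| :=
        abs_add_le _ _
    _ ≤ 384 * B ^ 2 * d ^ 4 + (|G 1 - L 1| + |2 * (I - ∫ σ in (0:ℝ)..1, L σ)|) := by
        rw [abs_neg]
        exact add_le_add hq (abs_sub _ _)
    _ ≤ 384 * B ^ 2 * d ^ 4 + (16 * B ^ 2 * d ^ 4 + 2 * (16 * B ^ 2 * d ^ 4)) := by
        rw [abs_mul, abs_of_nonneg (zero_le_two (α := ℝ))]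
        gcongr
    _ = 432 * B ^ 2 * d ^ 4 := by ring

/-- a continuous periodic function is bounded -/
private theorem per_bd {f : ℝ → ℝ} (hf : Continuous f) (pf : Function.Periodic f 1) :
    ∃ B : ℝ, 0 < B ∧ ∀ x, |f x| ≤ B := by
  obtain ⟨B, hB⟩ := isCompact_Icc.exists_bound_of_continuousOn (s := Icc (0:ℝ) 1) hf.continuousOn
  refine ⟨|B| + 1, by positivity, fun x => ?_⟩
  obtain ⟨y, hy, hxy⟩ := pf.exists_mem_Ico₀ one_pos x
  rw [hxy]
  have := hB y ⟨hy.1, hy.2.le⟩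
  rw [Real.norm_eq_abs] at this
  linarith [le_abs_self B]

private theorem deriv_per {f : ℝ → ℝ} (pf : Function.Periodic f 1) :
    Function.Periodic (deriv f) 1 := by
  intro x
  have h : (fun t => f (t + 1)) = f := funext pf
  rw [← deriv_comp_add_const, h]

/-- mean value inequality -/
private theorem lip {f g : ℝ → ℝ} {B : ℝ} (hf : ∀ x, HasDerivAt f (g x) x) (hg : ∀ x, |g x| ≤ B)
    (x y : ℝ) : |f y - f x| ≤ B * |y - x| := by
  have := Convex.norm_image_sub_le_of_norm_hasDerivWithin_le (f := f) (f' := g) (C := B)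
    (s := univ) (x := x) (y := y) (fun t _ => (hf t).hasDerivWithinAt)
    (fun t _ => by rw [Real.norm_eq_abs]; exact hg t) convex_univ (mem_univ _) (mem_univ _)
  simpa [Real.norm_eq_abs] using this

/-- Taylor with two terms -/
private theorem tay2 {f g : ℝ → ℝ} {B : ℝ} (hB : 0 ≤ B) (hf : ∀ x, HasDerivAt f (g x) x)
    (hg : ∀ x y, |g y - g x| ≤ B * |y - x|) (a h : ℝ) :
    |f (a + h) - f a - h * g a| ≤ B * h ^ 2 := by
  have h1 : ∀ t ∈ uIcc (0:ℝ) h, HasDerivWithinAt (fun t => f (a + t) - t * g a)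
      (g (a + t) - g a) (uIcc (0:ℝ) h) t := by
    intro t _
    have e1 : HasDerivAt (fun t => f (a + t)) (g (a + t)) t := by
      have := (hf (a + t)).comp_const_add a t
      simpa using this
    have e2 : HasDerivAt (fun t : ℝ => t * g a) (g a) t := by
      simpa using (hasDerivAt_id t).mul_const (g a)
    exact (e1.sub e2).hasDerivWithinAt
  have h2 : ∀ t ∈ uIcc (0:ℝ) h, ‖g (a + t) - g a‖ ≤ B * |h| := by
    intro t ht
    rw [Real.norm_eq_abs]
    refine (hg a (a + t)).trans (mul_le_mul_of_nonneg_left ?_ hB)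
    rw [add_sub_cancel_left]
    have := abs_sub_left_of_mem_uIcc ht
    simpa using this
  have h3 := Convex.norm_image_sub_le_of_norm_hasDerivWithin_le h1 h2 (convex_uIcc 0 h)
    left_mem_uIcc right_mem_uIcc
  simp only [Real.norm_eq_abs, sub_zero, add_zero, zero_mul] at h3
  have h4 : f (a + h) - h * g a - f a = f (a + h) - f a - h * g a := by ring
  rw [h4] at h3
  refine h3.trans (le_of_eq ?_)
  rw [mul_assoc, ← abs_mul, abs_of_nonneg (mul_self_nonneg h)]
  ring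

/-- 4.2 -/
theorem taylor_rel {r m R1 R2 : ℝ → ℝ} (hr : ContDiff ℝ ∞ r) (hm : ContDiff ℝ ∞ m)
    (pr : Function.Periodic r 1) (pm : Function.Periodic m 1)
    (hR1 : ∀ x, HasDerivAt R1 (m x) x) (hR2 : ∀ x, R2 x = r x - R1 x) :
    ∃ C d0 : ℝ, 0 < C ∧ 0 < d0 ∧ ∀ a d ρ : ℝ, |d| ≤ d0 → Rel R1 R2 a d ρ →
      |ρ + r a / 6 * d ^ 2 + (deriv r a / 10 + m a / 20) * d ^ 3| ≤ C * d ^ 4 := by
  have hr1 : ContDiff ℝ ∞ (deriv r) := (contDiff_infty_iff_deriv.1 hr).2
  have hm1 : ContDiff ℝ ∞ (deriv m) := (contDiff_infty_iff_deriv.1 hm).2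
  have hr2 : ContDiff ℝ ∞ (deriv (deriv r)) := (contDiff_infty_iff_deriv.1 hr1).2
  have dr : ∀ x, HasDerivAt r (deriv r x) x := fun x =>
    ((contDiff_infty_iff_deriv.1 hr).1 x).hasDerivAt
  have dm : ∀ x, HasDerivAt m (deriv m x) x := fun x =>
    ((contDiff_infty_iff_deriv.1 hm).1 x).hasDerivAt
  have dr1 : ∀ x, HasDerivAt (deriv r) (deriv (deriv r) x) x := fun x =>
    ((contDiff_infty_iff_deriv.1 hr1).1 x).hasDerivAt
  obtain ⟨B0, hB0, b0⟩ := per_bd hr.continuous pr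
  obtain ⟨B1, hB1, b1⟩ := per_bd hm.continuous pm
  obtain ⟨B2, hB2, b2⟩ := per_bd hm1.continuous (deriv_per pm)
  obtain ⟨B3, hB3, b3⟩ := per_bd hr2.continuous (deriv_per (deriv_per pr))
  set B : ℝ := B0 + B1 + B2 + B3 + 1 with hBdef
  have hB : 1 ≤ B := by linarith
  have hBpos : 0 < B := by linarith
  have c0 : ∀ x, |r x| ≤ B := fun x => (b0 x).trans (by linarith)
  have c1 : ∀ x, |m x| ≤ B := fun x => (b1 x).trans (by linarith)
  have c2 : ∀ x, |deriv m x| ≤ B := fun x => (b2 x).trans (by linarith)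
  have c3 : ∀ x, |deriv (deriv r) x| ≤ B := fun x => (b3 x).trans (by linarith)
  have cR1 : Continuous R1 := continuous_iff_continuousAt.2 fun x => (hR1 x).continuousAt
  have cR2 : Continuous R2 := by
    have h : R2 = fun x => r x - R1 x := funext hR2
    rw [h]
    exact hr.continuous.sub cR1
  refine ⟨435 * B ^ 2, 1 / (4 * B), by positivity, by positivity, ?_⟩
  intro a d ρ hd hρ
  obtain ⟨y0, ⟨hy0c, hy0V⟩, hy0I, rfl⟩ := hρ
  have hd1 : |d| ≤ 1 := hd.trans (by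
    rw [div_le_one (by positivity)]
    linarith)
  have hdB : 16 * B * d ^ 2 ≤ 1 := by
    have h1 : |d| * |d| ≤ 1 / (4 * B) * (1 / (4 * B)) :=
      mul_le_mul hd hd (abs_nonneg _) (by positivity)
    have h2 : d ^ 2 = |d| * |d| := by rw [← sq_abs]; ring
    rw [h2]
    calc 16 * B * (|d| * |d|) ≤ 16 * B * (1 / (4 * B) * (1 / (4 * B))) :=
          mul_le_mul_of_nonneg_left h1 (by positivity)
      _ = 1 / B := by field_simp; norm_num
      _ ≤ 1 := by
          rw [div_le_one hBpos]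
          exact hB
  have hd2 : 0 ≤ d ^ 2 := sq_nonneg d
  -- continuous extension
  set y : ℝ → ℝ := IccExtend (zero_le_one (α := ℝ)) ((Icc (0:ℝ) 1).domRestrict y0) with hy
  have cy : Continuous y := (continuousOn_iff_continuous_domRestrict.1 hy0c).Icc_extend'
  have hyy : ∀ s ∈ Icc (0:ℝ) 1, y s = y0 s := by
    intro s hs
    rw [hy, IccExtend_of_mem _ _ hs]
    rfl
  set K : ℝ → ℝ → ℝ := fun s s' => R1 (a + s * d) + R2 (a + s' * d) with hK
  have cK : Continuous fun z : ℝ × ℝ => K z.1 z.2 := by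
    simp only [hK]
    fun_prop
  have hKb : ∀ s ∈ Icc (0:ℝ) 1, ∀ s' ∈ Icc (0:ℝ) 1, |K s s'| ≤ 2 * B := by
    intro s hs s' hs'
    have h1 : K s s' = r (a + s' * d) + (R1 (a + s * d) - R1 (a + s' * d)) := by
      simp only [hK]
      rw [hR2]
      ring
    rw [h1]
    refine (abs_add_le _ _).trans ?_
    have h2 := lip hR1 c1 (a + s' * d) (a + s * d)
    have h3 : |a + s * d - (a + s' * d)| ≤ 1 := by
      have : a + s * d - (a + s' * d) = (s - s') * d := by ring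
      rw [this, abs_mul]
      have h4 : |s - s'| ≤ 1 := abs_le.2 ⟨by linarith [hs.1, hs'.2], by linarith [hs.2, hs'.1]⟩
      exact (mul_le_mul h4 hd1 (abs_nonneg _) zero_le_one).trans (by norm_num)
    have h5 : B * |a + s * d - (a + s' * d)| ≤ B * 1 := mul_le_mul_of_nonneg_left h3 hBpos.le
    linarith [c0 (a + s' * d)]
  have hV : ∀ σ ∈ Icc (0:ℝ) 1, y σ = 2 * σ - d ^ 2 * DJ (fun s s' => K s s' * y s') σ := by
    intro σ hσ
    rw [hyy σ hσ, hy0V σ hσ]
    have : DJ (fun s s' => K s s' * y s') σ = DJ (fun s s' => K s s' * y0 s') σ :=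
      DJ_congr hσ fun s _ s' hs' => by rw [hyy s' hs']
    rw [this]
    rfl
  have hIy : (∫ s in (0:ℝ)..1, y0 s) = ∫ s in (0:ℝ)..1, y s := by
    refine intervalIntegral.integral_congr fun s hs => ?_
    rw [uIcc_of_le zero_le_one] at hs
    exact (hyy s hs).symm
  rw [hIy, ← hyy 1 (right_mem_Icc.2 zero_le_one)]
  have main := volt_est cK cy hBpos hKb hdB hV
  set ρ : ℝ := (y 1 - 2 * ∫ s in (0:ℝ)..1, y s) / ∫ s in (0:ℝ)..1, y s with hρ
  -- the linear part
  set A : ℝ → ℝ := fun s => R1 (a + s * d) - R1 a with hA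
  set Q : ℝ → ℝ := fun s => R2 (a + s * d) + R1 a with hQ
  have cA : Continuous A := by simp only [hA]; fun_prop
  have cQ : Continuous Q := by simp only [hQ]; fun_prop
  have hlin := lin_id cA cQ
  have hKAQ : (fun s s' => K s s' * (2 * s')) = fun s s' => (A s + Q s') * (2 * s') := by
    funext s s'
    simp only [hK, hA, hQ]
    ring
  have hlin2 : DJ (fun s s' => K s s' * (2 * s')) 1 -
      2 * (∫ σ in (0:ℝ)..1, DJ (fun s s' => K s s' * (2 * s')) σ) =
      (∫ s in (0:ℝ)..1, (2 * s - 1) * s ^ 2 * A s) +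
      ∫ s in (0:ℝ)..1, 2 * s ^ 2 * (1 - s) * Q s := by
    rw [hKAQ, ← hlin]
    rfl
  rw [hlin2] at main
  -- Taylor for a and b
  have tA : ∀ s ∈ Icc (0:ℝ) 1, |A s - s * d * m a| ≤ B * d ^ 2 := by
    intro s hs
    have h1 := tay2 hBpos.le hR1 (lip dm c2) a (s * d)
    refine h1.trans (mul_le_mul_of_nonneg_left ?_ hBpos.le)
    rw [mul_pow]
    have : s ^ 2 ≤ 1 := by nlinarith [hs.1, hs.2]
    nlinarith
  have tQ : ∀ s ∈ Icc (0:ℝ) 1, |Q s - (r a + s * d * (deriv r a - m a))| ≤ 2 * B * d ^ 2 := by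
    intro s hs
    have h1 := tay2 hBpos.le dr (lip dr1 c3) a (s * d)
    have h2 := tA s hs
    have h3 : B * (s * d) ^ 2 ≤ B * d ^ 2 := by
      refine mul_le_mul_of_nonneg_left ?_ hBpos.le
      rw [mul_pow]
      have : s ^ 2 ≤ 1 := by nlinarith [hs.1, hs.2]
      nlinarith
    have h4 : Q s - (r a + s * d * (deriv r a - m a)) =
        (r (a + s * d) - r a - s * d * deriv r a) - (A s - s * d * m a) := by
      simp only [hQ, hA]
      rw [hR2]
      ring
    rw [h4]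
    refine (abs_sub _ _).trans ?_
    linarith
  have one_mem : (1:ℝ) ∈ Icc (0:ℝ) 1 := right_mem_Icc.2 zero_le_one
  have p0 : ∀ n : ℕ, (∫ s in (0:ℝ)..1, s ^ n) = 1 / ((n:ℝ) + 1) := by
    intro n
    rw [integral_pow]
    simp
  have iA : |(∫ s in (0:ℝ)..1, (2 * s - 1) * s ^ 2 * A s) - 3 / 20 * d * m a| ≤ B * d ^ 2 := by
    have e1 : (∫ s in (0:ℝ)..1, (2 * s - 1) * s ^ 2 * (s * d * m a)) = 3 / 20 * d * m a := by
      have e0 : (fun s : ℝ => (2 * s - 1) * s ^ 2 * (s * d * m a)) =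
          fun s : ℝ => (2 * d * m a) * s ^ 4 - (d * m a) * s ^ 3 := by
        funext s
        ring
      rw [e0, intervalIntegral.integral_sub
        ((by fun_prop : Continuous fun s : ℝ => (2 * d * m a) * s ^ 4).intervalIntegrable _ _)
        ((by fun_prop : Continuous fun s : ℝ => (d * m a) * s ^ 3).intervalIntegrable _ _),
        intervalIntegral.integral_const_mul, intervalIntegral.integral_const_mul, p0, p0]
      push_cast
      ring
    rw [← e1, ← intervalIntegral.integral_sub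
      ((by fun_prop : Continuous fun s : ℝ => (2 * s - 1) * s ^ 2 * A s).intervalIntegrable _ _)
      ((by fun_prop : Continuous fun s : ℝ =>
        (2 * s - 1) * s ^ 2 * (s * d * m a)).intervalIntegrable _ _)]
    refine one_bd' (by positivity) one_mem fun s hs => ?_
    have e2 : (2 * s - 1) * s ^ 2 * A s - (2 * s - 1) * s ^ 2 * (s * d * m a) =
        ((2 * s - 1) * s ^ 2) * (A s - s * d * m a) := by ring
    rw [e2, abs_mul]
    have e3 : |(2 * s - 1) * s ^ 2| ≤ 1 := by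
      rw [abs_mul, abs_of_nonneg (sq_nonneg s)]
      have e4 : |2 * s - 1| ≤ 1 := abs_le.2 ⟨by linarith [hs.1], by linarith [hs.2]⟩
      have e5 : s ^ 2 ≤ 1 := by nlinarith [hs.1, hs.2]
      exact (mul_le_mul e4 e5 (sq_nonneg _) zero_le_one).trans (by norm_num)
    exact (mul_le_mul e3 (tA s hs) (abs_nonneg _) zero_le_one).trans (by rw [one_mul])
  have iQ : |(∫ s in (0:ℝ)..1, 2 * s ^ 2 * (1 - s) * Q s) -
      (r a / 6 + 1 / 10 * d * (deriv r a - m a))| ≤ 2 * B * d ^ 2 := by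
    have e1 : (∫ s in (0:ℝ)..1, 2 * s ^ 2 * (1 - s) * (r a + s * d * (deriv r a - m a))) =
        r a / 6 + 1 / 10 * d * (deriv r a - m a) := by
      have e0 : (fun s : ℝ => 2 * s ^ 2 * (1 - s) * (r a + s * d * (deriv r a - m a))) =
          fun s : ℝ => (2 * r a) * s ^ 2 + (2 * d * (deriv r a - m a) - 2 * r a) * s ^ 3 +
            (-(2 * d * (deriv r a - m a))) * s ^ 4 := by
        funext s
        ring
      rw [e0, intervalIntegral.integral_add
        ((by fun_prop : Continuous fun s : ℝ => (2 * r a) * s ^ 2 +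
          (2 * d * (deriv r a - m a) - 2 * r a) * s ^ 3).intervalIntegrable _ _)
        ((by fun_prop : Continuous fun s : ℝ =>
          (-(2 * d * (deriv r a - m a))) * s ^ 4).intervalIntegrable _ _),
        intervalIntegral.integral_add
        ((by fun_prop : Continuous fun s : ℝ => (2 * r a) * s ^ 2).intervalIntegrable _ _)
        ((by fun_prop : Continuous fun s : ℝ =>
          (2 * d * (deriv r a - m a) - 2 * r a) * s ^ 3).intervalIntegrable _ _),
        intervalIntegral.integral_const_mul, intervalIntegral.integral_const_mul,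
        intervalIntegral.integral_const_mul, p0, p0, p0]
      push_cast
      ring
    rw [← e1, ← intervalIntegral.integral_sub
      ((by fun_prop : Continuous fun s : ℝ => 2 * s ^ 2 * (1 - s) * Q s).intervalIntegrable _ _)
      ((by fun_prop : Continuous fun s : ℝ =>
        2 * s ^ 2 * (1 - s) * (r a + s * d * (deriv r a - m a))).intervalIntegrable _ _)]
    refine one_bd' (by positivity) one_mem fun s hs => ?_
    have e2 : 2 * s ^ 2 * (1 - s) * Q s - 2 * s ^ 2 * (1 - s) * (r a + s * d * (deriv r a - m a)) =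
        (2 * s ^ 2 * (1 - s)) * (Q s - (r a + s * d * (deriv r a - m a))) := by ring
    rw [e2, abs_mul]
    have e3 : |2 * s ^ 2 * (1 - s)| ≤ 1 := by
      have h0 := hs.1
      have h1 := hs.2
      have h2 : 0 ≤ 1 - s := by linarith
      rw [abs_of_nonneg (by positivity)]
      have h3 : 2 * s * (1 - s) ≤ 1 := by nlinarith [sq_nonneg (2 * s - 1)]
      have h4 : 0 ≤ 2 * s * (1 - s) := by positivity
      nlinarith
    exact (mul_le_mul e3 (tQ s hs) (abs_nonneg _) zero_le_one).trans (by rw [one_mul])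
  set IA : ℝ := ∫ s in (0:ℝ)..1, (2 * s - 1) * s ^ 2 * A s with hIA
  set IQ : ℝ := ∫ s in (0:ℝ)..1, 2 * s ^ 2 * (1 - s) * Q s with hIQ
  have hfin : ρ + r a / 6 * d ^ 2 + (deriv r a / 10 + m a / 20) * d ^ 3 =
      (ρ + d ^ 2 * (IA + IQ)) - d ^ 2 * ((IA - 3 / 20 * d * m a) +
        (IQ - (r a / 6 + 1 / 10 * d * (deriv r a - m a)))) := by
    ring
  rw [hfin]
  refine (abs_sub _ _).trans ?_
  rw [abs_mul, abs_of_nonneg hd2]
  have h1 : |(IA - 3 / 20 * d * m a) + (IQ - (r a / 6 + 1 / 10 * d * (deriv r a - m a)))| ≤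
      3 * B * d ^ 2 := (abs_add_le _ _).trans (by linarith)
  have h2 : d ^ 2 * |(IA - 3 / 20 * d * m a) +
      (IQ - (r a / 6 + 1 / 10 * d * (deriv r a - m a)))| ≤ d ^ 2 * (3 * B * d ^ 2) :=
    mul_le_mul_of_nonneg_left h1 hd2
  have h3 : d ^ 2 * (3 * B * d ^ 2) ≤ 3 * B ^ 2 * d ^ 4 := by
    have h4 : 0 ≤ d ^ 4 := by positivity
    have h5 : B ≤ B ^ 2 := by nlinarith
    calc d ^ 2 * (3 * B * d ^ 2) = 3 * B * d ^ 4 := by ring
      _ ≤ 3 * B ^ 2 * d ^ 4 := by
        refine mul_le_mul_of_nonneg_right ?_ h4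
        linarith
  linarith

end Pool.Agent.MP_ae5b4e_an_RG
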