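import Mathlib
import Pool.Agent.Lib.MP_ae5b4e_an_hopf.Det
import Pool.Agent.Lib.MP_ae5b4e_an_RG.Defs

/-!
# MP_ae5b4e_an, project REG: the Volterra form of the logarithmic derivative (section 4.1)

Text: `/team-store/POR_REG.md`.
-/

noncomputable section

namespace Pool.Agent.MP_ae5b4e_an_RG

open Real Set Filter Topology MeasureTheory intervalIntegral
open scoped ContDiff
open Pool.Agent.MP_ae5b4e_an_hopf

/-- derivative along the segment -/
private lemma seg_deriv {F F' : ℝ → ℝ} (h : ∀ x, HasDerivAt F (F' x) x) (a d s : ℝ) :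
    HasDerivAt (fun s => F (a + s * d)) (F' (a + s * d) * d) s := by
  have h1 : HasDerivAt (fun s : ℝ => a + s * d) d s := by
    simpa using ((hasDerivAt_id s).mul_const d).const_add a
  exact (h (a + s * d)).comp s h1

/-- integrating a continuous derivative -/
private lemma ftc {F F' : ℝ → ℝ} (h : ∀ x, HasDerivAt F (F' x) x) (hc : Continuous F') (s : ℝ) :
    ∫ t in (0:ℝ)..s, F' t = F s - F 0 :=
  integral_eq_sub_of_hasDerivAt (fun x _ => h x) (hc.intervalIntegrable _ _)

private lemma hasDerivAt_ddxx_left {P : ℝ → Fin 3 → ℝ} (h : Curve 1 P) {r m : ℝ → ℝ}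
    (hode : ∀ x, deriv (deriv (deriv P)) x = -(r x) • deriv P x - m x • P x) (x y : ℝ) :
    HasDerivAt (fun x => ddxx P x y) (-(r x) * ddx P x y - m x * dd P x y) x := by
  refine (hasDerivAt_det3 (h.hd2 x) (hasDerivAt_const x (P y))
    (hasDerivAt_const x (deriv P y))).congr_deriv ?_
  rw [hode x]
  unfold ddx dd det3
  simp
  ring

/-- 4.1 -/
theorem rel_L1 {P : ℝ → Fin 3 → ℝ} (h : Curve 1 P) (hW : ∀ x, Wr P x = 1) {r m R1 R2 : ℝ → ℝ}
    (hr : Continuous r) (hm : Continuous m)
    (hode : ∀ x, deriv (deriv (deriv P)) x = -(r x) • deriv P x - m x • P x)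
    (hR1 : ∀ x, HasDerivAt R1 (m x) x) (hR2 : ∀ x, R2 x = r x - R1 x) {a d : ℝ} (hd : d ≠ 0)
    (hd1 : |d| < 1) : Rel R1 R2 a d (d * L1 P (a + d) a - 2) := by
  set f : ℝ → ℝ := fun s => 2 * dd P (a + s * d) a / d ^ 2 with hf
  set y : ℝ → ℝ := fun s => 2 * ddx P (a + s * d) a / d with hy
  set z : ℝ → ℝ := fun s => 2 * ddxx P (a + s * d) a with hz
  have hR1c : Continuous R1 := continuous_iff_continuousAt.2 fun x => (hR1 x).continuousAt
  have hR2c : Continuous R2 := by
    have : R2 = fun x => r x - R1 x := funext hR2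
    rw [this]; exact hr.sub hR1c
  have hseg : Continuous fun s : ℝ => a + s * d := by fun_prop
  have hf' : ∀ s, HasDerivAt f (y s) s := by
    intro s
    have h1 := (((seg_deriv (fun x => h.hasDerivAt_dd_left x a) a d s).const_mul 2).div_const
      (d ^ 2))
    refine h1.congr_deriv ?_
    simp only [hy]
    field_simp
  have hy' : ∀ s, HasDerivAt y (z s) s := by
    intro s
    have h1 := (((seg_deriv (fun x => h.hasDerivAt_ddx_left x a) a d s).const_mul 2).div_const d)
    refine h1.congr_deriv ?_
    simp only [hz]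
    field_simp
  have hyc : Continuous y := continuous_iff_continuousAt.2 fun x => (hy' x).continuousAt
  have hfc : Continuous f := continuous_iff_continuousAt.2 fun x => (hf' x).continuousAt
  have hz' : ∀ s, HasDerivAt z
      (-(d ^ 2) * (d * m (a + s * d) * f s + r (a + s * d) * y s)) s := by
    intro s
    have h1 := (seg_deriv (fun x => hasDerivAt_ddxx_left h hode x a) a d s).const_mul 2
    refine h1.congr_deriv ?_
    simp only [hf, hy]
    field_simp
    ring
  have hzc : Continuous z := continuous_iff_continuousAt.2 fun x => (hz' x).continuousAt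
  have hf0 : f 0 = 0 := by
    simp only [hf]
    have : dd P (a + 0 * d) a = 0 := by
      rw [zero_mul, add_zero]; exact det3_self_left _ _
    rw [this]; simp
  have hy0 : y 0 = 0 := by
    simp only [hy]
    have : ddx P (a + 0 * d) a = 0 := by
      rw [zero_mul, add_zero]; exact det3_self_outer _ _
    rw [this]; simp
  have hz0 : z 0 = 2 := by
    simp only [hz]
    have : ddxx P (a + 0 * d) a = 1 := by
      rw [zero_mul, add_zero, ← hW a]
      unfold ddxx Wr
      rw [det3_cycle]
    rw [this]; norm_num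
  have hfint : ∀ s, ∫ t in (0:ℝ)..s, y t = f s := by
    intro s; rw [ftc hf' hyc, hf0, sub_zero]
  -- the function `g`
  set g : ℝ → ℝ := fun s => R1 (a + s * d) * f s + ∫ t in (0:ℝ)..s, R2 (a + t * d) * y t with hg
  have hR2y : Continuous fun t : ℝ => R2 (a + t * d) * y t := (hR2c.comp hseg).mul hyc
  have hg' : ∀ s, HasDerivAt g (d * m (a + s * d) * f s + r (a + s * d) * y s) s := by
    intro s
    have h1 := (seg_deriv hR1 a d s).mul (hf' s)
    have h2 : HasDerivAt (fun s => ∫ t in (0:ℝ)..s, R2 (a + t * d) * y t)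
        (R2 (a + s * d) * y s) s :=
      integral_hasDerivAt_right (hR2y.intervalIntegrable _ _)
        (hR2y.stronglyMeasurableAtFilter _ _) hR2y.continuousAt
    refine (h1.add h2).congr_deriv ?_
    rw [hR2]
    ring
  have hg0 : g 0 = 0 := by simp [hg, hf0]
  have hgc : Continuous g := continuous_iff_continuousAt.2 fun x => (hg' x).continuousAt
  have hzg : ∀ s, z s = 2 - d ^ 2 * g s := by
    intro s
    have hD : ∀ s, HasDerivAt (fun s => z s + d ^ 2 * g s) 0 s := by
      intro s
      refine ((hz' s).add ((hg' s).const_mul (d ^ 2))).congr_deriv ?_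
      ring
    have hconst := is_const_of_deriv_eq_zero (fun s => (hD s).differentiableAt)
      (fun s => (hD s).deriv) s 0
    simp only [hg0, hz0] at hconst
    linarith
  have hgint : ∀ s, g s = ∫ t in (0:ℝ)..s, (R1 (a + s * d) + R2 (a + t * d)) * y t := by
    intro s
    have h1 : (fun t => (R1 (a + s * d) + R2 (a + t * d)) * y t)
        = fun t => R1 (a + s * d) * y t + R2 (a + t * d) * y t := by
      funext t; ring
    rw [h1, integral_add ((hyc.const_mul (R1 (a + s * d))).intervalIntegrable _ _)
      (hR2y.intervalIntegrable _ _), intervalIntegral.integral_const_mul, hfint]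
  have hyint : ∀ s, y s = 2 * s - d ^ 2 * ∫ t in (0:ℝ)..s, g t := by
    intro s
    have h1 := ftc hy' hzc s
    rw [hy0, sub_zero] at h1
    rw [← h1]
    have h2 : z = fun s => 2 - d ^ 2 * g s := funext hzg
    rw [h2, integral_sub (continuous_const.intervalIntegrable _ _)
      ((hgc.const_mul (d ^ 2)).intervalIntegrable _ _), intervalIntegral.integral_const_mul]
    simp
    ring
  have hf1 : f 1 = 2 * dd P (a + d) a / d ^ 2 := by simp only [hf, one_mul]
  have hy1 : y 1 = 2 * ddx P (a + d) a / d := by simp only [hy, one_mul]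
  have hpos : 0 < dd P (a + d) a := by
    apply h.dd_pos
    · intro hc; apply hd; linarith
    · have : a + d - a = d := by ring
      rw [this]; exact hd1
  have hd2 : 0 < d ^ 2 := by positivity
  have hf1pos : 0 < f 1 := by rw [hf1]; positivity
  refine ⟨y, ⟨hyc.continuousOn, ?_⟩, ?_, ?_⟩
  · intro σ _
    rw [hyint σ]
    congr 2
    apply integral_congr
    intro s _
    exact hgint s
  · rw [hfint]; exact hf1pos.ne'
  · rw [hfint, hf1, hy1]
    unfold L1
    have := hpos.ne'
    field_simp

end Pool.Agent.MP_ae5b4e_an_RG
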