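import Mathlib
import Pool.Agent.Lib.MP_ae5b4e_an_RG.Norm
import Pool.Agent.Lib.MP_ae5b4e_an_RG.Ode
import Pool.Agent.Lib.MP_ae5b4e_an_RG.VForm
import Pool.Agent.Lib.MP_ae5b4e_an_RG.Tay
import Pool.Agent.Lib.MP_ae5b4e_an_RG.Apri
import Pool.Agent.Lib.MP_ae5b4e_an_RG.IntM

/-!
# MP_ae5b4e_an, project REG: RESULT OF SECTIONS 1-4

Text: `/team-store/POR_REG.md`.
-/

noncomputable section

namespace Pool.Agent.MP_ae5b4e_an_RG

open Real Set Filter Topology MeasureTheory intervalIntegral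
open scoped ContDiff
open Pool.Agent.MP_ae5b4e_an_hopf

/-- continuous periodic functions are bounded -/
private lemma bdd_per {g : ℝ → ℝ} (hg : Continuous g) (pg : Function.Periodic g 1) :
    ∃ B : ℝ, 0 ≤ B ∧ ∀ x, |g x| ≤ B := by
  obtain ⟨B, hB⟩ := (isCompact_Icc (a := (0:ℝ)) (b := 1)).exists_bound_of_continuousOn
    hg.continuousOn
  refine ⟨B, (norm_nonneg _).trans (hB 0 ⟨le_refl _, zero_le_one⟩), fun x => ?_⟩
  obtain ⟨y, hy, hy'⟩ := pg.exists_mem_Ico₀ one_pos x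
  rw [hy']
  exact hB y ⟨hy.1, hy.2.le⟩

private lemma deriv_per {g : ℝ → ℝ} (pg : Function.Periodic g 1) :
    Function.Periodic (deriv g) 1 := by
  intro x
  have h1 : (fun s => g (s + 1)) = g := funext pg
  have h2 := congrFun (congrArg deriv h1) x
  rwa [deriv_comp_add_const] at h2

/-- the data along one curve of periodic points -/
private lemma orb_of_pleaf {P : ℝ → Fin 3 → ℝ} {U : ℝ → ℝ → ℝ} (h : LSys 1 P U (fun _ => 0))
    (hW : ∀ x, Wr P x = 1) {r m R1 R2 : ℝ → ℝ} (hr : Continuous r) (hm : Continuous m)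
    (hode : ∀ x, deriv (deriv (deriv P)) x = -(r x) • deriv P x - m x • P x)
    (hR1 : ∀ x, HasDerivAt R1 (m x) x) (hR2 : ∀ x, R2 x = r x - R1 x) {p q : ℕ}
    (hpq : PQ p q) {L : ℝ → ℝ}
    (hL : PLeaf 1 (nxt P 1 U) p q L) {ε : ℝ} (hε : ε < 1)
    (hs : ∀ x, L (x + (p:ℝ) / q) - L x ≤ ε) (x : ℝ) :
    ∃ ρm ρp : ℝ, Rel R1 R2 (L (x - (p:ℝ) / q)) (L x - L (x - (p:ℝ) / q)) ρm ∧
      Rel R1 R2 (L (x + (p:ℝ) / q)) (-(L (x + (p:ℝ) / q) - L x)) ρp ∧
      (L (x + (p:ℝ) / q) - L x) - (L x - L (x - (p:ℝ) / q)) =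
      ((L x - L (x - (p:ℝ) / q)) * ρp - (L (x + (p:ℝ) / q) - L x) * ρm) / 2 := by
  have hω : 0 < (p:ℝ) / q := by
    have h1 : 0 < p := by rcases hpq.1 with h | h <;> omega
    have h2 : 0 < q := by have := hpq.2.1; omega
    have : (0:ℝ) < p := by exact_mod_cast h1
    have : (0:ℝ) < q := by exact_mod_cast h2
    positivity
  obtain ⟨c, hc, e1, e2⟩ := hL.com x
  rw [mul_one] at e1 e2
  have k1 := h.law hc (L (x - (p:ℝ) / q))
  rw [e1, e2] at k1
  have hm0 : 0 < L x - L (x - (p:ℝ) / q) := by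
    have := hL.mono (show x - (p:ℝ) / q < x by linarith)
    linarith
  have hp0 : 0 < L (x + (p:ℝ) / q) - L x := by
    have := hL.mono (show x < x + (p:ℝ) / q by linarith)
    linarith
  have hm1 : L x - L (x - (p:ℝ) / q) ≤ ε := by
    have := hs (x - (p:ℝ) / q)
    rwa [sub_add_cancel] at this
  have hp1 := hs x
  have r1 := rel_L1 h.curve hW hr hm hode hR1 hR2 (a := L (x - (p:ℝ) / q))
    (d := L x - L (x - (p:ℝ) / q)) hm0.ne' (by rw [abs_of_pos hm0]; linarith)
  have r2 := rel_L1 h.curve hW hr hm hode hR1 hR2 (a := L (x + (p:ℝ) / q))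
    (d := -(L (x + (p:ℝ) / q) - L x)) (by linarith [hp0] : _ < (0:ℝ)).ne
    (by rw [abs_neg, abs_of_pos hp0]; linarith)
  rw [add_sub_cancel] at r1
  rw [show L (x + (p:ℝ) / q) + -(L (x + (p:ℝ) / q) - L x) = L x by ring] at r2
  refine ⟨_, _, r1, r2, ?_⟩
  have k2 : L1 P (L x) (L (x + (p:ℝ) / q)) = -L1 P (L x) (L (x - (p:ℝ) / q)) := by
    linarith
  rw [k2]
  ring

/-- RESULT OF SECTIONS 1-4 -/
theorem geo {P : ℝ → Fin 3 → ℝ} {U : ℝ → ℝ → ℝ} (h : LSys 1 P U (fun _ => 0))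
    (hW : ∀ x, Wr P x = 1) :
    ∃ (r m R1 R2 : ℝ → ℝ) (Cs : ℝ) (q0 : ℕ), ContDiff ℝ ∞ r ∧ ContDiff ℝ ∞ m ∧
      Function.Periodic r 1 ∧ Function.Periodic m 1 ∧
      (∀ x, deriv (deriv (deriv P)) x = -(r x) • deriv P x - m x • P x) ∧
      (∀ x, HasDerivAt R1 (m x) x) ∧ (∀ x, R2 x = r x - R1 x) ∧
      Function.Periodic R1 1 ∧ Function.Periodic R2 1 ∧ 0 ≤ Cs ∧
      ∀ p q : ℕ, PQ p q → q0 ≤ q → ∃ u, Leaf R1 R2 p q Cs u := by
  obtain ⟨r, m, hr, hm, pr, pm, hode⟩ := exists_ode h.curve hW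
  set R1 : ℝ → ℝ := fun x => ∫ t in (0:ℝ)..x, m t with hR1d
  set R2 : ℝ → ℝ := fun x => r x - R1 x with hR2d
  have hR1 : ∀ x, HasDerivAt R1 (m x) x := (contDiff_prim hm).2
  have hR2 : ∀ x, R2 x = r x - R1 x := fun x => rfl
  obtain ⟨C, d0, hC, hd0, htay⟩ := taylor_rel hr hm pr pm hR1 hR2
  obtain ⟨q0, hq0⟩ := exists_pleaf h.tmap
  have hr1 : ContDiff ℝ ∞ (deriv r) := (contDiff_infty_iff_deriv.1 hr).2
  set b : ℝ → ℝ := fun x => deriv r x / 10 + m x / 20 with hb
  have cb : Continuous b := (hr1.continuous.div_const 10).add (hm.continuous.div_const 20)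
  have pb : Function.Periodic b 1 := by
    intro x
    simp only [hb]
    rw [deriv_per pr x, pm x]
  obtain ⟨B1, hB1, hB1'⟩ := bdd_per hr.continuous pr
  obtain ⟨B2, hB2, hB2'⟩ := bdd_per hr1.continuous (deriv_per pr)
  obtain ⟨B3, hB3, hB3'⟩ := bdd_per cb pb
  have hlip : ∀ x y, |r x - r y| ≤ B2 * |x - y| := by
    intro x y
    have := Convex.norm_image_sub_le_of_norm_deriv_le (𝕜 := ℝ) (f := r) (s := univ) (x := y)
      (y := x) (C := B2) (fun z _ => (hr.differentiable (by simp)) z)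
      (fun z _ => hB2' z) convex_univ (mem_univ _) (mem_univ _)
    simpa [Real.norm_eq_abs] using this
  obtain ⟨ε0, K, hε0, hK, hap⟩ := apriori (B1 + B2 + B3) C (by positivity) hC.le
  have hε : 0 < min ε0 (min d0 (1 / 2)) := lt_min hε0 (lt_min hd0 (by norm_num))
  obtain ⟨q1, hq1⟩ := pleaf_small h.tmap hε
  -- everything along one curve
  have key : ∀ p q : ℕ, PQ p q → max q0 q1 ≤ q → ∃ L : ℝ → ℝ, Orb p q L r b C ∧ Apr p q L K ∧
      ∀ x, ∃ ρm ρp : ℝ, Rel R1 R2 (L (x - (p:ℝ) / q)) (L x - L (x - (p:ℝ) / q)) ρm ∧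
      Rel R1 R2 (L (x + (p:ℝ) / q)) (-(L (x + (p:ℝ) / q) - L x)) ρp ∧
      (L (x + (p:ℝ) / q) - L x) - (L x - L (x - (p:ℝ) / q)) =
      ((L x - L (x - (p:ℝ) / q)) * ρp - (L (x + (p:ℝ) / q) - L x) * ρm) / 2 := by
    intro p q hpq hq
    obtain ⟨L, hL⟩ := hq0 p q hpq ((le_max_left _ _).trans hq)
    have hs : ∀ x, L (x + (p:ℝ) / q) - L x ≤ min ε0 (min d0 (1 / 2)) := by
      intro x
      have := hq1 p q L hpq ((le_max_right _ _).trans hq) hL x
      rwa [mul_one] at this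
    have hω : 0 < (p:ℝ) / q := by
      have h1 : 0 < p := by rcases hpq.1 with h | h <;> omega
      have h2 : 0 < q := by have := hpq.2.1; omega
      have : (0:ℝ) < p := by exact_mod_cast h1
      have : (0:ℝ) < q := by exact_mod_cast h2
      positivity
    have hrel := orb_of_pleaf h hW hr.continuous hm.continuous hode hR1 hR2 hpq hL
      (ε := 1 / 2) (by norm_num)
      (fun x => (hs x).trans ((min_le_right _ _).trans (min_le_right _ _)))
    have horb : Orb p q L r b C := by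
      refine ⟨hL.cont, hL.mono, hL.per, ?_, ?_⟩
      · intro x
        have := hL.orb x
        simpa only [mul_one] using this
      · intro x
        obtain ⟨ρm, ρp, h1, h2, h3⟩ := hrel x
        have hm0 : 0 < L x - L (x - (p:ℝ) / q) := by
          have := hL.mono (show x - (p:ℝ) / q < x by linarith)
          linarith
        have hp0 : 0 < L (x + (p:ℝ) / q) - L x := by
          have := hL.mono (show x < x + (p:ℝ) / q by linarith)
          linarith
        have hm1 : L x - L (x - (p:ℝ) / q) ≤ min ε0 (min d0 (1 / 2)) := by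
          have := hs (x - (p:ℝ) / q)
          rwa [sub_add_cancel] at this
        have t1 := htay _ _ _ (by
          rw [abs_of_pos hm0]
          exact hm1.trans ((min_le_right _ _).trans (min_le_left _ _))) h1
        have t2 := htay _ _ _ (by
          rw [abs_neg, abs_of_pos hp0]
          exact (hs x).trans ((min_le_right _ _).trans (min_le_left _ _))) h2
        refine ⟨ρm, ρp, t1, ?_, h3⟩
        have e1 : ρp + r (L (x + (p:ℝ) / q)) / 6 * (L (x + (p:ℝ) / q) - L x) ^ 2 -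
            b (L (x + (p:ℝ) / q)) * (L (x + (p:ℝ) / q) - L x) ^ 3 =
            ρp + r (L (x + (p:ℝ) / q)) / 6 * (-(L (x + (p:ℝ) / q) - L x)) ^ 2 +
            (deriv r (L (x + (p:ℝ) / q)) / 10 + m (L (x + (p:ℝ) / q)) / 20) *
              (-(L (x + (p:ℝ) / q) - L x)) ^ 3 := by
          simp only [hb]
          ring
        rw [e1]
        refine t2.trans (le_of_eq ?_)
        ring
    refine ⟨L, horb, ?_, hrel⟩
    refine hap p q L r b hpq (fun x => (hB1' x).trans (by linarith)) (fun x y => ?_)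
      (fun x => (hB3' x).trans (by linarith)) horb (fun x => (hs x).trans (min_le_left _ _))
    exact (hlip x y).trans (mul_le_mul_of_nonneg_right (by linarith) (abs_nonneg _))
  have hint : ∫ x in (0:ℝ)..1, m x = 0 := by
    refine int_m_zero hr hm pr pm (C := C) (K := K) (q0 := max (max q0 q1) 2) hC.le hK.le ?_
    intro q hq
    obtain ⟨L, h1, h2, -⟩ := key 1 q ⟨Or.inl rfl, (le_max_right _ _).trans hq,
      Nat.coprime_one_left q⟩ ((le_max_left _ _).trans hq)
    exact ⟨L, h1, h2⟩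
  have pR1 : Function.Periodic R1 1 := by
    intro x
    have := prim_per hm.continuous pm x
    simp only [hR1d]
    rw [this, hint, add_zero]
  refine ⟨r, m, R1, R2, K, max q0 q1, hr, hm, pr, pm, hode, hR1, hR2, pR1, ?_, hK.le, ?_⟩
  · intro x
    simp only [hR2d]
    rw [pr x, pR1 x]
  · intro p q hpq hq
    obtain ⟨L, h1, h2, h3⟩ := key p q hpq hq
    refine ⟨fun x => L x - x, h1.cont.sub continuous_id, ?_, h1.orb, h2.near, ?_, ?_⟩
    · intro x
      simp only [h1.per x]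
      ring
    · intro x
      have := h2.step x
      have e : L (x + (p:ℝ) / q) - (x + (p:ℝ) / q) - (L x - x) =
          L (x + (p:ℝ) / q) - L x - (p:ℝ) / q := by ring
      simp only [e]
      exact this
    · intro x
      obtain ⟨ρm, ρp, k1, k2, k3⟩ := h3 x
      refine ⟨ρm, ρp, ?_, ?_, ?_⟩
      · have e1 : x - (p:ℝ) / q + (L (x - (p:ℝ) / q) - (x - (p:ℝ) / q)) = L (x - (p:ℝ) / q) := by
          ring
        have e2 : (p:ℝ) / q + (L x - x) - (L (x - (p:ℝ) / q) - (x - (p:ℝ) / q)) =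
            L x - L (x - (p:ℝ) / q) := by ring
        simp only [e1, e2]
        exact k1
      · have e1 : x + (p:ℝ) / q + (L (x + (p:ℝ) / q) - (x + (p:ℝ) / q)) = L (x + (p:ℝ) / q) := by
          ring
        have e2 : -((p:ℝ) / q + (L (x + (p:ℝ) / q) - (x + (p:ℝ) / q)) - (L x - x)) =
            -(L (x + (p:ℝ) / q) - L x) := by ring
        simp only [e1, e2]
        exact k2
      · have e1 : (p:ℝ) / q + (L x - x) - (L (x - (p:ℝ) / q) - (x - (p:ℝ) / q)) =
            L x - L (x - (p:ℝ) / q) := by ring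
        have e2 : (p:ℝ) / q + (L (x + (p:ℝ) / q) - (x + (p:ℝ) / q)) - (L x - x) =
            L (x + (p:ℝ) / q) - L x := by ring
        have e3 : L (x + (p:ℝ) / q) - (x + (p:ℝ) / q) - 2 * (L x - x) +
            (L (x - (p:ℝ) / q) - (x - (p:ℝ) / q)) =
            (L (x + (p:ℝ) / q) - L x) - (L x - L (x - (p:ℝ) / q)) := by ring
        simp only [e1, e2, e3]
        exact k3

end Pool.Agent.MP_ae5b4e_an_RG
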