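import Mathlib
import Pool.Agent.Lib.MP_ae5b4e_an_RG.LSys

/-!
# MP_ae5b4e_an, project REG: smooth foliations are families of invariant curves (section 1)

Text: `/team-store/POR_REG.md`.
-/

noncomputable section

namespace Pool.Agent.MP_ae5b4e_an_RG

open Real Set Filter Topology MeasureTheory intervalIntegral
open scoped ContDiff
open Pool.Agent.MP_ae5b4e_an_hopf

section aux

variable {U : ℝ → ℝ → ℝ}

private lemma aux_contDiffAt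
    (hsmooth : ContDiffOn ℝ ∞ (fun z : ℝ × ℝ => U z.1 z.2) (Ioo 0 1 ×ˢ univ))
    {q : ℝ × ℝ} (hq : q.1 ∈ Ioo (0:ℝ) 1) : ContDiffAt ℝ ∞ (Uf U) q :=
  ContDiffOn.contDiffAt (f := Uf U) hsmooth (isOpen_dom.mem_nhds ⟨hq, mem_univ _⟩)

private lemma aux_hasFDerivAt
    (hsmooth : ContDiffOn ℝ ∞ (fun z : ℝ × ℝ => U z.1 z.2) (Ioo 0 1 ×ˢ univ))
    {q : ℝ × ℝ} (hq : q.1 ∈ Ioo (0:ℝ) 1) :
    HasFDerivAt (Uf U) (fderiv ℝ (Uf U) q) q :=
  ((aux_contDiffAt hsmooth hq).differentiableAt (by simp)).hasFDerivAt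

private lemma aux_hasDerivAt_comp
    (hsmooth : ContDiffOn ℝ ∞ (fun z : ℝ × ℝ => U z.1 z.2) (Ioo 0 1 ×ˢ univ))
    {γ₁ γ₂ : ℝ → ℝ} {a b t : ℝ} (h1 : HasDerivAt γ₁ a t)
    (h2 : HasDerivAt γ₂ b t) (hm : γ₁ t ∈ Ioo (0:ℝ) 1) :
    HasDerivAt (fun s => Uf U (γ₁ s, γ₂ s)) (a * Uc U (γ₁ t, γ₂ t) + b * Ut U (γ₁ t, γ₂ t)) t := by
  have h3 := (aux_hasFDerivAt hsmooth (q := (γ₁ t, γ₂ t)) hm).comp_hasDerivAt t (h1.prodMk h2)
  refine h3.congr_deriv ?_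
  have e : ((a, b) : ℝ × ℝ) = a • ((1, 0) : ℝ × ℝ) + b • ((0, 1) : ℝ × ℝ) := by
    ext <;> simp
  rw [e, map_add, map_smul, map_smul]
  rfl

private lemma aux_hasDerivAt_c
    (hsmooth : ContDiffOn ℝ ∞ (fun z : ℝ × ℝ => U z.1 z.2) (Ioo 0 1 ×ˢ univ))
    {c : ℝ} (hc : c ∈ Ioo (0:ℝ) 1) (t : ℝ) :
    HasDerivAt (fun r => Uf U (r, t)) (Uc U (c, t)) c := by
  have := aux_hasDerivAt_comp hsmooth (hasDerivAt_id c) (hasDerivAt_const c t) hc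
  simpa using this

private lemma aux_hasDerivAt_t
    (hsmooth : ContDiffOn ℝ ∞ (fun z : ℝ × ℝ => U z.1 z.2) (Ioo 0 1 ×ˢ univ))
    {c : ℝ} (hc : c ∈ Ioo (0:ℝ) 1) (t : ℝ) :
    HasDerivAt (fun r => Uf U (c, r)) (Ut U (c, t)) t := by
  have := aux_hasDerivAt_comp hsmooth (hasDerivAt_const t c) (hasDerivAt_id t) hc
  simpa using this

private lemma aux_Uc_neg
    (hsmooth : ContDiffOn ℝ ∞ (fun z : ℝ × ℝ => U z.1 z.2) (Ioo 0 1 ×ˢ univ))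
    (hmono : ∀ c ∈ Ioo (0:ℝ) 1, ∀ t, deriv (fun r => U r t) c < 0)
    {c : ℝ} (hc : c ∈ Ioo (0:ℝ) 1) (t : ℝ) : Uc U (c, t) < 0 := by
  have h1 := (aux_hasDerivAt_c hsmooth hc t).deriv
  rw [← h1]
  exact hmono c hc t

end aux

/-- For a smooth family of curves `κ` is smooth. -/
theorem contDiff_kappa {T : ℝ} {Γ : ℝ → Fin 3 → ℝ} {U : ℝ → ℝ → ℝ} {κ : ℝ → ℝ} (hC : Curve T Γ)
    (hsmooth : ContDiffOn ℝ ∞ (fun z : ℝ × ℝ => U z.1 z.2) (Ioo 0 1 ×ˢ univ))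
    (hmono : ∀ c ∈ Ioo (0:ℝ) 1, ∀ t, deriv (fun r => U r t) c < 0)
    (hlim0 : ∀ t, Tendsto (fun c => U c t) (𝓝[>] 0) atTop)
    (hfeq : ∀ c ∈ Ioo (0:ℝ) 1, ∀ t s, t < s → s < t + T → L1 Γ t s = -(U c t) →
      U c s = κ s + L1 Γ s t) : ContDiff ℝ ∞ κ := by
  rw [contDiff_iff_contDiffAt]
  intro s₀
  have hT := hC.T_pos
  have hc : (1/2:ℝ) ∈ Ioo (0:ℝ) 1 := ⟨by norm_num, by norm_num⟩
  -- a point `t` close to `s₀`
  obtain ⟨t, ht1, ht2, ht3⟩ : ∃ t, t < s₀ ∧ s₀ < t + T ∧ U (1/2) t < -L1 Γ t s₀ := by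
    have k1 : Tendsto (fun t : ℝ => -(2 / (t - s₀))) (𝓝[<] s₀) atTop := by
      have h2 : Tendsto (fun t : ℝ => s₀ - t) (𝓝[<] s₀) (𝓝[>] 0) := by
        refine tendsto_nhdsWithin_of_tendsto_nhds_of_eventually_within (s := Ioi (0:ℝ))
          (fun t : ℝ => s₀ - t) ?_ ?_
        · have h3 : Tendsto (fun t : ℝ => s₀ - t) (𝓝 s₀) (𝓝 (s₀ - s₀)) :=
            (continuous_const.sub continuous_id).tendsto s₀
          rw [sub_self] at h3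
          exact h3.mono_left nhdsWithin_le_nhds
        · filter_upwards [self_mem_nhdsWithin] with t ht
          show 0 < s₀ - t
          have : t < s₀ := ht
          linarith
      have h3 := (tendsto_inv_nhdsGT_zero.comp h2).const_mul_atTop (by norm_num : (0:ℝ) < 2)
      refine h3.congr fun t => ?_
      simp only [Function.comp]
      have : t - s₀ = -(s₀ - t) := by ring
      rw [this, div_neg, neg_neg, div_eq_mul_inv]
    have k2 : Tendsto (fun t => -P1 (el Γ) (t, s₀)) (𝓝[<] s₀) (𝓝 (-P1 (el Γ) (s₀, s₀))) :=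
      ((hC.nice_el.P1.hasDerivAt_left (by simpa using hT)).continuousAt.neg).mono_left
        nhdsWithin_le_nhds
    have k3 : Tendsto (fun t => -(Uf U (1/2, t))) (𝓝[<] s₀) (𝓝 (-(Uf U (1/2, s₀)))) :=
      ((aux_hasDerivAt_t hsmooth hc s₀).continuousAt.neg).mono_left nhdsWithin_le_nhds
    have k4 := (k1.atTop_add k2).atTop_add k3
    have e1 := k4.eventually_gt_atTop 0
    have e2 : ∀ᶠ t in 𝓝[<] s₀, t ∈ Ioo (s₀ - T) s₀ := Ioo_mem_nhdsLT (by linarith)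
    obtain ⟨t, h1, h2⟩ := (e1.and e2).exists
    refine ⟨t, h2.2, by linarith [h2.1], ?_⟩
    rw [hC.L1_eq h2.2.ne (by rw [abs_lt]; constructor <;> linarith [h2.1, h2.2])]
    have : Uf U (1/2, t) = U (1/2) t := rfl
    linarith
  obtain ⟨c₀, hc₀, hc₀'⟩ : ∃ c₀ ∈ Ioo (0:ℝ) 1, Uf U (c₀, t) = -L1 Γ t s₀ := by
    have e1 : ∀ᶠ c in 𝓝[>] (0:ℝ), -L1 Γ t s₀ < U c t := (hlim0 t).eventually_gt_atTop _
    have e2 : ∀ᶠ c in 𝓝[>] (0:ℝ), c ∈ Ioo (0:ℝ) 1 := Ioo_mem_nhdsGT one_pos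
    obtain ⟨a, ha1, ha2⟩ := (e1.and e2).exists
    have hcont : ContinuousOn (fun c => Uf U (c, t)) (Ioo 0 1) := fun c hc =>
      (aux_hasDerivAt_c hsmooth hc t).continuousAt.continuousWithinAt
    have := isPreconnected_Ioo.intermediate_value hc ha2 hcont
    obtain ⟨c, hc, hc'⟩ := this (show -L1 Γ t s₀ ∈ Icc _ _ from ⟨ht3.le, ha1.le⟩)
    exact ⟨c, hc, hc'⟩
  set φ : ℝ → ℝ := fun c => Uf U (c, t) with hφ
  have hφs : ContDiffAt ℝ ∞ φ c₀ :=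
    (aux_contDiffAt hsmooth (q := (c₀, t)) hc₀).comp c₀ (contDiffAt_id.prodMk contDiffAt_const)
  have hφd : HasDerivAt φ (Uc U (c₀, t)) c₀ := aux_hasDerivAt_c hsmooth hc₀ t
  have hd0 := (aux_Uc_neg hsmooth hmono hc₀ t).ne
  set e : ℝ ≃L[ℝ] ℝ := ContinuousLinearEquiv.unitsEquivAut ℝ (Units.mk0 _ hd0) with he
  have hfd : HasFDerivAt φ (e : ℝ →L[ℝ] ℝ) c₀ := by
    rw [hasFDerivAt_iff_hasDerivAt]
    refine hφd.congr_deriv ?_
    simp [he]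
  set g := hφs.localInverse hfd (by simp) with hg
  have hgs : ContDiffAt ℝ ∞ g (φ c₀) := hφs.to_localInverse hfd (by simp)
  have hga : g (φ c₀) = c₀ := hφs.localInverse_apply_image hfd (by simp)
  have hstrict : HasStrictFDerivAt φ (e : ℝ →L[ℝ] ℝ) c₀ := hφs.hasStrictFDerivAt' hfd (by simp)
  have hright : ∀ᶠ y in 𝓝 (φ c₀), φ (g y) = y := hstrict.eventually_right_inverse
  have hmem : ∀ᶠ y in 𝓝 (φ c₀), g y ∈ Ioo (0:ℝ) 1 := by
    have h1 : Tendsto g (𝓝 (φ c₀)) (𝓝 c₀) := by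
      have := hgs.continuousAt.tendsto
      rwa [hga] at this
    exact h1.eventually (isOpen_Ioo.mem_nhds hc₀)
  have hval : φ c₀ = -L1 Γ t s₀ := hc₀'
  rw [hval] at hgs hright hmem hga
  have hn := (hC.dd_pos_right ht1 ht2).ne'
  have hn' := (hC.dd_pos_left ht1 ht2).ne'
  have hLs : ContDiffAt ℝ ∞ (fun s => -L1 Γ t s) s₀ := by
    have k := (hC.contDiffAt_L1 (p := (t, s₀)) hn).comp s₀
      (f := fun s : ℝ => (t, s)) (contDiffAt_const.prodMk contDiffAt_id)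
    exact k.neg
  have hLs' : ContDiffAt ℝ ∞ (fun s => L1 Γ s t) s₀ :=
    (hC.contDiffAt_L1 (p := (s₀, t)) hn').comp s₀
      (f := fun s : ℝ => (s, t)) (contDiffAt_id.prodMk contDiffAt_const)
  have htend : Tendsto (fun s => -L1 Γ t s) (𝓝 s₀) (𝓝 (-L1 Γ t s₀)) := hLs.continuousAt
  have o1 : ∀ᶠ s in 𝓝 s₀, t < s := isOpen_Ioi.mem_nhds ht1
  have o2 : ∀ᶠ s in 𝓝 s₀, s < t + T := isOpen_Iio.mem_nhds ht2
  have hform : κ =ᶠ[𝓝 s₀] fun s => Uf U (g (-L1 Γ t s), s) - L1 Γ s t := by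
    filter_upwards [htend.eventually hright, htend.eventually hmem, o1, o2] with s h1 h2 h3 h4
    have h5 := hfeq _ h2 t s h3 h4 (by
      have : U (g (-L1 Γ t s)) t = -L1 Γ t s := h1
      rw [this, neg_neg])
    have h6 : Uf U (g (-L1 Γ t s), s) = U (g (-L1 Γ t s)) s := rfl
    rw [h6, h5]
    ring
  refine ContDiffAt.congr_of_eventuallyEq ?_ hform
  refine ContDiffAt.sub ?_ hLs'
  refine ContDiffAt.comp (g := Uf U) (f := fun s => (g (-L1 Γ t s), s)) s₀ ?_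
    ((ContDiffAt.comp (g := g) (f := fun s => -L1 Γ t s) s₀ hgs hLs).prodMk contDiffAt_id)
  refine aux_contDiffAt hsmooth ?_
  show g (-L1 Γ t s₀) ∈ Ioo (0:ℝ) 1
  rw [hga]; exact hc₀

theorem strictAnti_of_deriv {U : ℝ → ℝ → ℝ}
    (hsmooth : ContDiffOn ℝ ∞ (fun z : ℝ × ℝ => U z.1 z.2) (Ioo 0 1 ×ˢ univ))
    (hmono : ∀ c ∈ Ioo (0:ℝ) 1, ∀ t, deriv (fun r => U r t) c < 0) (t : ℝ) :
    StrictAntiOn (fun c => U c t) (Ioo 0 1) := by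
  refine strictAntiOn_of_deriv_neg (convex_Ioo 0 1) ?_ ?_
  · intro c hc
    exact (aux_hasDerivAt_c hsmooth hc t).continuousAt.continuousWithinAt
  · intro c hc
    rw [interior_Ioo] at hc
    exact hmono c hc t

end Pool.Agent.MP_ae5b4e_an_RG
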