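import Mathlib
import Pool.Agent.Lib.MP_ae5b4e_an_RG.Geo
import Pool.Agent.Lib.MP_ae5b4e_an_RG.Core
import Pool.Agent.Lib.MP_ae5b4e_an_RG.EndF
import Pool.Agent.Lib.MP_ae5b4e_an_RG.AnD
import Pool.Agent.Lib.MP_ae5b4e_an_RG.LOf

/-!
# MP_ae5b4e_an, project REG: THEOREM REG

Text: `/team-store/POR_REG.md`.
-/

noncomputable section

namespace Pool.Agent.MP_ae5b4e_an_RG

open Real Set Filter Topology MeasureTheory intervalIntegral
open scoped ContDiff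
open Pool.Agent.MP_ae5b4e_an_hopf

private lemma Dec.mono' {A A' : ℝ} {R : ℝ → ℝ} (h : Dec 0 0 A R) (hA : A ≤ A') :
    Dec 0 0 A' R := by
  obtain ⟨a, h1, h2⟩ := h
  refine ⟨a, fun k => (h1 k).trans ?_, h2⟩
  have : 0 < V 0 0 3 k := by
    unfold V w
    positivity
  exact div_le_div_of_nonneg_right hA this.le

private lemma rc_add {R S : ℝ → ℝ} (hR : Continuous R) (hS : Continuous S) (k : ℤ) :
    rc (fun x => R x + S x) k = rc R k + rc S k := by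
  unfold rc fc
  have he : Continuous (e (-k)) := by
    unfold e
    fun_prop
  rw [← intervalIntegral.integral_add]
  · refine intervalIntegral.integral_congr fun x _ => ?_
    show ((R x + S x : ℝ) : ℂ) * e (-k) x = (R x : ℂ) * e (-k) x + (S x : ℂ) * e (-k) x
    push_cast
    ring
  · exact (Continuous.intervalIntegrable (by fun_prop) _ _)
  · exact (Continuous.intervalIntegrable (by fun_prop) _ _)

private lemma deriv_pi_apply {P : ℝ → Fin 3 → ℝ} (hP : ContDiff ℝ ∞ P) (i : Fin 3) :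
    deriv (fun x => P x i) = fun x => deriv P x i := by
  funext x
  have h1 : HasDerivAt P (deriv P x) x := ((contDiff_infty_iff_deriv.1 hP).1 x).hasDerivAt
  exact ((hasDerivAt_pi.1 h1) i).deriv

/-- decay of the coefficients of the derivative -/
private lemma decay_mul {A ρ : ℝ} (hA : 0 ≤ A) (hρ : 0 < ρ) (k : ℤ) :
    2 * π * |(k:ℝ)| * (A * Real.exp (-(ρ * |(k:ℝ)|))) ≤
      (4 * π * A / ρ) * Real.exp (-(ρ / 2 * |(k:ℝ)|)) := by
  have h1 : ρ / 2 * |(k:ℝ)| ≤ Real.exp (ρ / 2 * |(k:ℝ)|) := by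
    have := Real.add_one_le_exp (ρ / 2 * |(k:ℝ)|)
    linarith
  have h2 : Real.exp (-(ρ * |(k:ℝ)|)) =
      Real.exp (-(ρ / 2 * |(k:ℝ)|)) * Real.exp (-(ρ / 2 * |(k:ℝ)|)) := by
    rw [← Real.exp_add]
    congr 1
    ring
  have h3 : ρ / 2 * |(k:ℝ)| * Real.exp (-(ρ / 2 * |(k:ℝ)|)) ≤ 1 := by
    rw [Real.exp_neg, ← div_eq_mul_inv, div_le_one (Real.exp_pos _)]
    exact h1
  have h4 : 0 ≤ 4 * π * A / ρ := by positivity
  have e1 : 2 * π * |(k:ℝ)| * (A * Real.exp (-(ρ * |(k:ℝ)|))) =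
      (4 * π * A / ρ) * Real.exp (-(ρ / 2 * |(k:ℝ)|)) *
        (ρ / 2 * |(k:ℝ)| * Real.exp (-(ρ / 2 * |(k:ℝ)|))) := by
    rw [h2]
    field_simp
    ring
  rw [e1]
  have h5 : 0 ≤ (4 * π * A / ρ) * Real.exp (-(ρ / 2 * |(k:ℝ)|)) :=
    mul_nonneg h4 (Real.exp_pos _).le
  calc _ ≤ (4 * π * A / ρ) * Real.exp (-(ρ / 2 * |(k:ℝ)|)) * 1 :=
        mul_le_mul_of_nonneg_left h3 h5
    _ = _ := mul_one _

/-- THEOREM REG for normalized space curves -/
private theorem analytic_of_geo {P : ℝ → Fin 3 → ℝ} {U : ℝ → ℝ → ℝ}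
    (h : LSys 1 P U (fun _ => 0)) (hW : ∀ x, Wr P x = 1) (i : Fin 3) :
    AnalyticOnNhd ℝ (fun x => P x i) univ := by
  obtain ⟨r, m, R1, R2, Cs, q0, hr, hm, pr, pm, hode, hR1, hR2, pR1, pR2, hCs, hleaf⟩ :=
    geo h hW
  have sR1 : ContDiff ℝ ∞ R1 := by
    rw [contDiff_infty_iff_deriv]
    refine ⟨fun x => (hR1 x).differentiableAt, ?_⟩
    rw [show deriv R1 = m from funext fun x => (hR1 x).deriv]
    exact hm
  have eR2 : R2 = fun x => r x - R1 x := funext hR2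
  have sR2 : ContDiff ℝ ∞ R2 := by
    rw [eR2]
    exact hr.sub sR1
  obtain ⟨A1, hA1, D1⟩ := dec_of_contDiff sR1 pR1
  obtain ⟨A2, hA2, D2⟩ := dec_of_contDiff sR2 pR2
  obtain ⟨ρ, A, hρ, hA, hdec⟩ := core R1 R2 (max A1 A2) Cs q0 (hA1.trans (le_max_left _ _)) hCs
    (D1.mono' (le_max_left _ _)) (D2.mono' (le_max_right _ _)) hleaf
  -- the coefficients of the equation
  have hexp : ∀ k : ℤ, Real.exp (-(ρ * |(k:ℝ)|)) ≤ Real.exp (-(ρ / 2 * |(k:ℝ)|)) := by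
    intro k
    refine Real.exp_le_exp.2 ?_
    have : 0 ≤ ρ * |(k:ℝ)| := by positivity
    nlinarith
  set A' : ℝ := max (2 * A) (4 * π * A / ρ) with hA'
  have hrk : ∀ k : ℤ, ‖rc r k‖ ≤ A' * Real.exp (-(ρ / 2 * |(k:ℝ)|)) := by
    intro k
    have e1 : r = fun x => R1 x + R2 x := by
      funext x
      rw [hR2]
      ring
    rw [e1, rc_add sR1.continuous sR2.continuous]
    calc ‖rc R1 k + rc R2 k‖ ≤ ‖rc R1 k‖ + ‖rc R2 k‖ := norm_add_le _ _
      _ ≤ A * Real.exp (-(ρ * |(k:ℝ)|)) + A * Real.exp (-(ρ * |(k:ℝ)|)) :=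
        add_le_add (hdec k).1 (hdec k).2
      _ = 2 * A * Real.exp (-(ρ * |(k:ℝ)|)) := by ring
      _ ≤ 2 * A * Real.exp (-(ρ / 2 * |(k:ℝ)|)) :=
        mul_le_mul_of_nonneg_left (hexp k) (by positivity)
      _ ≤ _ := mul_le_mul_of_nonneg_right (le_max_left _ _) (Real.exp_pos _).le
  have hmk : ∀ k : ℤ, ‖rc m k‖ ≤ A' * Real.exp (-(ρ / 2 * |(k:ℝ)|)) := by
    intro k
    have e1 : m = deriv R1 := funext fun x => (hR1 x).deriv.symm
    rw [e1, rc_deriv sR1 pR1]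
    have e2 : ‖2 * (π:ℂ) * Complex.I * (k:ℂ) * rc R1 k‖ = 2 * π * |(k:ℝ)| * ‖rc R1 k‖ := by
      rw [norm_mul, norm_mul, norm_mul, norm_mul, Complex.norm_I, mul_one]
      congr 2
      · congr 1
        · simp
        · simp [abs_of_pos Real.pi_pos]
      · simp
    rw [e2]
    calc 2 * π * |(k:ℝ)| * ‖rc R1 k‖ ≤ 2 * π * |(k:ℝ)| * (A * Real.exp (-(ρ * |(k:ℝ)|))) :=
          mul_le_mul_of_nonneg_left (hdec k).1 (by positivity)
      _ ≤ _ := decay_mul hA.le hρ k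
      _ ≤ _ := mul_le_mul_of_nonneg_right (le_max_right _ _) (Real.exp_pos _).le
  -- the components
  have hP := h.curve.smooth
  have hP1 := h.curve.smooth1
  have hP2 := h.curve.smooth2
  have hf : ContDiff ℝ ∞ (fun x => P x i) := contDiff_pi.1 hP i
  have pf : Function.Periodic (fun x => P x i) 1 := fun x => by
    show P (x + 1) i = P x i
    rw [h.curve.per]
  have e0 := deriv_pi_apply hP i
  have e1 := deriv_pi_apply hP1 i
  have e2 := deriv_pi_apply hP2 i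
  obtain ⟨A'', ρ1, hρ1, hdecf⟩ := ode_decay (f := fun x => P x i) (half_pos hρ) hf pf hr pr hm pm
    hrk hmk (by
      intro x
      rw [e0, e1, e2]
      have := congrFun (hode x) i
      simpa using this)
  exact analytic_of_decay hf pf hρ1 hdecf

/-- THEOREM REG for space curves: the normalized lift is analytic. -/
theorem LSys.analytic {T : ℝ} {Γ : ℝ → Fin 3 → ℝ} {U : ℝ → ℝ → ℝ} {κ : ℝ → ℝ}
    (h : LSys T Γ U κ) :
    ∃ (σ lam : ℝ → ℝ), ContDiff ℝ ∞ σ ∧ (∀ x, 0 < deriv σ x) ∧ (∀ x, σ (x + 1) = σ x + T) ∧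
      ContDiff ℝ ∞ lam ∧ (∀ x, 0 < lam x) ∧
      (∀ x, deriv lam x = lam x * (κ (σ x) / 2) * deriv σ x) ∧
      ∀ i, AnalyticOnNhd ℝ (fun x => lam x * Γ (σ x) i) univ := by
  obtain ⟨σ, lam, U', hσ, hσ', hσp, hlam, hlam0, hlamd, hS, hW⟩ := h.normalize
  exact ⟨σ, lam, hσ, hσ', hσp, hlam, hlam0, hlamd, fun i => analytic_of_geo hS hW i⟩

/-- THEOREM REG for plane curves. -/
theorem reg (γ : ConvexCurve) (U : ℝ → ℝ → ℝ) (κ : ℝ → ℝ)
    (hcont : ContinuousOn (fun z : ℝ × ℝ => U z.1 z.2) (Ioo 0 1 ×ˢ univ))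
    (hper : ∀ c ∈ Ioo (0:ℝ) 1, ∀ t, U c (t + γ.T) = U c t)
    (hsimple : ∀ c ∈ Ioo (0:ℝ) 1, ∀ t t', γ.pt t (U c t) = γ.pt t' (U c t') →
      ∃ n : ℤ, t' = t + n * γ.T)
    (hanti : ∀ t, StrictAntiOn (fun c => U c t) (Ioo 0 1))
    (hlim₀ : ∀ t, Tendsto (fun c => U c t) (𝓝[>] 0) atTop)
    (hreg : ContDiff ℝ ∞ κ ∨ (ContDiffOn ℝ ∞ (fun z : ℝ × ℝ => U z.1 z.2) (Ioo 0 1 ×ˢ univ) ∧
      ∀ c ∈ Ioo (0:ℝ) 1, ∀ t, deriv (fun r => U r t) c < 0))
    (hproj : ∀ c ∈ Ioo (0:ℝ) 1, ∀ t u v, u ≠ v → γ.pt t u ∈ γ.leaf U c →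
      γ.pt t v ∈ γ.leaf U c → u + v = κ t) :
    ∃ σ : ℝ → ℝ, ContDiff ℝ ∞ σ ∧ (∀ x, 0 < deriv σ x) ∧ (∀ x, σ (x + 1) = σ x + γ.T) ∧
      AnalyticOnNhd ℝ (fun x => γ.x (σ x)) univ ∧ AnalyticOnNhd ℝ (fun x => γ.y (σ x)) univ ∧
      AnalyticOnNhd ℝ (fun x => deriv σ x * κ (σ x)) univ := by
  have hfeq : ∀ c ∈ Ioo (0:ℝ) 1, ∀ t s, t < s → s < t + γ.T → L1 γ.Γ t s = -(U c t) →
      U c s = κ s + L1 γ.Γ s t := fun c hc t s h1 h2 h3 =>
    γ.feq_of_proj (hsimple c hc) (hproj c hc) h1 h2 h3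
  have hκ : ContDiff ℝ ∞ κ := by
    rcases hreg with h | ⟨h1, h2⟩
    · exact h
    · exact contDiff_kappa γ.isCurve h1 h2 hlim₀ hfeq
  have h : LSys γ.T γ.Γ U κ :=
    { curve := γ.isCurve
      cont := hcont
      per := hper
      anti := hanti
      lim0 := hlim₀
      smooth_κ := hκ
      feq := hfeq }
  obtain ⟨σ, lam, hσ, hσ', hσp, hlam, hlam0, hlamd, hA⟩ := h.analytic
  have al : AnalyticOnNhd ℝ lam univ := by
    have := hA 2
    have e : (fun x => lam x * γ.Γ (σ x) 2) = lam := by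
      funext x
      simp [ConvexCurve.Γ]
    rwa [e] at this
  have hne : ∀ x ∈ (univ : Set ℝ), lam x ≠ 0 := fun x _ => (hlam0 x).ne'
  refine ⟨σ, hσ, hσ', hσp, ?_, ?_, ?_⟩
  · have k := (hA 0).div al hne
    have e : (fun x => γ.x (σ x)) = (fun x => lam x * γ.Γ (σ x) 0) / lam := by
      funext x
      have := (hlam0 x).ne'
      simp only [Pi.div_apply, ConvexCurve.Γ, Matrix.cons_val_zero]
      field_simp
    rw [e]
    exact k
  · have k := (hA 1).div al hne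
    have e : (fun x => γ.y (σ x)) = (fun x => lam x * γ.Γ (σ x) 1) / lam := by
      funext x
      have := (hlam0 x).ne'
      simp only [Pi.div_apply, ConvexCurve.Γ, Matrix.cons_val_one, Matrix.cons_val_zero]
      field_simp
    rw [e]
    exact k
  · have ad : AnalyticOnNhd ℝ (deriv lam) univ := al.deriv
    have k := (analyticOnNhd_const (v := (2:ℝ))).mul (ad.div al hne)
    have e : (fun x => deriv σ x * κ (σ x)) = (fun _ => (2:ℝ)) * (deriv lam / lam) := by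
      funext x
      have := (hlam0 x).ne'
      simp only [Pi.mul_apply, Pi.div_apply, hlamd x]
      field_simp
    rw [e]
    exact k

end Pool.Agent.MP_ae5b4e_an_RG
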