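import Mathlib
import Pool.Agent.Lib.MP_ae5b4e_an_RG.Fin
import Pool.Agent.Lib.MP_ae5b4e_an_total.Leaf

/-!
# MP_ae5b4e_an, project REG: curves with an analytic parametrization

If the curve is given by analytic functions then the field of involutions is analytic in the same
parameter.
-/

noncomputable section

namespace Pool.Agent.MP_ae5b4e_an_RG

open Real Set Filter Topology MeasureTheory intervalIntegral
open scoped ContDiff
open Pool.Agent.MP_ae5b4e_an_hopf

/-- a local inverse of an analytic function with nonzero derivative -/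
private lemma analyticAt_of_comp {g σ : ℝ → ℝ} {x : ℝ} (hg : AnalyticAt ℝ g (σ x))
    (hg' : deriv g (σ x) ≠ 0) (hσ : ContinuousAt σ x) (h : AnalyticAt ℝ (fun y => g (σ y)) x) :
    AnalyticAt ℝ σ x := by
  set r := hg.hasStrictDerivAt.localInverse _ _ _ hg' with hr
  have hra : AnalyticAt ℝ r (g (σ x)) := hg.analyticAt_localInverse hg'
  have h1 : AnalyticAt ℝ (fun y => r (g (σ y))) x := AnalyticAt.comp (g := r)
    (f := fun y => g (σ y)) hra h
  have h2 : ∀ᶠ z in 𝓝 (σ x), r (g z) = z :=
    HasStrictFDerivAt.eventually_left_inverse _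
  refine h1.congr ?_
  filter_upwards [hσ.eventually h2] with y hy
  exact hy

/-- The field of involutions is analytic if the curve is given by analytic functions. -/
theorem kappa_analytic (γ : ConvexCurve) (hx : AnalyticOnNhd ℝ γ.x univ)
    (hy : AnalyticOnNhd ℝ γ.y univ) {U : ℝ → ℝ → ℝ} {κ : ℝ → ℝ} (h : LSys γ.T γ.Γ U κ) :
    AnalyticOnNhd ℝ κ univ := by
  obtain ⟨σ, lam, hσ, hσ', hσp, hlam, hlam0, hlamd, hA⟩ := h.analytic
  have al : AnalyticOnNhd ℝ lam univ := by
    have := hA 2
    have e : (fun x => lam x * γ.Γ (σ x) 2) = lam := by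
      funext x
      simp [ConvexCurve.Γ]
    rwa [e] at this
  have hne : ∀ x ∈ (univ : Set ℝ), lam x ≠ 0 := fun x _ => (hlam0 x).ne'
  have ax : AnalyticOnNhd ℝ (fun x => γ.x (σ x)) univ := by
    have k := (hA 0).div al hne
    have e : (fun x => γ.x (σ x)) = (fun x => lam x * γ.Γ (σ x) 0) / lam := by
      funext x
      have := (hlam0 x).ne'
      simp only [Pi.div_apply, ConvexCurve.Γ, Matrix.cons_val_zero]
      field_simp
    rw [e]
    exact k
  have ay : AnalyticOnNhd ℝ (fun x => γ.y (σ x)) univ := by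
    have k := (hA 1).div al hne
    have e : (fun x => γ.y (σ x)) = (fun x => lam x * γ.Γ (σ x) 1) / lam := by
      funext x
      have := (hlam0 x).ne'
      simp only [Pi.div_apply, ConvexCurve.Γ, Matrix.cons_val_one, Matrix.cons_val_zero]
      field_simp
    rw [e]
    exact k
  have aσ : AnalyticOnNhd ℝ σ univ := by
    intro x _
    have hc : ContinuousAt σ x := hσ.continuous.continuousAt
    by_cases h0 : deriv γ.x (σ x) = 0
    · have h1 : deriv γ.y (σ x) ≠ 0 := by
        intro h1
        have := γ.curved (σ x)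
        rw [h0, h1] at this
        simp at this
      exact analyticAt_of_comp (hy _ (mem_univ _)) h1 hc (ay x (mem_univ _))
    · exact analyticAt_of_comp (hx _ (mem_univ _)) h0 hc (ax x (mem_univ _))
  have ak : AnalyticOnNhd ℝ (fun x => κ (σ x)) univ := by
    have ad : AnalyticOnNhd ℝ (deriv lam) univ := al.deriv
    have as : AnalyticOnNhd ℝ (deriv σ) univ := aσ.deriv
    have k := ((analyticOnNhd_const (v := (2:ℝ))).mul (ad.div al hne)).div as
      fun x _ => (hσ' x).ne'
    have e : (fun x => κ (σ x)) = ((fun _ => (2:ℝ)) * (deriv lam / lam)) / deriv σ := by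
      funext x
      have h1 := (hlam0 x).ne'
      have h2 := (hσ' x).ne'
      simp only [Pi.mul_apply, Pi.div_apply, hlamd x]
      field_simp
    rw [e]
    exact k
  intro t _
  obtain ⟨x, rfl⟩ : ∃ x, σ x = t := by
    have hT := γ.T_pos
    have hn : ∀ n : ℕ, σ n = σ 0 + n * γ.T ∧ σ (-n) = σ 0 - n * γ.T := by
      intro n
      induction n with
      | zero => simp
      | succ n ih =>
        constructor
        · have h := hσp n
          rw [ih.1] at h
          push_cast
          rw [h]
          ring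
        · have h := hσp (-((n + 1 : ℕ) : ℝ))
          have e : -(((n + 1 : ℕ) : ℝ)) + 1 = -(n:ℝ) := by push_cast; ring
          rw [e, ih.2] at h
          push_cast at h ⊢
          linarith
    obtain ⟨n, hn'⟩ := exists_nat_gt (|t - σ 0| / γ.T)
    rw [div_lt_iff₀ hT] at hn'
    obtain ⟨h1, h2⟩ := hn n
    have h3 := abs_lt.1 hn'
    have hle : -(n:ℝ) ≤ n := by
      have : (0:ℝ) ≤ n := n.cast_nonneg
      linarith
    have hmem : t ∈ Icc (σ (-n)) (σ n) := by
      rw [h1, h2]
      exact ⟨by linarith [h3.1], by linarith [h3.2]⟩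
    obtain ⟨s, -, hs'⟩ := intermediate_value_Icc hle hσ.continuous.continuousOn hmem
    exact ⟨s, hs'⟩
  exact (analyticAt_comp_iff_of_deriv_ne_zero (aσ x (mem_univ _)) (hσ' x).ne').1
    (ak x (mem_univ _))

end Pool.Agent.MP_ae5b4e_an_RG
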