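import Mathlib
import Pool.Agent.Lib.MP_ae5b4e_an_RG.Par
import Pool.Agent.Lib.MP_ae5b4e_an_rat.Local

/-!
# MP_ae5b4e_an, project REG: the circle

Continuous families of invariant curves around the unit circle, smooth field of involutions:
the field of involutions is real-analytic.
-/

noncomputable section

namespace Pool.Agent.MP_ae5b4e_an_RG

open Real Set Filter Topology MeasureTheory intervalIntegral
open scoped ContDiff
open Pool.Agent.MP_ae5b4e_an_hopf
open Pool.Agent.MP_ae5b4e_an_rat (nxt)

/-- the unit circle -/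
def circ1 : ConvexCurve where
  x := Real.cos
  y := Real.sin
  T := 2 * π
  T_pos := by positivity
  smooth_x := Real.contDiff_cos
  smooth_y := Real.contDiff_sin
  per_x t := Real.cos_add_two_pi t
  per_y t := Real.sin_add_two_pi t
  curved t := by
    have h1 : deriv Real.cos = fun t => -Real.sin t := funext fun t => by simp
    have h2 : deriv Real.sin = Real.cos := Real.deriv_sin
    have h3 : deriv (fun t => -Real.sin t) t = -Real.cos t := by
      simp
    rw [h2, h1, h3]
    have := Real.sin_sq_add_cos_sq t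
    show 0 < -Real.sin t * -Real.sin t - Real.cos t * -Real.cos t
    nlinarith
  convex t s h1 h2 := by
    have e1 : deriv Real.cos t = -Real.sin t := by simp
    have e2 : deriv Real.sin t = Real.cos t := by simp
    rw [e1, e2]
    have h3 : Real.cos (s - t) < 1 := by
      rcases (Real.cos_le_one (s - t)).lt_or_eq with h | h
      · exact h
      · exfalso
        rw [Real.cos_eq_one_iff] at h
        obtain ⟨n, hn⟩ := h
        have hpi := Real.pi_pos
        have k1 : (0:ℝ) < n := by
          by_contra hneg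
          push Not at hneg
          have : (n:ℝ) * (2 * π) ≤ 0 := mul_nonpos_of_nonpos_of_nonneg hneg (by positivity)
          linarith
        have k2 : (n:ℝ) < 1 := by
          by_contra hneg
          push Not at hneg
          have : 2 * π ≤ (n:ℝ) * (2 * π) := by nlinarith
          linarith
        have k3 : (0:ℤ) < n := by exact_mod_cast k1
        have k4 : n < (1:ℤ) := by exact_mod_cast k2
        omega
    have h4 := Real.cos_sub s t
    have h5 := Real.sin_sq_add_cos_sq t
    nlinarith

lemma L1_circ (x y : ℝ) : L1 circ1.Γ x y = Real.sin (x - y) / (1 - Real.cos (x - y)) := by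
  have e1 : dd circ1.Γ x y = 1 - Real.cos (x - y) := by
    rw [circ1.dd_Γ]
    show deriv Real.cos y * (Real.sin x - Real.sin y) -
      deriv Real.sin y * (Real.cos x - Real.cos y) = _
    rw [Real.cos_sub]
    simp only [Real.deriv_cos, Real.deriv_sin]
    have h5 := Real.sin_sq_add_cos_sq y
    nlinarith
  have e2 : ddx circ1.Γ x y = Real.sin (x - y) := by
    have h1 := circ1.isCurve.hasDerivAt_dd_left x y
    have h2 : (fun x => dd circ1.Γ x y) = fun x => 1 - Real.cos (x - y) := by
      funext x
      rw [circ1.dd_Γ]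
      show deriv Real.cos y * (Real.sin x - Real.sin y) -
        deriv Real.sin y * (Real.cos x - Real.cos y) = _
      rw [Real.cos_sub]
      simp only [Real.deriv_cos, Real.deriv_sin]
      have h5 := Real.sin_sq_add_cos_sq y
      nlinarith
    rw [h2] at h1
    have h3 : HasDerivAt (fun x => 1 - Real.cos (x - y)) (Real.sin (x - y)) x := by
      have k := (((hasDerivAt_id x).sub_const y).cos).const_sub 1
      simpa using k
    exact h1.unique h3
  unfold L1
  rw [e1, e2]

/-- half angle form of `L1` -/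
lemma L1_circ_nxt {t s u : ℝ} (h1 : t < s) (h2 : s < t + 2 * π) (hL : L1 circ1.Γ t s = -u) :
    s = t + π - 2 * arctan u ∧ L1 circ1.Γ s t = u := by
  have e1 : L1 circ1.Γ s t = -L1 circ1.Γ t s := by
    rw [L1_circ, L1_circ]
    have : t - s = -(s - t) := by ring
    rw [this, Real.sin_neg, Real.cos_neg]
    ring
  refine ⟨?_, by rw [e1, hL, neg_neg]⟩
  have e2 : L1 circ1.Γ t s = -Real.tan (π / 2 - (s - t) / 2) := by
    rw [L1_circ]
    have h3 : t - s = -(2 * ((s - t) / 2)) := by ring
    rw [h3, Real.sin_neg, Real.cos_neg, Real.sin_two_mul, Real.cos_two_mul,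
      Real.tan_pi_div_two_sub, Real.tan_eq_sin_div_cos]
    have hs : 0 < Real.sin ((s - t) / 2) :=
      Real.sin_pos_of_pos_of_lt_pi (by linarith) (by linarith)
    have h4 := Real.sin_sq_add_cos_sq ((s - t) / 2)
    have h5 : 1 - (2 * Real.cos ((s - t) / 2) ^ 2 - 1) = 2 * Real.sin ((s - t) / 2) ^ 2 := by
      linarith
    rw [h5, inv_div]
    field_simp
  have e3 : Real.tan (π / 2 - (s - t) / 2) = u := by linarith
  have e4 : arctan u = π / 2 - (s - t) / 2 := by
    rw [← e3]
    exact Real.arctan_tan (by linarith) (by linarith)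
  rw [e4]
  ring

/-- Continuous families of invariant curves around the unit circle, in the coordinate `u` (the
inverse of the signed distance to the tangency point). -/
structure CFam (U : ℝ → ℝ → ℝ) (κ : ℝ → ℝ) : Prop where
  cont : ContinuousOn (fun z : ℝ × ℝ => U z.1 z.2) (Ioo 0 1 ×ˢ univ)
  per : ∀ c ∈ Ioo (0:ℝ) 1, ∀ θ, U c (θ + 2 * π) = U c θ
  anti : ∀ θ, StrictAntiOn (fun c => U c θ) (Ioo 0 1)
  lim0 : ∀ θ, Tendsto (fun c => U c θ) (𝓝[>] 0) atTop
  smooth_κ : ContDiff ℝ ∞ κ
  feq : ∀ c ∈ Ioo (0:ℝ) 1, ∀ θ, U c (nxt U c θ) - κ (nxt U c θ) = U c θ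

namespace CFam

variable {U : ℝ → ℝ → ℝ} {κ : ℝ → ℝ}

lemma lsys (h : CFam U κ) : LSys (2 * π) circ1.Γ U κ where
  curve := circ1.isCurve
  cont := h.cont
  per := h.per
  anti := h.anti
  lim0 := h.lim0
  smooth_κ := h.smooth_κ
  feq c hc t s h1 h2 h3 := by
    obtain ⟨e1, e2⟩ := L1_circ_nxt h1 h2 h3
    have h4 := h.feq c hc t
    have e3 : nxt U c t = s := by
      unfold Pool.Agent.MP_ae5b4e_an_rat.nxt
      exact e1.symm
    rw [e3] at h4
    rw [e2]
    linarith

lemma κ_per (h : CFam U κ) (θ : ℝ) : κ (θ + 2 * π) = κ θ := h.lsys.κ_per θ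

lemma integral_κ (h : CFam U κ) : ∫ θ in (0)..(2 * π), κ θ = 0 := h.lsys.mean_zero

/-- REG for the circle -/
theorem analytic_κ (h : CFam U κ) (θ : ℝ) : AnalyticAt ℝ κ θ := by
  have hx : AnalyticOnNhd ℝ circ1.x univ := fun x _ => Real.analyticAt_cos
  have hy : AnalyticOnNhd ℝ circ1.y univ := fun x _ => Real.analyticAt_sin
  exact kappa_analytic circ1 hx hy h.lsys θ (mem_univ _)

end CFam

end Pool.Agent.MP_ae5b4e_an_RG
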