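import Mathlib
import Pool.Agent.Lib.MP_ae5b4e_an_SM.Export
import Pool.Agent.Lib.MP_ae5b4e_an_RG.Circ

/-!
# MP_ae5b4e_an, project REG: continuous families around the circle are analytic

The closing property (module SY of the project SMOOTH) for continuous leaves, and the analytic
family of solutions, for a smooth field of involutions and continuous leaves.
-/

noncomputable section

namespace Pool.Agent.MP_ae5b4e_an_RG

open Complex Set Filter Topology
open Pool.Agent.MP_ae5b4e_an_SM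
open scoped ContDiff

/-! ### Real trigonometry -/

private lemma close_cot_eq_tan (x : ℝ) : Real.cot x = Real.tan (Real.pi / 2 - x) := by
  rw [Real.tan_pi_div_two_sub, Real.cot_eq_cos_div_sin, Real.tan_eq_sin_div_cos, inv_div]

private lemma close_arctan_cot {D : ℝ} (h0 : 0 < D) (h1 : D < 2 * Real.pi) :
    Real.arctan (Real.cot (D / 2)) = Real.pi / 2 - D / 2 := by
  rw [close_cot_eq_tan]
  exact Real.arctan_tan (by linarith) (by linarith)

private lemma close_lt_cot {B D : ℝ} (h0 : 0 < D) (h1 : D < Real.pi - 2 * Real.arctan B) :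
    B < Real.cot (D / 2) := by
  rw [close_cot_eq_tan]
  have h2 := Real.neg_pi_div_two_lt_arctan B
  have h3 := Real.tan_lt_tan_of_lt_of_lt_pi_div_two h2
    (by linarith : Real.pi / 2 - D / 2 < Real.pi / 2) (by linarith)
  rwa [Real.tan_arctan] at h3

private lemma close_cot_neg (x : ℝ) : Real.cot (-x) = -Real.cot x := by
  rw [Real.cot_eq_cos_div_sin, Real.cot_eq_cos_div_sin, Real.cos_neg, Real.sin_neg, div_neg]

/-! ### Periodicity over the integers -/

private lemma close_per_int {f : ℝ → ℝ} {T : ℝ} (hf : ∀ x, f (x + T) = f x) (n : ℤ) (x : ℝ) :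
    f (x + T * n) = f x := by
  have h1 : Function.Periodic f T := hf
  have h2 := h1.int_mul n x
  rw [mul_comm] at h2
  exact h2

/-! ### The dynamics on a leaf -/

private lemma close_core {U : ℝ → ℝ → ℝ} {κ : ℝ → ℝ}
    (h : CFam U κ) {B : ℝ} (hB : ∀ θ, U (1 / 2) θ ≤ B)
    {θ : ℤ → ℝ} {q : ℕ} (hq : 0 < q) {k : ℤ}
    (hper : ∀ j, θ (j + q) = θ j + 2 * Real.pi * k)
    (hD0 : ∀ j, 0 < θ (j + 1) - θ j)
    (hD1 : ∀ j, θ (j + 1) - θ j < Real.pi - 2 * Real.arctan B)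
    (heq : ∀ j, ¬ ((q : ℤ) ∣ j) →
      Real.cot ((θ (j + 1) - θ j) / 2) - Real.cot ((θ j - θ (j - 1)) / 2) = κ (θ j)) :
    Real.cot ((θ 1 - θ 0) / 2) - Real.cot ((θ 0 - θ (-1)) / 2) = κ (θ 0) := by
  have hpi := Real.pi_pos
  have hD2 : ∀ j, θ (j + 1) - θ j < 2 * Real.pi := by
    intro j
    have h1 := hD1 j
    have h2 := Real.neg_pi_div_two_lt_arctan B
    linarith
  -- the leaf
  obtain ⟨c, hc, hc0⟩ : ∃ c ∈ Ioo (0:ℝ) 1, U c (θ 0) = Real.cot ((θ 1 - θ 0) / 2) := by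
    have hlt : B < Real.cot ((θ 1 - θ 0) / 2) := by
      have h1 := close_lt_cot (hD0 0) (hD1 0)
      simpa using h1
    have hev : ∀ᶠ c in 𝓝[>] (0:ℝ), Real.cot ((θ 1 - θ 0) / 2) ≤ U c (θ 0) :=
      (h.lim0 (θ 0)).eventually_ge_atTop _
    obtain ⟨c₁, hc₁, hc₁'⟩ := (hev.and (Ioo_mem_nhdsGT (by norm_num : (0:ℝ) < 1 / 2))).exists
    have hcont : ContinuousOn (fun c => U c (θ 0)) (Icc c₁ (1 / 2)) := by
      have h1 := h.cont
      refine h1.comp (f := fun c : ℝ => ((c, θ 0) : ℝ × ℝ)) (by fun_prop) ?_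
      intro c hc
      exact ⟨⟨lt_of_lt_of_le hc₁'.1 hc.1, lt_of_le_of_lt hc.2 (by norm_num)⟩, mem_univ _⟩
    have hiv := intermediate_value_Icc' hc₁'.2.le hcont
    obtain ⟨c, hc, hc0⟩ := hiv (show Real.cot ((θ 1 - θ 0) / 2) ∈
      Icc (U (1 / 2) (θ 0)) (U c₁ (θ 0)) from ⟨(hB _).trans hlt.le, hc₁⟩)
    exact ⟨c, ⟨lt_of_lt_of_le hc₁'.1 hc.1, lt_of_le_of_lt hc.2 (by norm_num)⟩, hc0⟩
  -- the next point
  have hnxt : ∀ n : ℤ, U c (θ n) = Real.cot ((θ (n + 1) - θ n) / 2) →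
      U c (θ (n + 1)) = κ (θ (n + 1)) + Real.cot ((θ (n + 1) - θ n) / 2) := by
    intro n hn
    have h1 : Pool.Agent.MP_ae5b4e_an_rat.nxt U c (θ n) = θ (n + 1) := by
      unfold Pool.Agent.MP_ae5b4e_an_rat.nxt
      rw [hn, close_arctan_cot (hD0 n) (hD2 n)]
      ring
    have h2 := h.feq c hc (θ n)
    rw [h1, hn] at h2
    linarith
  -- induction
  have hind : ∀ n : ℕ, n < q → U c (θ n) = Real.cot ((θ (n + 1) - θ n) / 2) := by
    intro n
    induction n with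
    | zero =>
      intro _
      simpa using hc0
    | succ n ih =>
      intro hn
      have h1 := hnxt n (ih (by omega))
      have h2 := heq ((n : ℤ) + 1) (by
        intro hdvd
        have h3 := Int.le_of_dvd (by omega) hdvd
        omega)
      have e1 : (n : ℤ) + 1 - 1 = n := by ring
      rw [e1] at h2
      push_cast
      rw [h1, ← h2]
      ring
  obtain ⟨m, rfl⟩ : ∃ m, q = m + 1 := ⟨q - 1, by omega⟩
  have h1 := hnxt m (hind m (by omega))
  have e0 : θ ((m : ℤ) + 1) = θ 0 + 2 * Real.pi * k := by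
    have := hper 0
    push_cast at this
    simpa using this
  have e1 : θ (m : ℤ) = θ (-1) + 2 * Real.pi * k := by
    have := hper (-1)
    push_cast at this
    have e : (-1 : ℤ) + (m + 1) = m := by ring
    rwa [e] at this
  have e2 : U c (θ 0 + 2 * Real.pi * k) = U c (θ 0) := close_per_int (h.per c hc) k (θ 0)
  have e3 : κ (θ 0 + 2 * Real.pi * k) = κ (θ 0) := close_per_int h.κ_per k (θ 0)
  have e4 : (θ 0 + 2 * Real.pi * k - (θ (-1) + 2 * Real.pi * k)) = θ 0 - θ (-1) := by ring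
  rw [e0, e1, e2, e3, e4, hc0] at h1
  linarith

/-! ### The Euler-Lagrange expression at real points -/

private lemma close_elc {κ : ℝ → ℝ} {b : ℝ} {ψ : ℂ → ℂ} (h : Psi κ b ψ) (x y z : ℝ) :
    elc ψ x y z = 0 ↔
      Real.cot (((ψ z).re - (ψ y).re) / 2) - Real.cot (((ψ y).re - (ψ x).re) / 2)
        = κ (ψ y).re := by
  have hre : ∀ t : ℝ, ψ t = (((ψ t).re : ℝ) : ℂ) := by
    intro t
    apply Complex.ext
    · simp
    · simp [h.real t]
  have hne : deriv ψ (y : ℂ) ≠ 0 := by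
    intro h0
    have h1 := h.pos y
    rw [h0] at h1
    simp at h1
  have hode := h.ode y
  have h2 : deriv (deriv ψ) (y : ℂ) / deriv ψ y = -((κ (ψ y).re : ℝ) : ℂ) * deriv ψ y / 2 := by
    rw [div_eq_iff hne]
    have : deriv (deriv ψ) (y : ℂ) = -(((κ (ψ y).re : ℝ) : ℂ) * deriv ψ y ^ 2) / 2 := by
      rw [hode]; ring
    rw [this]
    ring
  have h3 : elc ψ x y z = deriv ψ y / 2 *
      (((Real.cot (((ψ z).re - (ψ y).re) / 2) - Real.cot (((ψ y).re - (ψ x).re) / 2)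
        - κ (ψ y).re : ℝ)) : ℂ) := by
    unfold elc
    rw [h2]
    have e1 : (ψ z - ψ y) / 2 = ((((ψ z).re - (ψ y).re) / 2 : ℝ) : ℂ) := by
      push_cast
      rw [← hre z, ← hre y]
    have e2 : (ψ y - ψ x) / 2 = ((((ψ y).re - (ψ x).re) / 2 : ℝ) : ℂ) := by
      push_cast
      rw [← hre y, ← hre x]
    rw [e1, e2, ← ofReal_cot, ← ofReal_cot, ofReal_sub, ofReal_sub]
    ring
  rw [h3, mul_eq_zero]
  have h4 : deriv ψ (y : ℂ) / 2 ≠ 0 := div_ne_zero hne two_ne_zero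
  constructor
  · rintro (h5 | h5)
    · exact absurd h5 h4
    · have h6 := ofReal_eq_zero.1 h5
      linarith
  · intro h5
    right
    rw [ofReal_eq_zero]
    linarith

/-! ### The real parametrisation -/

private lemma close_hasDerivAt {κ : ℝ → ℝ} {b : ℝ} {ψ : ℂ → ℂ} (h : Psi κ b ψ) (t : ℝ) :
    HasDerivAt (fun s : ℝ => (ψ s).re) (deriv ψ t).re t := by
  have hopen : IsOpen {t : ℂ | |t.im| < b} :=
    isOpen_lt (continuous_abs.comp continuous_im) continuous_const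
  have hmem : (t : ℂ) ∈ {t : ℂ | |t.im| < b} := by simpa using h.b0
  have h1 : HasDerivAt ψ (deriv ψ t) (t : ℂ) :=
    ((h.diff (t : ℂ) hmem).differentiableAt (hopen.mem_nhds hmem)).hasDerivAt
  exact h1.real_of_complex

private lemma close_small {κ : ℝ → ℝ} {b : ℝ} {ψ : ℂ → ℂ} (h : Psi κ b ψ) {ε : ℝ} (hε : 0 < ε) :
    ∃ δ : ℝ, 0 < δ ∧ ∀ x y : ℝ, |y - x| < δ → |(ψ y).re - (ψ x).re| < ε := by
  set g : ℝ → ℝ := fun s => (ψ s).re with hg
  have hc : Continuous g :=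
    continuous_iff_continuousAt.2 fun t => (close_hasDerivAt h t).continuousAt
  have hper : ∀ (n : ℤ) (t : ℝ), g (t + n) = g t + 2 * Real.pi * n := by
    have h1 : ∀ t : ℝ, g (t + 1) = g t + 2 * Real.pi := by
      intro t
      have h2 := h.per t (by simpa using h.b0)
      have h3 := congrArg Complex.re h2
      simpa [hg] using h3
    have h4 : Function.Periodic (fun t => g t - 2 * Real.pi * t) 1 := by
      intro t
      simp only [h1]
      ring
    intro n t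
    have h5 := h4.int_mul n t
    simp only [mul_one] at h5
    linarith
  have huc : UniformContinuousOn g (Icc (-1) 2) :=
    isCompact_Icc.uniformContinuousOn_of_continuous hc.continuousOn
  rw [Metric.uniformContinuousOn_iff] at huc
  obtain ⟨δ, hδ, hu⟩ := huc ε hε
  refine ⟨min δ 1, lt_min hδ one_pos, ?_⟩
  intro x y hxy
  have hx1 := Int.floor_le x
  have hx2 := Int.lt_floor_add_one x
  have hxy1 : |y - x| < 1 := lt_of_lt_of_le hxy (min_le_right _ _)
  have hxy2 : |y - x| < δ := lt_of_lt_of_le hxy (min_le_left _ _)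
  rw [abs_lt] at hxy1
  have h1 := hu (x + (-⌊x⌋ : ℤ)) (by constructor <;> push_cast <;> linarith)
    (y + (-⌊x⌋ : ℤ)) (by constructor <;> push_cast <;> linarith)
    (by
      rw [Real.dist_eq]
      have e : x + ((-⌊x⌋ : ℤ) : ℝ) - (y + ((-⌊x⌋ : ℤ) : ℝ)) = -(y - x) := by ring
      rw [e, abs_neg]
      exact hxy2)
  rw [hper, hper, Real.dist_eq] at h1
  have e : g x + 2 * Real.pi * ((-⌊x⌋ : ℤ) : ℝ) - (g y + 2 * Real.pi * ((-⌊x⌋ : ℤ) : ℝ))
      = -(g y - g x) := by ring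
  rw [e, abs_neg] at h1
  exact h1

private lemma close_bound {U : ℝ → ℝ → ℝ} {κ : ℝ → ℝ}
    (h : CFam U κ) : ∃ B : ℝ, ∀ θ, U (1 / 2) θ ≤ B := by
  have hc : (1 / 2 : ℝ) ∈ Ioo (0:ℝ) 1 := ⟨by norm_num, by norm_num⟩
  have hcont : Continuous (fun θ => U (1 / 2) θ) :=
    h.cont.comp_continuous (f := fun θ : ℝ => ((1 / 2 : ℝ), θ)) (by fun_prop)
      fun θ => ⟨hc, mem_univ _⟩
  obtain ⟨B, hB⟩ := (isCompact_Icc (a := (0:ℝ)) (b := 2 * Real.pi)).bddAbove_image
    hcont.continuousOn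
  refine ⟨B, fun θ => ?_⟩
  have hp : Function.Periodic (fun θ => U (1 / 2) θ) (2 * Real.pi) := h.per _ hc
  obtain ⟨y, hy, hy'⟩ := hp.exists_mem_Ico₀ (by positivity) θ
  have h1 : U (1 / 2) θ = U (1 / 2) y := hy'
  rw [h1]
  exact hB ⟨y, ⟨hy.1, hy.2.le⟩, rfl⟩

/-! ### The closing property -/

theorem closing_c0 {U : ℝ → ℝ → ℝ} {κ : ℝ → ℝ} (hU : CFam U κ)
    {b : ℝ} {ψ : ℂ → ℂ} (h : Psi κ b ψ) {b' : ℝ} (hb' : 0 < b')
    (hel : ∀ ρ x y z : ℂ, ρ ≠ 0 → ‖ρ‖ < b' → |x.im| < b' → |y.im| < b' → ‖(z - y) / ρ - 1‖ < b' →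
      ‖(y - x) / ρ - 1‖ < b' → el (Lc ψ) ρ x y z = elc ψ x y z) :
    ∃ b₀ : ℝ, 0 < b₀ ∧ ∀ b'' ≤ b₀, Closing (Lc ψ) b'' := by
  obtain ⟨B, hB⟩ := close_bound hU
  have hε : 0 < Real.pi - 2 * Real.arctan B := by
    have := Real.arctan_lt_pi_div_two B
    linarith
  obtain ⟨δ, hδ, hsm⟩ := close_small h hε
  have hmono : StrictMono (fun s : ℝ => (ψ s).re) := by
    refine strictMono_of_deriv_pos fun t => ?_
    rw [(close_hasDerivAt h t).deriv]
    exact h.pos t
  refine ⟨min (min b' (1 / 2)) (δ / 2), by positivity, ?_⟩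
  intro b'' hb'' q k X hq hk hkq hXper hXd hXeq
  have hb1 : b'' ≤ b' := hb''.trans ((min_le_left _ _).trans (min_le_left _ _))
  have hb2 : b'' ≤ 1 / 2 := hb''.trans ((min_le_left _ _).trans (min_le_right _ _))
  have hb3 : b'' ≤ δ / 2 := hb''.trans (min_le_right _ _)
  have hq0 : (0:ℝ) < q := by exact_mod_cast hq
  have hk0 : (k:ℝ) ≠ 0 := by exact_mod_cast hk
  set ρ : ℝ := (k : ℝ) / q with hρ
  have hρ0 : ρ ≠ 0 := div_ne_zero hk0 hq0.ne'
  -- replace `el` by `elc`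
  have hcast : ((k / q : ℝ) : ℂ) = ((ρ : ℝ) : ℂ) := by rw [hρ]
  have hnorm : ∀ j : ℤ, ‖((X (j + 1) : ℂ) - (X j : ℂ)) / (ρ : ℂ) - 1‖ < b' := by
    intro j
    have e : ((X (j + 1) : ℂ) - (X j : ℂ)) / (ρ : ℂ) - 1
        = (((X (j + 1) - X j) / ρ - 1 : ℝ) : ℂ) := by push_cast; ring
    rw [e, Complex.norm_real, Real.norm_eq_abs]
    exact (hXd j).trans_le hb1
  have hEl : ∀ j : ℤ, el (Lc ψ) (ρ : ℂ) (X (j - 1)) (X j) (X (j + 1)) =
      elc ψ (X (j - 1)) (X j) (X (j + 1)) := by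
    intro j
    refine hel _ _ _ _ (by exact_mod_cast hρ0) ?_ (by simpa using hb') (by simpa using hb')
      (hnorm j) ?_
    · rw [Complex.norm_real, Real.norm_eq_abs]
      exact hkq.trans_le hb1
    · have := hnorm (j - 1)
      rwa [sub_add_cancel] at this
  set θ : ℤ → ℝ := fun j => (ψ (X j)).re with hθ
  have hθper : ∀ j : ℤ, θ (j + q) = θ j + 2 * Real.pi * k := by
    have h1 : ∀ t : ℝ, (ψ ((t + 1 : ℝ) : ℂ)).re = (ψ t).re + 2 * Real.pi := by
      intro t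
      have h2 := h.per t (by simpa using h.b0)
      have h3 := congrArg Complex.re h2
      simpa using h3
    have h4 : Function.Periodic (fun t : ℝ => (ψ t).re - 2 * Real.pi * t) 1 := by
      intro t
      simp only [h1]
      ring
    intro j
    have h5 := h4.int_mul k (X j)
    simp only [mul_one] at h5
    simp only [hθ, hXper]
    linarith
  have heq : ∀ j : ℤ, ¬ ((q : ℤ) ∣ j) →
      Real.cot ((θ (j + 1) - θ j) / 2) - Real.cot ((θ j - θ (j - 1)) / 2) = κ (θ j) := by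
    intro j hj
    have h1 := hXeq j hj
    rw [hEl j] at h1
    exact (close_elc h _ _ _).1 h1
  have hgoal : Real.cot ((θ 1 - θ 0) / 2) - Real.cot ((θ 0 - θ (-1)) / 2) = κ (θ 0) →
      el (Lc ψ) ((k / q : ℝ) : ℂ) (X (-1)) (X 0) (X 1) = 0 := by
    intro h1
    have h2 := hEl 0
    simp only [zero_sub, zero_add] at h2
    rw [h2]
    exact (close_elc h _ _ _).2 h1
  apply hgoal
  rcases lt_or_gt_of_ne hk with hneg | hpos
  · -- `k < 0`
    have hkneg : (k:ℝ) < 0 := by exact_mod_cast hneg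
    have hρneg : ρ < 0 := div_neg_of_neg_of_pos hkneg hq0
    have hstep : ∀ j : ℤ, X (j + 1) < X j ∧ |X j - X (j + 1)| < δ := by
      intro j
      have h1 := (hXd j).trans_le hb2
      rw [abs_lt] at h1
      have h2 : 1 / 2 < (X (j + 1) - X j) / ρ := by linarith
      have h3 : (X (j + 1) - X j) / ρ < 3 / 2 := by linarith
      rw [lt_div_iff_of_neg hρneg] at h2
      rw [div_lt_iff_of_neg hρneg] at h3
      have h4 : -ρ < δ / 2 := by
        have := hkq.trans_le hb3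
        rwa [abs_of_neg hρneg] at this
      refine ⟨by linarith, ?_⟩
      rw [abs_lt]
      constructor <;> linarith
    have hcore := close_core hU hB (θ := fun j => θ (-j)) hq (k := -k) ?_ ?_ ?_ ?_
    · simp only [neg_zero, neg_neg] at hcore
      have e1 : (θ (-1) - θ 0) / 2 = -((θ 0 - θ (-1)) / 2) := by ring
      have e2 : (θ 0 - θ 1) / 2 = -((θ 1 - θ 0) / 2) := by ring
      rw [e1, e2, close_cot_neg, close_cot_neg] at hcore
      linarith
    · intro j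
      have h1 := hθper (-(j + q))
      have e : -(j + (q : ℤ)) + q = -j := by ring
      rw [e] at h1
      push_cast
      linarith
    · intro j
      have h1 := (hstep (-(j + 1))).1
      have e : -(j + 1) + 1 = -j := by ring
      rw [e] at h1
      have h2 := hmono h1
      simp only [hθ]
      linarith
    · intro j
      have h1 := (hstep (-(j + 1))).2
      have e : -(j + 1) + 1 = -j := by ring
      rw [e] at h1
      have h2 := hsm _ _ h1
      exact lt_of_le_of_lt (le_abs_self _) h2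
    · intro j hj
      have h1 := heq (-j) (by rwa [dvd_neg])
      have e1 : -(j + 1) = -j - 1 := by ring
      have e2 : -(j - 1) = -j + 1 := by ring
      simp only [e1, e2]
      have e3 : (θ (-j - 1) - θ (-j)) / 2 = -((θ (-j) - θ (-j - 1)) / 2) := by ring
      have e4 : (θ (-j) - θ (-j + 1)) / 2 = -((θ (-j + 1) - θ (-j)) / 2) := by ring
      rw [e3, e4, close_cot_neg, close_cot_neg]
      linarith
  · -- `0 < k`
    have hkpos : (0:ℝ) < k := by exact_mod_cast hpos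
    have hρpos : 0 < ρ := div_pos hkpos hq0
    have hstep : ∀ j : ℤ, X j < X (j + 1) ∧ |X (j + 1) - X j| < δ := by
      intro j
      have h1 := (hXd j).trans_le hb2
      rw [abs_lt] at h1
      have h2 : 1 / 2 < (X (j + 1) - X j) / ρ := by linarith
      have h3 : (X (j + 1) - X j) / ρ < 3 / 2 := by linarith
      rw [lt_div_iff₀ hρpos] at h2
      rw [div_lt_iff₀ hρpos] at h3
      have h4 : ρ < δ / 2 := by
        have := hkq.trans_le hb3
        rwa [abs_of_pos hρpos] at this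
      refine ⟨by linarith, ?_⟩
      rw [abs_lt]
      constructor <;> linarith
    refine close_core hU hB hq hθper ?_ ?_ heq
    · intro j
      have h2 := hmono (hstep j).1
      simp only [hθ]
      linarith
    · intro j
      exact lt_of_le_of_lt (le_abs_self _) (hsm _ _ (hstep j).2)

/-- the analytic family of solutions -/
theorem smooth_c0' {U : ℝ → ℝ → ℝ} {κ : ℝ → ℝ} (hU : CFam U κ) :
    ∃ (b c r κ' : ℝ) (ψ : ℂ → ℂ) (F : ℂ × ℂ → ℂ), Psi κ b ψ ∧ 0 < c ∧ 0 < r ∧ r ≤ c ∧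
      κ' ≤ 1 / 16 ∧ c + κ' < b ∧ GF c r κ' F ∧
      ∀ p ∈ Dm {-1, 0, 1} c r, p.2 ≠ 0 →
        elc ψ (F (p.1 - p.2, p.2)) (F p) (F (p.1 + p.2, p.2)) = 0 := by
  obtain ⟨b, ψ, hψ⟩ := exists_psi hU.analytic_κ hU.κ_per hU.integral_κ
  obtain ⟨b1, M, hb10, hb1b, hLag, -⟩ := lagc_lag hψ
  obtain ⟨b2, C, hb20, hb2b, hid⟩ := lagc_id hψ
  obtain ⟨b3, hb30, hb3b, hel⟩ := lagc_el hψ
  obtain ⟨b4, hb40, hcl⟩ := closing_c0 hU hψ hb30 hel
  set b5 := min (min b1 b2) (min b3 b4) with hb5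
  have hb50 : 0 < b5 := lt_min (lt_min hb10 hb20) (lt_min hb30 hb40)
  have h51 : b5 ≤ b1 := (min_le_left _ _).trans (min_le_left _ _)
  have h52 : b5 ≤ b2 := (min_le_left _ _).trans (min_le_right _ _)
  have h53 : b5 ≤ b3 := (min_le_right _ _).trans (min_le_left _ _)
  have h54 : b5 ≤ b4 := (min_le_right _ _).trans (min_le_right _ _)
  have hL := hLag.mono hb50 h51
  obtain ⟨c, r, F, hc, hcb, hr, hrc, hF, hE⟩ := smooth_main hL (hcl b5 h54)
    ⟨C, fun p hp => hid p (Dm_mono (Finset.Subset.refl _) (by linarith) (by linarith) hp)⟩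
  have hb1 := hψ.b1
  refine ⟨b, c, r, b5 / 16, ψ, F, hψ, hc, hr, hrc, by linarith, by linarith, hF, ?_⟩
  intro p hp hp0
  have hpW : p ∈ Dm {0, 1} c r := Dm_mono (by decide) le_rfl le_rfl hp
  have hmW : ((p.1 - p.2, p.2) : ℂ × ℂ) ∈ Dm {0, 1} c r := by
    have := mem_sh (S := {0, 1}) (S' := {-1, 0, 1}) (k := -1) (by decide) hp
    simpa [sub_eq_add_neg] using this
  have hbr := br_mem hF hb50 hcb (hrc.trans hcb) le_rfl
  have h1 := hbr p hpW
  have h2 := hbr _ hmW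
  unfold br at h1 h2
  rw [nab_of_ne hp0] at h1
  rw [nab_of_ne (p := (p.1 - p.2, p.2)) hp0] at h2
  simp only [sub_add_cancel] at h2
  rw [← hel p.2 _ _ _ hp0 (h1.2.2.trans (by linarith)) (h2.1.trans (by linarith))
    (h1.1.trans (by linarith)) (h1.2.1.trans (by linarith)) (h2.2.1.trans (by linarith)),
    ← EL_of_ne hp0]
  exact hE p hp hp0

/-- the same with the constant `1/16` -/
theorem smooth_c0 {U : ℝ → ℝ → ℝ} {κ : ℝ → ℝ} (hU : CFam U κ) :
    ∃ (b c r : ℝ) (ψ : ℂ → ℂ) (F : ℂ × ℂ → ℂ), Psi κ b ψ ∧ 0 < c ∧ 0 < r ∧ r ≤ c ∧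
      GF c r (1 / 16) F ∧ (∀ p ∈ Dm {0} c r, |(F p).im| < b) ∧
      ∀ p ∈ Dm {-1, 0, 1} c r, p.2 ≠ 0 →
        elc ψ (F (p.1 - p.2, p.2)) (F p) (F (p.1 + p.2, p.2)) = 0 := by
  obtain ⟨b, c, r, κ', ψ, F, hψ, hc, hr, hrc, hκ1, hcb, hF, hE⟩ := smooth_c0' hU
  refine ⟨b, c, r, ψ, F, hψ, hc, hr, hrc, hF.mono le_rfl le_rfl hκ1, fun p hp => ?_, hE⟩
  have h1 := hF.ap.bd p hp
  have h2 : |(F p - p.1).im| ≤ κ' := (abs_im_le_norm _).trans h1
  have h3 : |p.1.im| < c := by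
    have := (mem_Dm.1 hp).1 0 (by simp)
    simpa using this
  have h4 : (F p).im = (F p - p.1).im + p.1.im := by simp
  rw [h4]
  exact (abs_add_le _ _).trans_lt (by linarith)

/-- the first integral near the diagonal -/
theorem good_of_cfam {U : ℝ → ℝ → ℝ} {κ : ℝ → ℝ} (hU : CFam U κ) :
    ∃ (x₀ : ℝ) (kc : ℂ → ℂ), MP_ae5b4e_an_ND.Good kc x₀ ∧
      ∀ᶠ x : ℝ in 𝓝 x₀, kc x = ((MP_ae5b4e_an_GeoX.kick κ x : ℝ) : ℂ) := by
  obtain ⟨b, c, r, κ', ψ, F, hψ, hc, hr, -, hκ1, hcb, hF, hE⟩ := smooth_c0' hU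
  exact good_conic hψ hF hc hr hκ1 hcb hU.κ_per hE

end Pool.Agent.MP_ae5b4e_an_RG
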