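import Mathlib
import Pool.Agent.Lib.MP_ae5b4e_an_RG.SmC
import Pool.Agent.Lib.MP_ae5b4e_an_MERO.Final
import Pool.Agent.Lib.MP_ae5b4e_an_MERO.Countable

/-!
# MP_ae5b4e_an, project REG: continuous leaves around the circle, fields with countably many
singularities

The field of involutions is smooth, the leaves are continuous, and on one arc the field is the
restriction of a function which is analytic outside a countable set.
-/

noncomputable section

namespace Pool.Agent.MP_ae5b4e_an_RG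

open Complex Set Filter Topology Metric
open Pool.Agent.MP_ae5b4e_an_SM
open Pool.Agent.MP_ae5b4e_an_MERO

/-- A real-analytic function on the circle which agrees on one arc with a function with countably
many singularities is the restriction of such a function without singularities on the circle. -/
theorem fix_circle {κ : ℝ → ℝ} (hκa : ∀ x, AnalyticAt ℝ κ x)
    (hκp : ∀ x, κ (x + 2 * Real.pi) = κ x) {K : ℂ → ℂ}
    (hK : {z | ¬ AnalyticAt ℂ K z}.Countable) {θ₀ : ℝ}
    (hκ : ∀ᶠ θ : ℝ in 𝓝 θ₀, (κ θ : ℂ) = K (exp (θ * I))) :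
    ∃ K' : ℂ → ℂ, {z | ¬ AnalyticAt ℂ K' z}.Countable ∧
      (∀ θ : ℝ, AnalyticAt ℂ K' (exp (θ * I))) ∧ ∀ θ : ℝ, (κ θ : ℂ) = K' (exp (θ * I)) := by
  obtain ⟨b, g₀, hb, hg₀, hgr₀, hgp₀⟩ := exists_strip hκa Real.two_pi_pos hκp
  set S : Set ℂ := {t | |t.im| < b} with hS
  have hSo : IsOpen S := isOpen_lt (continuous_abs.comp continuous_im) continuous_const
  set g : ℂ → ℂ := fun t => if |t.im| < b then g₀ t else 0 with hgdef
  have hgS : ∀ t ∈ S, g t = g₀ t := fun t ht => if_pos ht
  have hga : ∀ t ∈ S, AnalyticAt ℂ g t := by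
    intro t ht
    have h1 : AnalyticAt ℂ g₀ t := hg₀.analyticAt (hSo.mem_nhds ht)
    refine h1.congr ?_
    filter_upwards [hSo.mem_nhds ht] with s hs
    exact (hgS s hs).symm
  have hreal : ∀ x : ℝ, (x : ℂ) ∈ S := fun x => by
    show |(x : ℂ).im| < b
    rw [ofReal_im, abs_zero]
    exact hb
  have hgr : ∀ x : ℝ, g x = κ x := fun x => by rw [hgS _ (hreal x), hgr₀]
  have hgp : Function.Periodic g (2 * Real.pi : ℂ) := by
    intro t
    have him : (t + 2 * Real.pi : ℂ).im = t.im := by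
      simp
    simp only [hgdef, him]
    split_ifs with h
    · have := hgp₀ t h
      push_cast at this
      exact this
    · rfl
  set A : Set ℂ := {z | ¬ AnalyticAt ℂ K z} with hA
  have hAc : IsOpen Aᶜ := by
    have : Aᶜ = {z | AnalyticAt ℂ K z} := by
      ext z
      simp [hA]
    rw [this]
    exact isOpen_analyticAt ℂ K
  set f : ℂ → ℂ := fun w => exp (w * I) with hf
  have hfc : Continuous f := by
    simp only [hf]
    fun_prop
  set C : Set ℂ := f ⁻¹' A with hC
  have hCc : C.Countable := by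
    have h1 : (exp ⁻¹' A).Countable := hK.preimage_cexp
    have h2 : C = (fun w : ℂ => w * I) ⁻¹' (exp ⁻¹' A) := rfl
    rw [h2]
    refine h1.preimage_of_injOn ?_
    intro x _ y _ hxy
    exact mul_right_cancel₀ I_ne_zero hxy
  have hVo : IsOpen (S \ C) := hSo.inter (hAc.preimage hfc)
  have hV : IsPreconnected (S \ C) := isPreconnected_diff hSo (PsiEx.convex_str b) hCc
  -- a regular point of the arc
  obtain ⟨θ₁, h1, h1V⟩ : ∃ θ₁ : ℝ, (∀ᶠ θ : ℝ in 𝓝 θ₁, (κ θ : ℂ) = K (exp (θ * I))) ∧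
      (θ₁ : ℂ) ∈ S \ C := by
    have h2 : ((fun θ : ℝ => (θ : ℂ)) ⁻¹' C).Countable :=
      hCc.preimage_of_injOn (ofReal_injective.injOn)
    have h3 : Dense ((fun θ : ℝ => (θ : ℂ)) ⁻¹' C)ᶜ := h2.dense_compl ℝ
    obtain ⟨U, hU1, hU2, hU3⟩ := _root_.eventually_nhds_iff.1 hκ.eventually_nhds
    obtain ⟨θ₁, h4, h5⟩ := h3.inter_open_nonempty U hU2 ⟨θ₀, hU3⟩
    exact ⟨θ₁, hU1 θ₁ h4, hreal θ₁, h5⟩
  have hfan : ∀ w, AnalyticAt ℂ f w := fun w => by
    simp only [hf]
    fun_prop
  have hKf : AnalyticOnNhd ℂ (fun w => K (f w)) (S \ C) := by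
    intro w hw
    have h2 : AnalyticAt ℂ K (f w) := by
      by_contra h3
      exact hw.2 h3
    exact h2.comp (hfan w)
  have hgV : AnalyticOnNhd ℂ g (S \ C) := fun w hw => hga w hw.1
  have heq : EqOn g (fun w => K (f w)) (S \ C) := by
    refine hgV.eqOn_of_preconnected_of_frequently_eq hKf hV h1V ?_
    have h2 : Tendsto (fun y : ℝ => (y : ℂ)) (𝓝[≠] θ₁) (𝓝[≠] (θ₁ : ℂ)) := by
      refine tendsto_nhdsWithin_of_tendsto_nhds_of_eventually_within _
        ((continuous_ofReal.tendsto θ₁).mono_left nhdsWithin_le_nhds) ?_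
      filter_upwards [self_mem_nhdsWithin] with y hy h
      exact hy (ofReal_injective h)
    have h3 : ∀ᶠ y : ℝ in 𝓝[≠] θ₁, g y = K (f y) := by
      filter_upwards [h1.filter_mono nhdsWithin_le_nhds] with y hy
      rw [hgr]
      exact hy
    exact h2.frequently h3.frequently
  -- the function
  set K' : ℂ → ℂ := fun z => if z ≠ 0 ∧ |(-I * log z).im| < b then g (-I * log z) else K z with hK'
  have hkey : ∀ w ∈ S, K' (f w) = g w := by
    intro w hw
    have h0 : f w ≠ 0 := exp_ne_zero _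
    have h2 : exp (log (f w)) = exp (w * I) := exp_log h0
    obtain ⟨n, hn⟩ := exp_eq_exp_iff_exists_int.1 h2
    have h3 : -I * log (f w) = w + n * (2 * Real.pi : ℂ) := by
      rw [hn]
      linear_combination (-w - n * (2 * Real.pi)) * I_mul_I
    have h4 : (-I * log (f w)).im = w.im := by
      rw [h3]
      simp
    have h5 : g (w + n * (2 * Real.pi : ℂ)) = g w := hgp.int_mul n w
    simp only [hK']
    rw [if_pos ⟨h0, by rw [h4]; exact hw⟩, h3, h5]
  have hfd : ∀ w, deriv f w ≠ 0 := by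
    intro w
    have h2 : HasDerivAt f (exp (w * I) * (1 * I)) w := ((hasDerivAt_id w).mul_const I).cexp
    rw [h2.deriv]
    exact mul_ne_zero (exp_ne_zero _) (by simp)
  have hann : ∀ w ∈ S, AnalyticAt ℂ K' (f w) := by
    intro w hw
    rw [← analyticAt_comp_iff_of_deriv_ne_zero (hfan w) (hfd w)]
    refine (hga w hw).congr ?_
    filter_upwards [hSo.mem_nhds hw] with s hs
    exact (hkey s hs).symm
  have hoff : ∀ z ∉ A, AnalyticAt ℂ K' z := by
    intro z hz
    have h2 : AnalyticAt ℂ K z := by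
      by_contra h3
      exact hz h3
    refine h2.congr ?_
    filter_upwards [hAc.mem_nhds hz] with s hs
    simp only [hK']
    split_ifs with h
    · have h3 : f (-I * log s) = s := by
        simp only [hf]
        have : -I * log s * I = log s := by
          linear_combination (-log s) * I_mul_I
        rw [this, exp_log h.1]
      have h4 : (-I * log s) ∈ S \ C := by
        refine ⟨h.2, fun h5 => hs ?_⟩
        have h6 : f (-I * log s) ∈ A := h5
        rwa [h3] at h6
      have h5 := heq h4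
      simp only [h3] at h5
      exact h5.symm
    · rfl
  refine ⟨K', ?_, ?_, ?_⟩
  · refine hK.mono fun z hz => ?_
    by_contra h2
    exact hz (hoff z h2)
  · intro θ
    exact hann θ (hreal θ)
  · intro θ
    have := hkey θ (hreal θ)
    simp only [hf] at this
    rw [this, hgr]

/-- A smooth field of involutions with continuous invariant curves which agrees on one arc with a
function with countably many singularities is rational. -/
theorem rational_c0 {U : ℝ → ℝ → ℝ} {κ : ℝ → ℝ} (hU : CFam U κ) {K₁ : ℂ → ℂ}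
    (hK₁ : {z | ¬ AnalyticAt ℂ K₁ z}.Countable) {θ₀ : ℝ}
    (hκ₁ : ∀ᶠ θ : ℝ in 𝓝 θ₀, (κ θ : ℂ) = K₁ (exp (θ * I))) :
    ∃ A B : Polynomial ℝ, B ≠ 0 ∧ ∀ θ : ℝ, Real.cos (θ / 2) ≠ 0 →
      κ θ * B.eval (Real.tan (θ / 2)) = A.eval (Real.tan (θ / 2)) := by
  obtain ⟨K, hK, hKc, hκ⟩ := fix_circle hU.analytic_κ hU.κ_per hK₁ hκ₁
  obtain ⟨b, c, r, ψ, F, hψ, hc, hr, -, hF, -, hel⟩ := smooth_c0 hU
  -- the kernel in the coordinate `z`
  set k₀ : ℂ → ℂ := fun w => -w⁻¹ + K w / (2 * I * w) with hk₀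
  have hk₀a : ∀ z, z ≠ 0 → AnalyticAt ℂ K z → AnalyticAt ℂ k₀ z := by
    intro z hz hKz
    refine ((analyticAt_id.inv hz).neg).add (hKz.div (analyticAt_const.mul analyticAt_id) ?_)
    simpa using hz
  have hA₀ : CSing k₀ := by
    refine (hK.union (countable_singleton (0:ℂ))).mono ?_
    intro z hz
    by_contra h
    simp only [mem_union, mem_ofPred_eq, mem_singleton_iff, not_or, not_not] at h
    exact hz (hk₀a z h.2 h.1)
  obtain ⟨k, hN, hA, hkk⟩ := exists_nrm hA₀
  obtain ⟨c', Z, hD⟩ := dat_of_smooth hψ hc hr hF hel hKc hκ (k := k)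
    (fun z hz hKz => hkk z (hk₀a z hz hKz))
  by_cases hE : ∃ e, ¬ MeromorphicAt k e
  · obtain ⟨e, he⟩ := hE
    obtain ⟨k', F', h1, h2, h3, h4⟩ := chart hA hN hD he
    exact (MP_ae5b4e_an_MERO.core h1 h2 h3 h4).elim
  push Not at hE
  by_cases hinf : SingInf k
  · exact (MP_ae5b4e_an_MERO.core hA hN hinf hD).elim
  unfold SingInf at hinf
  push Not at hinf
  obtain ⟨P, Q, hQ, hPQ⟩ := rational_of_meromorphic hE hinf
  refine rat_of_rational (P := Polynomial.C (2 * I) * (Polynomial.X * P + Q)) hQ fun θ => ?_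
  have h0 : exp ((θ : ℂ) * I) ≠ 0 := exp_ne_zero _
  have h1 := hkk _ (hk₀a _ h0 (hKc θ))
  have h2 : AnalyticAt ℂ k (exp ((θ : ℂ) * I)) := (hk₀a _ h0 (hKc θ)).congr h1.symm
  have h3 := hPQ _ h2
  rw [h1.self_of_nhds] at h3
  simp only [hk₀] at h3
  rw [← hκ] at h3
  simp only [Polynomial.eval_mul, Polynomial.eval_C, Polynomial.eval_add, Polynomial.eval_X]
  have hI : (I : ℂ) ≠ 0 := I_ne_zero
  rw [← h3]
  field_simp
  ring

end Pool.Agent.MP_ae5b4e_an_RG
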