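import Mathlib
import Pool.Agent.Lib.MP_ae5b4e_an_rat.Factor

/-!
# MP_ae5b4e_an, project REG: one closed curve of periodic points

The factorization theorem for rational fields of involutions (module Factor of the project RAT)
uses only one invariant curve consisting of periodic points.
-/

noncomputable section

namespace Pool.Agent.MP_ae5b4e_an_RG

open Real Set Filter Topology Polynomial
open Pool.Agent.MP_ae5b4e_an_rat
open Pool.Agent.MP_ae5b4e_an (cos_two_arctan sin_two_arctan)

/-- a closed curve around the unit circle which consists of periodic points of period `q` -/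
structure QLeaf (u κ : ℝ → ℝ) (q : ℕ) : Prop where
  q0 : 0 < q
  per : ∀ θ, u (θ + 2 * π) = u θ
  mono : StrictMono (nxt (fun _ => u) 0)
  iter : ∀ θ, (nxt (fun _ => u) 0)^[q] θ = θ + 2 * π
  feq : ∀ θ, u (nxt (fun _ => u) 0 θ) - κ (nxt (fun _ => u) 0 θ) = u θ

namespace QLeaf

variable {u κ : ℝ → ℝ} {q : ℕ} (h : QLeaf u κ q)
include h

lemma nxt_per (θ : ℝ) : nxt (fun _ => u) 0 (θ + 2 * π) = nxt (fun _ => u) 0 θ + 2 * π := by
  unfold nxt
  simp only [h.per]
  ring

/-- the residues of `κ` as a rational function of `tan (θ/2)` -/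
theorem residues {N D : ℝ[X]} (hD0 : D ≠ 0)
    (hrat : ∃ T : Set ℝ, T.Finite ∧ ∀ θ, cos (θ / 2) ≠ 0 → tan (θ / 2) ∉ T →
      D.eval (tan (θ / 2)) * (2 * (κ θ - 2 * tan (θ / 2)) / (1 + tan (θ / 2) ^ 2)) =
        N.eval (tan (θ / 2))) {z : ℂ}
    (hz : aeval z D = 0) (hN : aeval z N ≠ 0) :
    aeval z (derivative D) ≠ 0 ∧ (aeval z N / aeval z (derivative D) = -2 ∨
      ∃ K : ℕ, 1 ≤ K ∧ (K:ℂ) * (aeval z N / aeval z (derivative D) + 2) = 2) := by
  have hq := h.q0
  have hper := h.iter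
  obtain ⟨T, hT, hrat⟩ := hrat
  set τ := nxt (fun _ => u) 0 with hτ
  have hmono : StrictMono τ := h.mono
  set θ₀ : ℕ → ℝ := fun n => 1 / ((n:ℝ) + 1) with hθ₀
  have hθ₀i : Function.Injective θ₀ := by
    intro m n hmn
    simp only [hθ₀] at hmn
    have h1 : (m:ℝ) + 1 = n + 1 := by
      have h2 := congrArg (fun t => 1 / t) hmn
      simpa using h2
    exact_mod_cast (by linarith : (m:ℝ) = n)
  have hθ₀w : ∀ n, θ₀ n ∈ Ioo (0:ℝ) (0 + 2 * π) := by
    intro n
    have h1 : (0:ℝ) < n + 1 := by positivity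
    refine ⟨by simp only [hθ₀]; positivity, ?_⟩
    have h2 : θ₀ n ≤ 1 := by
      simp only [hθ₀]
      rw [div_le_one h1]
      have : (0:ℝ) ≤ n := by positivity
      linarith
    have := pi_gt_three
    linarith
  -- the orbits
  set a : ℕ → ℕ → ℝ := fun i n => τ^[i] (θ₀ n) with ha
  have hiterm : ∀ i, StrictMono (τ^[i]) := fun i => hmono.iterate i
  have hiterper : ∀ i θ, τ^[i] (θ + 2 * π) = τ^[i] θ + 2 * π := by
    intro i
    induction i with
    | zero => intro θ; rfl
    | succ i ih =>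
      intro θ
      have h1 : τ (τ^[i] θ + 2 * π) = τ (τ^[i] θ) + 2 * π := h.nxt_per _
      rw [Function.iterate_succ_apply', ih, h1, ← Function.iterate_succ_apply' τ i θ]
  have hai : ∀ i, Function.Injective (a i) := fun i => (hiterm i).injective.comp hθ₀i
  have haw : ∀ i n, a i n ∈ Ioo (τ^[i] 0) (τ^[i] 0 + 2 * π) := by
    intro i n
    have h1 := hθ₀w n
    refine ⟨hiterm i h1.1, ?_⟩
    rw [← hiterper]
    exact hiterm i h1.2
  have hstep : ∀ i n, a (i + 1) n = a i n + π - 2 * arctan (u (a i n)) := by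
    intro i n
    simp only [ha]
    rw [Function.iterate_succ_apply']
    rfl
  have hshift : ∀ i n, a (i + q) n = a i n + 2 * π := by
    intro i n
    simp only [ha]
    rw [Function.iterate_add_apply, hper, hiterper]
  set xx : ℕ → ℕ → ℝ := fun i n => tan (a i n / 2) with hxx
  set yy : ℕ → ℕ → ℝ := fun i n => 2 * (u (a i n) - xx i n) / (1 + xx i n ^ 2) with hyy
  have hxq : ∀ i n, xx (i + q) n = xx i n := by
    intro i n
    simp only [hxx]
    rw [hshift]
    have e : (a i n + 2 * π) / 2 = a i n / 2 + π := by ring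
    rw [e, tan_add_pi]
  have hyq : ∀ i n, yy (i + q) n = yy i n := by
    intro i n
    simp only [hyy, hxq]
    rw [hshift, h.per]
  have hmod : ∀ (g : ℕ → ℕ → ℝ), (∀ i n, g (i + q) n = g i n) → ∀ i n, g (i % q) n = g i n := by
    intro g hg i n
    have h1 : Function.Periodic (fun i => g i n) q := fun i => hg i n
    exact h1.map_mod_nat i
  -- the relations
  have hrel : ∀ i, ∀ᶠ n in cofinite, yy i n * (xx (i + 1) n - xx i n) = 2 := by
    intro i
    have e1 : ∀ᶠ n in cofinite, ¬ cos (a i n / 2) = 0 :=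
      (finite_cos_eq (hai i) (haw i)).compl_mem_cofinite
    have e2 : ∀ᶠ n in cofinite, ¬ cos (a (i + 1) n / 2) = 0 :=
      (finite_cos_eq (hai (i + 1)) (haw (i + 1))).compl_mem_cofinite
    filter_upwards [e1, e2] with n h1 h2
    rw [hstep] at h2
    obtain ⟨h3, h4⟩ := tan_half_next h1 h2
    have h5 : xx (i + 1) n = (1 + xx i n * u (a i n)) / (u (a i n) - xx i n) := by
      rw [eq_div_iff h4]
      simp only [hxx]
      rw [hstep]
      exact h3
    have h4' : u (a i n) - xx i n ≠ 0 := h4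
    have h6 : (1 + xx i n ^ 2) ≠ 0 := by positivity
    simp only [hyy]
    rw [h5]
    field_simp
    ring
  have hκ : ∀ i, ∀ᶠ n in cofinite,
      eval (xx (i + 1) n) D * (yy (i + 1) n - yy i n) = eval (xx (i + 1) n) N := by
    intro i
    have e1 : ∀ᶠ n in cofinite, ¬ cos (a i n / 2) = 0 :=
      (finite_cos_eq (hai i) (haw i)).compl_mem_cofinite
    have e2 : ∀ᶠ n in cofinite, ¬ cos (a (i + 1) n / 2) = 0 :=
      (finite_cos_eq (hai (i + 1)) (haw (i + 1))).compl_mem_cofinite
    have e3 : ∀ᶠ n in cofinite, xx (i + 1) n ∉ T := by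
      have h1 : {n | xx (i + 1) n ∈ T} = ⋃ t ∈ T, {n | tan (a (i + 1) n / 2) = t} := by
        ext n
        simp [hxx]
      have h2 : {n | xx (i + 1) n ∈ T}.Finite := by
        rw [h1]
        exact hT.biUnion fun t _ => finite_tan_eq (hai (i + 1)) (haw (i + 1)) t
      exact h2.compl_mem_cofinite
    filter_upwards [e1, e2, e3, hrel i] with n h1 h2 h3 h4
    have h5 := hrat (a (i + 1) n) h2 h3
    rw [hstep] at h2
    obtain ⟨h6, h7⟩ := tan_half_next h1 h2
    have h8 : xx (i + 1) n * (u (a i n) - xx i n) = 1 + xx i n * u (a i n) := by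
      simp only [hxx]
      rw [hstep]
      exact h6
    have h9 : u (a (i + 1) n) - κ (a (i + 1) n) = u (a i n) := by
      have h10 := h.feq (a i n)
      have h11 : nxt (fun _ => u) 0 (a i n) = a (i + 1) n := by
        rw [hstep]
        rfl
      rwa [h11] at h10
    have h12 : yy (i + 1) n - yy i n =
        2 * (κ (a (i + 1) n) - 2 * xx (i + 1) n) / (1 + xx (i + 1) n ^ 2) := by
      have h13 : yy i n = 2 * (u (a i n) + xx (i + 1) n) / (1 + xx (i + 1) n ^ 2) := by
        have h14 : (1 + xx i n ^ 2) ≠ 0 := by positivity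
        have h15 : (1 + xx (i + 1) n ^ 2) ≠ 0 := by positivity
        have h16 : u (a i n) - xx i n ≠ 0 := h7
        have h17 : xx (i + 1) n = (1 + xx i n * u (a i n)) / (u (a i n) - xx i n) := by
          rw [eq_div_iff h16]
          exact h8
        simp only [hyy]
        rw [div_eq_div_iff h14 h15, h17]
        field_simp
        ring
      rw [h13]
      simp only [hyy]
      rw [← sub_div]
      congr 1
      rw [← h9]
      ring
    rw [h12]
    exact h5
  -- indices modulo q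
  have hqz : (0:ℤ) < q := by exact_mod_cast hq
  set ix : ℤ → ℕ := fun k => (k % q).toNat with hix
  have hixq : ∀ k, ix (k + q) = ix k := by
    intro k
    simp only [hix, Int.add_emod_right]
  have hix1 : ∀ k, ix (k + 1) = (ix k + 1) % q := by
    intro k
    simp only [hix]
    have h1 : 0 ≤ k % q := Int.emod_nonneg _ hqz.ne'
    have h2 : 0 ≤ (k + 1) % q := Int.emod_nonneg _ hqz.ne'
    have h3 : (((k + 1) % (q:ℤ)).toNat : ℤ) = ((((k % (q:ℤ)).toNat + 1) % q : ℕ) : ℤ) := by
      push_cast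
      rw [Int.toNat_of_nonneg h1, Int.toNat_of_nonneg h2]
      simp
    exact_mod_cast h3
  refine residue_seq (x := fun k n => xx (ix k) n) (y := fun k n => yy (ix k) n) hq
    ?_ ?_ ?_ ?_ ?_ hD0 hz hN
  · intro k t
    exact finite_tan_eq (hai _) (haw _) t
  · intro k
    filter_upwards [hrel (ix k)] with n hn
    rw [hix1, hmod xx hxq]
    exact hn
  · intro k n
    show xx (ix (k + q)) n = xx (ix k) n
    rw [hixq]
  · intro k n
    show yy (ix (k + q)) n = yy (ix k) n
    rw [hixq]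
  · intro k
    have h1 : ix k = (ix (k - 1) + 1) % q := by
      rw [← hix1, sub_add_cancel]
    filter_upwards [hκ (ix (k - 1))] with n hn
    show eval (xx (ix k) n) D * (yy (ix k) n - yy (ix (k - 1)) n) = eval (xx (ix k) n) N
    rw [h1, hmod xx hxq, hmod yy hyq]
    exact hn


theorem exists_factors (hκc : Continuous κ) (hκp : ∀ x, κ (x + 2 * π) = κ x)
    {A B : ℝ[X]} (hB : B ≠ 0)
    (hrat : ∀ θ, cos (θ / 2) ≠ 0 → κ θ * B.eval (tan (θ / 2)) = A.eval (tan (θ / 2))) :
    ∃ b₁ c₁ b₂ c₂ : ℝ, b₁ ^ 2 < 4 * c₁ ∧ b₂ ^ 2 < 4 * c₂ ∧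
      ∀ θ, κ θ * (gg b₁ c₁ θ * gg b₂ c₂ θ) =
        -(gd b₁ c₁ θ * gg b₂ c₂ θ + gg b₁ c₁ θ * gd b₂ c₂ θ) := by
  classical
  set P : ℝ[X] := C 2 * (A - C 2 * X * B) with hP
  set Q : ℝ[X] := (1 + X ^ 2) * B with hQ
  have h1X : (1 + X ^ 2 : ℝ[X]) ≠ 0 := by
    intro h0
    have := congrArg (eval 0) h0
    simp at this
  have hQ0 : Q ≠ 0 := mul_ne_zero h1X hB
  set G := GCDMonoid.gcd P Q with hG
  have hG0 : G ≠ 0 := by
    intro h0
    exact hQ0 ((gcd_eq_zero_iff _ _).1 h0).2
  obtain ⟨P₁, hP₁⟩ : G ∣ P := gcd_dvd_left _ _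
  obtain ⟨Q₁, hQ₁⟩ : G ∣ Q := gcd_dvd_right _ _
  have hcop : IsCoprime P₁ Q₁ := by
    have h1 := isCoprime_div_gcd_div_gcd (p := P) (q := Q) hQ0
    have h2 : P / GCDMonoid.gcd P Q = P₁ := by
      rw [← hG]
      conv_lhs => rw [hP₁]
      exact mul_div_cancel_left₀ P₁ hG0
    have h3 : Q / GCDMonoid.gcd P Q = Q₁ := by
      rw [← hG]
      conv_lhs => rw [hQ₁]
      exact mul_div_cancel_left₀ Q₁ hG0
    rwa [h2, h3] at h1
  have hQ₁0 : Q₁ ≠ 0 := by
    intro h0
    rw [h0, mul_zero] at hQ₁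
    exact hQ0 hQ₁
  have hlc : Q₁.leadingCoeff ≠ 0 := leadingCoeff_ne_zero.2 hQ₁0
  have hCu : IsUnit (C Q₁.leadingCoeff⁻¹ : ℝ[X]) :=
    isUnit_C.2 (IsUnit.mk0 _ (inv_ne_zero hlc))
  set N : ℝ[X] := C Q₁.leadingCoeff⁻¹ * P₁ with hN
  set D : ℝ[X] := C Q₁.leadingCoeff⁻¹ * Q₁ with hD
  have hDm : D.Monic := by
    rw [hD, mul_comm]
    exact monic_mul_leadingCoeff_inv hQ₁0
  have hcopND : IsCoprime N D := (isCoprime_mul_unit_left hCu _ _).2 hcop
  have hND : N * Q = P * D := by
    rw [hP₁, hQ₁, hN, hD]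
    ring
  -- evaluation
  have hev : ∀ x k : ℝ, B.eval x ≠ 0 → k * B.eval x = A.eval x →
      N.eval x * (1 + x ^ 2) = 2 * (k - 2 * x) * D.eval x := by
    intro x k hBx hk
    have h1 := congrArg (eval x) hND
    simp only [hP, hQ, eval_mul, eval_sub, eval_add, eval_one, eval_pow, eval_X, eval_C] at h1
    have h2 : B.eval x * (N.eval x * (1 + x ^ 2)) = B.eval x * (2 * (k - 2 * x) * D.eval x) := by
      rw [← hk] at h1
      linear_combination h1
    exact mul_left_cancel₀ hBx h2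
  set K : ℝ → ℝ := fun x => κ (2 * arctan x) with hK
  have hKc : Continuous K := hκc.comp (by fun_prop)
  have hKrat : ∀ x, K x * B.eval x = A.eval x := by
    intro x
    have h1 := hrat (2 * arctan x)
    have e : 2 * arctan x / 2 = arctan x := by ring
    rw [e, tan_arctan] at h1
    exact h1 (cos_arctan_pos x).ne'
  have hall : ∀ x, N.eval x * (1 + x ^ 2) = 2 * (K x - 2 * x) * D.eval x := by
    have hd : Dense ({x : ℝ | B.eval x = 0}ᶜ) := by
      have hf : {x : ℝ | B.eval x = 0}.Finite := by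
        refine (B.roots.toFinset.finite_toSet).subset ?_
        intro x hx
        simp only [Finset.mem_coe, Multiset.mem_toFinset]
        exact (mem_roots hB).2 hx
      exact hf.countable.dense_compl ℝ
    have h1 : Continuous fun x : ℝ => N.eval x * (1 + x ^ 2) := by fun_prop
    have h2 : Continuous fun x : ℝ => 2 * (K x - 2 * x) * D.eval x := by fun_prop
    have h3 := h1.ext_on hd h2 (fun x hx => hev x (K x) hx (hKrat x))
    exact fun x => congrFun h3 x
  have hreal : ∀ x : ℝ, D.eval x ≠ 0 := by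
    intro x hx
    have h1 := hall x
    rw [hx, mul_zero] at h1
    have h2 : N.eval x = 0 := by
      rcases mul_eq_zero.1 h1 with h3 | h3
      · exact h3
      · exfalso
        have : (0:ℝ) < 1 + x ^ 2 := by positivity
        linarith
    obtain ⟨a, b, hab⟩ := hcopND
    have h3 := congrArg (eval x) hab
    simp [hx, h2] at h3
  have hquot : ∀ x, N.eval x / D.eval x = 2 * (K x - 2 * x) / (1 + x ^ 2) := by
    intro x
    have h1 : (1 + x ^ 2 : ℝ) ≠ 0 := by positivity
    rw [div_eq_div_iff (hreal x) h1]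
    exact hall x
  have hdeg : (X * N + C 4 * D).degree < D.degree := by
    rw [← div_tendsto_atTop_zero_iff_degree_lt _ _ hDm.ne_zero]
    have h1 : ∀ x, eval x (X * N + C 4 * D) / eval x D =
        2 * x / (1 + x ^ 2) * K x + 4 / (1 + x ^ 2) := by
      intro x
      have h2 : eval x (X * N + C 4 * D) / eval x D = x * (N.eval x / D.eval x) + 4 := by
        have := hreal x
        simp only [eval_add, eval_mul, eval_X, eval_C]
        field_simp
      rw [h2, hquot]
      have h3 : (1 + x ^ 2 : ℝ) ≠ 0 := by positivity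
      field_simp
      ring
    simp only [h1]
    have h2 : Tendsto K atTop (𝓝 (κ (2 * (π / 2)))) := by
      refine (hκc.tendsto _).comp ?_
      exact ((tendsto_arctan_atTop.mono_right nhdsWithin_le_nhds).const_mul 2)
    have h3 := (tendsto_two_mul_div.mul h2).add tendsto_four_div
    simpa using h3
  obtain ⟨b₁, c₁, b₂, c₂, hb₁, hb₂, hF⟩ := exists_quartic hDm hcopND hreal hdeg (by
    intro z hz
    refine h.residues hDm.ne_zero ⟨B.roots.toFinset, Finset.finite_toSet _, ?_⟩ hz ?_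
    · intro θ hθ hT
      have hBx : B.eval (tan (θ / 2)) ≠ 0 := by
        intro h0
        apply hT
        simp only [Finset.mem_coe, Multiset.mem_toFinset]
        exact (mem_roots hB).2 h0
      have h1 := hev _ _ hBx (hrat θ hθ)
      have h2 : (1 + tan (θ / 2) ^ 2 : ℝ) ≠ 0 := by positivity
      rw [mul_div_assoc', div_eq_iff h2, h1]
      ring
    · intro h0
      obtain ⟨a, b, hab⟩ := hcopND
      have h3 := congrArg (aeval z) hab
      simp [hz, h0] at h3)
  refine ⟨b₁, c₁, b₂, c₂, hb₁, hb₂, ?_⟩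
  set Φ : ℝ → ℝ := fun θ => κ θ * (gg b₁ c₁ θ * gg b₂ c₂ θ) +
    (gd b₁ c₁ θ * gg b₂ c₂ θ + gg b₁ c₁ θ * gd b₂ c₂ θ) with hΦ
  have hΦc : Continuous Φ := by
    have := hκc
    simp only [hΦ, gg, gd]
    fun_prop
  have hΦp : Function.Periodic Φ (2 * π) := by
    intro θ
    simp only [hΦ, gg, gd, hκp, cos_add_two_pi, sin_add_two_pi]
  have hx : ∀ x : ℝ, Φ (2 * arctan x) = 0 := by
    intro x
    have h1 := hall x
    have h2 := congrArg (eval x) hF
    simp only [quartic, eval_mul, eval_neg, eval_add, eval_pow, eval_X, eval_C,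
      derivative_mul, derivative_add, derivative_X_pow, derivative_C, derivative_X, eval_one,
      eval_zero] at h2
    have h3 : (1 + x ^ 2 : ℝ) ≠ 0 := by positivity
    have h4 := hreal x
    have h5 : κ (2 * arctan x) = K x := rfl
    simp only [hΦ, gg, gd, cos_two_arctan, sin_two_arctan, h5]
    have h6 : D.eval x * (2 * (K x - 2 * x) * ((x ^ 2 + b₁ * x + c₁) * (x ^ 2 + b₂ * x + c₂)) +
        (1 + x ^ 2) * ((2 * x + b₁) * (x ^ 2 + b₂ * x + c₂) +
          (x ^ 2 + b₁ * x + c₁) * (2 * x + b₂))) = 0 := by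
      have h7 : N.eval x * ((x ^ 2 + b₁ * x + c₁) * (x ^ 2 + b₂ * x + c₂)) =
          -(((2 * x + b₁) * (x ^ 2 + b₂ * x + c₂) +
          (x ^ 2 + b₁ * x + c₁) * (2 * x + b₂)) * D.eval x) := by
        norm_num at h2
        linear_combination h2
      linear_combination (1 + x ^ 2) * h7 - ((x ^ 2 + b₁ * x + c₁) * (x ^ 2 + b₂ * x + c₂)) * h1
    rcases mul_eq_zero.1 h6 with h7 | h7
    · exact absurd h7 h4
    · field_simp
      linear_combination 2 * h7
  have hIoo : Ioo (-π) π ⊆ {θ | Φ θ = 0} := by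
    intro θ hθ
    have h1 := hx (tan (θ / 2))
    rw [arctan_tan (by linarith [hθ.1]) (by linarith [hθ.2])] at h1
    have e : 2 * (θ / 2) = θ := by ring
    rwa [e] at h1
  have hIcc : Icc (-π) π ⊆ {θ | Φ θ = 0} := by
    rw [← closure_Ioo (by linarith [pi_pos] : (-π) ≠ π)]
    exact closure_minimal hIoo (isClosed_eq hΦc continuous_const)
  intro θ
  obtain ⟨y, hy, hye⟩ := hΦp.exists_mem_Ioc (by positivity : (0:ℝ) < 2 * π) θ (-π)
  have h1 : Φ y = 0 := hIcc ⟨hy.1.le, by linarith [hy.2]⟩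
  rw [h1] at hye
  simp only [hΦ] at hye
  linarith


end QLeaf

end Pool.Agent.MP_ae5b4e_an_RG
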