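import Mathlib
import Pool.Agent.Lib.MP_ae5b4e_an_RG.SmC
import Pool.Agent.Lib.MP_ae5b4e_an_RG.PLf

/-!
# MP_ae5b4e_an, project REG: closed curves of periodic points from the analytic family
-/

noncomputable section

namespace Pool.Agent.MP_ae5b4e_an_RG

open Complex Set Filter Topology
open Pool.Agent.MP_ae5b4e_an_SM
open Pool.Agent.MP_ae5b4e_an_rat (nxt)

private lemma close_cot_eq_tan (x : ℝ) : Real.cot x = Real.tan (Real.pi / 2 - x) := by
  rw [Real.tan_pi_div_two_sub, Real.cot_eq_cos_div_sin, Real.tan_eq_sin_div_cos, inv_div]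

private lemma close_arctan_cot {D : ℝ} (h0 : 0 < D) (h1 : D < 2 * Real.pi) :
    Real.arctan (Real.cot (D / 2)) = Real.pi / 2 - D / 2 := by
  rw [close_cot_eq_tan]
  exact Real.arctan_tan (by linarith) (by linarith)

private lemma close_elc {κ : ℝ → ℝ} {b : ℝ} {ψ : ℂ → ℂ} (h : Psi κ b ψ) (x y z : ℝ) :
    elc ψ x y z = 0 ↔
      Real.cot (((ψ z).re - (ψ y).re) / 2) - Real.cot (((ψ y).re - (ψ x).re) / 2)
        = κ (ψ y).re := by
  have hre : ∀ t : ℝ, ψ t = (((ψ t).re : ℝ) : ℂ) := by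
    intro t
    apply Complex.ext
    · simp
    · simp [h.real t]
  have hne : deriv ψ (y : ℂ) ≠ 0 := by
    intro h0
    have h1 := h.pos y
    rw [h0] at h1
    simp at h1
  have hode := h.ode y
  have h2 : deriv (deriv ψ) (y : ℂ) / deriv ψ y = -((κ (ψ y).re : ℝ) : ℂ) * deriv ψ y / 2 := by
    rw [div_eq_iff hne]
    have : deriv (deriv ψ) (y : ℂ) = -(((κ (ψ y).re : ℝ) : ℂ) * deriv ψ y ^ 2) / 2 := by
      rw [hode]; ring
    rw [this]
    ring
  have h3 : elc ψ x y z = deriv ψ y / 2 *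
      (((Real.cot (((ψ z).re - (ψ y).re) / 2) - Real.cot (((ψ y).re - (ψ x).re) / 2)
        - κ (ψ y).re : ℝ)) : ℂ) := by
    unfold elc
    rw [h2]
    have e1 : (ψ z - ψ y) / 2 = ((((ψ z).re - (ψ y).re) / 2 : ℝ) : ℂ) := by
      push_cast
      rw [← hre z, ← hre y]
    have e2 : (ψ y - ψ x) / 2 = ((((ψ y).re - (ψ x).re) / 2 : ℝ) : ℂ) := by
      push_cast
      rw [← hre y, ← hre x]
    rw [e1, e2, ← ofReal_cot, ← ofReal_cot, ofReal_sub, ofReal_sub]
    ring
  rw [h3, mul_eq_zero]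
  have h4 : deriv ψ (y : ℂ) / 2 ≠ 0 := div_ne_zero hne two_ne_zero
  constructor
  · rintro (h5 | h5)
    · exact absurd h5 h4
    · have h6 := ofReal_eq_zero.1 h5
      linarith
  · intro h5
    right
    rw [ofReal_eq_zero]
    linarith

private lemma close_hasDerivAt {κ : ℝ → ℝ} {b : ℝ} {ψ : ℂ → ℂ} (h : Psi κ b ψ) (t : ℝ) :
    HasDerivAt (fun s : ℝ => (ψ s).re) (deriv ψ t).re t := by
  have hopen : IsOpen {t : ℂ | |t.im| < b} :=
    isOpen_lt (continuous_abs.comp continuous_im) continuous_const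
  have hmem : (t : ℂ) ∈ {t : ℂ | |t.im| < b} := by simpa using h.b0
  have h1 : HasDerivAt ψ (deriv ψ t) (t : ℂ) :=
    ((h.diff (t : ℂ) hmem).differentiableAt (hopen.mem_nhds hmem)).hasDerivAt
  exact h1.real_of_complex

/-- closed curves of periodic points -/
theorem exists_qleaf {κ : ℝ → ℝ} {b c r κ' : ℝ} {ψ : ℂ → ℂ} {F : ℂ × ℂ → ℂ} (hψ : Psi κ b ψ)
    (hc : 0 < c) (hr : 0 < r) (hκ1 : κ' ≤ 1 / 16) (hF : GF c r κ' F)
    (hE : ∀ p ∈ Dm {-1, 0, 1} c r, p.2 ≠ 0 →
        elc ψ (F (p.1 - p.2, p.2)) (F p) (F (p.1 + p.2, p.2)) = 0) :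
    ∃ (u : ℝ → ℝ) (q : ℕ), QLeaf u κ q := by
  obtain ⟨q, hq⟩ := exists_nat_gt (max 1 (1 / r))
  have hq1 : (1:ℝ) < q := (le_max_left _ _).trans_lt hq
  have hq0 : (0:ℝ) < q := one_pos.trans hq1
  have hq0' : 0 < q := by exact_mod_cast hq0
  set ρ : ℝ := 1 / q with hρ
  have hρ0 : 0 < ρ := by positivity
  have hρ1 : ρ < 1 := by
    rw [hρ, div_lt_one hq0]
    exact hq1
  have hρr : ρ < r := by
    rw [hρ, div_lt_iff₀ hq0]
    have h1 : 1 / r < q := (le_max_right _ _).trans_lt hq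
    rw [div_lt_iff₀ hr] at h1
    linarith
  have hρR : (ρ : ℂ) ∈ Rq r := by
    refine ⟨?_, ?_⟩
    · simpa [abs_of_pos hρ0] using hρr
    · simpa using hr
  have hm : ∀ (S : Finset ℤ) (t : ℝ), ((t : ℂ), (ρ : ℂ)) ∈ Dm S c r := by
    intro S t
    refine ⟨fun s _ => ?_, hρR⟩
    have : ((t : ℂ) + (s : ℂ) * (ρ : ℂ)).im = 0 := by simp
    rw [this, abs_zero]
    exact hc
  -- the real slice
  set f : ℝ → ℝ := fun t => (F (t, ρ)).re with hf
  have hFr : ∀ t : ℝ, F (t, ρ) = (f t : ℂ) := by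
    intro t
    have h1 := hF.ap.real _ (hm {0} t) (by simp) (by simp)
    simp only [sub_im, ofReal_im, sub_zero] at h1
    apply Complex.ext
    · simp [hf]
    · simp [h1]
  have hf1 : ∀ t, f (t + 1) = f t + 1 := by
    intro t
    have h1 := hF.ap.per _ (hm {0} t)
    simp only at h1
    have e1 : ((t : ℂ) + 1) = ((t + 1 : ℝ) : ℂ) := by push_cast; ring
    rw [e1, hFr, hFr] at h1
    have h2 := congrArg Complex.re h1
    simp only [sub_re, ofReal_re] at h2
    linarith
  have hfd : ∀ t : ℝ, HasDerivAt f (dt F (t, ρ)).re t := by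
    intro t
    have h1 : DifferentiableOn ℂ (fun p : ℂ × ℂ => F p - p.1) (Dm {0} c r) := hF.ap.diff
    have h2 : DifferentiableAt ℂ (fun p : ℂ × ℂ => F p - p.1) ((t : ℂ), (ρ : ℂ)) :=
      (h1 _ (hm {0} t)).differentiableAt ((isOpen_Dm _ _ _).mem_nhds (hm {0} t))
    have h3 : DifferentiableAt ℂ F ((t : ℂ), (ρ : ℂ)) := by
      have h4 : DifferentiableAt ℂ (fun p : ℂ × ℂ => (F p - p.1) + p.1) ((t : ℂ), (ρ : ℂ)) :=
        h2.add differentiableAt_fst
      have e : (fun p : ℂ × ℂ => (F p - p.1) + p.1) = F := by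
        funext p
        ring
      rwa [e] at h4
    have h4 : DifferentiableAt ℂ (fun s : ℂ => F (s, ρ)) (t : ℂ) :=
      h3.comp (t : ℂ) (differentiableAt_id.prodMk (differentiableAt_const _))
    have h5 : HasDerivAt (fun s : ℂ => F (s, ρ)) (dt F (t, ρ)) (t : ℂ) := h4.hasDerivAt
    exact h5.real_of_complex
  have hfpos : ∀ t : ℝ, 0 < (dt F (t, ρ)).re := by
    intro t
    have h1 := hF.dt1 _ (hm {0} t)
    have h2 : |(dt F (t, ρ) - 1).re| ≤ κ' := (abs_re_le_norm _).trans h1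
    rw [abs_le] at h2
    have h3 := h2.1
    simp only [sub_re, one_re] at h3
    linarith
  have hfm : StrictMono f := strictMono_of_deriv_pos fun t => by
    rw [(hfd t).deriv]
    exact hfpos t
  have hfc : Continuous f := continuous_iff_continuousAt.2 fun t => (hfd t).continuousAt
  set p : ℝ → ℝ := fun t => (ψ t).re with hp
  have hpm : StrictMono p := by
    refine strictMono_of_deriv_pos fun t => ?_
    rw [(close_hasDerivAt hψ t).deriv]
    exact hψ.pos t
  have hpc : Continuous p :=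
    continuous_iff_continuousAt.2 fun t => (close_hasDerivAt hψ t).continuousAt
  have hp1 : ∀ t, p (t + 1) = p t + 2 * Real.pi := by
    intro t
    have h2 := hψ.per t (by simpa using hψ.b0)
    have h3 := congrArg Complex.re h2
    simpa [hp] using h3
  set g : ℝ → ℝ := fun t => p (f t) with hg
  have hgm : StrictMono g := hpm.comp hfm
  have hgc : Continuous g := hpc.comp hfc
  have hg1 : ∀ t, g (t + 1) = g t + 2 * Real.pi := by
    intro t
    simp only [hg, hf1, hp1]
  have hgn : ∀ (n : ℤ) (t : ℝ), g (t + n) = g t + 2 * Real.pi * n := by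
    have h4 : Function.Periodic (fun t => g t - 2 * Real.pi * t) 1 := by
      intro t
      simp only [hg1]
      ring
    intro n t
    have h5 := h4.int_mul n t
    simp only [mul_one] at h5
    linarith
  have hpi := Real.pi_pos
  have hgs : Function.Surjective g := by
    intro y
    obtain ⟨n, hn⟩ := exists_nat_gt (|y - g 0| / (2 * Real.pi))
    rw [div_lt_iff₀ (by positivity)] at hn
    have h1 := hgn n 0
    have h2 := hgn (-n) 0
    push_cast at h1 h2
    have h3 := abs_le.1 (le_refl |y - g 0|)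
    obtain ⟨x, -, hx⟩ := intermediate_value_Icc (show (0:ℝ) + -(n:ℝ) ≤ 0 + n by
      have : (0:ℝ) ≤ n := by positivity
      linarith) hgc.continuousOn (show y ∈ Icc (g (0 + -(n:ℝ))) (g (0 + n)) by
        rw [h1, h2]
        constructor <;> linarith [h3.1, h3.2])
    exact ⟨x, hx⟩
  set e : ℝ ≃o ℝ := hgm.orderIsoOfSurjective g hgs with he
  have heg : ∀ t, e t = g t := fun t => rfl
  have hge : ∀ θ, g (e.symm θ) = θ := fun θ => by
    rw [← heg]
    exact e.apply_symm_apply θ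
  have hes : ∀ θ, e.symm (θ + 2 * Real.pi) = e.symm θ + 1 := by
    intro θ
    apply hgm.injective
    rw [hge, hg1, hge]
  set τ : ℝ → ℝ := fun θ => g (e.symm θ + ρ) with hτ
  have hτ0 : ∀ θ, 0 < τ θ - θ := by
    intro θ
    have h1 := hgm (show e.symm θ < e.symm θ + ρ by linarith)
    rw [hge] at h1
    simp only [hτ]
    linarith
  have hτ1 : ∀ θ, τ θ - θ < 2 * Real.pi := by
    intro θ
    have h1 := hgm (show e.symm θ + ρ < e.symm θ + 1 by linarith)
    rw [hg1, hge] at h1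
    simp only [hτ]
    linarith
  have hτp : ∀ θ, τ (θ + 2 * Real.pi) = τ θ + 2 * Real.pi := by
    intro θ
    simp only [hτ, hes]
    rw [show e.symm θ + 1 + ρ = (e.symm θ + ρ) + 1 by ring, hg1]
  set u : ℝ → ℝ := fun θ => Real.cot ((τ θ - θ) / 2) with hu
  have hnxt : nxt (fun _ => u) 0 = τ := by
    funext θ
    unfold Pool.Agent.MP_ae5b4e_an_rat.nxt
    simp only [hu]
    rw [close_arctan_cot (hτ0 θ) (hτ1 θ)]
    ring
  have hτm : StrictMono τ := by
    intro x y hxy
    have h1 : e.symm x < e.symm y := e.symm.strictMono hxy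
    exact hgm (by linarith)
  have hiter : ∀ (n : ℕ) θ, τ^[n] θ = g (e.symm θ + n * ρ) := by
    intro n
    induction n with
    | zero =>
      intro θ
      simp [hge]
    | succ n ih =>
      intro θ
      rw [Function.iterate_succ_apply', ih]
      simp only [hτ]
      have h1 : e.symm (g (e.symm θ + n * ρ)) = e.symm θ + n * ρ := by
        apply hgm.injective
        rw [hge]
      rw [h1]
      congr 1
      push_cast
      ring
  refine ⟨u, q, ⟨hq0', ?_, ?_, ?_, ?_⟩⟩
  · intro θ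
    simp only [hu, hτp]
    congr 1
    ring
  · rw [hnxt]
    exact hτm
  · intro θ
    rw [hnxt, hiter]
    have h1 : (q:ℝ) * ρ = 1 := by
      rw [hρ]
      field_simp
    rw [h1, hg1, hge]
  · intro θ
    rw [hnxt]
    set t := e.symm θ with ht
    have h1 := hE (((t + ρ : ℝ) : ℂ), (ρ : ℂ)) (hm _ _) (by
      simpa using hρ0.ne')
    simp only at h1
    have e1 : ((t + ρ : ℝ) : ℂ) - (ρ : ℂ) = ((t : ℝ) : ℂ) := by push_cast; ring
    have e2 : ((t + ρ : ℝ) : ℂ) + (ρ : ℂ) = ((t + ρ + ρ : ℝ) : ℂ) := by push_cast; ring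
    rw [e1, e2, hFr, hFr, hFr, close_elc hψ] at h1
    have h2 : (ψ (f (t + ρ) : ℂ)).re = τ θ := rfl
    have h3 : (ψ (f t : ℂ)).re = θ := by
      have := hge θ
      exact this
    have h4 : (ψ (f (t + ρ + ρ) : ℂ)).re = τ (τ θ) := by
      have h5 : e.symm (τ θ) = t + ρ := by
        apply hgm.injective
        rw [hge]
      show g (t + ρ + ρ) = g (e.symm (τ θ) + ρ)
      rw [h5]
    rw [h2, h3, h4] at h1
    simp only [hu]
    linarith

end Pool.Agent.MP_ae5b4e_an_RG
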