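import Mathlib
import Pool.Agent.Lib.MP_ae5b4e_an_RG.CMero
import Pool.Agent.Lib.MP_ae5b4e_an_RG.PLfF
import Pool.Agent.Lib.MP_ae5b4e_an_rat.Pencil
import Pool.Agent.Lib.MP_ae5b4e_an_MET.LeafEnd

/-!
# MP_ae5b4e_an, project REG: continuous leaves around the circle, rational fields

The leaves are the conics of a pencil.
-/

noncomputable section

namespace Pool.Agent.MP_ae5b4e_an_RG

open Set Filter Topology
open scoped Real ContDiff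
open Pool.Agent.MP_ae5b4e_an_hopf
open Pool.Agent.MP_ae5b4e_an_rat (nxt gg gd gg_pos)
open Pool.Agent.MP_ae5b4e_an_SMG (Fol QR kR)
open Pool.Agent.MP_ae5b4e_an_MET (conic qform coef EF QH)

lemma L1_circ_of_nxt (t u : ℝ) : L1 circ1.Γ t (t + π - 2 * Real.arctan u) = -u := by
  rw [L1_circ]
  have h3 : t - (t + π - 2 * Real.arctan u) = -(π - 2 * Real.arctan u) := by ring
  rw [h3, Real.sin_neg, Real.cos_neg, Real.sin_pi_sub, Real.cos_pi_sub, Real.sin_two_mul,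
    Real.cos_two_mul]
  have h4 : 0 < Real.cos (Real.arctan u) := Real.cos_arctan_pos u
  have h5 : Real.sin (Real.arctan u) = u * Real.cos (Real.arctan u) := by
    rw [← Real.tan_mul_cos h4.ne', Real.tan_arctan]
  rw [h5]
  have h6 : 1 - -(2 * Real.cos (Real.arctan u) ^ 2 - 1) = 2 * Real.cos (Real.arctan u) ^ 2 := by
    ring
  rw [h6]
  field_simp

/-- families of closed curves around the circle -/
lemma CFam.of_fol {U : ℝ → ℝ → ℝ} {κ : ℝ → ℝ} (hF : Fol circ1 U κ) (hκ : ContDiff ℝ ∞ κ) :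
    CFam U κ where
  cont := hF.cont
  per := hF.per
  anti θ := fun c hc c' hc' hlt => hF.mono c hc c' hc' hlt θ
  lim0 := hF.lim
  smooth_κ := hκ
  feq c hc θ := by
    have h1 := Real.arctan_lt_pi_div_two (U c θ)
    have h2 := Real.neg_pi_div_two_lt_arctan (U c θ)
    have h3 := circ1.feq_of_proj (U := U) (κ := κ) (hF.simple c hc) (hF.proj c hc)
      (t := θ) (s := nxt U c θ) (by unfold MP_ae5b4e_an_rat.nxt; linarith)
      (by show nxt U c θ < θ + 2 * π; unfold MP_ae5b4e_an_rat.nxt; linarith) (L1_circ_of_nxt θ (U c θ))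
    have h4 : L1 circ1.Γ (nxt U c θ) θ = U c θ :=
      (L1_circ_nxt (t := θ) (s := nxt U c θ) (u := U c θ) (by unfold MP_ae5b4e_an_rat.nxt; linarith)
        (by unfold MP_ae5b4e_an_rat.nxt; linarith) (L1_circ_of_nxt θ (U c θ))).2
    rw [h4] at h3
    linarith

/-- factorization of rational fields -/
theorem CFam.exists_factors {U : ℝ → ℝ → ℝ} {κ : ℝ → ℝ} (h : CFam U κ) {A B : Polynomial ℝ}
    (hB : B ≠ 0) (hrat : ∀ θ, Real.cos (θ / 2) ≠ 0 →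
      κ θ * B.eval (Real.tan (θ / 2)) = A.eval (Real.tan (θ / 2))) :
    ∃ b₁ c₁ b₂ c₂ : ℝ, b₁ ^ 2 < 4 * c₁ ∧ b₂ ^ 2 < 4 * c₂ ∧
      ∀ θ, κ θ * (gg b₁ c₁ θ * gg b₂ c₂ θ) =
        -(gd b₁ c₁ θ * gg b₂ c₂ θ + gg b₁ c₁ θ * gd b₂ c₂ θ) := by
  obtain ⟨b, c, r, κ', ψ, F, hψ, hc, hr, hrc, hκ1, hcb, hF, hE⟩ := smooth_c0' h
  obtain ⟨u, q, hu⟩ := exists_qleaf hψ hc hr hκ1 hF hE
  exact hu.exists_factors h.smooth_κ.continuous h.κ_per hB hrat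

/-- the coefficients of the product of two affine functions -/
def qq (b₁ c₁ b₂ c₂ : ℝ) : Fin 6 → ℝ :=
  ![(c₁ - 1) * (c₂ - 1), (c₁ - 1) * b₂ + b₁ * (c₂ - 1), b₁ * b₂,
    (c₁ - 1) * (1 + c₂) + (1 + c₁) * (c₂ - 1), b₁ * (1 + c₂) + (1 + c₁) * b₂,
    (1 + c₁) * (1 + c₂)]

lemma QH_qq (b₁ c₁ b₂ c₂ x y z : ℝ) : QH (qq b₁ c₁ b₂ c₂) x y z =
    ((c₁ - 1) * x + b₁ * y + (1 + c₁) * z) * ((c₂ - 1) * x + b₂ * y + (1 + c₂) * z) := by
  simp only [QH, qq, Matrix.cons_val_zero, Matrix.cons_val_one, Matrix.cons_val]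
  ring

lemma hd_gg (b c θ : ℝ) : HasDerivAt (gg b c) (gd b c θ) θ := by
  have h := (((Real.hasDerivAt_cos θ).const_mul (c - 1)).add
    ((Real.hasDerivAt_sin θ).const_mul b)).add_const (1 + c)
  refine h.congr_deriv ?_
  simp only [gd]
  ring

/-- The leaves are conics of one pencil. -/
theorem circle_pencil {U : ℝ → ℝ → ℝ} {κ : ℝ → ℝ} (hF : Fol circ1 U κ)
    {b₁ c₁ b₂ c₂ : ℝ} (hb₁ : b₁ ^ 2 < 4 * c₁) (hb₂ : b₂ ^ 2 < 4 * c₂)
    (hκ : ∀ θ, κ θ * (gg b₁ c₁ θ * gg b₂ c₂ θ) =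
        -(gd b₁ c₁ θ * gg b₂ c₂ θ + gg b₁ c₁ θ * gd b₂ c₂ θ)) {r : ℝ} (hr : r ∈ Ioo (0:ℝ) 1) :
    ∃ ρ : ℝ, (qform (qq b₁ c₁ b₂ c₂) - ρ • EF 0 0 1 0 1).Nondegenerate ∧
      circ1.leaf U r = conic (qform (qq b₁ c₁ b₂ c₂) - ρ • EF 0 0 1 0 1) := by
  set Q := qform (qq b₁ c₁ b₂ c₂) with hQ
  have hval : ∀ θ, QR (coef Q) (circ1.x θ) (circ1.y θ) = gg b₁ c₁ θ * gg b₂ c₂ θ := by
    intro θ
    have h1 := MP_ae5b4e_an_MET.coef_apply Q ![circ1.x θ, circ1.y θ, 1]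
    have h2 := MP_ae5b4e_an_MET.qform_apply (qq b₁ c₁ b₂ c₂) ![circ1.x θ, circ1.y θ, 1]
    simp only [Matrix.cons_val_zero, Matrix.cons_val_one, Matrix.cons_val] at h1 h2
    rw [MP_ae5b4e_an_MET.QR_eq, ← h1, h2, QH_qq]
    simp only [gg, mul_one]
    rfl
  have hpos : ∀ θ, 0 < gg b₁ c₁ θ * gg b₂ c₂ θ := fun θ => mul_pos (gg_pos hb₁ θ) (gg_pos hb₂ θ)
  have hk : kR (coef Q) circ1 = κ := by
    funext θ
    unfold kR
    have h1 : (fun t => QR (coef Q) (circ1.x t) (circ1.y t)) =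
        fun t => gg b₁ c₁ t * gg b₂ c₂ t := funext hval
    have h2 : deriv (fun t => gg b₁ c₁ t * gg b₂ c₂ t) θ =
        gd b₁ c₁ θ * gg b₂ c₂ θ + gg b₁ c₁ θ * gd b₂ c₂ θ :=
      ((hd_gg b₁ c₁ θ).mul (hd_gg b₂ c₂ θ)).deriv
    rw [h1, h2, hval, div_eq_iff (hpos θ).ne', hκ]
  refine MP_ae5b4e_an_MET.leaves_conics circ1 (x₀ := 0) (y₀ := 0) (a := 1) (b := 0) (c := 1)
    one_pos (by norm_num) ?_ ?_ (by rw [hk]; exact hF) hr
  · intro t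
    show 1 * (Real.cos t - 0) ^ 2 + 2 * 0 * (Real.cos t - 0) * (Real.sin t - 0) +
      1 * (Real.sin t - 0) ^ 2 = 1
    have := Real.sin_sq_add_cos_sq t
    linarith
  · intro t
    have h1 := MP_ae5b4e_an_MET.coef_apply Q (circ1.Γ t)
    have h2 : QH (coef Q) (circ1.Γ t 0) (circ1.Γ t 1) (circ1.Γ t 2) =
        QR (coef Q) (circ1.x t) (circ1.y t) := by
      rw [MP_ae5b4e_an_MET.QR_eq]
      rfl
    rw [h1, h2, hval]
    exact hpos t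

end Pool.Agent.MP_ae5b4e_an_RG
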