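import Mathlib
import Pool.Agent.Lib.MP_ae5b4e_an_RG.CEnd
import Pool.Agent.Lib.MP_ae5b4e_an_RG.Fin

/-!
# MP_ae5b4e_an, project REG: continuous leaves around the circle, the final statements
-/

noncomputable section

namespace Pool.Agent.MP_ae5b4e_an_RG

open Set Filter Topology
open scoped Real ContDiff
open Pool.Agent.MP_ae5b4e_an_hopf
open Pool.Agent.MP_ae5b4e_an_rat (gg gd gg_pos)
open Pool.Agent.MP_ae5b4e_an_SMG (Fol QR kR)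
open Pool.Agent.MP_ae5b4e_an_MET (conic qform coef EF QH)

/-- the field of involutions is smooth -/
theorem smooth_kappa (γ : ConvexCurve) {U : ℝ → ℝ → ℝ} {κ : ℝ → ℝ} (hF : Fol γ U κ)
    (hreg : ContDiff ℝ ∞ κ ∨ (ContDiffOn ℝ ∞ (fun z : ℝ × ℝ => U z.1 z.2) (Ioo 0 1 ×ˢ univ) ∧
      ∀ c ∈ Ioo (0:ℝ) 1, ∀ t, deriv (fun r => U r t) c < 0)) : ContDiff ℝ ∞ κ := by
  rcases hreg with h | ⟨h1, h2⟩
  · exact h
  · exact contDiff_kappa γ.isCurve h1 h2 hF.lim fun c hc t s h3 h4 h5 =>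
      γ.feq_of_proj (hF.simple c hc) (hF.proj c hc) h3 h4 h5

lemma circ_ell (t : ℝ) : 1 * (circ1.x t - 0) ^ 2 + 2 * 0 * (circ1.x t - 0) * (circ1.y t - 0) +
    1 * (circ1.y t - 0) ^ 2 = 1 := by
  show 1 * (Real.cos t - 0) ^ 2 + 2 * 0 * (Real.cos t - 0) * (Real.sin t - 0) +
    1 * (Real.sin t - 0) ^ 2 = 1
  have := Real.sin_sq_add_cos_sq t
  linarith

lemma circ_nondeg : (EF 0 0 1 0 1).Nondegenerate :=
  MP_ae5b4e_an_MET.EF_nondeg one_pos (by norm_num)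

lemma circ_trace : circ1.trace = conic (EF 0 0 1 0 1) := by
  refine MP_ae5b4e_an_MET.trace_eq circ1 one_pos (by norm_num) circ_ell ?_
  intro x y h
  obtain ⟨θ, h1, h2⟩ := MP_ae5b4e_an_MET.Circ.exists_ang (c := x) (s := y) (by linarith)
  exact ⟨θ, h1, h2⟩

/-- Rational fields: the leaves are conics of one pencil. -/
theorem circle_rational {U : ℝ → ℝ → ℝ} {κ : ℝ → ℝ} (hF : Fol circ1 U κ)
    (hκ : ContDiff ℝ ∞ κ) {A B : Polynomial ℝ} (hB : B ≠ 0)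
    (hrat : ∀ θ, Real.cos (θ / 2) ≠ 0 →
      κ θ * B.eval (Real.tan (θ / 2)) = A.eval (Real.tan (θ / 2))) :
    ∃ Q E : QuadraticForm ℝ (Fin 3 → ℝ), E.Nondegenerate ∧ circ1.trace = conic E ∧
      (∀ θ, 0 < Q (circ1.Γ θ)) ∧
      ∀ c ∈ Ioo (0:ℝ) 1, ∃ ρ : ℝ, (Q - ρ • E).Nondegenerate ∧
        circ1.leaf U c = conic (Q - ρ • E) := by
  obtain ⟨b₁, c₁, b₂, c₂, hb₁, hb₂, hk⟩ := (CFam.of_fol hF hκ).exists_factors hB hrat
  refine ⟨qform (qq b₁ c₁ b₂ c₂), EF 0 0 1 0 1, circ_nondeg, circ_trace, fun θ => ?_,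
    fun c hc => circle_pencil hF hb₁ hb₂ hk hc⟩
  rw [MP_ae5b4e_an_MET.qform_apply, QH_qq]
  have h1 := mul_pos (gg_pos hb₁ θ) (gg_pos hb₂ θ)
  unfold gg at h1
  have e0 : circ1.Γ θ 0 = Real.cos θ := rfl
  have e1 : circ1.Γ θ 1 = Real.sin θ := rfl
  have e2 : circ1.Γ θ 2 = 1 := rfl
  rw [e0, e1, e2]
  linarith

/-- Fields which agree on one arc with a function with countably many singularities. -/
theorem circle_mero {U : ℝ → ℝ → ℝ} {κ : ℝ → ℝ} {K : ℂ → ℂ} (hF : Fol circ1 U κ)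
    (hreg : ContDiff ℝ ∞ κ ∨ (ContDiffOn ℝ ∞ (fun z : ℝ × ℝ => U z.1 z.2) (Ioo 0 1 ×ˢ univ) ∧
      ∀ c ∈ Ioo (0:ℝ) 1, ∀ t, deriv (fun r => U r t) c < 0))
    (hcount : {z : ℂ | ¬ AnalyticAt ℂ K z}.Countable) {θ₀ : ℝ}
    (hκ : ∀ᶠ θ : ℝ in 𝓝 θ₀, (κ θ : ℂ) = K (Complex.exp (θ * Complex.I))) :
    ∃ Q E : QuadraticForm ℝ (Fin 3 → ℝ), E.Nondegenerate ∧ circ1.trace = conic E ∧
      (∀ θ, 0 < Q (circ1.Γ θ)) ∧
      ∀ c ∈ Ioo (0:ℝ) 1, ∃ ρ : ℝ, (Q - ρ • E).Nondegenerate ∧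
        circ1.leaf U c = conic (Q - ρ • E) := by
  have hs := smooth_kappa circ1 hF hreg
  obtain ⟨A, B, hB, hrat⟩ := rational_c0 (CFam.of_fol hF hs) hcount hκ
  exact circle_rational hF hs hB hrat

end Pool.Agent.MP_ae5b4e_an_RG
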