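import Mathlib
import Pool.Agent.Lib.MP_ae5b4e_an_hopf.Plane

/-!
# MP_ae5b4e_an, project REG: change of the parameter of a convex curve
-/

noncomputable section

namespace Pool.Agent.MP_ae5b4e_an_RG

open Real Set Filter Topology
open scoped ContDiff
open Pool.Agent.MP_ae5b4e_an_hopf

/-- a parameter of period one -/
structure IsPar (γ : ConvexCurve) (σ : ℝ → ℝ) : Prop where
  smooth : ContDiff ℝ ∞ σ
  pos : ∀ x, 0 < deriv σ x
  per : ∀ x, σ (x + 1) = σ x + γ.T

namespace IsPar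

variable {γ : ConvexCurve} {σ : ℝ → ℝ} (h : IsPar γ σ)
include h

lemma hd (x : ℝ) : HasDerivAt σ (deriv σ x) x :=
  ((contDiff_infty_iff_deriv.1 h.smooth).1 x).hasDerivAt

lemma hd' (x : ℝ) : HasDerivAt (deriv σ) (deriv (deriv σ) x) x :=
  ((contDiff_infty_iff_deriv.1 (contDiff_infty_iff_deriv.1 h.smooth).2).1 x).hasDerivAt

lemma mono : StrictMono σ := strictMono_of_deriv_pos h.pos

lemma cont : Continuous σ := h.smooth.continuous

lemma cont' : Continuous (deriv σ) := (contDiff_infty_iff_deriv.1 h.smooth).2.continuous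

lemma deriv_per (x : ℝ) : deriv σ (x + 1) = deriv σ x := by
  have h1 : HasDerivAt (fun t => σ (t + 1)) (deriv σ (x + 1)) x := by
    simpa using (h.hd (x + 1)).comp_add_const x 1
  have h2 : HasDerivAt (fun t => σ (t + 1)) (deriv σ x) x := by
    have : (fun t => σ (t + 1)) = fun t => σ t + γ.T := funext h.per
    rw [this]
    exact (h.hd x).add_const _
  exact h1.unique h2

lemma per_int (n : ℤ) (x : ℝ) : σ (x + n) = σ x + n * γ.T := by
  have h4 : Function.Periodic (fun t => σ t - γ.T * t) 1 := by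
    intro t
    simp only [h.per]
    ring
  have h5 := h4.int_mul n x
  simp only [mul_one] at h5
  linarith

lemma surj : Function.Surjective σ := by
  have hT := γ.T_pos
  intro y
  obtain ⟨n, hn⟩ := exists_nat_gt (|y - σ 0| / γ.T)
  rw [div_lt_iff₀ hT] at hn
  have h1 := h.per_int n 0
  have h2 := h.per_int (-n) 0
  push_cast at h1 h2
  have h3 := abs_le.1 (le_refl |y - σ 0|)
  obtain ⟨x, -, hx⟩ := intermediate_value_Icc (show (0:ℝ) + -(n:ℝ) ≤ 0 + n by
    have : (0:ℝ) ≤ n := by positivity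
    linarith) h.cont.continuousOn (show y ∈ Icc (σ (0 + -(n:ℝ))) (σ (0 + n)) by
      rw [h1, h2]
      constructor <;> linarith [h3.1, h3.2])
  exact ⟨x, hx⟩

lemma hdx (x : ℝ) : HasDerivAt (fun x => γ.x (σ x)) (deriv σ x * deriv γ.x (σ x)) x := by
  have := (γ.hd_x (σ x)).comp x (h.hd x)
  refine this.congr_deriv ?_
  ring

lemma hdy (x : ℝ) : HasDerivAt (fun x => γ.y (σ x)) (deriv σ x * deriv γ.y (σ x)) x := by
  have := (γ.hd_y (σ x)).comp x (h.hd x)
  refine this.congr_deriv ?_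
  ring

lemma dx : deriv (fun x => γ.x (σ x)) = fun x => deriv σ x * deriv γ.x (σ x) :=
  funext fun x => (h.hdx x).deriv

lemma dy : deriv (fun x => γ.y (σ x)) = fun x => deriv σ x * deriv γ.y (σ x) :=
  funext fun x => (h.hdy x).deriv

lemma dx' (x : ℝ) : deriv (fun x => deriv σ x * deriv γ.x (σ x)) x =
    deriv (deriv σ) x * deriv γ.x (σ x) + deriv σ x ^ 2 * deriv (deriv γ.x) (σ x) := by
  have h1 := (h.hd' x).mul ((γ.hd_x' (σ x)).comp x (h.hd x))
  have h2 : HasDerivAt (fun x => deriv σ x * deriv γ.x (σ x))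
    (deriv (deriv σ) x * deriv γ.x (σ x) + deriv σ x ^ 2 * deriv (deriv γ.x) (σ x)) x := by
    refine h1.congr_deriv ?_
    simp only [Function.comp]
    ring
  exact h2.deriv

lemma dy' (x : ℝ) : deriv (fun x => deriv σ x * deriv γ.y (σ x)) x =
    deriv (deriv σ) x * deriv γ.y (σ x) + deriv σ x ^ 2 * deriv (deriv γ.y) (σ x) := by
  have h1 := (h.hd' x).mul ((γ.hd_y' (σ x)).comp x (h.hd x))
  have h2 : HasDerivAt (fun x => deriv σ x * deriv γ.y (σ x))
    (deriv (deriv σ) x * deriv γ.y (σ x) + deriv σ x ^ 2 * deriv (deriv γ.y) (σ x)) x := by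
    refine h1.congr_deriv ?_
    simp only [Function.comp]
    ring
  exact h2.deriv

end IsPar

/-- the curve with the new parameter -/
def repar {γ : ConvexCurve} {σ : ℝ → ℝ} (h : IsPar γ σ) : ConvexCurve where
  x := fun x => γ.x (σ x)
  y := fun x => γ.y (σ x)
  T := 1
  T_pos := one_pos
  smooth_x := γ.smooth_x.comp h.smooth
  smooth_y := γ.smooth_y.comp h.smooth
  per_x x := by rw [h.per, γ.per_x]
  per_y x := by rw [h.per, γ.per_y]
  curved x := by
    rw [h.dx, h.dy, h.dx', h.dy']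
    have h1 := γ.curved (σ x)
    have h2 := h.pos x
    have h3 : deriv σ x * deriv γ.x (σ x) * (deriv (deriv σ) x * deriv γ.y (σ x) +
        deriv σ x ^ 2 * deriv (deriv γ.y) (σ x)) - deriv σ x * deriv γ.y (σ x) *
        (deriv (deriv σ) x * deriv γ.x (σ x) + deriv σ x ^ 2 * deriv (deriv γ.x) (σ x)) =
        deriv σ x ^ 3 * (deriv γ.x (σ x) * deriv (deriv γ.y) (σ x) -
          deriv γ.y (σ x) * deriv (deriv γ.x) (σ x)) := by ring
    rw [h3]
    positivity
  convex t s h1 h2 := by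
    rw [h.dx, h.dy]
    have h3 := h.mono h1
    have h4 := h.mono h2
    rw [h.per] at h4
    have h5 := γ.convex (σ t) (σ s) h3 h4
    have h6 := h.pos t
    have h7 : deriv σ t * deriv γ.x (σ t) * (γ.y (σ s) - γ.y (σ t)) -
        deriv σ t * deriv γ.y (σ t) * (γ.x (σ s) - γ.x (σ t)) =
        deriv σ t * (deriv γ.x (σ t) * (γ.y (σ s) - γ.y (σ t)) -
          deriv γ.y (σ t) * (γ.x (σ s) - γ.x (σ t))) := by ring
    rw [h7]
    positivity

section

variable {γ : ConvexCurve} {σ : ℝ → ℝ} (h : IsPar γ σ)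

lemma repar_hvec (x u : ℝ) :
    (repar h).hvec x (deriv σ x * u) = deriv σ x • γ.hvec (σ x) u := by
  unfold ConvexCurve.hvec
  have h1 : deriv (repar h).x x = deriv σ x * deriv γ.x (σ x) := (h.hdx x).deriv
  have h2 : deriv (repar h).y x = deriv σ x * deriv γ.y (σ x) := (h.hdy x).deriv
  rw [h1, h2]
  funext i
  fin_cases i
  · show deriv σ x * u * γ.x (σ x) + deriv σ x * deriv γ.x (σ x) =
      deriv σ x * (u * γ.x (σ x) + deriv γ.x (σ x))
    ring
  · show deriv σ x * u * γ.y (σ x) + deriv σ x * deriv γ.y (σ x) =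
      deriv σ x * (u * γ.y (σ x) + deriv γ.y (σ x))
    ring
  · rfl

lemma repar_hvec' (x u : ℝ) :
    (repar h).hvec x u = deriv σ x • γ.hvec (σ x) (u / deriv σ x) := by
  have h1 := (h.pos x).ne'
  have h2 := repar_hvec h x (u / deriv σ x)
  rwa [mul_div_cancel₀ _ h1] at h2

lemma repar_pt (x u : ℝ) : (repar h).pt x (deriv σ x * u) = γ.pt (σ x) u := by
  unfold ConvexCurve.pt
  rw [Projectivization.mk_eq_mk_iff']
  exact ⟨deriv σ x, (repar_hvec h x u).symm⟩

lemma repar_pt' (x u : ℝ) : (repar h).pt x u = γ.pt (σ x) (u / deriv σ x) := by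
  have h1 := (h.pos x).ne'
  have h2 := repar_pt h x (u / deriv σ x)
  rwa [mul_div_cancel₀ _ h1] at h2

/-- the coordinates of the leaves -/
def rU (σ : ℝ → ℝ) (U : ℝ → ℝ → ℝ) (c x : ℝ) : ℝ := deriv σ x * U c (σ x)

lemma repar_leaf (U : ℝ → ℝ → ℝ) (c : ℝ) : (repar h).leaf (rU σ U) c = γ.leaf U c := by
  ext P
  constructor
  · rintro ⟨x, hx⟩
    refine ⟨σ x, ?_⟩
    rw [← hx]
    exact (repar_pt h x _).symm
  · rintro ⟨t, ht⟩
    obtain ⟨x, rfl⟩ := h.surj t
    exact ⟨x, by rw [← ht]; exact repar_pt h x _⟩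

lemma repar_trace : (repar h).trace = γ.trace := by
  ext P
  constructor
  · rintro ⟨x, hx⟩
    exact ⟨σ x, hx⟩
  · rintro ⟨t, ht⟩
    obtain ⟨x, rfl⟩ := h.surj t
    exact ⟨x, ht⟩

variable {U : ℝ → ℝ → ℝ}

include h in
lemma rU_cont (hU : ContinuousOn (fun p : ℝ × ℝ => U p.1 p.2) (Ioo 0 1 ×ˢ univ)) :
    ContinuousOn (fun p : ℝ × ℝ => rU σ U p.1 p.2) (Ioo 0 1 ×ˢ univ) := by
  have h1 := h.cont
  have h2 := h.cont'
  unfold rU
  refine ContinuousOn.mul (by fun_prop) ?_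
  exact hU.comp (f := fun p : ℝ × ℝ => ((p.1, σ p.2) : ℝ × ℝ)) (by fun_prop)
    fun p hp => ⟨hp.1, mem_univ _⟩

lemma rU_per {c : ℝ} (hper : ∀ t, U c (t + γ.T) = U c t) (x : ℝ) :
    rU σ U c (x + (repar h).T) = rU σ U c x := by
  show rU σ U c (x + 1) = rU σ U c x
  unfold rU
  rw [h.deriv_per, h.per, hper]

lemma rU_simple {c : ℝ} (hs : ∀ t t', γ.pt t (U c t) = γ.pt t' (U c t') →
    ∃ n : ℤ, t' = t + n * γ.T) (t t' : ℝ)
    (he : (repar h).pt t (rU σ U c t) = (repar h).pt t' (rU σ U c t')) :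
    ∃ n : ℤ, t' = t + n * (repar h).T := by
  unfold rU at he
  rw [repar_pt, repar_pt] at he
  obtain ⟨n, hn⟩ := hs _ _ he
  refine ⟨n, ?_⟩
  show t' = t + n * 1
  rw [mul_one]
  apply h.mono.injective
  rw [h.per_int, hn]

include h in
lemma rU_lim (hlim : ∀ t, Tendsto (fun c => U c t) (𝓝[>] 0) atTop) (t : ℝ) :
    Tendsto (fun c => rU σ U c t) (𝓝[>] 0) atTop :=
  (hlim (σ t)).const_mul_atTop (h.pos t)

end

end Pool.Agent.MP_ae5b4e_an_RG
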