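import Mathlib
import Pool.Agent.Lib.MP_ae5b4e_an_RG.CFin
import Pool.Agent.Lib.MP_ae5b4e_an_RG.Repar
import Pool.Agent.Lib.MP_ae5b4e_an_MET.LeafPencil
import Pool.Agent.Lib.MP_ae5b4e_an_ALG.Ellipse

/-!
# MP_ae5b4e_an, project REG: curves with an arc on a conic, reduction to the unit circle
-/

set_option autoImplicit false

noncomputable section

namespace Pool.Agent.MP_ae5b4e_an_RG

open Set Filter Topology
open scoped Real ContDiff
open Pool.Agent.MP_ae5b4e_an_hopf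
open Pool.Agent.MP_ae5b4e_an_SMG (Fol)
open Pool.Agent.MP_ae5b4e_an_MET (conic mem_conic)

/-- The curve is a conic and the leaves are conics of one pencil with it. -/
def Pencil (γ : ConvexCurve) (U : ℝ → ℝ → ℝ) : Prop :=
  ∃ Q E : QuadraticForm ℝ (Fin 3 → ℝ), E.Nondegenerate ∧ γ.trace = conic E ∧
    (∀ t, 0 < Q (γ.Γ t)) ∧
    ∀ c ∈ Ioo (0:ℝ) 1, ∃ ρ : ℝ, (Q - ρ • E).Nondegenerate ∧ γ.leaf U c = conic (Q - ρ • E)

/-- the affine map to the circle -/
def aff (p k m x₀ y₀ : ℝ) : (Fin 3 → ℝ) →ₗ[ℝ] (Fin 3 → ℝ) where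
  toFun v := ![p * (v 0 - x₀ * v 2) + k * (v 1 - y₀ * v 2), m * (v 1 - y₀ * v 2), v 2]
  map_add' v w := by
    funext i
    fin_cases i <;> simp <;> ring
  map_smul' r v := by
    funext i
    fin_cases i <;> simp <;> ring

lemma aff_inj {p k m x₀ y₀ : ℝ} (hp : p ≠ 0) (hm : m ≠ 0) :
    Function.Injective (aff p k m x₀ y₀) := by
  rw [injective_iff_map_eq_zero]
  intro v hv
  have h0 : p * (v 0 - x₀ * v 2) + k * (v 1 - y₀ * v 2) = 0 := congrFun hv 0
  have h1 : m * (v 1 - y₀ * v 2) = 0 := congrFun hv 1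
  have h2 : v 2 = 0 := congrFun hv 2
  rw [h2] at h0 h1
  have h3 : v 1 = 0 := by
    rcases mul_eq_zero.1 h1 with h | h
    · exact absurd h hm
    · linarith
  rw [h3] at h0
  have h4 : v 0 = 0 := by
    have h5 : p * v 0 = 0 := by linarith
    exact (mul_eq_zero.1 h5).resolve_left hp
  funext i
  fin_cases i
  · exact h4
  · exact h3
  · exact h2

lemma nondeg_comp {M : (Fin 3 → ℝ) →ₗ[ℝ] (Fin 3 → ℝ)} (hM : Function.Injective M)
    {Q : QuadraticForm ℝ (Fin 3 → ℝ)} (hQ : Q.Nondegenerate) : (Q.comp M).Nondegenerate := by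
  have : Invertible (2:ℝ) := invertibleOfNonzero two_ne_zero
  rw [QuadraticMap.nondegenerate_iff_radical_eq_bot] at hQ ⊢
  rw [eq_bot_iff] at hQ ⊢
  intro v hv
  rw [QuadraticMap.mem_radical_iff'] at hv
  obtain ⟨h1, h2⟩ := hv
  have hs : Function.Surjective M := LinearMap.surjective_of_injective hM
  have h3 : M v ∈ Q.radical := by
    rw [QuadraticMap.mem_radical_iff']
    refine ⟨h1, fun w => ?_⟩
    obtain ⟨w', rfl⟩ := hs w
    have := h2 w'
    simp only [QuadraticMap.comp_apply, map_add] at this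
    exact this
  have h4 := hQ h3
  rw [Submodule.mem_bot] at h4 ⊢
  exact hM (by rw [h4, map_zero])

/-- the reduction to the circle -/
theorem ellipse_transfer (γ : ConvexCurve) {x₀ y₀ a b c : ℝ} (ha : 0 < a) (hb : b ^ 2 < a * c)
    (hγ : ∀ t, a * (γ.x t - x₀) ^ 2 + 2 * b * (γ.x t - x₀) * (γ.y t - y₀) +
      c * (γ.y t - y₀) ^ 2 = 1) {U : ℝ → ℝ → ℝ} {κ : ℝ → ℝ} (hF : Fol γ U κ)
    (hκ : ContDiff ℝ ∞ κ)
    (main : ∀ (U' : ℝ → ℝ → ℝ) (κ' : ℝ → ℝ), Fol circ1 U' κ' → ContDiff ℝ ∞ κ' →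
      Pencil circ1 U') : Pencil γ U := by
  obtain ⟨p, k, m, θ, om, τ, hp0, hm0, -, -, -, hcos, hsin, hdθ, hom, homc, hx', hy', homp, hθp, hτc,
    hθτ, hτθ, hτp⟩ := MP_ae5b4e_an_MET.angle_param γ ha hb hγ
  set M := aff p k m x₀ y₀ with hM
  have hMi : Function.Injective M := aff_inj hp0.ne' hm0.ne'
  -- points of the curve and of the tangent lines
  have hMΓ : ∀ t, M (γ.Γ t) = circ1.Γ (θ t) := by
    intro t
    funext i
    fin_cases i
    · show p * (γ.x t - x₀ * 1) + k * (γ.y t - y₀ * 1) = Real.cos (θ t)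
      rw [hcos]
      ring
    · show m * (γ.y t - y₀ * 1) = Real.sin (θ t)
      rw [hsin]
      ring
    · rfl
  have hMh : ∀ t u, M (γ.hvec t u) = om t • circ1.hvec (θ t) (u / om t) := by
    intro t u
    have h1 := (hom t).ne'
    have h2 := hcos t
    have h3 := hsin t
    have h4 := hx' t
    have h5 := hy' t
    have d1 : deriv circ1.x (θ t) = -Real.sin (θ t) := by
      show deriv Real.cos (θ t) = _
      simp
    have d2 : deriv circ1.y (θ t) = Real.cos (θ t) := by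
      show deriv Real.sin (θ t) = _
      simp
    funext i
    fin_cases i
    · show p * (u * γ.x t + deriv γ.x t - x₀ * u) + k * (u * γ.y t + deriv γ.y t - y₀ * u) =
        om t * (u / om t * Real.cos (θ t) + deriv circ1.x (θ t))
      rw [d1, h2]
      field_simp
      linear_combination (-1) * h4
    · show m * (u * γ.y t + deriv γ.y t - y₀ * u) =
        om t * (u / om t * Real.sin (θ t) + deriv circ1.y (θ t))
      rw [d2, h3]
      field_simp
      linear_combination (-1) * h5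
    · show u = om t * (u / om t)
      field_simp
  have hpt : ∀ t u, circ1.pt (θ t) (u / om t) = Projectivization.map M hMi (γ.pt t u) := by
    intro t u
    unfold ConvexCurve.pt
    rw [Projectivization.map_mk, Projectivization.mk_eq_mk_iff']
    refine ⟨(om t)⁻¹, ?_⟩
    rw [hMh, smul_smul, inv_mul_cancel₀ (hom t).ne', one_smul]
  set U' : ℝ → ℝ → ℝ := fun c ψ => U c (τ ψ) / om (τ ψ) with hU'
  set κ' : ℝ → ℝ := fun ψ => κ (τ ψ) / om (τ ψ) with hκ'
  have hpt' : ∀ ψ u, circ1.pt ψ u = Projectivization.map M hMi (γ.pt (τ ψ) (u * om (τ ψ))) := by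
    intro ψ u
    rw [← hpt, hθτ, mul_div_assoc, div_self (hom (τ ψ)).ne', mul_one]
  have hptU : ∀ c ψ, circ1.pt ψ (U' c ψ) = Projectivization.map M hMi (γ.pt (τ ψ) (U c (τ ψ))) := by
    intro c ψ
    rw [hpt']
    congr 2
    simp only [hU']
    rw [div_mul_cancel₀ _ (hom (τ ψ)).ne']
  have hmap := Projectivization.map_injective (τ := RingHom.id ℝ) M hMi
  have hleaf : ∀ c, circ1.leaf U' c = Projectivization.map M hMi '' γ.leaf U c := by
    intro c
    ext P
    constructor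
    · rintro ⟨ψ, rfl⟩
      exact ⟨γ.pt (τ ψ) (U c (τ ψ)), ⟨τ ψ, rfl⟩, (hptU c ψ).symm⟩
    · rintro ⟨R, ⟨t, rfl⟩, rfl⟩
      refine ⟨θ t, ?_⟩
      show circ1.pt (θ t) (U' c (θ t)) = _
      rw [hptU, hτθ]
  -- the family around the circle
  have hF' : Fol circ1 U' κ' := by
    refine ⟨?_, ?_, ?_, ?_, ?_, ?_⟩
    · have h1 : ContinuousOn (fun q : ℝ × ℝ => U q.1 (τ q.2)) (Ioo 0 1 ×ˢ univ) :=
        hF.cont.comp (f := fun q : ℝ × ℝ => ((q.1, τ q.2) : ℝ × ℝ)) (by fun_prop)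
          fun q hq => ⟨hq.1, mem_univ _⟩
      exact h1.div (by fun_prop) fun q _ => (hom _).ne'
    · intro c hc ψ
      show U' c (ψ + 2 * π) = U' c ψ
      simp only [hU', hτp, homp, hF.per c hc]
    · intro c hc ψ ψ' he
      rw [hptU, hptU] at he
      obtain ⟨n, hn⟩ := hF.simple c hc _ _ (hmap he)
      refine ⟨n, ?_⟩
      have h4 : Function.Periodic (fun t => θ t - 2 * π / γ.T * t) γ.T := by
        intro t
        have := γ.T_pos.ne'
        simp only [hθp]
        field_simp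
        ring
      have h5 := h4.int_mul n (τ ψ)
      rw [← hn, hθτ, hθτ, hn] at h5
      have := γ.T_pos.ne'
      show ψ' = ψ + n * (2 * π)
      have h6 : 2 * π / γ.T * (τ ψ + n * γ.T) = 2 * π / γ.T * τ ψ + n * (2 * π) := by
        field_simp
      rw [h6] at h5
      linarith
    · intro c hc c' hc' hlt ψ
      exact div_lt_div_of_pos_right (hF.mono c hc c' hc' hlt (τ ψ)) (hom _)
    · intro ψ
      exact (hF.lim (τ ψ)).atTop_div_const (hom _)
    · intro c hc ψ u v huv hu hv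
      rw [hleaf, hpt'] at hu hv
      obtain ⟨R, hR, hRe⟩ := hu
      obtain ⟨S, hS, hSe⟩ := hv
      rw [hmap hRe] at hR
      rw [hmap hSe] at hS
      have h1 := (hom (τ ψ)).ne'
      have h2 := hF.proj c hc (τ ψ) _ _ (fun h => huv (mul_right_cancel₀ h1 h)) hR hS
      simp only [hκ']
      rw [eq_div_iff h1, ← h2]
      ring
  -- smoothness
  have homs : ContDiff ℝ ∞ om := by
    have h1 : om = fun t => -(m * (γ.y t - y₀)) * (p * deriv γ.x t + k * deriv γ.y t) +
        (p * (γ.x t - x₀) + k * (γ.y t - y₀)) * (m * deriv γ.y t) := by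
      funext t
      rw [← hcos, ← hsin, ← hx', ← hy']
      linear_combination (-om t) * Real.sin_sq_add_cos_sq (θ t)
    rw [h1]
    have e1 := γ.smooth_x
    have e2 := γ.smooth_y
    have e3 := (contDiff_infty_iff_deriv.1 γ.smooth_x).2
    have e4 := (contDiff_infty_iff_deriv.1 γ.smooth_y).2
    fun_prop
  have hθs : ContDiff ℝ ∞ θ := by
    rw [contDiff_infty_iff_deriv]
    refine ⟨fun t => (hdθ t).differentiableAt, ?_⟩
    rw [show deriv θ = om from funext fun t => (hdθ t).deriv]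
    exact homs
  have hτs : ContDiff ℝ ∞ τ := by
    have hθm : StrictMono θ := strictMono_of_deriv_pos fun t => by
      rw [(hdθ t).deriv]
      exact hom t
    have hsurj : Function.Surjective θ := fun ψ => ⟨τ ψ, hθτ ψ⟩
    set e : ℝ ≃ₜ ℝ := (StrictMono.orderIsoOfSurjective θ hθm hsurj).toHomeomorph with he
    have h2 : ContDiff ℝ ∞ (e.symm : ℝ → ℝ) :=
      e.contDiff_symm_deriv (f' := om) (fun x => (hom x).ne') (fun x => hdθ x) hθs
    have h3 : (e.symm : ℝ → ℝ) = τ := by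
      funext ψ
      apply hθm.injective
      rw [hθτ]
      exact e.apply_symm_apply ψ
    rwa [h3] at h2
  have hκs : ContDiff ℝ ∞ κ' := (hκ.comp hτs).div (homs.comp hτs) fun ψ => (hom _).ne'
  obtain ⟨Q, E, hE, htr, hQ, hl⟩ := main U' κ' hF' hκs
  have hset : ∀ (A : Set (Projectivization ℝ (Fin 3 → ℝ))) (R : QuadraticForm ℝ (Fin 3 → ℝ)),
      Projectivization.map M hMi '' A = conic R → A = conic (R.comp M) := by
    intro A R hA
    ext P
    induction P using Projectivization.ind with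
    | h v hv =>
    have h1 : Projectivization.mk ℝ v hv ∈ A ↔
        Projectivization.map M hMi (Projectivization.mk ℝ v hv) ∈ conic R := by
      rw [← hA]
      exact (hmap.mem_set_image).symm
    rw [h1, mem_conic, Projectivization.map_mk, mem_conic, QuadraticMap.comp_apply]
  have htrace : Projectivization.map M hMi '' γ.trace = circ1.trace := by
    ext P
    constructor
    · rintro ⟨R, ⟨t, rfl⟩, rfl⟩
      refine ⟨θ t, ?_⟩
      rw [Projectivization.map_mk, Projectivization.mk_eq_mk_iff']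
      refine ⟨1, ?_⟩
      rw [one_smul]
      exact hMΓ t
    · rintro ⟨ψ, rfl⟩
      refine ⟨_, ⟨τ ψ, rfl⟩, ?_⟩
      rw [Projectivization.map_mk, Projectivization.mk_eq_mk_iff']
      refine ⟨1, ?_⟩
      rw [one_smul]
      have := hMΓ (τ ψ)
      rw [hθτ] at this
      exact this.symm
  refine ⟨Q.comp M, E.comp M, nondeg_comp hMi hE, hset _ _ (by rw [htrace, htr]), ?_, ?_⟩
  · intro t
    rw [QuadraticMap.comp_apply, hMΓ]
    exact hQ (θ t)
  · intro c hc
    obtain ⟨ρ, h1, h2⟩ := hl c hc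
    have h3 : Q.comp M - ρ • E.comp M = (Q - ρ • E).comp M := by
      ext v
      simp
    refine ⟨ρ, ?_, ?_⟩
    · rw [h3]
      exact nondeg_comp hMi h1
    · rw [h3]
      exact hset _ _ (by rw [← hleaf, h2])

/-- A smooth curve with an arc on a conic: it is an ellipse, and the problem reduces to the unit
circle. -/
theorem conic_arc (γ : ConvexCurve) {U : ℝ → ℝ → ℝ} {κ : ℝ → ℝ} (hF : Fol γ U κ)
    (hreg : ContDiff ℝ ∞ κ ∨ (ContDiffOn ℝ ∞ (fun z : ℝ × ℝ => U z.1 z.2) (Ioo 0 1 ×ˢ univ) ∧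
      ∀ c ∈ Ioo (0:ℝ) 1, ∀ t, deriv (fun r => U r t) c < 0))
    {A B C D E F : ℝ} (hne : (A, B, C, D, E, F) ≠ (0, 0, 0, 0, 0, 0)) {t₀ : ℝ}
    (harc : ∀ᶠ t in 𝓝 t₀, A * γ.x t ^ 2 + B * γ.x t * γ.y t + C * γ.y t ^ 2 + D * γ.x t +
      E * γ.y t + F = 0)
    (main : ∀ (U' : ℝ → ℝ → ℝ) (κ' : ℝ → ℝ), Fol circ1 U' κ' → ContDiff ℝ ∞ κ' →
      Pencil circ1 U') : Pencil γ U := by
  obtain ⟨σ, hσ, hσ', hσp, hax, hay, -⟩ := reg γ U κ hF.cont hF.per hF.simple
    (fun t c hc c' hc' hlt => hF.mono c hc c' hc' hlt t) hF.lim hreg hF.proj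
  have h : IsPar γ σ := ⟨hσ, hσ', hσp⟩
  obtain ⟨x₀, rfl⟩ := h.surj t₀
  have hrel0 : ∀ᶠ x in 𝓝 x₀, A * γ.x (σ x) ^ 2 + B * γ.x (σ x) * γ.y (σ x) +
      C * γ.y (σ x) ^ 2 + D * γ.x (σ x) + E * γ.y (σ x) + F = 0 :=
    (h.cont.tendsto x₀).eventually harc
  have hrel' : ∀ x, A * γ.x (σ x) ^ 2 + B * γ.x (σ x) * γ.y (σ x) +
      C * γ.y (σ x) ^ 2 + D * γ.x (σ x) + E * γ.y (σ x) + F = 0 := by
    have h1 : AnalyticOnNhd ℝ (fun x => A * γ.x (σ x) ^ 2 + B * γ.x (σ x) * γ.y (σ x) +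
      C * γ.y (σ x) ^ 2 + D * γ.x (σ x) + E * γ.y (σ x) + F) univ := by
      intro x hx
      have e1 := hax x hx
      have e2 := hay x hx
      fun_prop
    have h2 := h1.eqOn_zero_of_preconnected_of_eventuallyEq_zero isPreconnected_univ
      (mem_univ x₀) hrel0
    exact fun x => h2 (mem_univ x)
  have hall : ∀ t, A * γ.x t ^ 2 + B * γ.x t * γ.y t + C * γ.y t ^ 2 + D * γ.x t + E * γ.y t +
      F = 0 := by
    intro t
    obtain ⟨x, rfl⟩ := h.surj t
    exact hrel' x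
  obtain ⟨x₁, y₁, a, b, c, ha, hb, hγ, -⟩ := MP_ae5b4e_an_ALG.ellipse_of_conic γ hne hall
  exact ellipse_transfer γ ha hb hγ hF (smooth_kappa γ hF hreg) main

end Pool.Agent.MP_ae5b4e_an_RG
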