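import Mathlib
import Pool.Agent.Lib.MP_ae5b4e_an_RG.Repar
import Pool.Agent.Lib.MP_ae5b4e_an_RG.Fin
import Pool.Agent.Lib.MP_ae5b4e_an_MET.Final

/-!
# MP_ae5b4e_an, project REG: the involutions of a quadratic form, smooth curves with an algebraic arc
-/

set_option autoImplicit false

noncomputable section

namespace Pool.Agent.MP_ae5b4e_an_RG

open Real Set Filter Topology Polynomial
open scoped ContDiff
open Pool.Agent.MP_ae5b4e_an_hopf
open Pool.Agent.MP_ae5b4e_an_MET (conic coef polQ QH hd_QR coef_apply)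
open Pool.Agent.MP_ae5b4e_an_SMG (QR kR)

/-- the field of the involutions of a quadratic form -/
lemma proj_of_form (γ : ConvexCurve) (Q : QuadraticForm ℝ (Fin 3 → ℝ)) (hQ : ∀ t, Q (γ.Γ t) ≠ 0)
    {t u v : ℝ} (huv : u ≠ v) (he : Q (γ.hvec t u) = Q (γ.hvec t v)) :
    u + v = kR (coef Q) γ t := by
  have h0 : QR (coef Q) (γ.x t) (γ.y t) = Q (γ.Γ t) := by
    rw [coef_apply, MP_ae5b4e_an_MET.QR_eq]
    rfl
  have h1 : QR (coef Q) (γ.x t) (γ.y t) ≠ 0 := by
    rw [h0]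
    exact hQ t
  rw [kR, (hd_QR (coef Q) γ t).deriv, eq_div_iff h1]
  rw [coef_apply, coef_apply] at he
  simp only [QH, ConvexCurve.hvec, Matrix.cons_val_zero, Matrix.cons_val_one,
    Matrix.cons_val] at he
  have h2 : u - v ≠ 0 := sub_ne_zero.2 huv
  apply mul_left_cancel₀ h2
  simp only [QR, polQ]
  linear_combination he

lemma smooth_kR (γ : ConvexCurve) {q : Fin 6 → ℝ} (hq : ∀ t, QR q (γ.x t) (γ.y t) ≠ 0) :
    ContDiff ℝ ∞ (kR q γ) := by
  have h1 : ContDiff ℝ ∞ fun t => QR q (γ.x t) (γ.y t) := by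
    unfold QR
    have hx := γ.smooth_x
    have hy := γ.smooth_y
    fun_prop
  have h2 : ContDiff ℝ ∞ (deriv fun t => QR q (γ.x t) (γ.y t)) := (contDiff_infty_iff_deriv.1 h1).2
  unfold kR
  exact h2.neg.div h1 hq

/-- A smooth convex curve with an algebraic arc and with a family of closed curves around it which
induces on its tangent lines the involutions of a quadratic form is an ellipse, and the closed
curves are conics of one pencil. -/
theorem met_smooth (γ : ConvexCurve) {P : ℝ[X][X]} (hP : P ≠ 0) {t₀ : ℝ}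
    (hrel : ∀ᶠ t in 𝓝 t₀, evalEval (γ.x t) (γ.y t) P = 0)
    (Q : QuadraticForm ℝ (Fin 3 → ℝ)) (hQ : ∀ t, Q (γ.Γ t) ≠ 0)
    (U : ℝ → ℝ → ℝ)
    (hcont : ContinuousOn (fun p : ℝ × ℝ => U p.1 p.2) (Ioo 0 1 ×ˢ univ))
    (hper : ∀ c ∈ Ioo (0:ℝ) 1, ∀ t, U c (t + γ.T) = U c t)
    (hsimple : ∀ c ∈ Ioo (0:ℝ) 1, ∀ t t', γ.pt t (U c t) = γ.pt t' (U c t') →
      ∃ n : ℤ, t' = t + n * γ.T)
    (hmono : ∀ c ∈ Ioo (0:ℝ) 1, ∀ c' ∈ Ioo (0:ℝ) 1, c < c' → ∀ t, U c' t < U c t)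
    (hlim : ∀ t, Tendsto (fun c => U c t) (𝓝[>] 0) atTop)
    (hproj : ∀ c ∈ Ioo (0:ℝ) 1, ∀ t u v, u ≠ v → γ.pt t u ∈ γ.leaf U c →
      γ.pt t v ∈ γ.leaf U c → Q (γ.hvec t u) = Q (γ.hvec t v)) :
    ∃ E : QuadraticForm ℝ (Fin 3 → ℝ), E.Nondegenerate ∧ γ.trace = conic E ∧
      ∀ c ∈ Ioo (0:ℝ) 1, ∃ ρ : ℝ, (Q - ρ • E).Nondegenerate ∧ γ.leaf U c = conic (Q - ρ • E) := by
  have hq : ∀ t, QR (coef Q) (γ.x t) (γ.y t) ≠ 0 := by
    intro t
    have h0 : QR (coef Q) (γ.x t) (γ.y t) = Q (γ.Γ t) := by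
      rw [coef_apply, MP_ae5b4e_an_MET.QR_eq]
      rfl
    rw [h0]
    exact hQ t
  obtain ⟨σ, hσ, hσ', hσp, hax, hay, -⟩ := reg γ U (kR (coef Q) γ) hcont hper hsimple
    (fun t c hc c' hc' hlt => hmono c hc c' hc' hlt t) hlim (Or.inl (smooth_kR γ hq))
    (fun c hc t u v huv hu hv => proj_of_form γ Q hQ huv (hproj c hc t u v huv hu hv))
  have h : IsPar γ σ := ⟨hσ, hσ', hσp⟩
  set γ' := repar h with hγ'
  have hx' : ∀ x, AnalyticAt ℝ γ'.x x := fun x => hax x (mem_univ _)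
  have hy' : ∀ x, AnalyticAt ℝ γ'.y x := fun x => hay x (mem_univ _)
  -- the polynomial vanishes on the whole curve
  have hPa : ∀ x, AnalyticAt ℝ (fun x => evalEval (γ'.x x) (γ'.y x) P) x := by
    intro x
    have h1 : (fun x => evalEval (γ'.x x) (γ'.y x) P) =
        fun x => P.sum fun n p => (p.eval (γ'.x x)) * γ'.y x ^ n := by
      funext x
      rw [evalEval, eval_eq_sum (p := P), Polynomial.sum, Polynomial.sum, eval_finset_sum]
      refine Finset.sum_congr rfl fun n _ => ?_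
      simp [eval_mul, eval_pow]
    rw [h1]
    simp only [Polynomial.sum]
    refine Finset.analyticAt_fun_sum _ fun n _ => ?_
    refine AnalyticAt.mul ?_ ((hy' x).pow n)
    have h2 : AnalyticAt ℝ (fun z : ℝ => (P.coeff n).eval z) (γ'.x x) := by
      have := AnalyticAt.aeval_polynomial (𝕜 := ℝ) (f := fun z : ℝ => z)
        (analyticAt_id (z := γ'.x x)) (P.coeff n)
      simpa using this
    exact h2.comp (hx' x)
  obtain ⟨x₀, rfl⟩ := h.surj t₀
  have hrel0 : ∀ᶠ x in 𝓝 x₀, evalEval (γ'.x x) (γ'.y x) P = 0 :=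
    (h.cont.tendsto x₀).eventually hrel
  have hrel' : ∀ x, evalEval (γ'.x x) (γ'.y x) P = 0 := by
    have h1 : AnalyticOnNhd ℝ (fun x => evalEval (γ'.x x) (γ'.y x) P) univ := fun x _ => hPa x
    have h2 := h1.eqOn_zero_of_preconnected_of_eventuallyEq_zero isPreconnected_univ
      (mem_univ x₀) hrel0
    exact fun x => h2 (mem_univ x)
  obtain ⟨E, hE, htr, hl⟩ := MP_ae5b4e_an_MET.met γ' hx' hy' hP hrel' Q (fun x => hQ (σ x))
    (rU σ U) (rU_cont h hcont) (fun c hc => rU_per h (hper c hc))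
    (fun c hc => rU_simple h (hsimple c hc))
    (fun c hc c' hc' hlt x => mul_lt_mul_of_pos_left (hmono c hc c' hc' hlt (σ x)) (h.pos x))
    (rU_lim h hlim) (by
      intro c hc x u v huv hu hv
      rw [repar_leaf, repar_pt'] at hu hv
      have h1 := (h.pos x).ne'
      have h2 : u / deriv σ x ≠ v / deriv σ x := by
        intro h3
        rw [div_left_inj' h1] at h3
        exact huv h3
      have h3 := hproj c hc (σ x) _ _ h2 hu hv
      rw [repar_hvec', repar_hvec', QuadraticMap.map_smul, QuadraticMap.map_smul, h3])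
  refine ⟨E, hE, ?_, ?_⟩
  · rw [← htr, repar_trace]
  · intro c hc
    obtain ⟨ρ, h1, h2⟩ := hl c hc
    exact ⟨ρ, h1, by rw [← h2, repar_leaf]⟩

end Pool.Agent.MP_ae5b4e_an_RG
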