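import Mathlib
import Pool.Agent.Lib.MP_ae5b4e_an_RG.Ell

/-!
# MP_ae5b4e_an, project REG: contact of infinite order with a conic

A smooth closed convex curve with a foliation which induces projective involutions on its tangent
lines is real-analytic (`reg`), so it lies on a conic as soon as it has infinitely many points on it,
or contact of infinite order with it at one point.
-/

set_option autoImplicit false

noncomputable section

namespace Pool.Agent.MP_ae5b4e_an_RG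

open Set Filter Topology
open scoped Real ContDiff
open Pool.Agent.MP_ae5b4e_an_hopf
open Pool.Agent.MP_ae5b4e_an_SMG (Fol)

/-- an analytic function with zeros of infinite order (in a weak sense) at a point -/
lemma zero_of_freq {g : ℝ → ℝ} (hg : AnalyticOnNhd ℝ g univ) {x₀ : ℝ}
    (hfr : ∀ n : ℕ, ∃ K : ℝ, ∃ᶠ x in 𝓝[≠] x₀, |g x| ≤ K * |x - x₀| ^ n) (x : ℝ) : g x = 0 := by
  have h0 : ∀ᶠ x in 𝓝 x₀, g x = 0 := by
    by_contra hne
    obtain ⟨m, h, hh, hh0, he⟩ :=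
      ((hg x₀ (mem_univ _)).exists_eventuallyEq_pow_smul_nonzero_iff).2 hne
    obtain ⟨K, hK⟩ := hfr (m + 1)
    have h1 : ∀ᶠ x in 𝓝 x₀, |h x₀| / 2 < |h x| := by
      have : Tendsto (fun x => |h x|) (𝓝 x₀) (𝓝 |h x₀|) := hh.continuousAt.abs
      exact this.eventually_const_lt (by linarith [abs_pos.2 hh0])
    have h2 : ∀ᶠ x in 𝓝 x₀, |K| * |x - x₀| < |h x₀| / 2 := by
      have : Tendsto (fun x : ℝ => |K| * |x - x₀|) (𝓝 x₀) (𝓝 (|K| * |x₀ - x₀|)) := by
        have : Continuous fun x : ℝ => |K| * |x - x₀| := by fun_prop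
        exact this.tendsto x₀
      rw [sub_self, abs_zero, mul_zero] at this
      exact this.eventually_lt_const (by linarith [abs_pos.2 hh0])
    have h3 : ∀ᶠ x in 𝓝[≠] x₀, ¬ |g x| ≤ K * |x - x₀| ^ (m + 1) := by
      filter_upwards [he.filter_mono nhdsWithin_le_nhds, h1.filter_mono nhdsWithin_le_nhds,
        h2.filter_mono nhdsWithin_le_nhds, self_mem_nhdsWithin] with x e1 e2 e3 e4 e5
      have hx : 0 < |x - x₀| := abs_pos.2 (sub_ne_zero.2 e4)
      rw [e1, smul_eq_mul, abs_mul, abs_pow, pow_succ] at e5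
      have h6 : K * (|x - x₀| ^ m * |x - x₀|) ≤ |x - x₀| ^ m * (|K| * |x - x₀|) := by
        have h7 : K * (|x - x₀| ^ m * |x - x₀|) ≤ |K| * (|x - x₀| ^ m * |x - x₀|) :=
          mul_le_mul_of_nonneg_right (le_abs_self K) (by positivity)
        calc _ ≤ _ := h7
          _ = _ := by ring
      have h8 : |x - x₀| ^ m * |h x| ≤ |x - x₀| ^ m * (|K| * |x - x₀|) := e5.trans h6
      have h9 : |h x| ≤ |K| * |x - x₀| := le_of_mul_le_mul_left h8 (by positivity)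
      linarith
    exact hK h3
  exact hg.eqOn_zero_of_preconnected_of_eventuallyEq_zero isPreconnected_univ (mem_univ x₀) h0
    (mem_univ x)

/-- If the curve comes closer than any power of `|t - t₀|` to `C = 0` at points which accumulate at
`t₀` (for instance, if it has infinitely many points on `C = 0`, or contact of infinite order with it
at one point), then `C = 0` on the whole curve. -/
theorem all_of_freq (γ : ConvexCurve) {U : ℝ → ℝ → ℝ} {κ : ℝ → ℝ} (hF : Fol γ U κ)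
    (hreg : ContDiff ℝ ∞ κ ∨ (ContDiffOn ℝ ∞ (fun z : ℝ × ℝ => U z.1 z.2) (Ioo 0 1 ×ˢ univ) ∧
      ∀ c ∈ Ioo (0:ℝ) 1, ∀ t, deriv (fun r => U r t) c < 0))
    (C : QuadraticForm ℝ (Fin 3 → ℝ)) {t₀ : ℝ}
    (hfr : ∀ n : ℕ, ∃ᶠ t in 𝓝[≠] t₀, |C (γ.Γ t)| ≤ |t - t₀| ^ n) (t : ℝ) : C (γ.Γ t) = 0 := by
  obtain ⟨σ, hσ, hσ', hσp, hax, hay, -⟩ := reg γ U κ hF.cont hF.per hF.simple
    (fun t c hc c' hc' hlt => hF.mono c hc c' hc' hlt t) hF.lim hreg hF.proj
  have h : IsPar γ σ := ⟨hσ, hσ', hσp⟩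
  obtain ⟨g, hg⟩ : ∃ g : ℝ → ℝ, g = fun x => C (γ.Γ (σ x)) := ⟨_, rfl⟩
  have hgan : AnalyticOnNhd ℝ g univ := by
    intro x hx
    have e1 := hax x hx
    have e2 := hay x hx
    have e : g = fun x => MP_ae5b4e_an_MET.coef C 0 * γ.x (σ x) ^ 2 +
        MP_ae5b4e_an_MET.coef C 1 * γ.x (σ x) * γ.y (σ x) +
        MP_ae5b4e_an_MET.coef C 2 * γ.y (σ x) ^ 2 + MP_ae5b4e_an_MET.coef C 3 * γ.x (σ x) +
        MP_ae5b4e_an_MET.coef C 4 * γ.y (σ x) + MP_ae5b4e_an_MET.coef C 5 := by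
      funext y
      rw [hg]
      show C (γ.Γ (σ y)) = _
      rw [MP_ae5b4e_an_MET.coef_apply, MP_ae5b4e_an_MET.QH]
      have e0 : γ.Γ (σ y) 0 = γ.x (σ y) := rfl
      have e1 : γ.Γ (σ y) 1 = γ.y (σ y) := rfl
      have e2 : γ.Γ (σ y) 2 = 1 := rfl
      rw [e0, e1, e2]
      ring
    rw [e]
    fun_prop
  obtain ⟨x₀, rfl⟩ := h.surj t₀
  obtain ⟨y, rfl⟩ := h.surj t
  -- `σ` is a homeomorphism
  let e : ℝ ≃ₜ ℝ := (h.mono.orderIsoOfSurjective σ h.surj).toHomeomorph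
  have he : ∀ x, e x = σ x := fun _ => rfl
  have hlip : ∃ K : ℝ, ∀ᶠ x in 𝓝 x₀, |σ x - σ x₀| ≤ K * |x - x₀| := by
    have h1 := (h.hd x₀).differentiableAt.isBigO_sub
    obtain ⟨K, hK⟩ := h1.bound
    exact ⟨K, hK.mono fun x hx => by simpa [Real.norm_eq_abs] using hx⟩
  obtain ⟨K, hK⟩ := hlip
  have key : ∀ n : ℕ, ∃ K : ℝ, ∃ᶠ x in 𝓝[≠] x₀, |g x| ≤ K * |x - x₀| ^ n := by
    intro n
    refine ⟨K ^ n, ?_⟩
    rw [Filter.frequently_iff]
    intro V hV
    obtain ⟨V', hV', hVV⟩ := mem_nhdsWithin_iff_exists_mem_nhds_inter.1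
      (Filter.inter_mem hV (hK.filter_mono nhdsWithin_le_nhds))
    have h2 : e '' V' ∈ 𝓝 (σ x₀) := by
      rw [← he]
      exact e.isOpenMap.image_mem_nhds hV'
    have h3 : (e '' V') ∩ {σ x₀}ᶜ ∈ 𝓝[≠] (σ x₀) := Filter.inter_mem (mem_nhdsWithin_of_mem_nhds h2) self_mem_nhdsWithin
    obtain ⟨s, ⟨⟨x, hx, rfl⟩, hs⟩, hs2⟩ := (Filter.frequently_iff.1 (hfr n)) h3
    have hne : x ≠ x₀ := by
      rintro rfl
      exact hs rfl
    obtain ⟨h4, h5⟩ := hVV ⟨hx, hne⟩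
    refine ⟨x, h4, ?_⟩
    rw [hg]
    rw [he] at hs2
    refine hs2.trans ?_
    rw [← mul_pow]
    exact pow_le_pow_left₀ (abs_nonneg _) h5 n
  have := zero_of_freq hgan key y
  rw [hg] at this
  exact this

end Pool.Agent.MP_ae5b4e_an_RG
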